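import Pool.Agent.LibSP38.WirtS

open Matrix Complex
open scoped ContDiff

namespace SP38

variable {m : ℕ}

theorem WirtM_dz_sub {f g : ℂ → ℂ} {z : ℂ} (hf : DifferentiableAt ℝ f z)
    (hg : DifferentiableAt ℝ g z) : dz (fun z => f z - g z) z = dz f z - dz g z := by
  simp only [dz]
  rw [fderiv_fun_sub hf hg]
  simp only [ContinuousLinearMap.sub_apply]
  ring

theorem WirtM_dzb_sub {f g : ℂ → ℂ} {z : ℂ} (hf : DifferentiableAt ℝ f z)
    (hg : DifferentiableAt ℝ g z) : dzb (fun z => f z - g z) z = dzb f z - dzb g z := by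
  simp only [dzb]
  rw [fderiv_fun_sub hf hg]
  simp only [ContinuousLinearMap.sub_apply]
  ring

theorem WirtM_dz_smul {f : ℂ → ℂ} {z : ℂ} (c : ℂ) (hf : DifferentiableAt ℝ f z) :
    dz (fun z => c * f z) z = c * dz f z := by
  rw [dz_mul (differentiableAt_const c) hf, dz_const]
  ring

theorem WirtM_dzb_smul {f : ℂ → ℂ} {z : ℂ} (c : ℂ) (hf : DifferentiableAt ℝ f z) :
    dzb (fun z => c * f z) z = c * dzb f z := by
  rw [dzb_mul (differentiableAt_const c) hf, dzb_const]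
  ring

theorem WirtM_dz_sum {ι : Type*} (s : Finset ι) {f : ι → ℂ → ℂ} {z : ℂ}
    (h : ∀ i ∈ s, DifferentiableAt ℝ (f i) z) :
    dz (fun z => ∑ i ∈ s, f i z) z = ∑ i ∈ s, dz (f i) z := by
  classical
  induction s using Finset.induction_on with
  | empty => simp only [Finset.sum_empty]; exact dz_const 0
  | insert a s ha ih =>
    simp only [Finset.sum_insert ha]
    rw [dz_add (h a (Finset.mem_insert_self a s))
      (DifferentiableAt.fun_sum fun i hi => h i (Finset.mem_insert_of_mem hi)),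
      ih fun i hi => h i (Finset.mem_insert_of_mem hi)]

theorem WirtM_dzb_sum {ι : Type*} (s : Finset ι) {f : ι → ℂ → ℂ} {z : ℂ}
    (h : ∀ i ∈ s, DifferentiableAt ℝ (f i) z) :
    dzb (fun z => ∑ i ∈ s, f i z) z = ∑ i ∈ s, dzb (f i) z := by
  classical
  induction s using Finset.induction_on with
  | empty => simp only [Finset.sum_empty]; exact dzb_const 0
  | insert a s ha ih =>
    simp only [Finset.sum_insert ha]
    rw [dzb_add (h a (Finset.mem_insert_self a s))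
      (DifferentiableAt.fun_sum fun i hi => h i (Finset.mem_insert_of_mem hi)),
      ih fun i hi => h i (Finset.mem_insert_of_mem hi)]

theorem WirtM_det {Ω : Set ℂ} {G : ℂ → Matrix (Fin m) (Fin m) ℂ} (h : Sm Ω G) :
    SmS Ω (fun z => (G z).det) := by
  unfold SmS
  simp only [Matrix.det_apply']
  refine ContDiffOn.sum fun σ _ => ContDiffOn.mul contDiffOn_const ?_
  exact contDiffOn_prod fun i _ => h (σ i) i

variable {α β γ : Type*} [Fintype β] {z : ℂ} {Ω : Set ℂ}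
variable {F : ℂ → Matrix α β ℂ} {H : ℂ → Matrix β γ ℂ}

theorem Sm.const (A : Matrix α β ℂ) : Sm Ω (fun _ => A) := fun _ _ => contDiffOn_const
theorem Sm.add {F' : ℂ → Matrix α β ℂ} (h : Sm Ω F) (h' : Sm Ω F') :
    Sm Ω (fun z => F z + F' z) := fun i j => ContDiffOn.add (h i j) (h' i j)
theorem Sm.sub {F' : ℂ → Matrix α β ℂ} (h : Sm Ω F) (h' : Sm Ω F') :
    Sm Ω (fun z => F z - F' z) := fun i j => ContDiffOn.sub (h i j) (h' i j)
theorem Sm.smul (c : ℂ) (h : Sm Ω F) : Sm Ω (fun z => c • F z) :=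
  fun i j => ContDiffOn.mul contDiffOn_const (h i j)
theorem Sm.sum {ι : Type*} (s : Finset ι) {F : ι → ℂ → Matrix α β ℂ} (h : ∀ i ∈ s, Sm Ω (F i)) :
    Sm Ω (fun z => ∑ i ∈ s, F i z) := by
  intro i j
  unfold SmS
  simp only [Matrix.sum_apply]
  exact ContDiffOn.sum fun k hk => h k hk i j
theorem Sm.mul (h : Sm Ω F) (h' : Sm Ω H) : Sm Ω (fun z => F z * H z) := by
  intro i j
  unfold SmS
  simp only [Matrix.mul_apply]
  exact ContDiffOn.sum fun k _ => ContDiffOn.mul (h i k) (h' k j)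
theorem Sm.conj (h : Sm Ω F) : Sm Ω (fun z => (F z).map (starRingEnd ℂ)) := by
  intro i j
  exact Complex.conjCLE.contDiff.comp_contDiffOn (h i j)
theorem Sm.transpose (h : Sm Ω F) : Sm Ω (fun z => (F z)ᵀ) := fun i j => h j i
theorem Sm.inv {G : ℂ → Matrix (Fin m) (Fin m) ℂ} (h : Sm Ω G) (hu : ∀ z ∈ Ω, IsUnit (G z)) :
    Sm Ω (fun z => (G z)⁻¹) := by
  intro i j
  have e : (fun z => (G z)⁻¹ i j) = fun z => ((G z).det)⁻¹ * (G z).adjugate i j := by
    funext z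
    rw [Matrix.inv_def, Matrix.smul_apply, Ring.inverse_eq_inv', smul_eq_mul]
  unfold SmS
  rw [e]
  refine ContDiffOn.mul (ContDiffOn.inv (WirtM_det h) fun z hz => ?_) ?_
  · exact ((Matrix.isUnit_iff_isUnit_det _).1 (hu z hz)).ne_zero
  · simp only [Matrix.adjugate_apply]
    refine WirtM_det (G := fun z => (G z).updateRow j (Pi.single i 1)) fun k l => ?_
    by_cases hk : k = j
    · subst hk
      simp only [Matrix.updateRow_self]
      exact contDiffOn_const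
    · simp only [Matrix.updateRow_ne hk]
      exact h k l
theorem Sm.DZ (hΩ : IsOpen Ω) (h : Sm Ω F) : Sm Ω (SP38.DZ F) := fun i j => SmS.dz hΩ (h i j)
theorem Sm.DB (hΩ : IsOpen Ω) (h : Sm Ω F) : Sm Ω (SP38.DB F) := fun i j => SmS.dzb hΩ (h i j)

theorem DZ_const (A : Matrix α β ℂ) : DZ (fun _ => A) z = 0 := by
  ext i j; exact dz_const _
theorem DB_const (A : Matrix α β ℂ) : DB (fun _ => A) z = 0 := by
  ext i j; exact dzb_const _
theorem DZ_add (hΩ : IsOpen Ω) (hz : z ∈ Ω) {F' : ℂ → Matrix α β ℂ} (h : Sm Ω F) (h' : Sm Ω F') :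
    DZ (fun z => F z + F' z) z = DZ F z + DZ F' z := by
  ext i j
  exact dz_add ((h i j).differentiableAt hΩ hz) ((h' i j).differentiableAt hΩ hz)
theorem DB_add (hΩ : IsOpen Ω) (hz : z ∈ Ω) {F' : ℂ → Matrix α β ℂ} (h : Sm Ω F) (h' : Sm Ω F') :
    DB (fun z => F z + F' z) z = DB F z + DB F' z := by
  ext i j
  exact dzb_add ((h i j).differentiableAt hΩ hz) ((h' i j).differentiableAt hΩ hz)
theorem DZ_sub (hΩ : IsOpen Ω) (hz : z ∈ Ω) {F' : ℂ → Matrix α β ℂ} (h : Sm Ω F) (h' : Sm Ω F') :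
    DZ (fun z => F z - F' z) z = DZ F z - DZ F' z := by
  ext i j
  exact WirtM_dz_sub ((h i j).differentiableAt hΩ hz) ((h' i j).differentiableAt hΩ hz)
theorem DB_sub (hΩ : IsOpen Ω) (hz : z ∈ Ω) {F' : ℂ → Matrix α β ℂ} (h : Sm Ω F) (h' : Sm Ω F') :
    DB (fun z => F z - F' z) z = DB F z - DB F' z := by
  ext i j
  exact WirtM_dzb_sub ((h i j).differentiableAt hΩ hz) ((h' i j).differentiableAt hΩ hz)
theorem DZ_smul (hΩ : IsOpen Ω) (hz : z ∈ Ω) (c : ℂ) (h : Sm Ω F) :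
    DZ (fun z => c • F z) z = c • DZ F z := by
  ext i j
  exact WirtM_dz_smul c ((h i j).differentiableAt hΩ hz)
theorem DB_smul (hΩ : IsOpen Ω) (hz : z ∈ Ω) (c : ℂ) (h : Sm Ω F) :
    DB (fun z => c • F z) z = c • DB F z := by
  ext i j
  exact WirtM_dzb_smul c ((h i j).differentiableAt hΩ hz)
theorem DZ_sum (hΩ : IsOpen Ω) (hz : z ∈ Ω) {ι : Type*} (s : Finset ι)
    {F : ι → ℂ → Matrix α β ℂ} (h : ∀ i ∈ s, Sm Ω (F i)) :
    DZ (fun z => ∑ i ∈ s, F i z) z = ∑ i ∈ s, DZ (F i) z := by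
  ext i j
  rw [Matrix.sum_apply]
  simp only [DZ, Matrix.of_apply, Matrix.sum_apply]
  exact WirtM_dz_sum s fun k hk => (h k hk i j).differentiableAt hΩ hz
theorem DB_sum (hΩ : IsOpen Ω) (hz : z ∈ Ω) {ι : Type*} (s : Finset ι)
    {F : ι → ℂ → Matrix α β ℂ} (h : ∀ i ∈ s, Sm Ω (F i)) :
    DB (fun z => ∑ i ∈ s, F i z) z = ∑ i ∈ s, DB (F i) z := by
  ext i j
  rw [Matrix.sum_apply]
  simp only [DB, Matrix.of_apply, Matrix.sum_apply]
  exact WirtM_dzb_sum s fun k hk => (h k hk i j).differentiableAt hΩ hz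
theorem DZ_mul (hΩ : IsOpen Ω) (hz : z ∈ Ω) (h : Sm Ω F) (h' : Sm Ω H) :
    DZ (fun z => F z * H z) z = DZ F z * H z + F z * DZ H z := by
  ext i j
  rw [Matrix.add_apply, Matrix.mul_apply, Matrix.mul_apply, ← Finset.sum_add_distrib]
  simp only [DZ, Matrix.of_apply, Matrix.mul_apply]
  have e := WirtM_dz_sum (Finset.univ : Finset β) (f := fun k z => F z i k * H z k j) (z := z)
    fun k _ => ((h i k).differentiableAt hΩ hz).mul ((h' k j).differentiableAt hΩ hz)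
  exact e.trans (Finset.sum_congr rfl fun k _ =>
    dz_mul ((h i k).differentiableAt hΩ hz) ((h' k j).differentiableAt hΩ hz))
theorem DB_mul (hΩ : IsOpen Ω) (hz : z ∈ Ω) (h : Sm Ω F) (h' : Sm Ω H) :
    DB (fun z => F z * H z) z = DB F z * H z + F z * DB H z := by
  ext i j
  rw [Matrix.add_apply, Matrix.mul_apply, Matrix.mul_apply, ← Finset.sum_add_distrib]
  simp only [DB, Matrix.of_apply, Matrix.mul_apply]
  have e := WirtM_dzb_sum (Finset.univ : Finset β) (f := fun k z => F z i k * H z k j) (z := z)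
    fun k _ => ((h i k).differentiableAt hΩ hz).mul ((h' k j).differentiableAt hΩ hz)
  exact e.trans (Finset.sum_congr rfl fun k _ =>
    dzb_mul ((h i k).differentiableAt hΩ hz) ((h' k j).differentiableAt hΩ hz))
theorem DZ_conj (hΩ : IsOpen Ω) (hz : z ∈ Ω) (h : Sm Ω F) :
    DZ (fun z => (F z).map (starRingEnd ℂ)) z = (DB F z).map (starRingEnd ℂ) := by
  ext i j
  exact dz_conj ((h i j).differentiableAt hΩ hz)
theorem DB_conj (hΩ : IsOpen Ω) (hz : z ∈ Ω) (h : Sm Ω F) :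
    DB (fun z => (F z).map (starRingEnd ℂ)) z = (DZ F z).map (starRingEnd ℂ) := by
  ext i j
  exact dzb_conj ((h i j).differentiableAt hΩ hz)
theorem DZ_transpose : DZ (fun z => (F z)ᵀ) z = (DZ F z)ᵀ := by
  ext i j; rfl
theorem DB_transpose : DB (fun z => (F z)ᵀ) z = (DB F z)ᵀ := by
  ext i j; rfl
theorem DZ_congr {F' : ℂ → Matrix α β ℂ} (h : ∀ᶠ x in nhds z, F x = F' x) :
    DZ F z = DZ F' z := by
  ext i j
  refine dz_congr ?_
  filter_upwards [h] with x hx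
  rw [hx]
theorem DB_congr {F' : ℂ → Matrix α β ℂ} (h : ∀ᶠ x in nhds z, F x = F' x) :
    DB F z = DB F' z := by
  ext i j
  refine dzb_congr ?_
  filter_upwards [h] with x hx
  rw [hx]
theorem DZ_DB (hΩ : IsOpen Ω) (hz : z ∈ Ω) (h : Sm Ω F) : DZ (DB F) z = DB (DZ F) z := by
  ext i j
  exact (h i j).dz_dzb hΩ hz

theorem DZ_inv {G : ℂ → Matrix (Fin m) (Fin m) ℂ} (hΩ : IsOpen Ω) (hz : z ∈ Ω) (h : Sm Ω G)
    (hu : ∀ z ∈ Ω, IsUnit (G z)) :
    DZ (fun z => (G z)⁻¹) z = -((G z)⁻¹ * DZ G z * (G z)⁻¹) := by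
  have hd : IsUnit (G z).det := (Matrix.isUnit_iff_isUnit_det _).1 (hu z hz)
  have e : DZ (fun z => G z * (G z)⁻¹) z = 0 := by
    rw [← DZ_const (z := z) (1 : Matrix (Fin m) (Fin m) ℂ)]
    refine DZ_congr ?_
    filter_upwards [hΩ.mem_nhds hz] with x hx
    exact Matrix.mul_nonsing_inv _ ((Matrix.isUnit_iff_isUnit_det _).1 (hu x hx))
  rw [DZ_mul hΩ hz h (h.inv hu)] at e
  have e2 : G z * DZ (fun z => (G z)⁻¹) z = -(DZ G z * (G z)⁻¹) := eq_neg_of_add_eq_zero_right e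
  calc DZ (fun z => (G z)⁻¹) z = (G z)⁻¹ * (G z * DZ (fun z => (G z)⁻¹) z) := by
        rw [← Matrix.mul_assoc, Matrix.nonsing_inv_mul _ hd, Matrix.one_mul]
    _ = -((G z)⁻¹ * DZ G z * (G z)⁻¹) := by rw [e2, Matrix.mul_neg, ← Matrix.mul_assoc]
theorem DB_inv {G : ℂ → Matrix (Fin m) (Fin m) ℂ} (hΩ : IsOpen Ω) (hz : z ∈ Ω) (h : Sm Ω G)
    (hu : ∀ z ∈ Ω, IsUnit (G z)) :
    DB (fun z => (G z)⁻¹) z = -((G z)⁻¹ * DB G z * (G z)⁻¹) := by
  have hd : IsUnit (G z).det := (Matrix.isUnit_iff_isUnit_det _).1 (hu z hz)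
  have e : DB (fun z => G z * (G z)⁻¹) z = 0 := by
    rw [← DB_const (z := z) (1 : Matrix (Fin m) (Fin m) ℂ)]
    refine DB_congr ?_
    filter_upwards [hΩ.mem_nhds hz] with x hx
    exact Matrix.mul_nonsing_inv _ ((Matrix.isUnit_iff_isUnit_det _).1 (hu x hx))
  rw [DB_mul hΩ hz h (h.inv hu)] at e
  have e2 : G z * DB (fun z => (G z)⁻¹) z = -(DB G z * (G z)⁻¹) := eq_neg_of_add_eq_zero_right e
  calc DB (fun z => (G z)⁻¹) z = (G z)⁻¹ * (G z * DB (fun z => (G z)⁻¹) z) := by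
        rw [← Matrix.mul_assoc, Matrix.nonsing_inv_mul _ hd, Matrix.one_mul]
    _ = -((G z)⁻¹ * DB G z * (G z)⁻¹) := by rw [e2, Matrix.mul_neg, ← Matrix.mul_assoc]

/-- the trace -/
theorem dz_trace (hΩ : IsOpen Ω) (hz : z ∈ Ω) {G : ℂ → Matrix (Fin m) (Fin m) ℂ} (h : Sm Ω G) :
    dz (fun z => Matrix.trace (G z)) z = Matrix.trace (DZ G z) := by
  simp only [Matrix.trace, Matrix.diag_apply]
  exact WirtM_dz_sum _ fun k _ => (h k k).differentiableAt hΩ hz
theorem dzb_trace (hΩ : IsOpen Ω) (hz : z ∈ Ω) {G : ℂ → Matrix (Fin m) (Fin m) ℂ} (h : Sm Ω G) :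
    dzb (fun z => Matrix.trace (G z)) z = Matrix.trace (DB G z) := by
  simp only [Matrix.trace, Matrix.diag_apply]
  exact WirtM_dzb_sum _ fun k _ => (h k k).differentiableAt hΩ hz
theorem Sm.trace {G : ℂ → Matrix (Fin m) (Fin m) ℂ} (h : Sm Ω G) :
    SmS Ω (fun z => Matrix.trace (G z)) := by
  unfold SmS
  simp only [Matrix.trace, Matrix.diag_apply]
  exact ContDiffOn.sum fun k _ => h k k

/-- holomorphic matrices -/
theorem Sm.of_holo (hΩ : IsOpen Ω) (h : ∀ i j, DifferentiableOn ℂ (fun z => F z i j) Ω) :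
    Sm Ω F := fun i j => SmS.of_holo hΩ (h i j)
theorem DB_of_holo (hΩ : IsOpen Ω) (hz : z ∈ Ω)
    (h : ∀ i j, DifferentiableOn ℂ (fun z => F z i j) Ω) : DB F z = 0 := by
  ext i j
  exact dzb_of_holo ((h i j).differentiableAt (hΩ.mem_nhds hz))
theorem DZ_of_holo (hΩ : IsOpen Ω) (hz : z ∈ Ω)
    (h : ∀ i j, DifferentiableOn ℂ (fun z => F z i j) Ω) :
    DZ F z = Matrix.of fun i j => deriv (fun z => F z i j) z := by
  ext i j
  exact dz_of_holo ((h i j).differentiableAt (hΩ.mem_nhds hz))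

end SP38
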