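import Pool.Agent.LibSP38.HD1

open Matrix Complex
open scoped ComplexOrder

namespace SP38

variable {m : ℕ} {w : ℤ} {K : ℕ} {Q : Matrix (Fin m) (Fin m) ℝ} {P : ℤ → Matrix (Fin m) (Fin m) ℂ}

theorem HD.hd2_zero (h : HD w K Q P) {a : ℤ} (ha : a ∉ Finset.Icc (-(K : ℤ)) K) : P a = 0 := by
  apply h.supp
  rw [Finset.mem_Icc] at ha
  by_contra hh
  exact ha (abs_le.mp (not_lt.mp hh))

/-- reindexing of a sum over all pieces -/
theorem HD.hd2_shift (h : HD w K Q P) (f : ℤ → Matrix (Fin m) (Fin m) ℂ)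
    (hf : ∀ a, P a = 0 → f a = 0) :
    ∑ a ∈ Finset.Icc (-(K : ℤ)) K, f (a - 1) = ∑ a ∈ Finset.Icc (-(K : ℤ)) K, f a -
      f K := by
  have h1 : ∑ a ∈ Finset.Icc (-(K : ℤ)) K, f (a - 1) =
      ∑ b ∈ Finset.Icc (-(K : ℤ) - 1) (K - 1), f b := by
    refine Finset.sum_nbij' (fun a => a - 1) (fun a => a + 1) ?_ ?_ ?_ ?_ ?_
    · intro a ha; rw [Finset.mem_Icc] at ha ⊢; omega
    · intro a ha; rw [Finset.mem_Icc] at ha ⊢; omega
    · intro a _; simp
    · intro a _; simp
    · intro a _; rfl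
  rw [h1]
  have h2 : ∑ b ∈ Finset.Icc (-(K : ℤ) - 1) (K - 1), f b =
      ∑ b ∈ Finset.Icc (-(K : ℤ)) (K - 1), f b := by
    symm
    apply Finset.sum_subset
    · intro a ha; rw [Finset.mem_Icc] at ha ⊢; omega
    · intro a ha ha'
      apply hf
      apply h.hd2_zero
      rw [Finset.mem_Icc] at ha ha' ⊢
      omega
  have h3 : ∑ b ∈ Finset.Icc (-(K : ℤ)) K, f b =
      ∑ b ∈ Finset.Icc (-(K : ℤ)) (K - 1), f b + f K := by
    have : Finset.Icc (-(K : ℤ)) K = insert (K : ℤ) (Finset.Icc (-(K : ℤ)) (K - 1)) := by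
      ext a
      rw [Finset.mem_insert, Finset.mem_Icc, Finset.mem_Icc]
      omega
    rw [this, Finset.sum_insert, add_comm]
    rw [Finset.mem_Icc]
    omega
  rw [h2, h3]
  abel

/-- an operator of degree `-1` which is skew for `Q` has adjoint its complex conjugate -/
theorem HD.adj_deg (h : HD w K Q P) {X : Matrix (Fin m) (Fin m) ℂ}
    (hX : ∀ a, X * P a = P (a - 1) * X) (hQ : Xᵀ * cm Q + cm Q * X = 0) :
    adj (metr w K Q P) X = X.map (starRingEnd ℂ) := by
  apply h.hd1_adj_unique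
  intro u v
  rw [h.hd1_form, h.hd1_form]
  have hskew : ∀ a b : Fin m → ℂ, bil Q (X *ᵥ a) b = -bil Q a (X *ᵥ b) := by
    intro a b
    rw [hd1_bil_eq, hd1_bil_eq]
    have h1 : Xᵀ * cm Q = -(cm Q * X) := eq_neg_of_add_eq_zero_left hQ
    have h2 : (X *ᵥ a) ⬝ᵥ (cm Q *ᵥ b) = a ⬝ᵥ ((Xᵀ * cm Q) *ᵥ b) := by
      rw [← Matrix.mulVec_mulVec, Matrix.dotProduct_mulVec a, Matrix.vecMul_transpose]
    rw [h2, h1, Matrix.neg_mulVec, dotProduct_neg, ← Matrix.mulVec_mulVec]
  -- left side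
  have hL : ∀ a, I ^ (2 * a - w) * bil Q (P a *ᵥ (X *ᵥ v)) (cj (P a *ᵥ u)) =
      I ^ (2 * (a + 1) - w) * bil Q (P (a + 1) *ᵥ v) (cj (P (a + 1) *ᵥ (X.map (starRingEnd ℂ) *ᵥ u))) := by
    intro a
    have e1 : P a *ᵥ (X *ᵥ v) = X *ᵥ (P (a + 1) *ᵥ v) := by
      rw [Matrix.mulVec_mulVec, Matrix.mulVec_mulVec, hX, add_sub_cancel_right]
    have e2 : bil Q (P a *ᵥ (X *ᵥ v)) (cj (P a *ᵥ u)) =
        -bil Q (P (a + 1) *ᵥ v) (X *ᵥ cj (P a *ᵥ u)) := by
      rw [e1, hskew]
    have e3 : X *ᵥ cj (P a *ᵥ u) = cj (P (a + 1) *ᵥ (X.map (starRingEnd ℂ) *ᵥ u)) := by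
      rw [h.hd1_cj, h.hd1_cj, Matrix.mulVec_mulVec, hX]
      have e4 : cj (X.map (starRingEnd ℂ) *ᵥ u) = X *ᵥ cj u := by
        rw [hd1_cj_mulVec]
        congr 1
        ext i j
        simp
      rw [e4, Matrix.mulVec_mulVec]
      congr 3
      ring
    have e5 : I ^ (2 * (a + 1) - w) = -I ^ (2 * a - w) := by
      have : (2 * (a + 1) - w : ℤ) = (2 * a - w) + 2 := by ring
      rw [this, zpow_add₀ Complex.I_ne_zero]
      have : (I : ℂ) ^ (2 : ℤ) = -1 := by
        have := Complex.I_sq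
        exact_mod_cast this
      rw [this]
      ring
    rw [e2, e3, e5]
    ring
  rw [Finset.sum_congr rfl fun a _ => hL a]
  -- reindex
  have hz : ∀ a : ℤ, P a = 0 → I ^ (2 * a - w) * bil Q (P a *ᵥ v)
      (cj (P a *ᵥ (X.map (starRingEnd ℂ) *ᵥ u))) = 0 := by
    intro a ha
    rw [ha]
    simp [hd1_bil_eq]
  have h1 : ∑ a ∈ Finset.Icc (-(K : ℤ)) K, I ^ (2 * (a + 1) - w) *
      bil Q (P (a + 1) *ᵥ v) (cj (P (a + 1) *ᵥ (X.map (starRingEnd ℂ) *ᵥ u))) =
      ∑ b ∈ Finset.Icc (-(K : ℤ) + 1) (K + 1), I ^ (2 * b - w) *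
      bil Q (P b *ᵥ v) (cj (P b *ᵥ (X.map (starRingEnd ℂ) *ᵥ u))) := by
    refine Finset.sum_nbij' (fun a => a + 1) (fun a => a - 1) ?_ ?_ ?_ ?_ ?_
    · intro a ha; rw [Finset.mem_Icc] at ha ⊢; omega
    · intro a ha; rw [Finset.mem_Icc] at ha ⊢; omega
    · intro a _; simp
    · intro a _; simp
    · intro a _; rfl
  rw [h1]
  have h2 : ∑ b ∈ Finset.Icc (-(K : ℤ) + 1) (K + 1), I ^ (2 * b - w) *
      bil Q (P b *ᵥ v) (cj (P b *ᵥ (X.map (starRingEnd ℂ) *ᵥ u))) =
      ∑ b ∈ Finset.Icc (-(K : ℤ)) (K + 1), I ^ (2 * b - w) *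
      bil Q (P b *ᵥ v) (cj (P b *ᵥ (X.map (starRingEnd ℂ) *ᵥ u))) := by
    apply Finset.sum_subset
    · intro a ha; rw [Finset.mem_Icc] at ha ⊢; omega
    · intro a ha ha'
      rw [Finset.mem_Icc] at ha ha'
      have haK : a = -(K : ℤ) := by omega
      -- the lowest piece: `X P_{-K} = P_{-K-1} X = 0`
      have e1 : P a *ᵥ (X.map (starRingEnd ℂ) *ᵥ u) = 0 := by
        have e2 : (P a * X.map (starRingEnd ℂ)).map (starRingEnd ℂ) = 0 := by
          rw [Matrix.map_mul, h.conj]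
          have e3 : (X.map (starRingEnd ℂ)).map (starRingEnd ℂ) = X := by
            ext i j; simp
          rw [e3]
          have e4 := hX (w - a + 1)
          rw [add_sub_cancel_right] at e4
          rw [← e4]
          -- P (w - a + 1) = conj (P (a - 1)) = 0
          have e5 : P (w - a + 1) = 0 := by
            have e6 := h.conj (a - 1)
            rw [h.hd2_zero (a := a - 1) (by rw [Finset.mem_Icc]; omega)] at e6
            have : w - (a - 1) = w - a + 1 := by ring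
            rw [this] at e6
            rw [← e6]
            ext i j; simp
          rw [e5, Matrix.mul_zero]
        have e7 : P a * X.map (starRingEnd ℂ) = 0 := by
          ext i j
          have := congrFun (congrFun e2 i) j
          simpa using this
        rw [Matrix.mulVec_mulVec, e7, Matrix.zero_mulVec]
      rw [e1]
      have : cj (0 : Fin m → ℂ) = 0 := by funext i; simp [cj]
      rw [this]
      simp [hd1_bil_eq]
  rw [h2]
  symm
  apply Finset.sum_subset
  · intro a ha; rw [Finset.mem_Icc] at ha ⊢; omega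
  · intro a ha ha'
    apply hz
    exact h.hd2_zero ha'

theorem HD.hd2_comm (h : HD w K Q P) {X : Matrix (Fin m) (Fin m) ℂ}
    (hX : ∀ a, X * P a = P (a - 1) * X) : YY K P * X - X * YY K P = -X := by
  have h1 : X * YY K P = ∑ a ∈ Finset.Icc (-(K : ℤ)) K,
      (fun b : ℤ => ((b : ℂ) + 1) • (P b * X)) (a - 1) := by
    rw [YY, Finset.mul_sum]
    refine Finset.sum_congr rfl fun a _ => ?_
    simp only [Matrix.mul_smul, hX]
    congr 1
    push_cast
    ring
  rw [h.hd2_shift (fun b : ℤ => ((b : ℂ) + 1) • (P b * X))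
    (fun a ha => by simp only [ha, Matrix.zero_mul, smul_zero])] at h1
  have h2 : P K * X = 0 := by
    have := hX (K + 1)
    rw [add_sub_cancel_right] at this
    rw [← this, h.hd2_zero (a := K + 1) (by rw [Finset.mem_Icc]; omega), Matrix.mul_zero]
  have h3 : ∑ a ∈ Finset.Icc (-(K : ℤ)) K, ((a : ℂ) + 1) • (P a * X) = YY K P * X + X := by
    simp only [add_smul, one_smul, Finset.sum_add_distrib]
    rw [← Finset.sum_mul, h.sum, Matrix.one_mul, YY, Finset.sum_mul]
    simp only [Matrix.smul_mul]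
  rw [h1, h3]
  simp only [Int.cast_natCast, h2, smul_zero]
  abel

theorem HD.trace_comm_YY (h : HD w K Q P) {X : Matrix (Fin m) (Fin m) ℂ}
    (hX : ∀ a, X * P a = P (a - 1) * X) (Z : Matrix (Fin m) (Fin m) ℂ) :
    Matrix.trace ((X * Z - Z * X) * YY K P) = -Matrix.trace (X * Z) := by
  have h1 := h.hd2_comm hX
  have h2 : Matrix.trace ((X * Z - Z * X) * YY K P) =
      Matrix.trace (Z * (YY K P * X - X * YY K P)) := by
    rw [Matrix.sub_mul, Matrix.mul_sub, Matrix.trace_sub, Matrix.trace_sub]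
    congr 1
    · rw [Matrix.mul_assoc, Matrix.trace_mul_comm, Matrix.mul_assoc]
    · rw [Matrix.mul_assoc]
  rw [h2, h1, Matrix.mul_neg, Matrix.trace_neg, Matrix.trace_mul_comm]

theorem HD.adj_YY (h : HD w K Q P) : adj (metr w K Q P) (YY K P) = YY K P := by
  have hadd : ∀ s : Finset ℤ, adj (metr w K Q P) (∑ a ∈ s, (a : ℂ) • P a) =
      ∑ a ∈ s, (a : ℂ) • P a := by
    intro s
    induction s using Finset.induction_on with
    | empty => simp [adj]
    | insert a s ha ih =>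
      rw [Finset.sum_insert ha, adj_add, ih, adj_smul, h.adj_P]
      simp
  exact hadd _

theorem HD.hd2_trace_P (h : HD w K Q P) (a : ℤ) : 0 ≤ (Matrix.trace (P a)).re := by
  have h1 := hs_nonneg h.posDef (P a)
  rw [hs, h.adj_P, h.mul, if_pos rfl] at h1
  exact h1

theorem HD.hs_YY_le (h : HD w K Q P) : hs (metr w K Q P) (YY K P) ≤ (K : ℝ) ^ 2 * m := by
  rw [hs, h.adj_YY]
  have h1 : YY K P * YY K P = ∑ a ∈ Finset.Icc (-(K : ℤ)) K, ((a : ℂ) ^ 2) • P a := by
    conv_lhs => rw [YY, Finset.sum_mul]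
    refine Finset.sum_congr rfl fun a ha => ?_
    rw [Finset.mul_sum, Finset.sum_eq_single_of_mem a ha]
    · rw [Matrix.smul_mul, Matrix.mul_smul, h.mul, if_pos rfl, smul_smul, sq]
    · intro b _ hb
      rw [Matrix.smul_mul, Matrix.mul_smul, h.mul, if_neg (fun e => hb e.symm)]
      simp
  rw [h1, Matrix.trace_sum, Complex.re_sum]
  have h2 : ∀ a ∈ Finset.Icc (-(K : ℤ)) K, (Matrix.trace (((a : ℂ) ^ 2) • P a)).re ≤
      (K : ℝ) ^ 2 * (Matrix.trace (P a)).re := by
    intro a ha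
    rw [Matrix.trace_smul, smul_eq_mul]
    have e1 : ((a : ℂ) ^ 2) = (((a : ℝ) ^ 2 : ℝ) : ℂ) := by push_cast; ring
    rw [e1, Complex.re_ofReal_mul]
    apply mul_le_mul_of_nonneg_right _ (h.hd2_trace_P a)
    rw [Finset.mem_Icc] at ha
    have : |(a : ℝ)| ≤ K := by
      rw [abs_le]
      constructor
      · exact_mod_cast ha.1
      · exact_mod_cast ha.2
    calc (a : ℝ) ^ 2 = |(a : ℝ)| ^ 2 := (sq_abs _).symm
      _ ≤ (K : ℝ) ^ 2 := pow_le_pow_left₀ (abs_nonneg _) this 2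
  refine (Finset.sum_le_sum h2).trans (le_of_eq ?_)
  rw [← Finset.mul_sum, ← Complex.re_sum, ← Matrix.trace_sum, h.sum, Matrix.trace_one]
  simp

/-- transport by a real isometry of `Q` -/
theorem HD.qf_transport {P' : ℤ → Matrix (Fin m) (Fin m) ℂ} {T : Matrix (Fin m) (Fin m) ℝ}
    (hT : Tᵀ * Q * T = Q) (hU : IsUnit T) (hP' : ∀ a, P' a * cm T = cm T * P a)
    (v : Fin m → ℂ) :
    qf (metr w K Q P') (cm T *ᵥ v) = qf (metr w K Q P) v := by
  have h1 : (cm T)ᴴ * metr w K Q P' * cm T = metr w K Q P := by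
    have e1 : (cm T)ᴴ = (cm T)ᵀ := by
      ext i j
      simp [cm]
    have e2 : (cm T)ᵀ * (cm Q)ᵀ * cm T = (cm Q)ᵀ := by
      have e3 : cm (Tᵀ * Q * T) = (cm T)ᵀ * cm Q * cm T := by
        have hmul : ∀ A B : Matrix (Fin m) (Fin m) ℝ, cm (A * B) = cm A * cm B := by
          intro A B
          ext i j
          simp [cm, Matrix.mul_apply]
        rw [hmul, hmul]
        rfl
      have e4 : (cm T)ᵀ * (cm Q)ᵀ * cm T = ((cm T)ᵀ * cm Q * cm T)ᵀ := by
        simp only [Matrix.transpose_mul, Matrix.transpose_transpose, Matrix.mul_assoc]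
      rw [e4, ← e3, hT]
    rw [metr, metr, Finset.mul_sum, Finset.sum_mul]
    refine Finset.sum_congr rfl fun a _ => ?_
    rw [Matrix.mul_smul, Matrix.smul_mul, e1]
    congr 1
    rw [Matrix.mul_assoc, Matrix.mul_assoc, hP', ← Matrix.mul_assoc, ← Matrix.mul_assoc, e2]
  rw [qf, qf, ← h1, ← Matrix.mulVec_mulVec, ← Matrix.mulVec_mulVec,
    Matrix.dotProduct_mulVec (star v), ← Matrix.star_mulVec]

/-- a real vector is controlled by its components of negative index, if no Hodge type `(a, b)`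
of `H` has `a, b ≥ c` -/
theorem HD.qf_real_le (h : HD w K Q P) (c : ℤ) (hc : ∀ a, P a ≠ 0 → a < c ∨ w - a < c)
    (r : Fin m → ℝ) :
    qf (metr w K Q P) (ofR r) ≤ 2 * qf (metr w K Q P) (Plt K P c *ᵥ ofR r) := by
  have hr : cj (ofR r) = ofR r := by
    funext i; simp [cj, ofR]
  rw [h.qf_sum, h.qf_Plt]
  set S := Finset.Icc (-(K : ℤ)) K with hS
  have h1 := Finset.sum_filter_add_sum_filter_not S (fun a => a < c)
    (fun a => qf (metr w K Q P) (P a *ᵥ ofR r))
  rw [← h1, two_mul]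
  apply add_le_add le_rfl
  -- the pieces with `a ≥ c`
  have h2 : ∑ a ∈ S.filter (fun a => ¬ a < c), qf (metr w K Q P) (P a *ᵥ ofR r) =
      ∑ a ∈ (S.filter (fun a => ¬ a < c)).filter (fun a => P a ≠ 0),
        qf (metr w K Q P) (P a *ᵥ ofR r) := by
    symm
    apply Finset.sum_filter_of_ne
    intro a _ hne h0
    apply hne
    rw [h0]
    simp [qf]
  rw [h2]
  have h3 : ∑ a ∈ (S.filter (fun a => ¬ a < c)).filter (fun a => P a ≠ 0),
        qf (metr w K Q P) (P a *ᵥ ofR r) =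
      ∑ b ∈ ((S.filter (fun a => ¬ a < c)).filter (fun a => P a ≠ 0)).image (fun a => w - a),
        qf (metr w K Q P) (P b *ᵥ ofR r) := by
    rw [Finset.sum_image]
    · refine Finset.sum_congr rfl fun a _ => ?_
      have := h.qf_cj a (ofR r)
      rw [hr] at this
      exact this
    · intro a _ b _ hab
      simp only at hab
      omega
  rw [h3]
  apply Finset.sum_le_sum_of_subset_of_nonneg
  · intro b hb
    rw [Finset.mem_image] at hb
    obtain ⟨a, ha, rfl⟩ := hb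
    rw [Finset.mem_filter, Finset.mem_filter] at ha
    obtain ⟨⟨ha1, ha2⟩, ha3⟩ := ha
    rw [Finset.mem_filter]
    constructor
    · by_contra hcon
      have h4 := h.hd2_zero hcon
      have h5 := h.conj (w - a)
      rw [h4, sub_sub_cancel] at h5
      apply ha3
      rw [← h5]
      ext i j; simp
    · rcases hc a ha3 with h6 | h6
      · exact absurd h6 ha2
      · exact h6
  · intro a _ _
    exact qf_nonneg h.posDef _

/-- the key inequality at a real vector -/
theorem HD.qf_real_Plt (h : HD w K Q P) (hc : P (-1) ≠ 0 → w + 1 < -1) (r : Fin m → ℝ) :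
    qf (metr w K Q P) (Plt K P 0 *ᵥ ofR r) ≤ 2 * qf (metr w K Q P) (Plt K P (-1) *ᵥ ofR r) := by
  have hr : cj (ofR r) = ofR r := by
    funext i; simp [cj, ofR]
  rw [h.qf_Plt, h.qf_Plt]
  set S := Finset.Icc (-(K : ℤ)) K with hS
  have hsplit : S.filter (fun a => a < 0) ⊆ (S.filter (fun a => a < -1)) ∪ {-1} := by
    intro a ha
    rw [Finset.mem_filter] at ha
    rw [Finset.mem_union, Finset.mem_filter, Finset.mem_singleton]
    by_cases h1 : a < -1
    · left; exact ⟨ha.1, h1⟩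
    · right; omega
  have hnn : ∀ a, 0 ≤ qf (metr w K Q P) (P a *ᵥ ofR r) := fun a => qf_nonneg h.posDef _
  have h1 : ∑ a ∈ S.filter (fun a => a < 0), qf (metr w K Q P) (P a *ᵥ ofR r) ≤
      ∑ a ∈ S.filter (fun a => a < -1), qf (metr w K Q P) (P a *ᵥ ofR r) +
        qf (metr w K Q P) (P (-1) *ᵥ ofR r) := by
    refine (Finset.sum_le_sum_of_subset_of_nonneg hsplit (fun a _ _ => hnn a)).trans ?_
    rw [Finset.sum_union, Finset.sum_singleton]
    rw [Finset.disjoint_singleton_right, Finset.mem_filter]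
    rintro ⟨_, h2⟩
    exact lt_irrefl _ h2
  refine h1.trans ?_
  rw [two_mul]
  apply add_le_add le_rfl
  by_cases h0 : P (-1) = 0
  · rw [h0]
    have : qf (metr w K Q P) ((0 : Matrix (Fin m) (Fin m) ℂ) *ᵥ ofR r) = 0 := by simp [qf]
    rw [this]
    exact Finset.sum_nonneg fun a _ => hnn a
  · have h2 := hc h0
    have h3 := h.qf_cj (-1) (ofR r)
    rw [hr] at h3
    rw [h3]
    have h4 : w - -1 ∈ S.filter (fun a => a < -1) := by
      rw [Finset.mem_filter]
      constructor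
      · by_contra hcon
        have h4 := h.hd2_zero hcon
        have h5 := h.conj (w - -1)
        rw [h4, sub_sub_cancel] at h5
        apply h0
        rw [← h5]
        ext i j; simp
      · omega
    exact Finset.single_le_sum (f := fun a => qf (metr w K Q P) (P a *ᵥ ofR r))
      (fun a _ => hnn a) h4

end SP38
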