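import Pool.Agent.LibSP38.Gro2

open Matrix Complex
open scoped ComplexOrder ContDiff

namespace SP38

variable {m : ℕ} {w : ℤ} {K : ℕ} {Q : Matrix (Fin m) (Fin m) ℝ}
  {P : ℂ → ℤ → Matrix (Fin m) (Fin m) ℂ} {θ : ℂ → Matrix (Fin m) (Fin m) ℂ}

/-- the filter of the strip `0 ≤ Re z ≤ 1`, `Im z → ∞` -/
def strip : Filter ℂ := Filter.comap Complex.im Filter.atTop ⊓ Filter.principal {z : ℂ | 0 ≤ z.re ∧ z.re ≤ 1}

theorem Gro3_cont (M : Matrix (Fin m) (Fin m) ℂ) : Continuous (fun v => qf M v) := by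
  unfold qf
  refine Complex.continuous_re.comp ?_
  simp only [dotProduct, Matrix.mulVec, Pi.star_apply]
  fun_prop

/-- equivalence with the fixed norm -/
theorem Gro3_equiv {M : Matrix (Fin m) (Fin m) ℂ} (hM : M.PosDef) :
    ∃ D : ℝ, 0 < D ∧ ∀ v : Fin m → ℂ, qf M v ≤ D * ‖v‖ ^ 2 ∧ ‖v‖ ^ 2 ≤ D * qf M v := by
  have hcomp : IsCompact (Metric.sphere (0 : Fin m → ℂ) 1) := isCompact_sphere 0 1
  have hq0 : qf M 0 = 0 := by simp [qf]
  have hscale : ∀ v : Fin m → ℂ, v ≠ 0 →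
      (((‖v‖⁻¹ : ℝ) : ℂ) • v) ∈ Metric.sphere (0 : Fin m → ℂ) 1 ∧
      qf M (((‖v‖⁻¹ : ℝ) : ℂ) • v) * ‖v‖ ^ 2 = qf M v := by
    intro v hv
    have hv' : ‖v‖ ≠ 0 := norm_ne_zero_iff.mpr hv
    have e1 : ‖((‖v‖⁻¹ : ℝ) : ℂ)‖ = ‖v‖⁻¹ := by
      rw [Complex.norm_real, norm_inv, norm_norm]
    constructor
    · rw [mem_sphere_zero_iff_norm, norm_smul, e1, inv_mul_cancel₀ hv']
    · rw [qf_smul, e1]
      field_simp
  rcases (Metric.sphere (0 : Fin m → ℂ) 1).eq_empty_or_nonempty with hS | hS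
  · refine ⟨1, one_pos, fun v => ?_⟩
    have hv : v = 0 := by
      by_contra hv
      have := (hscale v hv).1
      rw [hS] at this
      exact this
    rw [hv, hq0]
    simp
  · obtain ⟨a, ha, hamax⟩ := hcomp.exists_isMaxOn hS (Gro3_cont M).continuousOn
    obtain ⟨b, hb, hbmin⟩ := hcomp.exists_isMinOn hS (Gro3_cont M).continuousOn
    have hb0 : b ≠ 0 := by
      rintro rfl
      simp at hb
    have hqb : 0 < qf M b := qf_pos hM hb0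
    have hqa : 0 ≤ qf M a := qf_nonneg hM a
    refine ⟨qf M a + (qf M b)⁻¹, by positivity, fun v => ?_⟩
    by_cases hv : v = 0
    · rw [hv, hq0]; simp
    obtain ⟨h1, h2⟩ := hscale v hv
    have h3 : qf M (((‖v‖⁻¹ : ℝ) : ℂ) • v) ≤ qf M a := hamax h1
    have h4 : qf M b ≤ qf M (((‖v‖⁻¹ : ℝ) : ℂ) • v) := hbmin h1
    have hn : 0 ≤ ‖v‖ ^ 2 := by positivity
    have hqv : 0 ≤ qf M v := qf_nonneg hM v
    constructor
    · rw [← h2]
      refine mul_le_mul_of_nonneg_right (h3.trans ?_) hn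
      have : 0 < (qf M b)⁻¹ := inv_pos.mpr hqb
      linarith
    · have h5 : qf M b * ‖v‖ ^ 2 ≤ qf M v := by
        rw [← h2]
        exact mul_le_mul_of_nonneg_right h4 hn
      have h6 : ‖v‖ ^ 2 ≤ (qf M b)⁻¹ * qf M v := by
        rw [inv_mul_eq_div, le_div_iff₀ hqb]
        linarith
      have h7 : 0 ≤ qf M a * qf M v := mul_nonneg hqa hqv
      linarith [add_mul (qf M a) ((qf M b)⁻¹) (qf M v)]

/-- polynomial comparison with the fixed norm on the strip -/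
theorem PV.exists_compare {c : ℝ} (h : PV w K Q (Hc c) P θ) :
    ∃ C : ℕ, ∀ᶠ z in strip, ∀ v : Fin m → ℂ,
      qf (metr w K Q (P z)) v ≤ z.im ^ C * ‖v‖ ^ 2 ∧
      ‖v‖ ^ 2 ≤ z.im ^ C * qf (metr w K Q (P z)) v := by
  obtain ⟨B, hB, hv, hh⟩ := h.exists_growth
  have hz₀ : ((0 : ℝ) : ℂ) + ((c + 1 : ℝ) : ℂ) * I ∈ Hc c := by
    simp [Hc]
  obtain ⟨D, hD, hD'⟩ := Gro3_equiv (h.hd _ hz₀).posDef
  refine ⟨⌈B⌉₊ + 1, ?_⟩
  have h1 : ∀ᶠ z in strip, max (max (c + 1) |c|) (max 1 (D * Real.exp B * 2 ^ ⌈B⌉₊)) ≤ z.im :=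
    (Filter.tendsto_comap.mono_left inf_le_left).eventually_ge_atTop _
  have h2 : ∀ᶠ z in strip, 0 ≤ z.re ∧ z.re ≤ 1 :=
    Filter.mem_inf_of_right (Filter.mem_principal_self _)
  filter_upwards [h1, h2] with z hz1 hz2 v
  have a1 : c + 1 ≤ z.im := (le_max_left _ _).trans ((le_max_left _ _).trans hz1)
  have a2 : |c| ≤ z.im := (le_max_right _ _).trans ((le_max_left _ _).trans hz1)
  have a3 : 1 ≤ z.im := (le_max_left _ _).trans ((le_max_right _ _).trans hz1)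
  have a4 : D * Real.exp B * 2 ^ ⌈B⌉₊ ≤ z.im := (le_max_right _ _).trans ((le_max_right _ _).trans hz1)
  have b1 := hv z.re (c + 1) z.im (by linarith) a1 v
  have b2 := hh 0 (c + 1) z.re (by linarith) hz2.1 v
  have e1 : ((z.re : ℝ) : ℂ) + (z.im : ℂ) * I = z := Complex.re_add_im z
  have e2 : ((0 : ℝ) : ℂ) + (z.re : ℂ) = (z.re : ℂ) := by simp
  rw [e1] at b1
  rw [e2] at b2
  have e3 : c + 1 - c = 1 := by ring
  rw [e3, div_one] at b1 b2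
  obtain ⟨d1, d2⟩ := hD' v
  have hpow : (z.im - c) ^ B ≤ (2 * z.im) ^ ⌈B⌉₊ := by
    have f1 : z.im - c ≤ 2 * z.im := by linarith [neg_abs_le c]
    have f2 : 1 ≤ z.im - c := by linarith
    calc (z.im - c) ^ B ≤ (2 * z.im) ^ B := Real.rpow_le_rpow (by linarith) f1 hB
      _ ≤ (2 * z.im) ^ ((⌈B⌉₊ : ℕ) : ℝ) :=
        Real.rpow_le_rpow_of_exponent_le (by linarith) (Nat.le_ceil B)
      _ = (2 * z.im) ^ ⌈B⌉₊ := Real.rpow_natCast _ _
  have hexp : Real.exp (B * z.re) ≤ Real.exp B := by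
    apply Real.exp_le_exp.mpr
    nlinarith [hz2.1, hz2.2]
  have hE : (z.im - c) ^ B * (Real.exp (B * z.re) * D) ≤ z.im ^ (⌈B⌉₊ + 1) := by
    have g0 : 0 ≤ (z.im - c) ^ B := Real.rpow_nonneg (by linarith) _
    calc (z.im - c) ^ B * (Real.exp (B * z.re) * D)
        ≤ (2 * z.im) ^ ⌈B⌉₊ * (Real.exp B * D) := by gcongr
      _ = (D * Real.exp B * 2 ^ ⌈B⌉₊) * z.im ^ ⌈B⌉₊ := by rw [mul_pow]; ring
      _ ≤ z.im * z.im ^ ⌈B⌉₊ := by gcongr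
      _ = z.im ^ (⌈B⌉₊ + 1) := by ring
  have hqz : 0 ≤ qf (metr w K Q (P z)) v :=
    qf_nonneg (h.hd z (by show c < z.im; linarith)).posDef v
  have p1 : 0 ≤ (z.im - c) ^ B := Real.rpow_nonneg (by linarith) _
  have p2 : 0 ≤ Real.exp (B * z.re) := (Real.exp_pos _).le
  constructor
  · calc qf (metr w K Q (P z)) v
        ≤ (z.im - c) ^ B * qf (metr w K Q (P ((z.re : ℂ) + ((c + 1 : ℝ) : ℂ) * I))) v := b1.1
      _ ≤ (z.im - c) ^ B * (Real.exp (B * z.re) *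
          qf (metr w K Q (P (((0 : ℝ) : ℂ) + ((c + 1 : ℝ) : ℂ) * I))) v) :=
        mul_le_mul_of_nonneg_left b2.1 p1
      _ ≤ (z.im - c) ^ B * (Real.exp (B * z.re) * (D * ‖v‖ ^ 2)) := by gcongr
      _ = ((z.im - c) ^ B * (Real.exp (B * z.re) * D)) * ‖v‖ ^ 2 := by ring
      _ ≤ z.im ^ (⌈B⌉₊ + 1) * ‖v‖ ^ 2 := by gcongr
  · calc ‖v‖ ^ 2 ≤ D * qf (metr w K Q (P (((0 : ℝ) : ℂ) + ((c + 1 : ℝ) : ℂ) * I))) v := d2
      _ ≤ D * (Real.exp (B * z.re) * qf (metr w K Q (P ((z.re : ℂ) + ((c + 1 : ℝ) : ℂ) * I))) v) :=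
        mul_le_mul_of_nonneg_left b2.2 hD.le
      _ ≤ D * (Real.exp (B * z.re) * ((z.im - c) ^ B * qf (metr w K Q (P z)) v)) :=
        mul_le_mul_of_nonneg_left (mul_le_mul_of_nonneg_left b1.2 p2) hD.le
      _ = ((z.im - c) ^ B * (Real.exp (B * z.re) * D)) * qf (metr w K Q (P z)) v := by ring
      _ ≤ z.im ^ (⌈B⌉₊ + 1) * qf (metr w K Q (P z)) v := by gcongr

end SP38
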