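import Pool.Agent.LibSP38.Cus1
import Pool.Agent.LibSP38.Gro3

open Matrix Complex Filter Topology
open scoped ComplexOrder ContDiff

namespace SP38

variable {m : ℕ} {N : Matrix (Fin m ⊕ Unit) (Fin m ⊕ Unit) ℝ} {Ψ : ℂ → Matrix (Fin m) (Fin m) ℂ}
  {β : ℂ → Fin m → ℂ}

theorem cus2_norm_mulVec_le {α : Type*} [Fintype α] (A : Matrix α α ℂ) (v : α → ℂ) :
    ‖A *ᵥ v‖ ≤ (∑ i, ∑ j, ‖A i j‖) * ‖v‖ := by
  have h0 : 0 ≤ ∑ i, ∑ j, ‖A i j‖ :=
    Finset.sum_nonneg fun i _ => Finset.sum_nonneg fun j _ => norm_nonneg _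
  rw [pi_norm_le_iff_of_nonneg (mul_nonneg h0 (norm_nonneg v))]
  intro i
  have h1 : ‖(A *ᵥ v) i‖ ≤ ∑ j, ‖A i j‖ * ‖v‖ := by
    show ‖∑ j, A i j * v j‖ ≤ _
    refine (norm_sum_le _ _).trans (Finset.sum_le_sum fun j _ => ?_)
    rw [norm_mul]
    exact mul_le_mul_of_nonneg_left (norm_le_pi_norm v j) (norm_nonneg _)
  refine h1.trans ?_
  rw [← Finset.sum_mul]
  apply mul_le_mul_of_nonneg_right _ (norm_nonneg v)
  exact Finset.single_le_sum (f := fun i => ∑ j, ‖A i j‖)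
    (fun i _ => Finset.sum_nonneg fun j _ => norm_nonneg _) (Finset.mem_univ i)

/-- points of the strip far up -/
theorem cus2_eventually (c : ℝ) : ∀ᶠ ζ in strip, c ≤ ζ.im ∧ ‖ζ‖ ≤ 1 + |ζ.im| := by
  unfold strip
  have h1 : ∀ᶠ ζ : ℂ in Filter.comap Complex.im Filter.atTop, c ≤ ζ.im :=
    (Filter.eventually_ge_atTop c).comap Complex.im
  have h2 : ∀ᶠ ζ : ℂ in Filter.principal {z : ℂ | 0 ≤ z.re ∧ z.re ≤ 1}, 0 ≤ ζ.re ∧ ζ.re ≤ 1 :=
    Filter.eventually_principal.2 fun _ h => h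
  filter_upwards [h1.filter_mono inf_le_left, h2.filter_mono inf_le_right] with ζ h3 h4
  refine ⟨h3, (Complex.norm_le_abs_re_add_abs_im ζ).trans ?_⟩
  rw [abs_of_nonneg h4.1]
  linarith [h4.2]

theorem cus2_exp_bound {α : Type*} [Fintype α] [DecidableEq α] {A : Matrix α α ℂ}
    (h : IsNilpotent A) : ∃ (k : ℕ) (D : ℝ), 0 ≤ D ∧ ∀ ζ : ℂ, ∀ v : α → ℂ,
      ‖IsNilpotent.exp (ζ • A) *ᵥ v‖ ≤ D * (1 + ‖ζ‖) ^ k * ‖v‖ := by
  obtain ⟨k, hk⟩ := h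
  refine ⟨k, ∑ l ∈ Finset.range k, ∑ i, ∑ j, ‖(A ^ l) i j‖,
    Finset.sum_nonneg fun l _ => Finset.sum_nonneg fun i _ => Finset.sum_nonneg fun j _ =>
      norm_nonneg _, fun ζ v => ?_⟩
  rw [cus1_exp_eq _ hk, Matrix.sum_mulVec]
  refine (norm_sum_le _ _).trans ?_
  rw [Finset.sum_mul, Finset.sum_mul]
  apply Finset.sum_le_sum
  intro l hl
  rw [Matrix.smul_mulVec, norm_smul]
  have h1 := cus2_norm_mulVec_le (A ^ l) v
  have h2 : ‖ζ ^ l / (l.factorial : ℂ)‖ ≤ (1 + ‖ζ‖) ^ k := by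
    rw [norm_div, norm_pow, Complex.norm_natCast]
    have h3 : (1 : ℝ) ≤ l.factorial := by exact_mod_cast Nat.factorial_pos l
    calc ‖ζ‖ ^ l / (l.factorial : ℝ) ≤ ‖ζ‖ ^ l / 1 :=
          div_le_div_of_nonneg_left (by positivity) one_pos h3
      _ = ‖ζ‖ ^ l := div_one _
      _ ≤ (1 + ‖ζ‖) ^ l := pow_le_pow_left₀ (norm_nonneg _) (by linarith) _
      _ ≤ (1 + ‖ζ‖) ^ k := pow_le_pow_right₀ (by linarith [norm_nonneg ζ])
          (Finset.mem_range.1 hl).le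
  calc ‖ζ ^ l / (l.factorial : ℂ)‖ * ‖(A ^ l) *ᵥ v‖
      ≤ (1 + ‖ζ‖) ^ k * ((∑ i, ∑ j, ‖(A ^ l) i j‖) * ‖v‖) :=
        mul_le_mul h2 h1 (norm_nonneg _) (by positivity)
    _ = (∑ i, ∑ j, ‖(A ^ l) i j‖) * (1 + ‖ζ‖) ^ k * ‖v‖ := by ring

theorem cus2_exp_le {α : Type*} [Fintype α] [DecidableEq α] {A : Matrix α α ℂ}
    (h : IsNilpotent A) : ∃ C : ℕ, ∀ᶠ ζ in strip, ∀ v : α → ℂ,
      ‖IsNilpotent.exp (ζ • A) *ᵥ v‖ ≤ ζ.im ^ C * ‖v‖ ∧
      ‖IsNilpotent.exp ((-ζ) • A) *ᵥ v‖ ≤ ζ.im ^ C * ‖v‖ := by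
  obtain ⟨k, D, hD, hb⟩ := cus2_exp_bound h
  refine ⟨k + 1, ?_⟩
  filter_upwards [cus2_eventually (max 1 (D * 3 ^ k))] with ζ hζ
  obtain ⟨h1, h2⟩ := hζ
  have h3 : 1 ≤ ζ.im := (le_max_left _ _).trans h1
  have h4 : D * 3 ^ k ≤ ζ.im := (le_max_right _ _).trans h1
  have h5 : 1 + ‖ζ‖ ≤ 3 * ζ.im := by
    rw [abs_of_nonneg (by linarith)] at h2
    linarith
  have key : D * (1 + ‖ζ‖) ^ k ≤ ζ.im ^ (k + 1) := by
    calc D * (1 + ‖ζ‖) ^ k ≤ D * (3 * ζ.im) ^ k :=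
          mul_le_mul_of_nonneg_left (pow_le_pow_left₀ (by positivity) h5 _) hD
      _ = (D * 3 ^ k) * ζ.im ^ k := by rw [mul_pow]; ring
      _ ≤ ζ.im * ζ.im ^ k := mul_le_mul_of_nonneg_right h4 (by positivity)
      _ = ζ.im ^ (k + 1) := by rw [pow_succ]; ring
  intro v
  refine ⟨(hb ζ v).trans (mul_le_mul_of_nonneg_right key (norm_nonneg _)), ?_⟩
  have h6 := hb (-ζ) v
  rw [norm_neg] at h6
  exact h6.trans (mul_le_mul_of_nonneg_right key (norm_nonneg _))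

/-- polynomial bounds on the strip -/
theorem exists_eH_le (hN : IsNilpotent N) (hr : ∀ j, N (Sum.inr ()) j = 0) :
    ∃ C : ℕ, ∀ᶠ ζ in strip, ∀ v : Fin m → ℂ,
      ‖eH N ζ *ᵥ v‖ ≤ ζ.im ^ C * ‖v‖ ∧ ‖eH N (-ζ) *ᵥ v‖ ≤ ζ.im ^ C * ‖v‖ :=
  cus2_exp_le (cus1_cm_nil (isNilpotent_hb hN hr))

theorem exists_eV_le (hN : IsNilpotent N) :
    ∃ C : ℕ, ∀ᶠ ζ in strip, ∀ v : Fin m ⊕ Unit → ℂ,
      ‖eV N ζ *ᵥ v‖ ≤ ζ.im ^ C * ‖v‖ ∧ ‖eV N (-ζ) *ᵥ v‖ ≤ ζ.im ^ C * ‖v‖ :=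
  cus2_exp_le (cus1_cm_nil hN)

/-- Lagrange interpolation of the derivative at `0` -/
theorem cus2_lagrange (m : ℕ) : ∃ c : ℕ → ℝ, ∀ k : ℕ, 1 ≤ k → k ≤ m →
    ∑ a ∈ Finset.Icc 1 m, c a * (a : ℝ) ^ k = if k = 1 then 1 else 0 := by
  refine ⟨fun a => (Lagrange.basis (Finset.range (m + 1)) (fun i : ℕ => (i : ℝ)) a).coeff 1, ?_⟩
  intro k hk1 hkm
  have hinj : Set.InjOn (fun i : ℕ => (i : ℝ)) (Finset.range (m + 1)) :=
    fun a _ b _ h => Nat.cast_injective (R := ℝ) h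
  have hdeg : (Polynomial.X ^ k : Polynomial ℝ).degree < (Finset.range (m + 1)).card := by
    rw [Polynomial.degree_X_pow, Finset.card_range]
    exact_mod_cast Nat.lt_succ_of_le hkm
  have h1 := Lagrange.eq_interpolate hinj hdeg
  rw [Lagrange.interpolate_apply] at h1
  have h2 := congrArg (fun f : Polynomial ℝ => f.coeff 1) h1
  simp only [Polynomial.coeff_X_pow, Polynomial.finsetSum_coeff, Polynomial.coeff_C_mul,
    Polynomial.eval_pow, Polynomial.eval_X] at h2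
  have h3 : Finset.range (m + 1) = insert 0 (Finset.Icc 1 m) := by
    ext a
    simp only [Finset.mem_range, Finset.mem_insert, Finset.mem_Icc]
    omega
  have h4 : (∑ x ∈ Finset.range (m + 1), ((x : ℝ)) ^ k *
      (Lagrange.basis (Finset.range (m + 1)) (fun i : ℕ => (i : ℝ)) x).coeff 1) =
      ∑ x ∈ Finset.Icc 1 m, ((x : ℝ)) ^ k *
      (Lagrange.basis (Finset.range (m + 1)) (fun i : ℕ => (i : ℝ)) x).coeff 1 := by
    conv_lhs => rw [h3]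
    rw [Finset.sum_insert (by simp)]
    rw [Nat.cast_zero, zero_pow (by omega), zero_mul, zero_add, ← h3]
  rw [h4] at h2
  calc _ = ∑ x ∈ Finset.Icc 1 m, ((x : ℝ)) ^ k *
      (Lagrange.basis (Finset.range (m + 1)) (fun i : ℕ => (i : ℝ)) x).coeff 1 :=
        Finset.sum_congr rfl fun a _ => mul_comm _ _
    _ = if 1 = k then 1 else 0 := h2.symm
    _ = _ := by simp only [eq_comm]

/-- `N` is a combination of `exp (a N) - 1`, `a = 1, …, m` -/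
theorem exists_coeff (m : ℕ) : ∃ c : ℕ → ℝ, ∀ N : Matrix (Fin m) (Fin m) ℂ, IsNilpotent N →
    N = ∑ a ∈ Finset.Icc 1 m, (c a : ℂ) • (IsNilpotent.exp ((a : ℂ) • N) - 1) := by
  obtain ⟨c, hc⟩ := cus2_lagrange m
  refine ⟨c, fun N hN => ?_⟩
  have hNm : N ^ m = 0 := by
    have h1 := Matrix.isNilpotent_charpoly_sub_pow_of_isNilpotent hN
    have h2 := h1.eq_zero
    rw [Fintype.card_fin, sub_eq_zero] at h2
    have h3 := Matrix.aeval_self_charpoly N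
    rw [h2] at h3
    simpa using h3
  rcases Nat.eq_zero_or_pos m with rfl | hm
  · ext i
    exact i.elim0
  obtain ⟨m', rfl⟩ : ∃ m', m = m' + 1 := ⟨m - 1, by omega⟩
  have h4 : ∀ a : ℕ, IsNilpotent.exp ((a : ℂ) • N) - 1 =
      ∑ k ∈ Finset.range m', ((a : ℂ) ^ (k + 1) / ((k + 1).factorial : ℂ)) • N ^ (k + 1) := by
    intro a
    rw [cus1_exp_eq _ hNm, Finset.sum_range_succ']
    simp
  simp_rw [h4, Finset.smul_sum]
  rw [Finset.sum_comm]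
  have h5 : ∀ k ∈ Finset.range m', ∑ a ∈ Finset.Icc 1 (m' + 1),
      (c a : ℂ) • (((a : ℂ) ^ (k + 1) / ((k + 1).factorial : ℂ)) • N ^ (k + 1)) =
      if k = 0 then N else 0 := by
    intro k hk
    have h6 := hc (k + 1) (by omega) (by have := Finset.mem_range.1 hk; omega)
    have h7 : (∑ a ∈ Finset.Icc 1 (m' + 1), (c a : ℂ) * (a : ℂ) ^ (k + 1)) =
        if k + 1 = 1 then 1 else 0 := by
      have := congrArg (fun x : ℝ => (x : ℂ)) h6
      push_cast at this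
      rw [this]
      by_cases hk0 : k = 0
      · simp [hk0]
      · simp [hk0]
    calc ∑ a ∈ Finset.Icc 1 (m' + 1),
        (c a : ℂ) • (((a : ℂ) ^ (k + 1) / ((k + 1).factorial : ℂ)) • N ^ (k + 1)) =
        (((∑ a ∈ Finset.Icc 1 (m' + 1), (c a : ℂ) * (a : ℂ) ^ (k + 1))) / ((k + 1).factorial : ℂ)) •
          N ^ (k + 1) := by
          rw [Finset.sum_div, Finset.sum_smul]
          apply Finset.sum_congr rfl
          intro a _
          rw [smul_smul]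
          congr 1
          ring
      _ = if k = 0 then N else 0 := by
          rw [h7]
          by_cases hk0 : k = 0
          · subst hk0
            simp
          · rw [if_neg (by omega), if_neg hk0]
            simp
  rw [Finset.sum_congr rfl h5, Finset.sum_ite_eq']
  split_ifs with h8
  · rfl
  · have h9 : m' = 0 := by
      by_contra h
      exact h8 (Finset.mem_range.2 (Nat.pos_of_ne_zero h))
    subst h9
    simpa using hNm

end SP38
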