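import Pool.Agent.LibSP38.Glo1

open Matrix Complex Filter Topology
open UpperHalfPlane hiding I
open scoped ComplexOrder ContDiff

namespace SP38

variable {m : ℕ} {w : ℤ} {p : Fin m → ℤ} {Q : Matrix (Fin m) (Fin m) ℝ}
  {G : ℂ → Matrix (Fin m) (Fin m) ℂ} {ν : ℂ → Fin m → ℂ}
  {Δ : Subgroup (Matrix.SpecialLinearGroup (Fin 2) ℝ)} {σ : Matrix.SpecialLinearGroup (Fin 2) ℝ} {s : Equiv.Perm (Fin m)}

theorem glo2_RSplit_smul (hd : Descends p Q G ν Δ) {δ : Matrix.SpecialLinearGroup (Fin 2) ℝ}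
    (hδ : δ ∈ Δ) (τ : ℍ) (h : RSplit p G ν (τ : ℂ)) : RSplit p G ν ((δ • τ : ℍ) : ℂ) := by
  obtain ⟨γ, b, _, _, hτ⟩ := hd δ hδ
  obtain ⟨h1, h2⟩ := hτ τ
  obtain ⟨e, he⟩ := h
  refine ⟨γ.map (fun x : ℤ => (x : ℝ)) *ᵥ e + fun i => (b i : ℝ), ?_⟩
  have h3 : γ.map (fun x : ℤ => (x : ℂ)) *ᵥ (ν (τ : ℂ) - ofR e) ∈
      Fil p (G ((δ • τ : ℍ) : ℂ)) 0 := by
    rw [h1 0]
    exact Submodule.mem_map_of_mem he
  have h4 := Submodule.add_mem _ h2 h3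
  have h5 : ofR (γ.map (fun x : ℤ => (x : ℝ)) *ᵥ e + fun i => (b i : ℝ)) =
      γ.map (fun x : ℤ => (x : ℂ)) *ᵥ ofR e + fun i => (b i : ℂ) := by
    funext i
    simp [ofR, Matrix.mulVec, dotProduct]
  rw [h5]
  have h6 : ν ((δ • τ : ℍ) : ℂ) - (γ.map (fun x : ℤ => (x : ℂ)) *ᵥ ofR e + fun i => (b i : ℂ)) =
      ν ((δ • τ : ℍ) : ℂ) - (γ.map (fun x : ℤ => (x : ℂ)) *ᵥ ν (τ : ℂ) + fun i => (b i : ℂ)) +
        γ.map (fun x : ℤ => (x : ℂ)) *ᵥ (ν (τ : ℂ) - ofR e) := by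
    rw [Matrix.mulVec_sub]
    abel
  rw [h6]
  exact h4

theorem RSplit_smul (hd : Descends p Q G ν Δ) {δ : Matrix.SpecialLinearGroup (Fin 2) ℝ}
    (hδ : δ ∈ Δ) (τ : ℍ) : RSplit p G ν ((δ • τ : ℍ) : ℂ) ↔ RSplit p G ν (τ : ℂ) := by
  constructor
  · intro h
    have h1 := glo2_RSplit_smul hd (Δ.inv_mem hδ) (δ • τ) h
    rwa [inv_smul_smul] at h1
  · exact glo2_RSplit_smul hd hδ τ

theorem glo2_trans_mul (a b : ℝ) : trans a * trans b = trans (a + b) := by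
  apply Subtype.ext
  rw [Matrix.SpecialLinearGroup.coe_mul]
  ext i j
  fin_cases i <;> fin_cases j <;> simp [trans, Matrix.mul_apply, Fin.sum_univ_two, add_comm]

theorem glo2_trans_zero : trans 0 = 1 := by
  ext i j
  fin_cases i <;> fin_cases j <;> simp [trans]

theorem glo2_trans_zpow (h : ℝ) (n : ℤ) : trans h ^ n = trans (n * h) := by
  induction n using Int.induction_on with
  | zero => simp [glo2_trans_zero]
  | succ n ih =>
    rw [_root_.zpow_add_one, ih, glo2_trans_mul]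
    congr 1
    push_cast
    ring
  | pred n ih =>
    have h1 : (trans h)⁻¹ = trans (-h) := by
      apply inv_eq_of_mul_eq_one_right
      rw [glo2_trans_mul, add_neg_cancel, glo2_trans_zero]
    rw [_root_.zpow_sub_one, ih, h1, glo2_trans_mul]
    congr 1
    push_cast
    ring

theorem glo2_coe_trans (a : ℝ) (τ : ℍ) : ((trans a • τ : ℍ) : ℂ) = (τ : ℂ) + a := by
  rw [coe_specialLinearGroup_apply]
  simp [trans]

theorem glo2_im_trans (a : ℝ) (τ : ℍ) : (trans a • τ : ℍ).im = τ.im := by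
  rw [← UpperHalfPlane.coe_im, glo2_coe_trans]
  simp

/-- moving a point near a cusp to the strip -/
theorem glo2_move {h : ℝ} (hh : 0 < h) (hmem : σ * trans h * σ⁻¹ ∈ Δ) (τ : ℍ) :
    ∃ (δ : Matrix.SpecialLinearGroup (Fin 2) ℝ) (τ' : ℍ), δ ∈ Δ ∧ δ • (σ • τ) = σ • τ' ∧
      τ'.im = τ.im ∧ 0 ≤ ((τ' : ℂ) / h).re ∧ ((τ' : ℂ) / h).re ≤ 1 := by
  set n : ℤ := -⌊((τ : ℂ) / h).re⌋ with hn
  refine ⟨(σ * trans h * σ⁻¹) ^ n, trans (n * h) • τ, Δ.zpow_mem hmem n, ?_, glo2_im_trans _ _,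
    ?_, ?_⟩
  · rw [conj_zpow, glo2_trans_zpow, smul_smul, smul_smul]
    congr 1
    group
  · have e1 : ((trans (n * h) • τ : ℍ) : ℂ) / h = (τ : ℂ) / h + n := by
      rw [glo2_coe_trans]
      have : (h : ℂ) ≠ 0 := by exact_mod_cast hh.ne'
      push_cast
      field_simp
    rw [e1]
    simp only [Complex.add_re, hn, Int.cast_neg, Complex.neg_re, Complex.intCast_re]
    have := Int.floor_le (((τ : ℂ) / h).re)
    linarith
  · have e1 : ((trans (n * h) • τ : ℍ) : ℂ) / h = (τ : ℂ) / h + n := by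
      rw [glo2_coe_trans]
      have : (h : ℂ) ≠ 0 := by exact_mod_cast hh.ne'
      push_cast
      field_simp
    rw [e1]
    simp only [Complex.add_re, hn, Int.cast_neg, Complex.neg_re, Complex.intCast_re]
    have := Int.lt_floor_add_one (((τ : ℂ) / h).re)
    linarith

theorem glo2_strip {P : ℂ → Prop} (hP : ∀ᶠ ζ in strip, P ζ) :
    ∃ y : ℝ, ∀ ζ : ℂ, y ≤ ζ.im → 0 ≤ ζ.re → ζ.re ≤ 1 → P ζ := by
  rw [strip, Filter.eventually_inf_principal, Filter.eventually_comap] at hP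
  obtain ⟨y, hy⟩ := Filter.eventually_atTop.mp hP
  exact ⟨y, fun ζ h1 h2 h3 => hy ζ.im h1 ζ rfl ⟨h2, h3⟩⟩

/-- accumulation at a cusp -/
theorem flat_of_cusp (hv : IsVar w p Q G ν) (hd : Descends p Q G ν Δ)
    (ha : AdmissibleAt p Q G ν Δ σ) (hs : ∀ j, p (s j) = w - p j)
    (hns : ∀ j, p j < -1 ∨ w - p j < -1)
    (hfr : ∀ y : ℝ, ∃ τ : ℍ, y < τ.im ∧ RSplit p G ν ((σ • τ : ℍ) : ℂ)) : Flat p G ν := by
  obtain ⟨h, N, Ψ, β, ε, hh, hmem, hε1, hcd, hτ⟩ := hv.cuspData_cusp ha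
  have hfreq : ∃ᶠ ζ in strip, ∃ r : Fin m → ℝ, VV N β ζ - ofR r ∈ Fil p (GG N Ψ ζ) 0 := by
    intro hcon
    obtain ⟨y, hy⟩ := glo2_strip (hcon.and hcd.eventually)
    obtain ⟨τ, h1, h2⟩ := hfr (y * h)
    obtain ⟨δ, τ', hδ, h3, h4, h5, h6⟩ := glo2_move hh hmem τ
    have h7 : y ≤ ((τ' : ℂ) / h).im := by
      rw [Complex.div_ofReal_im, UpperHalfPlane.coe_im, h4, le_div_iff₀ hh]
      exact h1.le
    obtain ⟨h8, h9⟩ := hy _ h7 h5 h6
    apply h8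
    have h10 : RSplit p G ν ((σ • τ' : ℍ) : ℂ) := by
      rw [← h3]
      exact glo2_RSplit_smul hd hδ _ h2
    obtain ⟨r, hr⟩ := h10
    obtain ⟨h11, h12⟩ := hτ τ' h9
    refine ⟨r, ?_⟩
    rw [← h11 0]
    have h13 := Submodule.sub_mem _ hr h12
    have h14 : ν ((σ • τ' : ℍ) : ℂ) - ofR r - (ν ((σ • τ' : ℍ) : ℂ) - VV N β ((τ' : ℂ) / h)) =
        VV N β ((τ' : ℂ) / h) - ofR r := by abel
    rwa [h14] at h13
  obtain ⟨e, c, hec⟩ := hcd.main hs hns hfreq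
  -- the open set
  obtain ⟨y, hy⟩ : ∃ y : ℝ, ∀ ζ : ℂ, y < ζ.im → ‖qq ζ‖ < ε := by
    refine ⟨-Real.log ε / (2 * Real.pi), fun ζ hζ => ?_⟩
    rw [norm_qq, ← Real.lt_log_iff_exp_lt hcd.eps]
    rw [div_lt_iff₀ (by positivity)] at hζ
    nlinarith
  set Y : ℝ := max (max c y) 0 with hY
  set U : Set ℂ := {z : ℂ | ∃ hz : 0 < z.im, Y * h < (σ⁻¹ • (⟨z, hz⟩ : ℍ) : ℍ).im} with hU
  have hpt : ∀ z ∈ U, ν z - ofR e ∈ Fil p (G z) 0 := by
    rintro z ⟨hz, h1⟩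
    set τ : ℍ := σ⁻¹ • (⟨z, hz⟩ : ℍ) with hτdef
    have h2 : σ • τ = ⟨z, hz⟩ := by rw [hτdef, smul_inv_smul]
    have h3 : Y < ((τ : ℂ) / h).im := by
      rw [Complex.div_ofReal_im, UpperHalfPlane.coe_im, lt_div_iff₀ hh]
      exact h1
    have hyY : y ≤ Y := (le_max_right c y).trans (le_max_left _ _)
    have hcY : c ≤ Y := (le_max_left c y).trans (le_max_left _ _)
    have h4 := hy _ (lt_of_le_of_lt hyY h3)
    have h5 := hec _ (lt_of_le_of_lt hcY h3)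
    obtain ⟨h6, h7⟩ := hτ τ h4
    rw [h2] at h6 h7
    rw [← h6 0] at h5
    have h8 := Submodule.add_mem _ h7 h5
    have h9 : ν (((⟨z, hz⟩ : ℍ)) : ℂ) - VV N β ((τ : ℂ) / h) + (VV N β ((τ : ℂ) / h) - ofR e) =
        ν (((⟨z, hz⟩ : ℍ)) : ℂ) - ofR e := by abel
    rw [h9] at h8
    exact h8
  have hsub : ∀ z ∈ U, 0 < z.im := fun z hz => hz.1
  have hne : U.Nonempty := by
    have hpos : 0 < Y * h + 1 := by
      have : 0 ≤ Y := le_max_right _ _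
      positivity
    set τ : ℍ := ⟨(Y * h + 1) * Complex.I, by simpa using hpos⟩ with hτdef
    refine ⟨((σ • τ : ℍ) : ℂ), (σ • τ : ℍ).im_pos, ?_⟩
    have h1 : (⟨((σ • τ : ℍ) : ℂ), (σ • τ : ℍ).im_pos⟩ : ℍ) = σ • τ := rfl
    rw [h1, inv_smul_smul]
    have h2 : τ.im = Y * h + 1 := by
      rw [← UpperHalfPlane.coe_im, hτdef]
      simp
    rw [h2]
    linarith
  have hopen : IsOpen U := by
    have h1 : Continuous fun τ : ℍ => (σ⁻¹ • τ : ℍ).im :=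
      UpperHalfPlane.continuous_im.comp (continuous_const_smul σ⁻¹)
    have h2 : IsOpen {τ : ℍ | Y * h < (σ⁻¹ • τ : ℍ).im} := isOpen_lt continuous_const h1
    have h3 : U = ((↑) : ℍ → ℂ) '' {τ : ℍ | Y * h < (σ⁻¹ • τ : ℍ).im} := by
      ext z
      constructor
      · rintro ⟨hz, h4⟩
        exact ⟨⟨z, hz⟩, h4, rfl⟩
      · rintro ⟨τ, h4, rfl⟩
        exact ⟨τ.im_pos, h4⟩
    rw [h3]
    exact UpperHalfPlane.isOpenEmbedding_coe.isOpenMap _ h2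
  exact flat_of_open hv hopen hne hsub hpt

end SP38
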