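import Pool.Agent.LibSP38.Proj1

open Matrix Complex
open scoped ComplexOrder

namespace SP38

variable {m : ℕ} {w : ℤ} {p : Fin m → ℤ} {s : Equiv.Perm (Fin m)} {Q : Matrix (Fin m) (Fin m) ℝ}
  {G : Matrix (Fin m) (Fin m) ℂ}

theorem proj2_tele {M : Type*} [AddCommGroup M] (f : ℤ → M) (x : ℤ) (n : ℕ) :
    ∑ b ∈ Finset.Ico x (x + n), (f b - f (b + 1)) = f x - f (x + n) := by
  induction n with
  | zero => simp
  | succ n ih =>
    have h1 : Finset.Ico x (x + ((n + 1 : ℕ) : ℤ)) = insert (x + (n : ℤ)) (Finset.Ico x (x + n)) := by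
      ext b
      simp only [Finset.mem_Ico, Finset.mem_insert]
      push_cast
      omega
    have h2 : x + (n : ℤ) ∉ Finset.Ico x (x + (n : ℤ)) := by simp
    rw [h1, Finset.sum_insert h2, ih]
    push_cast
    rw [← add_assoc]
    abel

theorem proj2_tele' {M : Type*} [AddCommGroup M] (f : ℤ → M) {x y : ℤ} (hxy : x ≤ y) :
    ∑ b ∈ Finset.Ico x y, (f b - f (b + 1)) = f x - f y := by
  obtain ⟨n, hn⟩ := Int.le.dest hxy
  rw [← hn]
  exact proj2_tele f x n

theorem proj2_PI_low (h : IsPHS w p Q G) (hs : ∀ j, p (s j) = w - p j) {k : ℤ}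
    (hk : ∀ j, k ≤ p j) : PI p s k G = 1 := by
  have h1 : EE p k = 1 := by
    unfold EE
    rw [← Matrix.diagonal_one]
    congr 1
    funext j
    rw [if_pos (hk j)]
  unfold PI
  rw [h1, mul_one, Matrix.mul_nonsing_inv _ ((Matrix.isUnit_iff_isUnit_det _).mp
    (h.isUnit_AA hs k))]

theorem proj2_PI_high {k : ℤ} (hk : ∀ j, p j < k) : PI p s k G = 0 := by
  have h1 : EE p k = 0 := by
    unfold EE
    rw [← Matrix.diagonal_zero]
    congr 1
    funext j
    rw [if_neg (not_le.mpr (hk j))]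
  unfold PI
  rw [h1, mul_zero, zero_mul]

theorem proj2_Plt (h : IsPHS w p Q G) (hs : ∀ j, p (s j) = w - p j) {K : ℕ}
    (hK : ∀ j, |p j| ≤ K) (k : ℤ) : Plt K (PP p s G) k = 1 - PI p s k G := by
  have hlow : ∀ l : ℤ, l ≤ -(K : ℤ) → PI p s l G = 1 := fun l hl =>
    proj2_PI_low h hs fun j => hl.trans (abs_le.mp (hK j)).1
  unfold Plt
  rcases le_total (-(K : ℤ)) k with hk | hk
  · have h1 : ∀ b, PP p s G b = PI p s b G - PI p s (b + 1) G := fun _ => rfl
    simp only [h1]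
    rw [proj2_tele' (fun b => PI p s b G) hk, hlow _ le_rfl]
  · rw [Finset.Ico_eq_empty (not_lt.mpr hk), Finset.sum_empty, hlow k hk, sub_self]

theorem proj2_cj_mulVec (A : Matrix (Fin m) (Fin m) ℂ) (v : Fin m → ℂ) :
    cj (A *ᵥ v) = A.map (starRingEnd ℂ) *ᵥ cj v := by
  funext i
  simp [cj, Matrix.mulVec, dotProduct, map_sum]

theorem proj2_cj_cj (v : Fin m → ℂ) : cj (cj v) = v := by
  funext i
  simp [cj]

theorem PP_eq_zero (G : Matrix (Fin m) (Fin m) ℂ) {a : ℤ} (ha : ∀ j, p j ≠ a) :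
    PP p s G a = 0 := by
  have hiff : ∀ j, a ≤ p j ↔ a + 1 ≤ p j := fun j => by
    have := ha j
    omega
  have h1 : AA p s a G = AA p s (a + 1) G := by
    unfold AA
    congr 1
    funext i j
    simp only [hiff j]
  have h2 : EE p a = EE p (a + 1) := by
    unfold EE
    congr 1
    funext j
    simp only [hiff j]
  unfold PP PI
  rw [h1, h2, sub_self]

theorem proj2_PP_adj (h : IsPHS w p Q G) (hs : ∀ j, p (s j) = w - p j) (a : ℤ) :
    (PP p s G a)ᵀ * cm Q = cm Q * PP p s G (w - a) := by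
  unfold PP
  rw [Matrix.transpose_sub, Matrix.sub_mul, h.PI_adj hs, h.PI_adj hs, ← Matrix.mul_sub]
  congr 1
  have h1 : w + 1 - (a + 1) = w - a := by ring
  have h2 : w - a + 1 = w + 1 - a := by ring
  rw [h1, h2]
  abel

theorem proj2_PP_mul (h : IsPHS w p Q G) (hs : ∀ j, p (s j) = w - p j) (a b : ℤ) :
    PP p s G a * PP p s G b = if a = b then PP p s G a else 0 := by
  unfold PP
  rw [Matrix.sub_mul, Matrix.mul_sub, Matrix.mul_sub, h.PI_mul hs, h.PI_mul hs, h.PI_mul hs,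
    h.PI_mul hs]
  rcases lt_trichotomy a b with hab | hab | hab
  · rw [if_neg hab.ne, max_eq_right hab.le, max_eq_right (by omega : a ≤ b + 1),
      max_eq_right (by omega : a + 1 ≤ b), max_eq_right (by omega : a + 1 ≤ b + 1)]
    abel
  · subst hab
    rw [if_pos rfl, max_self, max_self, max_eq_right (by omega : a ≤ a + 1),
      max_eq_left (by omega : a ≤ a + 1)]
    abel
  · rw [if_neg hab.ne', max_eq_left hab.le, max_eq_left (by omega : b + 1 ≤ a),
      max_eq_left (by omega : b ≤ a + 1), max_eq_left (by omega : b + 1 ≤ a + 1)]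
    abel

theorem IsPHS.hd (h : IsPHS w p Q G) (hs : ∀ j, p (s j) = w - p j) {K : ℕ}
    (hK : ∀ j, |p j| ≤ K) : HD w K Q (PP p s G) where
  mul := proj2_PP_mul h hs
  supp a ha := PP_eq_zero G fun j hj => by
    have := hK j
    rw [hj] at this
    omega
  sum := by
    have h1 : Finset.Icc (-(K : ℤ)) K = Finset.Ico (-(K : ℤ)) (K + 1) := by
      ext b
      simp only [Finset.mem_Icc, Finset.mem_Ico]
      omega
    rw [h1]
    have h2 := proj2_Plt h hs hK (K + 1)
    unfold Plt at h2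
    rw [h2, proj2_PI_high fun j => by have := (abs_le.mp (hK j)).2; omega, sub_zero]
  conj a := by
    unfold PP
    rw [Matrix.map_sub _ (fun x y => map_sub _ x y), h.PI_conj hs, h.PI_conj hs]
    have h1 : w + 1 - (a + 1) = w - a := by ring
    have h2 : w - a + 1 = w + 1 - a := by ring
    rw [h1, h2]
    abel
  orth a b hab := by
    rw [proj2_PP_adj h hs, Matrix.mul_assoc, proj2_PP_mul h hs, if_neg (by omega), mul_zero]
  pos a v hv hv0 := by
    have h1 : PI p s a G *ᵥ v = v := by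
      conv_lhs => rw [← hv, Matrix.mulVec_mulVec]
      unfold PP at hv ⊢
      rw [Matrix.mul_sub, h.PI_mul hs, h.PI_mul hs, max_self, max_eq_right (by omega : a ≤ a + 1)]
      exact hv
    have h2 : PI p s (a + 1) G *ᵥ v = 0 := by
      conv_lhs => rw [← hv, Matrix.mulVec_mulVec]
      unfold PP
      rw [Matrix.mul_sub, h.PI_mul hs, h.PI_mul hs, max_self, max_eq_left (by omega : a ≤ a + 1),
        sub_self, Matrix.zero_mulVec]
    refine h.pos a v ((h.mem_Fil_iff_PI hs a v).mpr h1) ?_ hv0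
    rw [h.mem_Fil_iff_PI hs]
    have h3 : PI p s (w - a) G *ᵥ cj v = cj ((PI p s (w - a) G).map (starRingEnd ℂ) *ᵥ v) := by
      rw [proj2_cj_mulVec]
      congr 1
      ext i j
      simp
    rw [h3, h.PI_conj hs]
    have h4 : w + 1 - (w - a) = a + 1 := by ring
    rw [h4, Matrix.sub_mulVec, Matrix.one_mulVec, h2, sub_zero]

theorem proj2_mem_iff (h : IsPHS w p Q G) (hs : ∀ j, p (s j) = w - p j) {K : ℕ}
    (hK : ∀ j, |p j| ≤ K) (k : ℤ) (v : Fin m → ℂ) :
    v ∈ Fil p G k ↔ Plt K (PP p s G) k *ᵥ v = 0 := by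
  rw [h.mem_Fil_iff_PI hs, proj2_Plt h hs hK, Matrix.sub_mulVec, Matrix.one_mulVec, sub_eq_zero]
  exact eq_comm

theorem IsPHS.mem_Fil_iff_PP (h : IsPHS w p Q G) (hs : ∀ j, p (s j) = w - p j) (k : ℤ)
    (v : Fin m → ℂ) : v ∈ Fil p G k ↔ ∀ b < k, PP p s G b *ᵥ v = 0 := by
  constructor
  · intro hv b hb
    rw [h.mem_Fil_iff_PI hs] at hv
    rw [← hv, Matrix.mulVec_mulVec]
    unfold PP
    rw [Matrix.sub_mul, h.PI_mul hs, h.PI_mul hs, max_eq_right hb.le,
      max_eq_right (by omega : b + 1 ≤ k), sub_self, Matrix.zero_mulVec]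
  · intro hv
    have hK : ∀ j, |p j| ≤ ((∑ j, (p j).natAbs : ℕ) : ℤ) := by
      intro j
      have h1 : (p j).natAbs ≤ ∑ j, (p j).natAbs :=
        Finset.single_le_sum (f := fun j => (p j).natAbs) (fun _ _ => Nat.zero_le _)
          (Finset.mem_univ j)
      rw [Int.abs_eq_natAbs]
      exact_mod_cast h1
    rw [proj2_mem_iff h hs hK]
    unfold Plt
    rw [Matrix.sum_mulVec]
    exact Finset.sum_eq_zero fun b hb => hv b (Finset.mem_Ico.mp hb).2

theorem IsPHS.mem_Fil_iff_Plt (h : IsPHS w p Q G) (hs : ∀ j, p (s j) = w - p j) {K : ℕ}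
    (hK : ∀ j, |p j| ≤ K) (k : ℤ) (v : Fin m → ℂ) :
    v ∈ Fil p G k ↔ Plt K (PP p s G) k *ᵥ v = 0 := proj2_mem_iff h hs hK k v

theorem proj2_PI_mul_of_le {G' : Matrix (Fin m) (Fin m) ℂ} (h : IsPHS w p Q G)
    (h' : IsPHS w p Q G') (hs : ∀ j, p (s j) = w - p j) (hF : ∀ a, Fil p G a = Fil p G' a)
    (k : ℤ) : PI p s k G' * PI p s k G = PI p s k G := by
  have key : ∀ v : Fin m → ℂ, (PI p s k G' * PI p s k G) *ᵥ v = PI p s k G *ᵥ v := by
    intro v
    rw [← Matrix.mulVec_mulVec, ← h'.mem_Fil_iff_PI hs, ← hF, h.mem_Fil_iff_PI hs,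
      Matrix.mulVec_mulVec, h.PI_mul hs, max_self]
  apply Matrix.toLin'.injective
  apply LinearMap.ext
  intro v
  rw [Matrix.toLin'_apply, Matrix.toLin'_apply]
  exact key v

theorem proj2_PI_congr {G' : Matrix (Fin m) (Fin m) ℂ} (h : IsPHS w p Q G)
    (h' : IsPHS w p Q G') (hs : ∀ j, p (s j) = w - p j) (hF : ∀ a, Fil p G a = Fil p G' a)
    (k : ℤ) : PI p s k G = PI p s k G' := by
  have h1 := proj2_PI_mul_of_le h h' hs hF k
  have h2 := proj2_PI_mul_of_le h h' hs hF (w + 1 - k)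
  have h3 : ∀ G'' : Matrix (Fin m) (Fin m) ℂ, IsPHS w p Q G'' →
      (PI p s (w + 1 - k) G'').map (starRingEnd ℂ) = 1 - PI p s k G'' := by
    intro G'' h''
    rw [h''.PI_conj hs]
    congr 2
    ring
  have h4 : (1 - PI p s k G') * (1 - PI p s k G) = 1 - PI p s k G := by
    rw [← h3 G h, ← h3 G' h', ← Matrix.map_mul, h2]
  have h5 : PI p s k G' * (1 - PI p s k G) = 0 := by
    have h6 : PI p s k G' * ((1 - PI p s k G') * (1 - PI p s k G)) = 0 := by
      have h7 : PI p s k G' * (1 - PI p s k G') = 0 := by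
        rw [Matrix.mul_sub, h'.PI_mul hs, max_self, mul_one, sub_self]
      rw [← Matrix.mul_assoc, h7, Matrix.zero_mul]
    rwa [h4] at h6
  rw [Matrix.mul_sub, mul_one, h1, sub_eq_zero] at h5
  exact h5.symm

/-- the projectors depend only on the filtration -/
theorem IsPHS.PP_congr {G' : Matrix (Fin m) (Fin m) ℂ} (h : IsPHS w p Q G) (h' : IsPHS w p Q G')
    (hs : ∀ j, p (s j) = w - p j) (hF : ∀ a, Fil p G a = Fil p G' a) (a : ℤ) :
    PP p s G a = PP p s G' a := by
  unfold PP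
  rw [proj2_PI_congr h h' hs hF, proj2_PI_congr h h' hs hF]

theorem proj2_AA (T : Matrix (Fin m) (Fin m) ℝ) (k : ℤ) :
    AA p s k (cm T * G) = cm T * AA p s k G := by
  ext i j
  unfold AA
  rw [Matrix.mul_apply, Matrix.of_apply]
  split_ifs with hj
  · rw [Matrix.mul_apply]
    exact Finset.sum_congr rfl fun l _ => by rw [Matrix.of_apply, if_pos hj]
  · rw [Matrix.mul_apply, map_sum]
    refine Finset.sum_congr rfl fun l _ => ?_
    rw [Matrix.of_apply, if_neg hj, map_mul]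
    congr 1
    simp [cm]

/-- transport by a real matrix -/
theorem PP_transport {T : Matrix (Fin m) (Fin m) ℝ} (hT : IsUnit T)
    (hs : ∀ j, p (s j) = w - p j) (h : IsPHS w p Q G) (a : ℤ) :
    PP p s (cm T * G) a * cm T = cm T * PP p s G a := by
  have hT' : IsUnit (cm T) := by
    have h1 : cm T = (Complex.ofRealHom.mapMatrix : _ →+* _) T := rfl
    rw [h1]
    exact hT.map _
  have hinv : (cm T)⁻¹ * cm T = 1 :=
    Matrix.nonsing_inv_mul _ ((Matrix.isUnit_iff_isUnit_det _).mp hT')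
  have hPI : ∀ k, PI p s k (cm T * G) * cm T = cm T * PI p s k G := by
    intro k
    unfold PI
    rw [proj2_AA, Matrix.mul_inv_rev]
    simp only [Matrix.mul_assoc]
    rw [hinv, mul_one]
  unfold PP
  rw [Matrix.sub_mul, Matrix.mul_sub, hPI, hPI]

/-- being a polarized Hodge structure depends only on the filtration -/
theorem IsPHS.congr {G' : Matrix (Fin m) (Fin m) ℂ} (h : IsPHS w p Q G) (hu : IsUnit G')
    (hF : ∀ a, Fil p G a = Fil p G' a) : IsPHS w p Q G' where
  unit := hu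
  riem a b hab u hu' v hv := by
    rw [← hF] at hu' hv
    exact h.riem a b hab u hu' v hv
  pos a v hv hv' hv0 := by
    rw [← hF] at hv hv'
    exact h.pos a v hv hv' hv0

end SP38
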