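import Mathlib

/-! Linear algebra with a positive definite hermitian matrix `M`: adjoints, Hilbert-Schmidt norm.
Hint for all: `M = Rᴴ * R` with `R` invertible. -/

open Matrix Complex
open scoped ComplexOrder

namespace SP38

variable {m : ℕ}

/-- adjoint with respect to `M` -/
noncomputable def adj (M X : Matrix (Fin m) (Fin m) ℂ) : Matrix (Fin m) (Fin m) ℂ :=
  M⁻¹ * Xᴴ * M

/-- the quadratic form of `M` -/
noncomputable def qf (M : Matrix (Fin m) (Fin m) ℂ) (v : Fin m → ℂ) : ℝ :=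
  (star v ⬝ᵥ (M *ᵥ v)).re

/-- square of the Hilbert-Schmidt norm -/
noncomputable def hs (M X : Matrix (Fin m) (Fin m) ℂ) : ℝ := (Matrix.trace (X * adj M X)).re

variable {M : Matrix (Fin m) (Fin m) ℂ}

/-! auxiliary lemmas -/

theorem adj_cs {ι : Type*} [Fintype ι] (x y : ι → ℂ) :
    ‖∑ i, (starRingEnd ℂ) (x i) * y i‖ ≤ √(∑ i, ‖x i‖ ^ 2) * √(∑ i, ‖y i‖ ^ 2) := by
  have h := norm_inner_le_norm (𝕜 := ℂ) (WithLp.toLp 2 x : EuclideanSpace ℂ ι) (WithLp.toLp 2 y)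
  rw [EuclideanSpace.norm_eq, EuclideanSpace.norm_eq, PiLp.inner_apply] at h
  simpa [mul_comm] using h

theorem adj_mink {ι : Type*} [Fintype ι] (x y : ι → ℂ) :
    √(∑ i, ‖x i + y i‖ ^ 2) ≤ √(∑ i, ‖x i‖ ^ 2) + √(∑ i, ‖y i‖ ^ 2) := by
  have h := norm_add_le (WithLp.toLp 2 x : EuclideanSpace ℂ ι) (WithLp.toLp 2 y)
  rw [EuclideanSpace.norm_eq, EuclideanSpace.norm_eq, EuclideanSpace.norm_eq] at h
  simpa using h

theorem adj_exists_sqrt (hM : M.PosDef) :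
    ∃ R : Matrix (Fin m) (Fin m) ℂ, IsUnit R ∧ M = Rᴴ * R := by
  open scoped MatrixOrder in
  obtain ⟨R, hR⟩ := CStarAlgebra.nonneg_iff_eq_star_mul_self.mp hM.posSemidef.nonneg
  refine ⟨R, ?_, hR⟩
  have h1 := hM.isUnit
  rw [Matrix.isUnit_iff_isUnit_det] at h1 ⊢
  rw [hR, Matrix.det_mul] at h1
  exact isUnit_of_mul_isUnit_right h1

theorem adj_trace_eq {R : Matrix (Fin m) (Fin m) ℂ} (hR : IsUnit R)
    (X Z : Matrix (Fin m) (Fin m) ℂ) :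
    Matrix.trace (X * adj (Rᴴ * R) Z) =
      ∑ x : Fin m × Fin m, (starRingEnd ℂ) ((R * Z * R⁻¹) x.1 x.2) * (R * X * R⁻¹) x.1 x.2 := by
  have hdet : IsUnit R.det := (Matrix.isUnit_iff_isUnit_det R).mp hR
  have hdetH : IsUnit (Rᴴ).det := by
    rw [Matrix.det_conjTranspose]; exact hdet.star
  have h1 : X * adj (Rᴴ * R) Z = X * R⁻¹ * ((Rᴴ)⁻¹ * Zᴴ * Rᴴ) * R := by
    rw [adj, Matrix.mul_inv_rev]
    simp only [Matrix.mul_assoc]
  have h2 : Matrix.trace (X * adj (Rᴴ * R) Z) =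
      Matrix.trace ((R * X * R⁻¹) * (R * Z * R⁻¹)ᴴ) := by
    rw [h1, Matrix.trace_mul_comm]
    rw [Matrix.conjTranspose_mul, Matrix.conjTranspose_mul, Matrix.conjTranspose_nonsing_inv]
    simp only [Matrix.mul_assoc]
  rw [h2, Fintype.sum_prod_type]
  simp only [Matrix.trace, Matrix.diag, Matrix.mul_apply (M := R * X * R⁻¹),
    Matrix.conjTranspose_apply]
  refine Finset.sum_congr rfl fun i _ => Finset.sum_congr rfl fun j _ => ?_
  rw [mul_comm]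
  rfl

theorem adj_hs_eq {R : Matrix (Fin m) (Fin m) ℂ} (hR : IsUnit R) (X : Matrix (Fin m) (Fin m) ℂ) :
    Matrix.trace (X * adj (Rᴴ * R) X) =
      ((∑ x : Fin m × Fin m, ‖(R * X * R⁻¹) x.1 x.2‖ ^ 2 : ℝ) : ℂ) := by
  rw [adj_trace_eq hR, Complex.ofReal_sum]
  refine Finset.sum_congr rfl fun x _ => ?_
  rw [← Complex.normSq_eq_conj_mul_self, Complex.normSq_eq_norm_sq]

theorem adj_inner_eq (R : Matrix (Fin m) (Fin m) ℂ) (u v : Fin m → ℂ) :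
    star u ⬝ᵥ ((Rᴴ * R) *ᵥ v) = ∑ i, (starRingEnd ℂ) ((R *ᵥ u) i) * (R *ᵥ v) i := by
  rw [← Matrix.mulVec_mulVec, Matrix.dotProduct_mulVec, ← Matrix.star_mulVec]
  rfl

theorem adj_qf_eq (R : Matrix (Fin m) (Fin m) ℂ) (v : Fin m → ℂ) :
    star v ⬝ᵥ ((Rᴴ * R) *ᵥ v) = ((∑ i, ‖(R *ᵥ v) i‖ ^ 2 : ℝ) : ℂ) := by
  rw [adj_inner_eq, Complex.ofReal_sum]
  refine Finset.sum_congr rfl fun x _ => ?_
  rw [← Complex.normSq_eq_conj_mul_self, Complex.normSq_eq_norm_sq]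

theorem adj_qf_eq' (R : Matrix (Fin m) (Fin m) ℂ) (v : Fin m → ℂ) :
    qf (Rᴴ * R) v = ∑ i, ‖(R *ᵥ v) i‖ ^ 2 := by
  rw [qf, adj_qf_eq, Complex.ofReal_re]

theorem adj_hs_eq' {R : Matrix (Fin m) (Fin m) ℂ} (hR : IsUnit R)
    (X : Matrix (Fin m) (Fin m) ℂ) :
    hs (Rᴴ * R) X = ∑ x : Fin m × Fin m, ‖(R * X * R⁻¹) x.1 x.2‖ ^ 2 := by
  rw [hs, adj_hs_eq hR, Complex.ofReal_re]

theorem adj_adj (hM : M.PosDef) (X : Matrix (Fin m) (Fin m) ℂ) : adj M (adj M X) = X := by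
  have hdet : IsUnit M.det := (Matrix.isUnit_iff_isUnit_det M).mp hM.isUnit
  have hH : Mᴴ = M := hM.isHermitian
  rw [adj, adj, Matrix.conjTranspose_mul, Matrix.conjTranspose_mul,
    Matrix.conjTranspose_conjTranspose, Matrix.conjTranspose_nonsing_inv, hH]
  rw [Matrix.mul_assoc, Matrix.mul_assoc, Matrix.mul_assoc, Matrix.nonsing_inv_mul M hdet,
    Matrix.mul_one, ← Matrix.mul_assoc, Matrix.nonsing_inv_mul M hdet, Matrix.one_mul]

theorem adj_mul (hM : M.PosDef) (X Z : Matrix (Fin m) (Fin m) ℂ) :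
    adj M (X * Z) = adj M Z * adj M X := by
  have hdet : IsUnit M.det := (Matrix.isUnit_iff_isUnit_det M).mp hM.isUnit
  simp only [adj]
  rw [Matrix.conjTranspose_mul]
  calc M⁻¹ * (Zᴴ * Xᴴ) * M = M⁻¹ * Zᴴ * 1 * Xᴴ * M := by
        simp only [Matrix.mul_assoc, Matrix.one_mul]
    _ = M⁻¹ * Zᴴ * (M * M⁻¹) * Xᴴ * M := by rw [Matrix.mul_nonsing_inv M hdet]
    _ = M⁻¹ * Zᴴ * M * (M⁻¹ * Xᴴ * M) := by simp only [Matrix.mul_assoc]

theorem adj_add (X Z : Matrix (Fin m) (Fin m) ℂ) : adj M (X + Z) = adj M X + adj M Z := by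
  simp only [adj, Matrix.conjTranspose_add, Matrix.mul_add, Matrix.add_mul]

theorem adj_sub (X Z : Matrix (Fin m) (Fin m) ℂ) : adj M (X - Z) = adj M X - adj M Z := by
  simp only [adj, Matrix.conjTranspose_sub, Matrix.mul_sub, Matrix.sub_mul]

theorem adj_smul (c : ℂ) (X : Matrix (Fin m) (Fin m) ℂ) :
    adj M (c • X) = (starRingEnd ℂ) c • adj M X := by
  simp only [adj, Matrix.conjTranspose_smul, Matrix.mul_smul, Matrix.smul_mul]
  rfl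

theorem adj_one (hM : M.PosDef) : adj M 1 = 1 := by
  have hdet : IsUnit M.det := (Matrix.isUnit_iff_isUnit_det M).mp hM.isUnit
  simp only [adj, Matrix.conjTranspose_one, Matrix.mul_one, Matrix.nonsing_inv_mul M hdet]

theorem trace_adj (hM : M.PosDef) (X : Matrix (Fin m) (Fin m) ℂ) :
    Matrix.trace (adj M X) = (starRingEnd ℂ) (Matrix.trace X) := by
  have hdet : IsUnit M.det := (Matrix.isUnit_iff_isUnit_det M).mp hM.isUnit
  rw [adj, Matrix.mul_assoc, Matrix.trace_mul_comm, Matrix.mul_assoc,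
    Matrix.mul_nonsing_inv M hdet, Matrix.mul_one, Matrix.trace_conjTranspose]
  rfl

theorem inner_adj (hM : M.PosDef) (X : Matrix (Fin m) (Fin m) ℂ) (u v : Fin m → ℂ) :
    star u ⬝ᵥ (M *ᵥ (X *ᵥ v)) = star (adj M X *ᵥ u) ⬝ᵥ (M *ᵥ v) := by
  have hdet : IsUnit M.det := (Matrix.isUnit_iff_isUnit_det M).mp hM.isUnit
  have hH : Mᴴ = M := hM.isHermitian
  have h1 : (adj M X)ᴴ = M * X * M⁻¹ := by
    rw [adj, Matrix.conjTranspose_mul, Matrix.conjTranspose_mul,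
      Matrix.conjTranspose_conjTranspose, Matrix.conjTranspose_nonsing_inv, hH]
    simp only [Matrix.mul_assoc]
  rw [Matrix.star_mulVec, h1, ← Matrix.dotProduct_mulVec, Matrix.mulVec_mulVec,
    Matrix.mulVec_mulVec, Matrix.mul_assoc, Matrix.mul_assoc, Matrix.nonsing_inv_mul M hdet,
    Matrix.mul_one]

theorem qf_im (hM : M.PosDef) (v : Fin m → ℂ) : (star v ⬝ᵥ (M *ᵥ v)).im = 0 := by
  obtain ⟨R, hR, rfl⟩ := adj_exists_sqrt hM
  rw [adj_qf_eq, Complex.ofReal_im]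

theorem qf_nonneg (hM : M.PosDef) (v : Fin m → ℂ) : 0 ≤ qf M v := by
  obtain ⟨R, hR, rfl⟩ := adj_exists_sqrt hM
  rw [adj_qf_eq']
  positivity

theorem qf_pos (hM : M.PosDef) {v : Fin m → ℂ} (hv : v ≠ 0) : 0 < qf M v := by
  have := hM.dotProduct_mulVec_pos hv
  rw [Complex.lt_def] at this
  exact this.1

theorem qf_smul (c : ℂ) (v : Fin m → ℂ) : qf M (c • v) = ‖c‖ ^ 2 * qf M v := by
  have h : star (c • v) ⬝ᵥ (M *ᵥ (c • v)) = ((‖c‖ ^ 2 : ℝ) : ℂ) * (star v ⬝ᵥ (M *ᵥ v)) := by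
    rw [Matrix.mulVec_smul, star_smul, smul_dotProduct, dotProduct_smul, smul_eq_mul,
      smul_eq_mul, ← mul_assoc, ← Complex.normSq_eq_norm_sq, Complex.normSq_eq_conj_mul_self]
    rfl
  rw [qf, h, Complex.re_ofReal_mul, qf]

theorem sqrt_qf_add (hM : M.PosDef) (u v : Fin m → ℂ) :
    √(qf M (u + v)) ≤ √(qf M u) + √(qf M v) := by
  obtain ⟨R, hR, rfl⟩ := adj_exists_sqrt hM
  rw [adj_qf_eq', adj_qf_eq', adj_qf_eq', Matrix.mulVec_add]
  exact adj_mink _ _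

/-- Cauchy-Schwarz -/
theorem norm_inner_le (hM : M.PosDef) (u v : Fin m → ℂ) :
    ‖star u ⬝ᵥ (M *ᵥ v)‖ ≤ √(qf M u) * √(qf M v) := by
  obtain ⟨R, hR, rfl⟩ := adj_exists_sqrt hM
  rw [adj_qf_eq', adj_qf_eq', adj_inner_eq]
  exact adj_cs _ _

theorem hs_im (hM : M.PosDef) (X : Matrix (Fin m) (Fin m) ℂ) :
    (Matrix.trace (X * adj M X)).im = 0 := by
  obtain ⟨R, hR, rfl⟩ := adj_exists_sqrt hM
  rw [adj_hs_eq hR, Complex.ofReal_im]

theorem hs_nonneg (hM : M.PosDef) (X : Matrix (Fin m) (Fin m) ℂ) : 0 ≤ hs M X := by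
  obtain ⟨R, hR, rfl⟩ := adj_exists_sqrt hM
  rw [adj_hs_eq' hR]
  positivity

theorem hs_smul (c : ℂ) (X : Matrix (Fin m) (Fin m) ℂ) : hs M (c • X) = ‖c‖ ^ 2 * hs M X := by
  have h : Matrix.trace (c • X * adj M (c • X)) =
      ((‖c‖ ^ 2 : ℝ) : ℂ) * Matrix.trace (X * adj M X) := by
    rw [adj_smul, Matrix.smul_mul, Matrix.mul_smul, Matrix.trace_smul, Matrix.trace_smul,
      smul_eq_mul, smul_eq_mul, ← mul_assoc, ← Complex.normSq_eq_norm_sq,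
      Complex.mul_conj]
  rw [hs, h, Complex.re_ofReal_mul, hs]

theorem sqrt_hs_add (hM : M.PosDef) (X Z : Matrix (Fin m) (Fin m) ℂ) :
    √(hs M (X + Z)) ≤ √(hs M X) + √(hs M Z) := by
  obtain ⟨R, hR, rfl⟩ := adj_exists_sqrt hM
  rw [adj_hs_eq' hR, adj_hs_eq' hR, adj_hs_eq' hR]
  have h := adj_mink (fun x : Fin m × Fin m => (R * X * R⁻¹) x.1 x.2)
    (fun x : Fin m × Fin m => (R * Z * R⁻¹) x.1 x.2)
  have h2 : ∀ x : Fin m × Fin m, (R * (X + Z) * R⁻¹) x.1 x.2 =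
      (R * X * R⁻¹) x.1 x.2 + (R * Z * R⁻¹) x.1 x.2 := by
    intro x
    rw [Matrix.mul_add, Matrix.add_mul, Matrix.add_apply]
  simpa only [h2] using h

theorem norm_trace_sq_le (hM : M.PosDef) (X Z : Matrix (Fin m) (Fin m) ℂ) :
    ‖Matrix.trace (X * adj M Z)‖ ^ 2 ≤ hs M X * hs M Z := by
  obtain ⟨R, hR, rfl⟩ := adj_exists_sqrt hM
  rw [adj_hs_eq' hR, adj_hs_eq' hR, adj_trace_eq hR]
  have h := adj_cs (fun x : Fin m × Fin m => (R * Z * R⁻¹) x.1 x.2)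
    (fun x : Fin m × Fin m => (R * X * R⁻¹) x.1 x.2)
  have h2 := pow_le_pow_left₀ (norm_nonneg _) h 2
  refine h2.trans (le_of_eq ?_)
  rw [mul_pow, Real.sq_sqrt (by positivity), Real.sq_sqrt (by positivity), mul_comm]

theorem adj_row_le {ι : Type*} [Fintype ι] (x y : ι → ℂ) :
    ‖∑ i, x i * y i‖ ^ 2 ≤ (∑ i, ‖x i‖ ^ 2) * ∑ i, ‖y i‖ ^ 2 := by
  have h := adj_cs (fun i => (starRingEnd ℂ) (x i)) y
  simp only [Complex.conj_conj, RCLike.norm_conj] at h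
  have h2 := pow_le_pow_left₀ (norm_nonneg _) h 2
  refine h2.trans (le_of_eq ?_)
  rw [mul_pow, Real.sq_sqrt (by positivity), Real.sq_sqrt (by positivity)]

theorem qf_mulVec_le (hM : M.PosDef) (X : Matrix (Fin m) (Fin m) ℂ) (v : Fin m → ℂ) :
    qf M (X *ᵥ v) ≤ hs M X * qf M v := by
  obtain ⟨R, hR, rfl⟩ := adj_exists_sqrt hM
  have hdet : IsUnit R.det := (Matrix.isUnit_iff_isUnit_det R).mp hR
  rw [adj_hs_eq' hR, adj_qf_eq', adj_qf_eq', Fintype.sum_prod_type, Finset.sum_mul]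
  refine Finset.sum_le_sum fun i _ => ?_
  have h : R *ᵥ (X *ᵥ v) = (R * X * R⁻¹) *ᵥ (R *ᵥ v) := by
    rw [Matrix.mulVec_mulVec, Matrix.mulVec_mulVec, Matrix.mul_assoc (R * X),
      Matrix.nonsing_inv_mul R hdet, Matrix.mul_one]
  rw [h]
  exact adj_row_le (fun j => (R * X * R⁻¹) i j) (R *ᵥ v)

theorem hs_le_of_qf (hM : M.PosDef) (X : Matrix (Fin m) (Fin m) ℂ) {B : ℝ}
    (h : ∀ v, qf M (X *ᵥ v) ≤ B * qf M v) : hs M X ≤ m * B := by
  obtain ⟨R, hR, rfl⟩ := adj_exists_sqrt hM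
  have hdet : IsUnit R.det := (Matrix.isUnit_iff_isUnit_det R).mp hR
  rw [adj_hs_eq' hR, Fintype.sum_prod_type_right]
  have h1 : ∀ j : Fin m, ∑ i, ‖(R * X * R⁻¹) i j‖ ^ 2 ≤ B := by
    intro j
    have h2 := h (R⁻¹ *ᵥ Pi.single j 1)
    rw [adj_qf_eq', adj_qf_eq', Matrix.mulVec_mulVec, Matrix.mulVec_mulVec, Matrix.mulVec_mulVec,
      Matrix.mul_nonsing_inv R hdet, Matrix.one_mulVec] at h2
    have h3 : ∑ i, ‖(Pi.single j 1 : Fin m → ℂ) i‖ ^ 2 = 1 := by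
      rw [Finset.sum_eq_single j]
      · simp
      · intro b _ hb
        simp [Pi.single_eq_of_ne hb]
      · simp
    rw [h3, mul_one] at h2
    refine le_trans (le_of_eq ?_) h2
    refine Finset.sum_congr rfl fun i _ => ?_
    rw [Matrix.mulVec_single_one, Matrix.mul_assoc]
    rfl
  calc ∑ j : Fin m, ∑ i, ‖(R * X * R⁻¹) i j‖ ^ 2 ≤ ∑ j : Fin m, B :=
        Finset.sum_le_sum fun j _ => h1 j
    _ = m * B := by simp

end SP38
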