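import Pool.Agent.LibSP38.WirtS

/-! The Ahlfors lemma on a half plane. -/

open Matrix Complex
open scoped ContDiff

namespace SP38

theorem Ahl1_line (z w : ℂ) (t : ℝ) : HasDerivAt (fun s : ℝ => z + (s : ℂ) * w) w t := by
  have h := ((Complex.ofRealCLM.hasDerivAt (x := t)).mul_const w).const_add z
  simpa using h

theorem Ahl1_deriv {f : ℂ → ℂ} {z w : ℂ} {t : ℝ} (hf : DifferentiableAt ℝ f (z + (t : ℂ) * w)) :
    HasDerivAt (fun s : ℝ => (f (z + (s : ℂ) * w)).re)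
      ((fderiv ℝ f (z + (t : ℂ) * w) w).re) t := by
  have h1 : HasDerivAt (fun s : ℝ => f (z + (s : ℂ) * w)) (fderiv ℝ f (z + (t : ℂ) * w) w) t :=
    HasFDerivAt.comp_hasDerivAt t hf.hasFDerivAt (Ahl1_line z w t)
  exact Complex.reCLM.hasFDerivAt.comp_hasDerivAt t h1

/-- the derivative of a function which is real on an open set is real -/
theorem Ahl1_im {Ω : Set ℂ} (hΩ : IsOpen Ω) {f : ℂ → ℂ} (hf : SmS Ω f)
    (hre : ∀ z ∈ Ω, (f z).im = 0) {z : ℂ} (hz : z ∈ Ω) (w : ℂ) : (fderiv ℝ f z w).im = 0 := by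
  have hd : DifferentiableAt ℝ f z := hf.differentiableAt hΩ hz
  have h1 : HasFDerivAt (fun z => (f z).im) (Complex.imCLM.comp (fderiv ℝ f z)) z :=
    Complex.imCLM.hasFDerivAt.comp z hd.hasFDerivAt
  have h2 : HasFDerivAt (fun z => (f z).im) (0 : ℂ →L[ℝ] ℝ) z := by
    refine (hasFDerivAt_const (0 : ℝ) z).congr_of_eventuallyEq ?_
    filter_upwards [hΩ.mem_nhds hz] with x hx
    exact hre x hx
  have h3 := h1.unique h2
  have h4 := congrArg (fun L : ℂ →L[ℝ] ℝ => L w) h3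
  simpa using h4

/-- second derivative test in one variable -/
theorem Ahl1_one {g g' : ℝ → ℝ} {c : ℝ} (hg : ∀ᶠ t in nhds (0 : ℝ), HasDerivAt g (g' t) t)
    (hg' : HasDerivAt g' c 0) (hmax : IsLocalMax g 0) : g' 0 = 0 ∧ c ≤ 0 := by
  have h0 : g' 0 = 0 := hmax.hasDerivAt_eq_zero hg.self_of_nhds
  refine ⟨h0, ?_⟩
  by_contra hc
  push Not at hc
  have e1 : deriv g =ᶠ[nhds 0] g' := by
    filter_upwards [hg] with t ht
    exact ht.deriv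
  have e2 : deriv (deriv g) 0 = c := by
    rw [e1.deriv_eq, hg'.deriv]
  have hmin : IsLocalMin g 0 := by
    refine isLocalMin_of_deriv_deriv_pos (by rw [e2]; exact hc) ?_ hg.self_of_nhds.continuousAt
    rw [hg.self_of_nhds.deriv, h0]
  have e3 : g =ᶠ[nhds 0] fun _ => g 0 := by
    filter_upwards [hmin, hmax] with t h1 h2
    exact le_antisymm h2 h1
  have e4 : deriv g =ᶠ[nhds 0] fun _ => 0 := by
    have := e3.deriv
    simpa using this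
  have e5 : deriv (deriv g) 0 = 0 := by
    rw [e4.deriv_eq]; simp
  rw [e2] at e5
  exact absurd e5 hc.ne'

theorem Ahl1_dir {Ω : Set ℂ} (hΩ : IsOpen Ω) {Φ : ℂ → ℂ} (hΦ : SmS Ω Φ) {z₀ : ℂ} (hz₀ : z₀ ∈ Ω)
    (hmax : IsLocalMax (fun z => (Φ z).re) z₀) (w : ℂ) :
    (fderiv ℝ Φ z₀ w).re = 0 ∧ (fderiv ℝ (fun z => fderiv ℝ Φ z w) z₀ w).re ≤ 0 := by
  have hc : ContinuousAt (fun s : ℝ => z₀ + (s : ℂ) * w) 0 := (Ahl1_line z₀ w 0).continuousAt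
  have e0 : z₀ + ((0 : ℝ) : ℂ) * w = z₀ := by simp
  have hs : SmS Ω (fun z => fderiv ℝ Φ z w) :=
    (ContDiffOn.fderiv_of_isOpen hΦ hΩ (by simp)).clm_apply contDiffOn_const
  have hmem : ∀ᶠ t : ℝ in nhds 0, z₀ + (t : ℂ) * w ∈ Ω := by
    refine hc.eventually (p := fun y => y ∈ Ω) ?_
    have h1 : Ω ∈ nhds (z₀ + ((0 : ℝ) : ℂ) * w) := by rw [e0]; exact hΩ.mem_nhds hz₀
    exact h1
  have hg : ∀ᶠ t in nhds (0 : ℝ), HasDerivAt (fun s : ℝ => (Φ (z₀ + (s : ℂ) * w)).re)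
      ((fun t : ℝ => (fderiv ℝ Φ (z₀ + (t : ℂ) * w) w).re) t) t := by
    filter_upwards [hmem] with t ht
    exact Ahl1_deriv (hΦ.differentiableAt hΩ ht)
  have hg' : HasDerivAt (fun t : ℝ => (fderiv ℝ Φ (z₀ + (t : ℂ) * w) w).re)
      ((fderiv ℝ (fun z => fderiv ℝ Φ z w) (z₀ + ((0 : ℝ) : ℂ) * w) w).re) 0 :=
    Ahl1_deriv (f := fun z => fderiv ℝ Φ z w) (by rw [e0]; exact hs.differentiableAt hΩ hz₀)
  have hm : IsLocalMax (fun s : ℝ => (Φ (z₀ + (s : ℂ) * w)).re) 0 := by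
    have h1 : ∀ᶠ z in nhds (z₀ + ((0 : ℝ) : ℂ) * w), (Φ z).re ≤ (Φ z₀).re := by
      rw [e0]; exact hmax
    have h2 := hc.eventually h1
    filter_upwards [h2] with t ht
    simpa using ht
  have := Ahl1_one hg hg' hm
  simpa only [e0] using this

/-- second derivative test: at a local maximum of a real valued smooth function the first
derivative vanishes and `∂̄ ∂` is nonpositive -/
theorem local_max_test {Ω : Set ℂ} (hΩ : IsOpen Ω) {Φ : ℂ → ℂ} (hΦ : SmS Ω Φ)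
    (hre : ∀ z ∈ Ω, (Φ z).im = 0) {z₀ : ℂ} (hz₀ : z₀ ∈ Ω)
    (hmax : IsLocalMax (fun z => (Φ z).re) z₀) :
    dz Φ z₀ = 0 ∧ (dzb (dz Φ) z₀).re ≤ 0 := by
  have hs : ∀ w : ℂ, SmS Ω (fun z => fderiv ℝ Φ z w) := fun w =>
    (ContDiffOn.fderiv_of_isOpen hΦ hΩ (by simp)).clm_apply contDiffOn_const
  have him : ∀ w : ℂ, ∀ z ∈ Ω, (fderiv ℝ Φ z w).im = 0 := fun w z hz => Ahl1_im hΩ hΦ hre hz w
  have h0 : ∀ w : ℂ, fderiv ℝ Φ z₀ w = 0 := fun w =>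
    Complex.ext (Ahl1_dir hΩ hΦ hz₀ hmax w).1 (him w z₀ hz₀)
  refine ⟨by simp only [dz, h0]; simp, ?_⟩
  have hd : ∀ w v : ℂ, fderiv ℝ (dz Φ) z₀ v =
      (fderiv ℝ (fun z => fderiv ℝ Φ z 1) z₀ v - I * fderiv ℝ (fun z => fderiv ℝ Φ z I) z₀ v) / 2 := by
    intro w v
    have d1 : HasFDerivAt (fun z => fderiv ℝ Φ z 1) (fderiv ℝ (fun z => fderiv ℝ Φ z 1) z₀) z₀ :=
      ((hs 1).differentiableAt hΩ hz₀).hasFDerivAt
    have d2 : HasFDerivAt (fun z => fderiv ℝ Φ z I) (fderiv ℝ (fun z => fderiv ℝ Φ z I) z₀) z₀ :=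
      ((hs I).differentiableAt hΩ hz₀).hasFDerivAt
    have d3 := (d1.sub (d2.const_mul I)).mul_const (1 / 2 : ℂ)
    have e : dz Φ = fun z => (fderiv ℝ Φ z 1 - I * fderiv ℝ Φ z I) * (1 / 2 : ℂ) := by
      funext z; simp only [dz]; ring
    have d5 : HasFDerivAt (dz Φ) ((1 / 2 : ℂ) • (fderiv ℝ (fun z => fderiv ℝ Φ z 1) z₀ -
        I • fderiv ℝ (fun z => fderiv ℝ Φ z I) z₀)) z₀ := by
      rw [e]
      exact d3
    have d4 := HasFDerivAt.fderiv d5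
    rw [d4]
    simp
    ring
  have hi : ∀ w v : ℂ, (fderiv ℝ (fun z => fderiv ℝ Φ z w) z₀ v).im = 0 := fun w v =>
    Ahl1_im hΩ (hs w) (him w) hz₀ v
  have h1 := (Ahl1_dir hΩ hΦ hz₀ hmax 1).2
  have h2 := (Ahl1_dir hΩ hΦ hz₀ hmax I).2
  have e : (dzb (dz Φ) z₀).re = ((fderiv ℝ (fun z => fderiv ℝ Φ z 1) z₀ 1).re +
      (fderiv ℝ (fun z => fderiv ℝ Φ z I) z₀ I).re) / 4 := by
    simp only [dzb, hd 1]
    have a2 := hi 1 I
    have a3 := hi I 1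
    simp [a2, a3]
    ring
  rw [e]
  linarith

end SP38
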