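import Pool.Agent.LibSP38.Ahl1

open Matrix Complex
open scoped ContDiff

namespace SP38

/-- `r^2 - |z - z0|^2` -/
noncomputable def ahl2_D (z₀ : ℂ) (r : ℝ) (z : ℂ) : ℂ :=
  (r : ℂ) ^ 2 - (z - z₀) * (starRingEnd ℂ) (z - z₀)

theorem ahl2_D_eq (z₀ : ℂ) (r : ℝ) (z : ℂ) :
    ahl2_D z₀ r z = ((r ^ 2 - ‖z - z₀‖ ^ 2 : ℝ) : ℂ) := by
  rw [ahl2_D, Complex.mul_conj']
  push_cast
  ring

theorem ahl2_id (z : ℂ) (z₀ : ℂ) : DifferentiableAt ℂ (fun z : ℂ => z - z₀) z := by fun_prop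

theorem ahl2_idR (z : ℂ) (z₀ : ℂ) : DifferentiableAt ℝ (fun z : ℂ => z - z₀) z := by fun_prop

theorem ahl2_contDiff_conj (z₀ : ℂ) :
    ContDiff ℝ ∞ (fun z : ℂ => (starRingEnd ℂ) (z - z₀)) :=
  Complex.conjCLE.contDiff.comp (contDiff_id.sub contDiff_const)

theorem ahl2_contDiff_D (z₀ : ℂ) (r : ℝ) : ContDiff ℝ ∞ (ahl2_D z₀ r) :=
  contDiff_const.sub ((contDiff_id.sub contDiff_const).mul (ahl2_contDiff_conj z₀))

theorem ahl2_conjR (z : ℂ) (z₀ : ℂ) :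
    DifferentiableAt ℝ (fun z : ℂ => (starRingEnd ℂ) (z - z₀)) z :=
  (ahl2_contDiff_conj z₀).differentiable (by simp) z

theorem ahl2_DR (z₀ : ℂ) (r : ℝ) (z : ℂ) : DifferentiableAt ℝ (ahl2_D z₀ r) z :=
  (ahl2_contDiff_D z₀ r).differentiable (by simp) z

theorem ahl2_dz_id (z z₀ : ℂ) : dz (fun z : ℂ => z - z₀) z = 1 := by
  rw [dz_of_holo (ahl2_id z z₀)]
  simp

theorem ahl2_dzb_id (z z₀ : ℂ) : dzb (fun z : ℂ => z - z₀) z = 0 :=
  dzb_of_holo (ahl2_id z z₀)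

theorem ahl2_dz_conj (z z₀ : ℂ) : dz (fun z : ℂ => (starRingEnd ℂ) (z - z₀)) z = 0 := by
  rw [dz_conj (ahl2_idR z z₀), ahl2_dzb_id, map_zero]

theorem ahl2_dzb_conj (z z₀ : ℂ) : dzb (fun z : ℂ => (starRingEnd ℂ) (z - z₀)) z = 1 := by
  rw [dzb_conj (ahl2_idR z z₀), ahl2_dz_id, map_one]

theorem ahl2_neg_eq (z₀ : ℂ) (r : ℝ) : ahl2_D z₀ r =
    fun z => (r : ℂ) ^ 2 + (-1) * ((z - z₀) * (starRingEnd ℂ) (z - z₀)) := by
  ext z
  rw [ahl2_D]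
  ring

theorem ahl2_dz_D (z₀ : ℂ) (r : ℝ) (z : ℂ) :
    dz (ahl2_D z₀ r) z = -(starRingEnd ℂ) (z - z₀) := by
  have h1 : DifferentiableAt ℝ (fun z : ℂ => (z - z₀) * (starRingEnd ℂ) (z - z₀)) z :=
    (ahl2_idR z z₀).mul (ahl2_conjR z z₀)
  have h2 : DifferentiableAt ℝ (fun z : ℂ => (-1 : ℂ) * ((z - z₀) * (starRingEnd ℂ) (z - z₀))) z :=
    (differentiableAt_const _).mul h1
  rw [ahl2_neg_eq, dz_add (f := fun _ => (r : ℂ) ^ 2)
    (g := fun z => (-1) * ((z - z₀) * (starRingEnd ℂ) (z - z₀))) (differentiableAt_const _) h2,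
    dz_const, dz_mul (f := fun _ => (-1 : ℂ)) (g := fun z => (z - z₀) * (starRingEnd ℂ) (z - z₀))
      (differentiableAt_const _) h1, dz_const,
    dz_mul (ahl2_idR z z₀) (ahl2_conjR z z₀), ahl2_dz_id, ahl2_dz_conj]
  ring

theorem ahl2_dzb_D (z₀ : ℂ) (r : ℝ) (z : ℂ) :
    dzb (ahl2_D z₀ r) z = -(z - z₀) := by
  have h1 : DifferentiableAt ℝ (fun z : ℂ => (z - z₀) * (starRingEnd ℂ) (z - z₀)) z :=
    (ahl2_idR z z₀).mul (ahl2_conjR z z₀)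
  have h2 : DifferentiableAt ℝ (fun z : ℂ => (-1 : ℂ) * ((z - z₀) * (starRingEnd ℂ) (z - z₀))) z :=
    (differentiableAt_const _).mul h1
  rw [ahl2_neg_eq, dzb_add (f := fun _ => (r : ℂ) ^ 2)
    (g := fun z => (-1) * ((z - z₀) * (starRingEnd ℂ) (z - z₀))) (differentiableAt_const _) h2,
    dzb_const, dzb_mul (f := fun _ => (-1 : ℂ)) (g := fun z => (z - z₀) * (starRingEnd ℂ) (z - z₀))
      (differentiableAt_const _) h1, dzb_const,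
    dzb_mul (ahl2_idR z z₀) (ahl2_conjR z z₀), ahl2_dzb_id, ahl2_dzb_conj]
  ring

/-- the function `-conj (z - z0)` -/
theorem ahl2_dzb_dD (z z₀ : ℂ) : dzb (fun z : ℂ => -(starRingEnd ℂ) (z - z₀)) z = -1 := by
  have : (fun z : ℂ => -(starRingEnd ℂ) (z - z₀)) =
      fun z => (-1 : ℂ) * (starRingEnd ℂ) (z - z₀) := by
    ext z; ring
  rw [this, dzb_mul (f := fun _ => (-1 : ℂ)) (g := fun z => (starRingEnd ℂ) (z - z₀))
    (differentiableAt_const _) (ahl2_conjR z z₀), dzb_const, ahl2_dzb_conj]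
  ring

/-- first derivative of `f D^2` -/
theorem ahl2_dz {f : ℂ → ℂ} {z z₀ : ℂ} (r : ℝ) (hf : DifferentiableAt ℝ f z) :
    dz (fun z => f z * (ahl2_D z₀ r z * ahl2_D z₀ r z)) z =
      dz f z * (ahl2_D z₀ r z * ahl2_D z₀ r z) +
        f z * (-(starRingEnd ℂ) (z - z₀) * ahl2_D z₀ r z +
          ahl2_D z₀ r z * -(starRingEnd ℂ) (z - z₀)) := by
  rw [dz_mul (f := f) (g := fun z => ahl2_D z₀ r z * ahl2_D z₀ r z) hf
    ((ahl2_DR z₀ r z).mul (ahl2_DR z₀ r z)), dz_mul (ahl2_DR z₀ r z) (ahl2_DR z₀ r z),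
    ahl2_dz_D]

/-- second derivative of `f D^2` -/
theorem ahl2_dzb_dz {Ω : Set ℂ} (hΩ : IsOpen Ω) {f : ℂ → ℂ} (hf : SmS Ω f) {z z₀ : ℂ}
    (hz : z ∈ Ω) (r : ℝ) :
    dzb (dz (fun z => f z * (ahl2_D z₀ r z * ahl2_D z₀ r z))) z =
      dzb (dz f) z * ahl2_D z₀ r z ^ 2 - 2 * dz f z * ahl2_D z₀ r z * (z - z₀)
        - 2 * dzb f z * ahl2_D z₀ r z * (starRingEnd ℂ) (z - z₀)
        + f z * (2 * (z - z₀) * (starRingEnd ℂ) (z - z₀) - 2 * ahl2_D z₀ r z) := by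
  have hfR : ∀ y ∈ Ω, DifferentiableAt ℝ f y := fun y hy => SmS.differentiableAt hΩ hf hy
  have hcon : dz (fun z => f z * (ahl2_D z₀ r z * ahl2_D z₀ r z)) =ᶠ[nhds z]
      fun z => dz f z * (ahl2_D z₀ r z * ahl2_D z₀ r z) +
        f z * (-(starRingEnd ℂ) (z - z₀) * ahl2_D z₀ r z +
          ahl2_D z₀ r z * -(starRingEnd ℂ) (z - z₀)) := by
    filter_upwards [hΩ.mem_nhds hz] with y hy
    exact ahl2_dz r (hfR y hy)
  have hD := ahl2_DR z₀ r z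
  have hc : DifferentiableAt ℝ (fun z : ℂ => -(starRingEnd ℂ) (z - z₀)) z := (ahl2_conjR z z₀).neg
  have hdf : DifferentiableAt ℝ (dz f) z := SmS.differentiableAt hΩ (SmS.dz hΩ hf) hz
  have hf' := hfR z hz
  rw [dzb_congr hcon,
    dzb_add (f := fun z => dz f z * (ahl2_D z₀ r z * ahl2_D z₀ r z))
      (g := fun z => f z * (-(starRingEnd ℂ) (z - z₀) * ahl2_D z₀ r z +
          ahl2_D z₀ r z * -(starRingEnd ℂ) (z - z₀)))
      (hdf.mul (hD.mul hD)) (hf'.mul ((hc.mul hD).add (hD.mul hc))),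
    dzb_mul (f := dz f) (g := fun z => ahl2_D z₀ r z * ahl2_D z₀ r z) hdf (hD.mul hD),
    dzb_mul hD hD,
    dzb_mul (f := f) (g := fun z => -(starRingEnd ℂ) (z - z₀) * ahl2_D z₀ r z +
          ahl2_D z₀ r z * -(starRingEnd ℂ) (z - z₀)) hf' ((hc.mul hD).add (hD.mul hc)),
    dzb_add (f := fun z => -(starRingEnd ℂ) (z - z₀) * ahl2_D z₀ r z)
      (g := fun z => ahl2_D z₀ r z * -(starRingEnd ℂ) (z - z₀)) (hc.mul hD) (hD.mul hc),
    dzb_mul (f := fun z => -(starRingEnd ℂ) (z - z₀)) (g := ahl2_D z₀ r) hc hD,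
    dzb_mul (f := ahl2_D z₀ r) (g := fun z => -(starRingEnd ℂ) (z - z₀)) hD hc,
    ahl2_dzb_D, ahl2_dzb_dD]
  ring

/-- Ahlfors lemma on a disc -/
theorem ahlfors_disc {Ω : Set ℂ} (hΩ : IsOpen Ω) {f : ℂ → ℂ} (hf : SmS Ω f)
    (hre : ∀ z ∈ Ω, (f z).im = 0) (hpos : ∀ z ∈ Ω, 0 ≤ (f z).re) {κ : ℝ} (hκ : 0 < κ)
    (hcurv : ∀ z ∈ Ω, κ * (f z).re ^ 3 ≤ (f z).re * (dzb (dz f) z).re - ‖dz f z‖ ^ 2)
    {z₀ : ℂ} {r : ℝ} (hr : 0 < r) (hball : Metric.closedBall z₀ r ⊆ Ω) :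
    (f z₀).re ≤ 2 / (κ * r ^ 2) := by
  have hz₀ : z₀ ∈ Ω := hball (Metric.mem_closedBall_self hr.le)
  rcases (hpos z₀ hz₀).eq_or_lt with h0 | h0
  · rw [← h0]; positivity
  set Φ : ℂ → ℂ := fun z => f z * (ahl2_D z₀ r z * ahl2_D z₀ r z) with hΦdef
  have hΦ : SmS Ω Φ := by
    exact hf.mul (((ahl2_contDiff_D z₀ r).mul (ahl2_contDiff_D z₀ r)).contDiffOn)
  have hfr : ∀ z ∈ Ω, f z = ((f z).re : ℂ) := by
    intro z hz
    apply Complex.ext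
    · simp
    · simpa using hre z hz
  have hΦval : ∀ z ∈ Ω, Φ z = (((f z).re * (r ^ 2 - ‖z - z₀‖ ^ 2) ^ 2 : ℝ) : ℂ) := by
    intro z hz
    rw [hΦdef]
    simp only
    rw [ahl2_D_eq, hfr z hz]
    push_cast
    rw [Complex.ofReal_re]
    ring
  have hΦre : ∀ z ∈ Ω, (Φ z).re = (f z).re * (r ^ 2 - ‖z - z₀‖ ^ 2) ^ 2 := by
    intro z hz
    rw [hΦval z hz, Complex.ofReal_re]
  have hΦim : ∀ z ∈ Ω, (Φ z).im = 0 := by
    intro z hz
    rw [hΦval z hz, Complex.ofReal_im]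
  have hcont : ContinuousOn (fun z => (Φ z).re) (Metric.closedBall z₀ r) :=
    Complex.continuous_re.comp_continuousOn (hΦ.continuousOn.mono hball)
  obtain ⟨z₁, hz₁, hmax⟩ := (isCompact_closedBall z₀ r).exists_isMaxOn
    ⟨z₀, Metric.mem_closedBall_self hr.le⟩ hcont
  have hz₁Ω : z₁ ∈ Ω := hball hz₁
  have hmax0 : (Φ z₀).re ≤ (Φ z₁).re := hmax (Metric.mem_closedBall_self hr.le)
  have hΦ0 : (Φ z₀).re = (f z₀).re * r ^ 4 := by
    rw [hΦre z₀ hz₀, sub_self, norm_zero]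
    ring
  have hΦ0pos : 0 < (Φ z₀).re := by rw [hΦ0]; positivity
  have hz₁ball : z₁ ∈ Metric.ball z₀ r := by
    rw [Metric.mem_ball]
    rcases (Metric.mem_closedBall.mp hz₁).eq_or_lt with h | h
    · exfalso
      rw [dist_eq_norm] at h
      have : (Φ z₁).re = 0 := by
        rw [hΦre z₁ hz₁Ω, h]
        ring
      linarith
    · exact h
  have hloc : IsLocalMax (fun z => (Φ z).re) z₁ := by
    filter_upwards [Metric.isOpen_ball.mem_nhds hz₁ball] with y hy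
    exact hmax (Metric.ball_subset_closedBall hy)
  obtain ⟨ht1, ht2⟩ := local_max_test hΩ hΦ hΦim hz₁Ω hloc
  have hdb : dzb f z₁ = (starRingEnd ℂ) (dz f z₁) := by
    have h1 := dz_conj (SmS.differentiableAt hΩ hf hz₁Ω)
    have h2 : (fun z => (starRingEnd ℂ) (f z)) =ᶠ[nhds z₁] f := by
      filter_upwards [hΩ.mem_nhds hz₁Ω] with y hy
      exact Complex.conj_eq_iff_im.mpr (hre y hy)
    rw [dz_congr h2] at h1
    rw [h1, Complex.conj_conj]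
  rw [hΦdef, ahl2_dz r (SmS.differentiableAt hΩ hf hz₁Ω)] at ht1
  rw [hΦdef, ahl2_dzb_dz hΩ hf hz₁Ω r, hdb] at ht2
  have hc1 := hcurv z₁ hz₁Ω
  set F : ℝ := (f z₁).re with hF
  set d : ℝ := r ^ 2 - ‖z₁ - z₀‖ ^ 2 with hd
  rw [ahl2_D_eq, ← hd, hfr z₁ hz₁Ω, ← hF] at ht1 ht2
  have hdpos : 0 < d := by
    rw [hd]
    rw [Metric.mem_ball, dist_eq_norm] at hz₁ball
    nlinarith [norm_nonneg (z₁ - z₀)]
  have hFd : (Φ z₁).re = F * d ^ 2 := hΦre z₁ hz₁Ω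
  have hFpos : 0 < F := by
    have : 0 < F * d ^ 2 := by rw [← hFd]; linarith
    by_contra h
    nlinarith [sq_nonneg d]
  set a : ℂ := dz f z₁ with ha
  set u : ℂ := z₁ - z₀ with hu
  set A : ℂ := dzb (dz f) z₁ with hA
  have hdC : (d : ℂ) ≠ 0 := by exact_mod_cast hdpos.ne'
  have had : a * (d : ℂ) = 2 * (F : ℂ) * (starRingEnd ℂ) u := by
    apply mul_right_cancel₀ hdC
    linear_combination ht1
  have hau : a * u * (d : ℂ) = ((2 * F * ‖u‖ ^ 2 : ℝ) : ℂ) := by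
    have : a * u * (d : ℂ) = (a * (d : ℂ)) * u := by ring
    rw [this, had]
    have h2 : 2 * (F : ℂ) * (starRingEnd ℂ) u * u = 2 * (F : ℂ) * (u * (starRingEnd ℂ) u) := by ring
    rw [h2, Complex.mul_conj']
    push_cast
    ring
  have haubar : (starRingEnd ℂ) a * (starRingEnd ℂ) u * (d : ℂ) = ((2 * F * ‖u‖ ^ 2 : ℝ) : ℂ) := by
    have := congrArg (starRingEnd ℂ) hau
    rw [map_mul, map_mul, Complex.conj_ofReal, Complex.conj_ofReal] at this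
    exact this
  have ht2' : A.re * d ^ 2 - 6 * F * ‖u‖ ^ 2 - 2 * F * d ≤ 0 := by
    have e : A * (d : ℂ) ^ 2 - 2 * a * (d : ℂ) * u - 2 * (starRingEnd ℂ) a * (d : ℂ) *
        (starRingEnd ℂ) u + (F : ℂ) * (2 * u * (starRingEnd ℂ) u - 2 * (d : ℂ)) =
        A * ((d ^ 2 : ℝ) : ℂ) + ((- (4 * F * ‖u‖ ^ 2) - (4 * F * ‖u‖ ^ 2) +
          F * (2 * ‖u‖ ^ 2 - 2 * d) : ℝ) : ℂ) := by
      have h1 : u * (starRingEnd ℂ) u = ((‖u‖ ^ 2 : ℝ) : ℂ) := by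
        rw [Complex.mul_conj']; push_cast; ring
      have h2 : (2 * (u : ℂ) * (starRingEnd ℂ) u) = 2 * ((‖u‖ ^ 2 : ℝ) : ℂ) := by
        rw [mul_assoc, h1]
      have h3 : 2 * a * (d : ℂ) * u = 2 * (a * u * (d : ℂ)) := by ring
      have h4 : 2 * (starRingEnd ℂ) a * (d : ℂ) * (starRingEnd ℂ) u =
        2 * ((starRingEnd ℂ) a * (starRingEnd ℂ) u * (d : ℂ)) := by ring
      rw [h2, h3, h4, hau, haubar]
      push_cast
      ring
    rw [e, Complex.add_re, Complex.re_mul_ofReal, Complex.ofReal_re] at ht2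
    linarith
  have hna : ‖a‖ ^ 2 * d ^ 2 = 4 * F ^ 2 * ‖u‖ ^ 2 := by
    have h1 := congrArg (fun x => ‖x‖ ^ 2) had
    simp only [norm_mul, Complex.norm_real, RCLike.norm_conj, mul_pow] at h1
    have h2 : ‖(2 : ℂ)‖ = 2 := by simp
    rw [h2, Real.norm_eq_abs, Real.norm_eq_abs, sq_abs, sq_abs] at h1
    rw [h1]; ring
  have hfin : κ * F * d ^ 2 ≤ 2 * r ^ 2 := by
    have h1 : κ * F ^ 3 * d ^ 2 ≤ (F * A.re - ‖a‖ ^ 2) * d ^ 2 :=
      mul_le_mul_of_nonneg_right hc1 (sq_nonneg d)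
    have h2 : (F * A.re - ‖a‖ ^ 2) * d ^ 2 = F * (A.re * d ^ 2) - 4 * F ^ 2 * ‖u‖ ^ 2 := by
      rw [← hna]; ring
    have h3 : F * (A.re * d ^ 2) ≤ F * (6 * F * ‖u‖ ^ 2 + 2 * F * d) :=
      mul_le_mul_of_nonneg_left (by linarith) hFpos.le
    have h4 : κ * F ^ 3 * d ^ 2 ≤ 2 * F ^ 2 * ‖u‖ ^ 2 + 2 * F ^ 2 * d := by
      rw [h2] at h1
      nlinarith
    have h5 : F ^ 2 * (κ * F * d ^ 2) ≤ F ^ 2 * (2 * ‖u‖ ^ 2 + 2 * d) := by nlinarith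
    have h6 := le_of_mul_le_mul_left h5 (by positivity)
    rw [hd] at h6
    rw [hd]
    linarith
  rw [le_div_iff₀ (by positivity)]
  have h7 : (f z₀).re * r ^ 4 ≤ F * d ^ 2 := by rw [← hΦ0, ← hFd]; exact hmax0
  have h8 : (f z₀).re * (κ * r ^ 2) * r ^ 2 ≤ 2 * r ^ 2 := by
    calc (f z₀).re * (κ * r ^ 2) * r ^ 2 = κ * ((f z₀).re * r ^ 4) := by ring
      _ ≤ κ * (F * d ^ 2) := mul_le_mul_of_nonneg_left h7 hκ.le
      _ = κ * F * d ^ 2 := by ring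
      _ ≤ _ := hfin
  exact le_of_mul_le_mul_right h8 (by positivity)

/-- Ahlfors lemma on a half plane -/
theorem ahlfors {c : ℝ} {f : ℂ → ℂ} (hf : SmS {z : ℂ | c < z.im} f)
    (hre : ∀ z : ℂ, c < z.im → (f z).im = 0) (hpos : ∀ z : ℂ, c < z.im → 0 ≤ (f z).re) {κ : ℝ}
    (hκ : 0 < κ)
    (hcurv : ∀ z : ℂ, c < z.im →
      κ * (f z).re ^ 3 ≤ (f z).re * (dzb (dz f) z).re - ‖dz f z‖ ^ 2)
    {z : ℂ} (hz : c < z.im) :
    (f z).re ≤ 2 / (κ * (z.im - c) ^ 2) := by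
  have hΩ : IsOpen {z : ℂ | c < z.im} := isOpen_lt continuous_const Complex.continuous_im
  have hR : 0 < z.im - c := sub_pos.mpr hz
  have key : ∀ r : ℝ, 0 < r → r < z.im - c → (f z).re * (κ * r ^ 2) ≤ 2 := by
    intro r hr hr2
    have hball : Metric.closedBall z r ⊆ {z : ℂ | c < z.im} := by
      intro y hy
      rw [Metric.mem_closedBall, dist_eq_norm] at hy
      have h1 := Complex.abs_im_le_norm (y - z)
      rw [Complex.sub_im] at h1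
      have h2 := (abs_le.mp (h1.trans hy)).1
      show c < y.im
      linarith
    have := ahlfors_disc hΩ hf hre hpos hκ hcurv hr hball
    rwa [le_div_iff₀ (by positivity)] at this
  rw [le_div_iff₀ (by positivity)]
  have hcont : Filter.Tendsto (fun r : ℝ => (f z).re * (κ * r ^ 2))
      (nhdsWithin (z.im - c) (Set.Iio (z.im - c))) (nhds ((f z).re * (κ * (z.im - c) ^ 2))) := by
    apply Filter.Tendsto.mono_left _ nhdsWithin_le_nhds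
    apply Continuous.tendsto
    fun_prop
  refine le_of_tendsto hcont ?_
  filter_upwards [Ioo_mem_nhdsLT hR] with r hr
  exact key r hr.1 hr.2

end SP38
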