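import Pool.Agent.LibSP38.Defs

/-! Unipotent data at a cusp: definitions and elementary properties. -/

open Matrix Complex Filter Topology
open scoped ComplexOrder ContDiff

namespace SP38

variable {m : ℕ}

/-- `q = exp (2 π i ζ)` -/
noncomputable def qq (ζ : ℂ) : ℂ := Complex.exp (2 * Real.pi * I * ζ)

/-- the last column of `N` -/
def n0 (N : Matrix (Fin m ⊕ Unit) (Fin m ⊕ Unit) ℝ) : Fin m → ℝ := fun i => N (Sum.inl i) (Sum.inr ())

/-- `exp (ζ N)` on `H` -/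
noncomputable def eH (N : Matrix (Fin m ⊕ Unit) (Fin m ⊕ Unit) ℝ) (ζ : ℂ) :
    Matrix (Fin m) (Fin m) ℂ := IsNilpotent.exp (ζ • cm (hb N))

/-- `exp (ζ N)` on the extension -/
noncomputable def eV (N : Matrix (Fin m ⊕ Unit) (Fin m ⊕ Unit) ℝ) (ζ : ℂ) :
    Matrix (Fin m ⊕ Unit) (Fin m ⊕ Unit) ℂ := IsNilpotent.exp (ζ • cm N)

/-- the period matrix of `H` in the coordinate `ζ` -/
noncomputable def GG (N : Matrix (Fin m ⊕ Unit) (Fin m ⊕ Unit) ℝ)
    (Ψ : ℂ → Matrix (Fin m) (Fin m) ℂ) (ζ : ℂ) : Matrix (Fin m) (Fin m) ℂ :=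
  eH N ζ * Ψ (qq ζ)

/-- the period vector of the extension in the coordinate `ζ` -/
noncomputable def VV (N : Matrix (Fin m ⊕ Unit) (Fin m ⊕ Unit) ℝ)
    (β : ℂ → Fin m → ℂ) (ζ : ℂ) : Fin m → ℂ :=
  fun i => (eV N ζ *ᵥ Sum.elim (β (qq ζ)) 1) (Sum.inl i)

/-- variation on a punctured disc with unipotent monodromy (or on a disc, `N = 0`) -/
structure CuspData (w : ℤ) (p : Fin m → ℤ) (Q : Matrix (Fin m) (Fin m) ℝ)
    (N : Matrix (Fin m ⊕ Unit) (Fin m ⊕ Unit) ℝ) (Ψ : ℂ → Matrix (Fin m) (Fin m) ℂ)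
    (β : ℂ → Fin m → ℂ) (ε : ℝ) : Prop where
  eps : 0 < ε
  nil : IsNilpotent N
  row : ∀ j, N (Sum.inr ()) j = 0
  pres : (IsNilpotent.exp (hb N))ᵀ * Q * IsNilpotent.exp (hb N) = Q
  holP : ∀ i j, DifferentiableOn ℂ (fun q => Ψ q i j) (Metric.ball 0 ε)
  holb : ∀ i, DifferentiableOn ℂ (fun q => β q i) (Metric.ball 0 ε)
  unit : ∀ q ∈ Metric.ball (0 : ℂ) ε, IsUnit (Ψ q)
  phs : ∀ ζ, ‖qq ζ‖ < ε → IsPHS w p Q (GG N Ψ ζ)
  trG : ∀ ζ, ‖qq ζ‖ < ε → ∀ j,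
    (fun i => deriv (fun ζ => GG N Ψ ζ i j) ζ) ∈ Fil p (GG N Ψ ζ) (p j - 1)
  trn : ∀ ζ, ‖qq ζ‖ < ε → (fun i => deriv (fun ζ => VV N β ζ i) ζ) ∈ Fil p (GG N Ψ ζ) (-1)

variable {N : Matrix (Fin m ⊕ Unit) (Fin m ⊕ Unit) ℝ} {Ψ : ℂ → Matrix (Fin m) (Fin m) ℂ}
  {β : ℂ → Fin m → ℂ}

/-! ### exponentials -/

/-- the exponential of a multiple of a nilpotent matrix as a polynomial -/
theorem cus1_exp_eq {α : Type*} [Fintype α] [DecidableEq α] (X : Matrix α α ℂ) {k : ℕ}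
    (hk : X ^ k = 0) (ζ : ℂ) :
    IsNilpotent.exp (ζ • X) = ∑ i ∈ Finset.range k, (ζ ^ i / (i.factorial : ℂ)) • X ^ i := by
  have h1 : (ζ • X) ^ k = 0 := by rw [smul_pow, hk, smul_zero]
  rw [IsNilpotent.exp_eq_sum h1]
  apply Finset.sum_congr rfl
  intro i _
  rw [smul_pow]
  ext a b
  simp only [Matrix.smul_apply, smul_eq_mul, Rat.smul_def]
  push_cast
  ring

theorem cus1_pow_inl {R : Type*} [CommRing R] (X : Matrix (Fin m ⊕ Unit) (Fin m ⊕ Unit) R)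
    (h : ∀ j, X (Sum.inr ()) j = 0) (k : ℕ) (i j : Fin m) :
    (X ^ k) (Sum.inl i) (Sum.inl j) = (X.toBlocks₁₁ ^ k) i j := by
  induction k generalizing i j with
  | zero =>
    simp [Matrix.one_apply]
  | succ k ih =>
    rw [pow_succ, pow_succ, Matrix.mul_apply, Matrix.mul_apply, Fintype.sum_sum_type]
    simp only [ih, Finset.univ_unique, Finset.sum_singleton]
    have : X (Sum.inr default) (Sum.inl j) = 0 := h _
    rw [this, mul_zero, add_zero]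
    rfl

theorem cus1_pow_inr {R : Type*} [CommRing R] (X : Matrix (Fin m ⊕ Unit) (Fin m ⊕ Unit) R)
    (h : ∀ j, X (Sum.inr ()) j = 0) (k : ℕ) (j : Fin m ⊕ Unit) :
    (X ^ (k + 1)) (Sum.inr ()) j = 0 := by
  rw [pow_succ', Matrix.mul_apply]
  apply Finset.sum_eq_zero
  intro l _
  rw [h, zero_mul]

theorem cus1_cm_toBlocks : (cm N).toBlocks₁₁ = cm (hb N) := rfl

theorem cus1_cm_row (hr : ∀ j, N (Sum.inr ()) j = 0) (j : Fin m ⊕ Unit) :
    cm N (Sum.inr ()) j = 0 := by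
  unfold cm
  rw [Matrix.map_apply, hr]
  simp

theorem cus1_cm_pow {α : Type*} [Fintype α] [DecidableEq α] (A : Matrix α α ℝ) (k : ℕ) :
    cm (A ^ k) = cm A ^ k := by
  have h := map_pow (Complex.ofRealHom.mapMatrix (m := α)) A k
  exact h

theorem cus1_cm_nil {α : Type*} [Fintype α] [DecidableEq α] {A : Matrix α α ℝ}
    (h : IsNilpotent A) : IsNilpotent (cm A) := by
  obtain ⟨k, hk⟩ := h
  refine ⟨k, ?_⟩
  rw [← cus1_cm_pow, hk]
  unfold cm
  ext i j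
  simp

theorem isNilpotent_hb (hN : IsNilpotent N) (hr : ∀ j, N (Sum.inr ()) j = 0) :
    IsNilpotent (hb N) := by
  obtain ⟨k, hk⟩ := hN
  refine ⟨k, ?_⟩
  ext i j
  have h := cus1_pow_inl N hr k i j
  rw [hk] at h
  exact h.symm

theorem cus1_smul_nil {α : Type*} [Fintype α] [DecidableEq α] {A : Matrix α α ℂ}
    (h : IsNilpotent A) (ζ : ℂ) : IsNilpotent (ζ • A) := by
  obtain ⟨k, hk⟩ := h
  exact ⟨k, by rw [smul_pow, hk, smul_zero]⟩

theorem cus1_exp_add {α : Type*} [Fintype α] [DecidableEq α] {A : Matrix α α ℂ}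
    (h : IsNilpotent A) (ζ ξ : ℂ) :
    IsNilpotent.exp ((ζ + ξ) • A) = IsNilpotent.exp (ζ • A) * IsNilpotent.exp (ξ • A) := by
  rw [add_smul]
  exact IsNilpotent.exp_add_of_commute (((Commute.refl A).smul_left ζ).smul_right ξ)
    (cus1_smul_nil h ζ) (cus1_smul_nil h ξ)

theorem eH_add (hN : IsNilpotent N) (hr : ∀ j, N (Sum.inr ()) j = 0) (ζ ξ : ℂ) :
    eH N (ζ + ξ) = eH N ζ * eH N ξ :=
  cus1_exp_add (cus1_cm_nil (isNilpotent_hb hN hr)) ζ ξ

theorem eV_add (hN : IsNilpotent N) (ζ ξ : ℂ) : eV N (ζ + ξ) = eV N ζ * eV N ξ :=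
  cus1_exp_add (cus1_cm_nil hN) ζ ξ

theorem eH_zero : eH N 0 = 1 := by
  unfold eH
  rw [zero_smul, IsNilpotent.exp_zero]

theorem eV_zero : eV N 0 = 1 := by
  unfold eV
  rw [zero_smul, IsNilpotent.exp_zero]

theorem isUnit_eH (hN : IsNilpotent N) (hr : ∀ j, N (Sum.inr ()) j = 0) (ζ : ℂ) :
    IsUnit (eH N ζ) :=
  IsNilpotent.isUnit_exp (cus1_smul_nil (cus1_cm_nil (isNilpotent_hb hN hr)) ζ)

theorem eH_comm (hN : IsNilpotent N) (hr : ∀ j, N (Sum.inr ()) j = 0) (ζ : ℂ) :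
    eH N ζ * cm (hb N) = cm (hb N) * eH N ζ := by
  obtain ⟨k, hk⟩ := cus1_cm_nil (isNilpotent_hb hN hr)
  unfold eH
  rw [cus1_exp_eq _ hk, Finset.sum_mul, Finset.mul_sum]
  apply Finset.sum_congr rfl
  intro i _
  rw [Matrix.smul_mul, Matrix.mul_smul, ← pow_succ, ← pow_succ']

/-- `eV` is block triangular with blocks `eH` and `1` -/
theorem eV_inl_inl (hN : IsNilpotent N) (hr : ∀ j, N (Sum.inr ()) j = 0) (ζ : ℂ) (i j : Fin m) :
    eV N ζ (Sum.inl i) (Sum.inl j) = eH N ζ i j := by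
  obtain ⟨k, hk⟩ := cus1_cm_nil hN
  have hk' : cm (hb N) ^ k = 0 := by
    ext a b
    have h := cus1_pow_inl (cm N) (cus1_cm_row hr) k a b
    rw [hk, cus1_cm_toBlocks] at h
    exact h.symm
  unfold eV eH
  rw [cus1_exp_eq _ hk, cus1_exp_eq _ hk', Matrix.sum_apply, Matrix.sum_apply]
  apply Finset.sum_congr rfl
  intro l _
  rw [Matrix.smul_apply, Matrix.smul_apply, cus1_pow_inl (cm N) (cus1_cm_row hr) l i j,
    cus1_cm_toBlocks]

theorem eV_inr (hN : IsNilpotent N) (hr : ∀ j, N (Sum.inr ()) j = 0) (ζ : ℂ) (j : Fin m ⊕ Unit) :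
    eV N ζ (Sum.inr ()) j = if j = Sum.inr () then 1 else 0 := by
  obtain ⟨k, hk⟩ := cus1_cm_nil hN
  have hk1 : cm N ^ (k + 1) = 0 := by rw [pow_succ, hk, zero_mul]
  unfold eV
  rw [cus1_exp_eq _ hk1, Matrix.sum_apply, Finset.sum_range_succ', Finset.sum_eq_zero]
  · rw [zero_add, Matrix.smul_apply, pow_zero, pow_zero, Matrix.one_apply]
    simp [eq_comm]
  · intro l _
    rw [Matrix.smul_apply, cus1_pow_inr (cm N) (cus1_cm_row hr) l j, smul_zero]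

/-- real points: `exp (a N)` for real `a` is real and `exp N` to the power `a` for natural `a`
preserves `Q` -/
theorem exists_real_eH (hN : IsNilpotent N) (hr : ∀ j, N (Sum.inr ()) j = 0)
    {Q : Matrix (Fin m) (Fin m) ℝ}
    (hQ : (IsNilpotent.exp (hb N))ᵀ * Q * IsNilpotent.exp (hb N) = Q) (a : ℕ) :
    ∃ T : Matrix (Fin m) (Fin m) ℝ, cm T = eH N a ∧ IsUnit T ∧ Tᵀ * Q * T = Q ∧
      Matrix.trace T = m := by
  have hn := isNilpotent_hb hN hr
  have hsn : ∀ b : ℕ, IsNilpotent ((b : ℝ) • hb N) := by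
    intro b
    obtain ⟨k, hk⟩ := hn
    exact ⟨k, by rw [smul_pow, hk, smul_zero]⟩
  have hpow : ∀ b : ℕ, IsNilpotent.exp ((b : ℝ) • hb N) = IsNilpotent.exp (hb N) ^ b := by
    intro b
    induction b with
    | zero => rw [Nat.cast_zero, zero_smul, pow_zero, IsNilpotent.exp_zero]
    | succ b ih =>
      rw [pow_succ, ← ih, Nat.cast_succ, add_smul, one_smul]
      exact IsNilpotent.exp_add_of_commute ((Commute.refl _).smul_left _) (hsn b) hn
  refine ⟨IsNilpotent.exp ((a : ℝ) • hb N), ?_, IsNilpotent.isUnit_exp (hsn a), ?_, ?_⟩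
  · have h := IsNilpotent.map_exp (hsn a) (Complex.ofRealHom.mapMatrix (m := Fin m))
    have e : (Complex.ofRealHom.mapMatrix (m := Fin m)) ((a : ℝ) • hb N) = (a : ℂ) • cm (hb N) := by
      ext i j
      simp [cm]
    rw [e] at h
    exact h
  · rw [hpow]
    induction a with
    | zero => simp
    | succ b ih =>
      rw [pow_succ', Matrix.transpose_mul]
      have e : (IsNilpotent.exp (hb N) ^ b)ᵀ * (IsNilpotent.exp (hb N))ᵀ * Q *
          (IsNilpotent.exp (hb N) * IsNilpotent.exp (hb N) ^ b) =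
          (IsNilpotent.exp (hb N) ^ b)ᵀ * ((IsNilpotent.exp (hb N))ᵀ * Q *
          IsNilpotent.exp (hb N)) * IsNilpotent.exp (hb N) ^ b := by
        simp only [Matrix.mul_assoc]
      rw [e, hQ]
      exact ih
  · have h1 := IsNilpotent.isNilpotent_exp_sub_one (hsn a)
    have h2 := Matrix.isNilpotent_trace_of_isNilpotent h1
    have h3 := h2.eq_zero
    rw [Matrix.trace_sub, Matrix.trace_one, Fintype.card_fin] at h3
    linarith

end SP38
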