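import Pool.Agent.LibSP38.Cus2

open Matrix Complex Filter Topology
open scoped ComplexOrder ContDiff

namespace SP38

variable {m : ℕ} {N : Matrix (Fin m ⊕ Unit) (Fin m ⊕ Unit) ℝ} {Ψ : ℂ → Matrix (Fin m) (Fin m) ℂ}
  {β : ℂ → Fin m → ℂ}

/-! ### the coordinate `q` -/

theorem qq_add_nat (ζ : ℂ) (a : ℕ) : qq (ζ + a) = qq ζ := by
  unfold qq
  rw [mul_add, Complex.exp_add]
  have h : Complex.exp (2 * Real.pi * I * (a : ℂ)) = 1 := by
    have := Complex.exp_nat_mul_two_pi_mul_I a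
    rw [← this]
    congr 1
    ring
  rw [h, mul_one]

theorem norm_qq (ζ : ℂ) : ‖qq ζ‖ = Real.exp (-(2 * Real.pi * ζ.im)) := by
  unfold qq
  rw [Complex.norm_exp]
  congr 1
  simp

theorem hasDerivAt_qq (ζ : ℂ) : HasDerivAt qq (2 * Real.pi * I * qq ζ) ζ := by
  have h1 : HasDerivAt (fun z : ℂ => 2 * Real.pi * I * z) (2 * Real.pi * I) ζ := by
    simpa using (hasDerivAt_id ζ).const_mul (2 * Real.pi * I : ℂ)
  have h2 := h1.cexp
  have h3 : 2 * Real.pi * I * qq ζ = Complex.exp (2 * Real.pi * I * ζ) * (2 * Real.pi * I) := by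
    rw [mul_comm]
    rfl
  rw [h3]
  exact h2

theorem cus3_tendsto_im : Tendsto Complex.im strip atTop := by
  unfold strip
  exact tendsto_comap.mono_left inf_le_left

/-- `‖q‖` beats powers of `Im ζ` -/
theorem tendsto_qq_mul_pow (C : ℕ) : Tendsto (fun ζ => ‖qq ζ‖ * ζ.im ^ C) strip (𝓝 0) := by
  have h1 : Tendsto (fun x : ℝ => x ^ C * Real.exp (-x)) atTop (𝓝 0) :=
    Real.tendsto_pow_mul_exp_neg_atTop_nhds_zero C
  have h2 := h1.comp cus3_tendsto_im
  apply squeeze_zero' _ _ h2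
  · filter_upwards [cus2_eventually 0] with ζ hζ
    have := hζ.1
    positivity
  · filter_upwards [cus2_eventually 0] with ζ hζ
    have h3 := hζ.1
    simp only [Function.comp]
    rw [norm_qq, mul_comm]
    apply mul_le_mul_of_nonneg_left _ (by positivity)
    apply Real.exp_le_exp.2
    have := Real.pi_gt_three
    nlinarith

theorem tendsto_qq : Tendsto qq strip (𝓝 0) := by
  rw [tendsto_zero_iff_norm_tendsto_zero]
  simpa using tendsto_qq_mul_pow 0

theorem cus3_hasDerivAt_exp {α : Type*} [Fintype α] [DecidableEq α] {A : Matrix α α ℂ}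
    (h : IsNilpotent A) (ζ : ℂ) (i j : α) :
    HasDerivAt (fun ζ => IsNilpotent.exp (ζ • A) i j) ((A * IsNilpotent.exp (ζ • A)) i j) ζ := by
  obtain ⟨k, hk⟩ := h
  have hk1 : A ^ (k + 1) = 0 := by rw [pow_succ, hk, zero_mul]
  have e1 : (fun ζ : ℂ => IsNilpotent.exp (ζ • A) i j) =
      fun ζ : ℂ => ∑ l ∈ Finset.range (k + 1), (ζ ^ l / (l.factorial : ℂ)) * (A ^ l) i j := by
    funext ζ
    rw [cus1_exp_eq _ hk1, Matrix.sum_apply]
    rfl
  have e2 : (A * IsNilpotent.exp (ζ • A)) i j =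
      ∑ l ∈ Finset.range (k + 1), ((l : ℂ) * ζ ^ (l - 1) / (l.factorial : ℂ)) * (A ^ l) i j := by
    rw [Finset.sum_range_succ', cus1_exp_eq _ hk, Finset.mul_sum, Matrix.sum_apply]
    simp only [Nat.cast_zero, zero_mul, zero_div, add_zero]
    apply Finset.sum_congr rfl
    intro l _
    rw [Matrix.mul_smul, ← pow_succ', Matrix.smul_apply, smul_eq_mul, Nat.add_sub_cancel,
      Nat.factorial_succ]
    have h1 : ((l : ℂ) + 1) ≠ 0 := by exact_mod_cast Nat.succ_ne_zero l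
    have h2 : (l.factorial : ℂ) ≠ 0 := by exact_mod_cast Nat.factorial_ne_zero l
    push_cast
    field_simp
  rw [e1, e2]
  apply HasDerivAt.fun_sum
  intro l _
  exact ((hasDerivAt_pow l ζ).div_const _).mul_const _

theorem hasDerivAt_eH (hN : IsNilpotent N) (hr : ∀ j, N (Sum.inr ()) j = 0) (ζ : ℂ)
    (i j : Fin m) : HasDerivAt (fun ζ => eH N ζ i j) ((cm (hb N) * eH N ζ) i j) ζ :=
  cus3_hasDerivAt_exp (cus1_cm_nil (isNilpotent_hb hN hr)) ζ i j

theorem hasDerivAt_eV (hN : IsNilpotent N) (ζ : ℂ)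
    (i j : Fin m ⊕ Unit) : HasDerivAt (fun ζ => eV N ζ i j) ((cm N * eV N ζ) i j) ζ :=
  cus3_hasDerivAt_exp (cus1_cm_nil hN) ζ i j

end SP38
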