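import Pool.Agent.LibSP38.Cus3

open Matrix Complex Filter Topology
open scoped ComplexOrder ContDiff

namespace SP38

variable {m : ℕ} {N : Matrix (Fin m ⊕ Unit) (Fin m ⊕ Unit) ℝ} {Ψ : ℂ → Matrix (Fin m) (Fin m) ℂ}
  {β : ℂ → Fin m → ℂ}

/-! ### formulas for `VV` -/

theorem cus4_eV_elim_zero (hN : IsNilpotent N) (hr : ∀ j, N (Sum.inr ()) j = 0) (ζ : ℂ)
    (u : Fin m → ℂ) : eV N ζ *ᵥ Sum.elim u 0 = Sum.elim (eH N ζ *ᵥ u) 0 := by
  funext x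
  rcases x with i | j
  · show ∑ l, eV N ζ (Sum.inl i) l * (Sum.elim u 0 : Fin m ⊕ Unit → ℂ) l = ∑ l, eH N ζ i l * u l
    rw [Fintype.sum_sum_type]
    simp [eV_inl_inl hN hr]
  · show ∑ l, eV N ζ (Sum.inr j) l * (Sum.elim u 0 : Fin m ⊕ Unit → ℂ) l = 0
    rw [Fintype.sum_sum_type]
    simp [eV_inr hN hr]

theorem cus4_eV_elim_one (hN : IsNilpotent N) (hr : ∀ j, N (Sum.inr ()) j = 0) (ζ : ℂ)
    (u : Fin m → ℂ) :
    eV N ζ *ᵥ Sum.elim u 1 =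
      Sum.elim (fun i => (eV N ζ *ᵥ Sum.elim u 1) (Sum.inl i)) 1 := by
  funext x
  rcases x with i | j
  · rfl
  · show ∑ l, eV N ζ (Sum.inr j) l * (Sum.elim u 1 : Fin m ⊕ Unit → ℂ) l = 1
    rw [Fintype.sum_sum_type]
    simp [eV_inr hN hr]

theorem cus4_elim_add (u v : Fin m → ℂ) (a b : Unit → ℂ) :
    (Sum.elim (u + v) (a + b) : Fin m ⊕ Unit → ℂ) = Sum.elim u a + Sum.elim v b := by
  funext x
  rcases x with i | j <;> rfl

theorem cus4_neg_mul (hN : IsNilpotent N) (ζ : ℂ) : eV N (-ζ) * eV N ζ = 1 := by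
  rw [← eV_add hN, neg_add_cancel, eV_zero]

theorem cus4_mul_neg (hN : IsNilpotent N) (ζ : ℂ) : eV N ζ * eV N (-ζ) = 1 := by
  rw [← eV_add hN, add_neg_cancel, eV_zero]

/-- `exp (-ζ N)` applied to `(v, 1)` -/
theorem VV_eq_iff (hN : IsNilpotent N) (hr : ∀ j, N (Sum.inr ()) j = 0) (ζ : ℂ)
    (v f : Fin m → ℂ) :
    v = VV N β ζ + eH N ζ *ᵥ f ↔
      eV N (-ζ) *ᵥ Sum.elim v 1 = Sum.elim (β (qq ζ) + f) 1 := by
  have key : eV N ζ *ᵥ Sum.elim (β (qq ζ) + f) 1 = Sum.elim (VV N β ζ + eH N ζ *ᵥ f) 1 := by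
    have e : (Sum.elim (β (qq ζ) + f) 1 : Fin m ⊕ Unit → ℂ) =
        Sum.elim (β (qq ζ)) 1 + Sum.elim f 0 := by
      rw [← cus4_elim_add, add_zero]
    rw [e, Matrix.mulVec_add, cus4_eV_elim_zero hN hr, cus4_eV_elim_one hN hr,
      ← cus4_elim_add, add_zero]
    rfl
  constructor
  · intro h
    rw [h, ← key, Matrix.mulVec_mulVec, cus4_neg_mul hN, Matrix.one_mulVec]
  · intro h
    have h1 : eV N ζ *ᵥ (eV N (-ζ) *ᵥ Sum.elim v 1) = eV N ζ *ᵥ Sum.elim (β (qq ζ) + f) 1 := by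
      rw [h]
    rw [Matrix.mulVec_mulVec, cus4_mul_neg hN, Matrix.one_mulVec, key] at h1
    funext i
    exact congrFun h1 (Sum.inl i)

/-- applying `N`: `N (v, 1) = (hb N v + n0, 0)` -/
theorem mulVec_elim (hr : ∀ j, N (Sum.inr ()) j = 0) (v : Fin m → ℂ) :
    cm N *ᵥ Sum.elim v 1 = Sum.elim (cm (hb N) *ᵥ v + ofR (n0 N)) 0 := by
  funext x
  rcases x with i | j
  · show ∑ l, cm N (Sum.inl i) l * (Sum.elim v 1 : Fin m ⊕ Unit → ℂ) l =
      (∑ l, cm (hb N) i l * v l) + ofR (n0 N) i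
    rw [Fintype.sum_sum_type]
    simp [cm, hb, ofR, n0]
  · show ∑ l, cm N (Sum.inr j) l * (Sum.elim v 1 : Fin m ⊕ Unit → ℂ) l = 0
    apply Finset.sum_eq_zero
    intro l _
    rw [cus1_cm_row hr, zero_mul]

theorem cus4_exp_fixed {α : Type*} [Fintype α] [DecidableEq α] {A : Matrix α α ℂ}
    (h : IsNilpotent A) (v : α → ℂ) (hv : A *ᵥ v = 0) (ζ : ℂ) :
    IsNilpotent.exp (ζ • A) *ᵥ v = v := by
  obtain ⟨k, hk⟩ := h
  have hk1 : A ^ (k + 1) = 0 := by rw [pow_succ, hk, zero_mul]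
  rw [cus1_exp_eq _ hk1, Matrix.sum_mulVec, Finset.sum_range_succ', Finset.sum_eq_zero]
  · simp
  · intro l _
    have h2 : A ^ (l + 1) = A ^ l * A := pow_succ A l
    rw [Matrix.smul_mulVec, h2, ← Matrix.mulVec_mulVec, hv, Matrix.mulVec_zero, smul_zero]

/-- if `N (e, 1) = 0` then `VV = e + exp (ζ N) (β - e)` -/
theorem VV_of_fixed (hN : IsNilpotent N) (hr : ∀ j, N (Sum.inr ()) j = 0) {e : Fin m → ℝ}
    (he : cm (hb N) *ᵥ ofR e + ofR (n0 N) = 0) (ζ : ℂ) :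
    VV N β ζ = ofR e + eH N ζ *ᵥ (β (qq ζ) - ofR e) := by
  have h1 : cm N *ᵥ Sum.elim (ofR e) 1 = 0 := by
    rw [mulVec_elim hr, he]
    funext x
    rcases x with i | j <;> rfl
  have h2 : eV N ζ *ᵥ Sum.elim (ofR e) 1 = Sum.elim (ofR e) 1 :=
    cus4_exp_fixed (cus1_cm_nil hN) _ h1 ζ
  have h3 : (Sum.elim (β (qq ζ)) 1 : Fin m ⊕ Unit → ℂ) =
      Sum.elim (ofR e) 1 + Sum.elim (β (qq ζ) - ofR e) 0 := by
    rw [← cus4_elim_add, add_zero, add_sub_cancel]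
  funext i
  show (eV N ζ *ᵥ Sum.elim (β (qq ζ)) 1) (Sum.inl i) = _
  rw [h3, Matrix.mulVec_add, h2, cus4_eV_elim_zero hN hr]
  rfl

/-- derivatives -/
theorem deriv_VV (hN : IsNilpotent N) (hr : ∀ j, N (Sum.inr ()) j = 0) {ε : ℝ}
    (hβ : ∀ i, DifferentiableOn ℂ (fun q => β q i) (Metric.ball 0 ε)) {ζ : ℂ} (hζ : ‖qq ζ‖ < ε) :
    (fun i => deriv (fun ζ => VV N β ζ i) ζ) =
      eH N ζ *ᵥ (cm (hb N) *ᵥ β (qq ζ) + ofR (n0 N) +
        (2 * Real.pi * I * qq ζ) • fun i => deriv (fun q => β q i) (qq ζ)) := by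
  have hmem : Metric.ball (0 : ℂ) ε ∈ 𝓝 (qq ζ) :=
    Metric.isOpen_ball.mem_nhds (by simpa using hζ)
  have hβ' : ∀ i, HasDerivAt (fun z => β (qq z) i)
      (deriv (fun q => β q i) (qq ζ) * (2 * Real.pi * I * qq ζ)) ζ := by
    intro i
    exact ((hβ i).differentiableAt hmem).hasDerivAt.comp ζ (hasDerivAt_qq ζ)
  set w' : Fin m → ℂ := (2 * Real.pi * I * qq ζ) • fun i => deriv (fun q => β q i) (qq ζ) with hw'
  have h1 : ∀ i, HasDerivAt (fun z => VV N β z i)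
      (((cm N * eV N ζ) *ᵥ Sum.elim (β (qq ζ)) 1) (Sum.inl i) +
        (eV N ζ *ᵥ Sum.elim w' 0) (Sum.inl i)) ζ := by
    intro i
    have e : (fun z => VV N β z i) =
        fun z => ∑ l, eV N z (Sum.inl i) l * (Sum.elim (β (qq z)) 1 : Fin m ⊕ Unit → ℂ) l := rfl
    have e2 : ((cm N * eV N ζ) *ᵥ Sum.elim (β (qq ζ)) 1) (Sum.inl i) +
        (eV N ζ *ᵥ Sum.elim w' 0) (Sum.inl i) =
        ∑ l, ((cm N * eV N ζ) (Sum.inl i) l * (Sum.elim (β (qq ζ)) 1 : Fin m ⊕ Unit → ℂ) l +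
          eV N ζ (Sum.inl i) l * (Sum.elim w' 0 : Fin m ⊕ Unit → ℂ) l) := by
      rw [Finset.sum_add_distrib]
      rfl
    rw [e, e2]
    apply HasDerivAt.fun_sum
    intro l _
    apply HasDerivAt.mul (hasDerivAt_eV hN ζ _ _)
    rcases l with j | j
    · have e3 : w' j = deriv (fun q => β q j) (qq ζ) * (2 * Real.pi * I * qq ζ) := by
        rw [hw', Pi.smul_apply, smul_eq_mul, mul_comm]
      show HasDerivAt (fun z => β (qq z) j) (w' j) ζ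
      rw [e3]
      exact hβ' j
    · show HasDerivAt (fun z => (1 : ℂ)) 0 ζ
      exact hasDerivAt_const _ _
  have hcomm : cm N * eV N ζ = eV N ζ * cm N := by
    obtain ⟨k, hk⟩ := cus1_cm_nil hN
    unfold eV
    rw [cus1_exp_eq _ hk, Finset.sum_mul, Finset.mul_sum]
    apply Finset.sum_congr rfl
    intro i _
    rw [Matrix.smul_mul, Matrix.mul_smul, ← pow_succ, ← pow_succ']
  funext i
  rw [(h1 i).deriv, hcomm, ← Matrix.mulVec_mulVec, mulVec_elim hr, cus4_eV_elim_zero hN hr,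
    cus4_eV_elim_zero hN hr, Sum.elim_inl, Sum.elim_inl, ← Pi.add_apply, ← Matrix.mulVec_add]

theorem deriv_GG_mulVec (hN : IsNilpotent N) (hr : ∀ j, N (Sum.inr ()) j = 0) {ε : ℝ}
    (hΨ : ∀ i j, DifferentiableOn ℂ (fun q => Ψ q i j) (Metric.ball 0 ε)) {ζ : ℂ}
    (hζ : ‖qq ζ‖ < ε) (c : Fin m → ℂ) :
    (Matrix.of fun i j => deriv (fun ζ => GG N Ψ ζ i j) ζ) *ᵥ c =
      eH N ζ *ᵥ (cm (hb N) *ᵥ (Ψ (qq ζ) *ᵥ c) +
        (2 * Real.pi * I * qq ζ) •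
          ((Matrix.of fun i j => deriv (fun q => Ψ q i j) (qq ζ)) *ᵥ c)) := by
  have hmem : Metric.ball (0 : ℂ) ε ∈ 𝓝 (qq ζ) :=
    Metric.isOpen_ball.mem_nhds (by simpa using hζ)
  have hΨ' : ∀ i j, HasDerivAt (fun z => Ψ (qq z) i j)
      (deriv (fun q => Ψ q i j) (qq ζ) * (2 * Real.pi * I * qq ζ)) ζ := by
    intro i j
    exact ((hΨ i j).differentiableAt hmem).hasDerivAt.comp ζ (hasDerivAt_qq ζ)
  have h1 : (Matrix.of fun i j => deriv (fun ζ => GG N Ψ ζ i j) ζ) =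
      cm (hb N) * eH N ζ * Ψ (qq ζ) + (2 * Real.pi * I * qq ζ) •
        (eH N ζ * Matrix.of fun i j => deriv (fun q => Ψ q i j) (qq ζ)) := by
    ext i j
    rw [Matrix.of_apply, Matrix.add_apply, Matrix.smul_apply, Matrix.mul_apply, Matrix.mul_apply,
      Finset.smul_sum, ← Finset.sum_add_distrib]
    have h2 : HasDerivAt (fun z => GG N Ψ z i j)
        (∑ l, ((cm (hb N) * eH N ζ) i l * Ψ (qq ζ) l j +
          eH N ζ i l * (deriv (fun q => Ψ q l j) (qq ζ) * (2 * Real.pi * I * qq ζ)))) ζ := by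
      have e : (fun z => GG N Ψ z i j) = fun z => ∑ l, eH N z i l * Ψ (qq z) l j := rfl
      rw [e]
      apply HasDerivAt.fun_sum
      intro l _
      exact (hasDerivAt_eH hN hr ζ i l).mul (hΨ' l j)
    rw [h2.deriv]
    apply Finset.sum_congr rfl
    intro l _
    rw [Matrix.of_apply, smul_eq_mul]
    ring
  rw [h1, ← eH_comm hN hr, Matrix.add_mulVec, Matrix.smul_mulVec, Matrix.mulVec_add,
    Matrix.mulVec_smul]
  simp only [Matrix.mulVec_mulVec, Matrix.mul_assoc]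

end SP38
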