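import Mathlib

/-!
# Admissible extensions of `ℤ(0)` by a polarized variation on a curve `Δ \ ℍ` (MP_eeb1a4_ag)

Definitions used in the statement of `SplitPoints`.
-/

open Matrix Complex
open UpperHalfPlane hiding I

namespace SP38

variable {m : ℕ}

/-- complex conjugation of vectors -/
noncomputable def cj (v : Fin m → ℂ) : Fin m → ℂ := fun i => (starRingEnd ℂ) (v i)

/-- a real vector as a complex vector -/
noncomputable def ofR (e : Fin m → ℝ) : Fin m → ℂ := fun i => (e i : ℂ)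

/-- a real matrix as a complex matrix -/
noncomputable def cm {α β : Type*} (A : Matrix α β ℝ) : Matrix α β ℂ := A.map (fun x : ℝ => (x : ℂ))

/-- The Hodge filtration with period matrix `G`: `F^a` is spanned by the columns of `G` of
index at least `a`. -/
def Fil (p : Fin m → ℤ) (G : Matrix (Fin m) (Fin m) ℂ) (a : ℤ) : Submodule ℂ (Fin m → ℂ) :=
  Submodule.span ℂ {v | ∃ j, a ≤ p j ∧ v = fun i => G i j}

/-- the complex bilinear form with real matrix `Q` -/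
noncomputable def bil (Q : Matrix (Fin m) (Fin m) ℝ) (u v : Fin m → ℂ) : ℂ :=
  ∑ i, ∑ j, u i * (Q i j : ℂ) * v j

/-- `G` is the period matrix of a Hodge structure of weight `w` on `ℝ^m`, with Hodge numbers
`h^{a,w-a} = #{j | p j = a}`, polarized by `Q`. -/
structure IsPHS (w : ℤ) (p : Fin m → ℤ) (Q : Matrix (Fin m) (Fin m) ℝ)
    (G : Matrix (Fin m) (Fin m) ℂ) : Prop where
  unit : IsUnit G
  riem : ∀ a b : ℤ, w < a + b → ∀ u ∈ Fil p G a, ∀ v ∈ Fil p G b, bil Q u v = 0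
  pos : ∀ a : ℤ, ∀ v ∈ Fil p G a, cj v ∈ Fil p G (w - a) → v ≠ 0 →
    0 < (I ^ (2 * a - w) * bil Q v (cj v)).re ∧ (I ^ (2 * a - w) * bil Q v (cj v)).im = 0

/-- Over the upper half plane: a polarized variation `H` with period matrix `G z` (holomorphic,
Griffiths transversality), and an extension of the constant variation of type `(0,0)` by `H`;
its `F^0` is spanned by `F^0 H` and `(ν z, 1)`, with `ν` holomorphic and horizontal. -/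
structure IsVar (w : ℤ) (p : Fin m → ℤ) (Q : Matrix (Fin m) (Fin m) ℝ)
    (G : ℂ → Matrix (Fin m) (Fin m) ℂ) (ν : ℂ → Fin m → ℂ) : Prop where
  phs : ∀ z : ℂ, 0 < z.im → IsPHS w p Q (G z)
  holG : ∀ i j, DifferentiableOn ℂ (fun z => G z i j) {z : ℂ | 0 < z.im}
  holn : ∀ i, DifferentiableOn ℂ (fun z => ν z i) {z : ℂ | 0 < z.im}
  trG : ∀ z : ℂ, 0 < z.im → ∀ j, (fun i => deriv (fun z => G z i j) z) ∈ Fil p (G z) (p j - 1)
  trn : ∀ z : ℂ, 0 < z.im → (fun i => deriv (fun z => ν z i) z) ∈ Fil p (G z) (-1)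

/-- The extension descends to `Δ \ ℍ`: every `δ ∈ Δ` acts through an integral automorphism
`γ` of `(ℤ^m, Q)` and an integral vector `b`. -/
def Descends (p : Fin m → ℤ) (Q : Matrix (Fin m) (Fin m) ℝ)
    (G : ℂ → Matrix (Fin m) (Fin m) ℂ) (ν : ℂ → Fin m → ℂ)
    (Δ : Subgroup (Matrix.SpecialLinearGroup (Fin 2) ℝ)) : Prop :=
  ∀ δ ∈ Δ, ∃ (γ : Matrix (Fin m) (Fin m) ℤ) (b : Fin m → ℤ), IsUnit γ ∧
    (γ.map (fun x : ℤ => (x : ℝ)))ᵀ * Q * γ.map (fun x : ℤ => (x : ℝ)) = Q ∧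
    ∀ τ : ℍ,
      (∀ a, Fil p (G ((δ • τ : ℍ) : ℂ)) a =
        (Fil p (G (τ : ℂ)) a).map (Matrix.mulVecLin (γ.map (fun x : ℤ => (x : ℂ))))) ∧
      ν ((δ • τ : ℍ) : ℂ) - (γ.map (fun x : ℤ => (x : ℂ)) *ᵥ ν (τ : ℂ) + fun i => (b i : ℂ)) ∈
        Fil p (G ((δ • τ : ℍ) : ℂ)) 0

/-- the translation by `h` -/
def trans (h : ℝ) : Matrix.SpecialLinearGroup (Fin 2) ℝ :=
  ⟨!![1, h; 0, 1], by simp [Matrix.det_fin_two]⟩

/-- the block of `N` on `H` -/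
def hb (N : Matrix (Fin m ⊕ Unit) (Fin m ⊕ Unit) ℝ) : Matrix (Fin m) (Fin m) ℝ :=
  fun i j => N (Sum.inl i) (Sum.inl j)

/-- Admissibility at the cusp `σ ∞`: after a finite cover (absorbed in `h`) the monodromy is
unipotent, equal to `exp N` in the coordinate `ζ = τ / h`, `τ ↦ σ τ`, and the Hodge filtration
is `exp (ζ N)` times a filtration which is holomorphic in `q = exp (2 π i ζ)` on a full disc
(extension to Deligne's canonical extension). `N` acts on `ℝ^m ⊕ ℝ`, `N (ℝ^m ⊕ ℝ) ⊆ ℝ^m`. -/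
def AdmissibleAt (p : Fin m → ℤ) (Q : Matrix (Fin m) (Fin m) ℝ)
    (G : ℂ → Matrix (Fin m) (Fin m) ℂ) (ν : ℂ → Fin m → ℂ)
    (Δ : Subgroup (Matrix.SpecialLinearGroup (Fin 2) ℝ))
    (σ : Matrix.SpecialLinearGroup (Fin 2) ℝ) : Prop :=
  ∃ (h : ℝ) (N : Matrix (Fin m ⊕ Unit) (Fin m ⊕ Unit) ℝ)
    (Ψ : ℂ → Matrix (Fin m) (Fin m) ℂ) (β : ℂ → Fin m → ℂ) (ε : ℝ),
    0 < h ∧ σ * trans h * σ⁻¹ ∈ Δ ∧ 0 < ε ∧ IsNilpotent N ∧ (∀ j, N (Sum.inr ()) j = 0) ∧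
    (IsNilpotent.exp (hb N))ᵀ * Q * IsNilpotent.exp (hb N) = Q ∧
    (∀ i j, DifferentiableOn ℂ (fun q => Ψ q i j) (Metric.ball 0 ε)) ∧
    (∀ i, DifferentiableOn ℂ (fun q => β q i) (Metric.ball 0 ε)) ∧
    (∀ q ∈ Metric.ball (0 : ℂ) ε, IsUnit (Ψ q)) ∧
    ∀ τ : ℍ, ‖Complex.exp (2 * Real.pi * I * ((τ : ℂ) / h))‖ < ε →
      (∀ a, Fil p (G ((σ • τ : ℍ) : ℂ)) a =
        Fil p (IsNilpotent.exp (((τ : ℂ) / h) • cm (hb N)) *
          Ψ (Complex.exp (2 * Real.pi * I * ((τ : ℂ) / h)))) a) ∧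
      (ν ((σ • τ : ℍ) : ℂ) - fun i => (IsNilpotent.exp (((τ : ℂ) / h) • cm N) *ᵥ
        Sum.elim (β (Complex.exp (2 * Real.pi * I * ((τ : ℂ) / h)))) 1) (Sum.inl i)) ∈
        Fil p (G ((σ • τ : ℍ) : ℂ)) 0

/-- `Δ \ ℍ` is of finite type, with cusps `σ ∞`, `σ ∈ C`. -/
def FiniteType (Δ : Subgroup (Matrix.SpecialLinearGroup (Fin 2) ℝ))
    (C : Set (Matrix.SpecialLinearGroup (Fin 2) ℝ)) : Prop :=
  C.Finite ∧ ∃ (K : Set ℍ) (c : ℝ), IsCompact K ∧ 0 < c ∧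
    ∀ τ : ℍ, ∃ δ ∈ Δ, δ • τ ∈ K ∨ ∃ σ ∈ C, c < (σ⁻¹ • (δ • τ) : ℍ).im

/-- the extension splits at `z` over the field `K`: some `e ∈ K^m` has `(e, 1) ∈ F^0` -/
def SplitAt (K : Subfield ℝ) (p : Fin m → ℤ) (G : ℂ → Matrix (Fin m) (Fin m) ℂ)
    (ν : ℂ → Fin m → ℂ) (z : ℂ) : Prop :=
  ∃ e : Fin m → ℝ, (∀ i, e i ∈ K) ∧ ν z - ofR e ∈ Fil p (G z) 0

end SP38
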