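import Pool.Agent.LibSP38.Proj1
import Pool.Agent.LibSP38.WirtM

/-! Variations over an open set `Ω ⊆ ℂ`: smooth families of Hodge decompositions, Higgs field. -/

open Matrix Complex
open scoped ComplexOrder ContDiff

namespace SP38

variable {m : ℕ}

/-- a smooth horizontal family of polarized Hodge decompositions with Higgs field `θ` -/
structure PV (w : ℤ) (K : ℕ) (Q : Matrix (Fin m) (Fin m) ℝ) (Ω : Set ℂ)
    (P : ℂ → ℤ → Matrix (Fin m) (Fin m) ℂ) (θ : ℂ → Matrix (Fin m) (Fin m) ℂ) : Prop where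
  hd : ∀ z ∈ Ω, HD w K Q (P z)
  sm : ∀ a, Sm Ω (fun z => P z a)
  smθ : Sm Ω θ
  der : ∀ z ∈ Ω, ∀ a, DZ (fun z => P z a) z = θ z * P z a - P z a * θ z
  deg : ∀ z ∈ Ω, ∀ a, θ z * P z a = P z (a - 1) * θ z
  skew : ∀ z ∈ Ω, (θ z)ᵀ * cm Q + cm Q * θ z = 0

variable {w : ℤ} {K : ℕ} {p : Fin m → ℤ} {s : Equiv.Perm (Fin m)}
  {Q : Matrix (Fin m) (Fin m) ℝ} {Ω : Set ℂ}

/-! ### construction -/

variable {G : ℂ → Matrix (Fin m) (Fin m) ℂ}

theorem fam1_mulVec (G : Matrix (Fin m) (Fin m) ℂ) (c : Fin m → ℂ) :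
    G *ᵥ c = ∑ j, c j • (fun i => G i j) := by
  ext i
  simp [Matrix.mulVec, dotProduct, Finset.sum_apply, mul_comm]

theorem fam1_EE_mulVec (k : ℤ) (c : Fin m → ℂ) :
    EE p k *ᵥ c = fun j => if k ≤ p j then c j else 0 := by
  ext j
  rw [EE, Matrix.mulVec_diagonal]
  split_ifs <;> simp

theorem fam1_AA_mulVec {G : Matrix (Fin m) (Fin m) ℂ} (k : ℤ) (c : Fin m → ℂ)
    (hc : ∀ j, p j < k → c j = 0) : AA p s k G *ᵥ c = G *ᵥ c := by
  ext i
  simp only [Matrix.mulVec, dotProduct, AA, Matrix.of_apply]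
  refine Finset.sum_congr rfl fun j _ => ?_
  split_ifs with hj
  · rfl
  · rw [hc j (by omega), mul_zero, mul_zero]

theorem fam1_PI_mem {G : Matrix (Fin m) (Fin m) ℂ} (h : IsPHS w p Q G)
    (hs : ∀ j, p (s j) = w - p j) (k : ℤ) (v : Fin m → ℂ) :
    PI p s k G *ᵥ v ∈ Fil p G k := by
  rw [h.mem_Fil_iff_PI hs, Matrix.mulVec_mulVec, h.PI_mul hs, max_self]

theorem fam1_sm_AA (hΩ : IsOpen Ω) (hG : ∀ i j, DifferentiableOn ℂ (fun z => G z i j) Ω)
    (k : ℤ) : Sm Ω (fun z => AA p s k (G z)) := by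
  intro i j
  have h1 : SmS Ω (fun z => G z i j) := Sm.of_holo hΩ hG i j
  have h2 : SmS Ω (fun z => (G z).map (starRingEnd ℂ) i (s j)) :=
    Sm.conj (Sm.of_holo hΩ hG) i (s j)
  by_cases hk : k ≤ p j
  · have : (fun z => AA p s k (G z) i j) = fun z => G z i j := by
      ext z
      simp [AA, hk]
    rw [this]
    exact h1
  · have : (fun z => AA p s k (G z) i j) = fun z => (G z).map (starRingEnd ℂ) i (s j) := by
      ext z
      simp [AA, hk]
    rw [this]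
    exact h2

theorem fam1_DZ_AA (hΩ : IsOpen Ω) (hG : ∀ i j, DifferentiableOn ℂ (fun z => G z i j) Ω)
    (k : ℤ) {z : ℂ} (hz : z ∈ Ω) :
    DZ (fun z => AA p s k (G z)) z = DZ G z * EE p k := by
  ext i j
  rw [EE, Matrix.mul_diagonal]
  by_cases hk : k ≤ p j
  · have : (fun z => AA p s k (G z) i j) = fun z => G z i j := by
      ext z
      simp [AA, hk]
    simp only [DZ, Matrix.of_apply]
    rw [this, if_pos hk, mul_one]
  · have : (fun z => AA p s k (G z) i j) = fun z => (starRingEnd ℂ) (G z i (s j)) := by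
      ext z
      simp [AA, hk]
    simp only [DZ, Matrix.of_apply]
    rw [this, if_neg hk, mul_zero,
      dz_conj (SmS.differentiableAt hΩ (Sm.of_holo hΩ hG i (s j)) hz),
      dzb_of_holo ((hG i (s j)).differentiableAt (hΩ.mem_nhds hz)), map_zero]

theorem sm_PI (hΩ : IsOpen Ω) (hG : ∀ i j, DifferentiableOn ℂ (fun z => G z i j) Ω)
    (h : ∀ z ∈ Ω, IsPHS w p Q (G z)) (hs : ∀ j, p (s j) = w - p j) (k : ℤ) :
    Sm Ω (fun z => PI p s k (G z)) :=
  Sm.mul (Sm.mul (fam1_sm_AA hΩ hG k) (Sm.const (EE p k)))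
    (Sm.inv (fam1_sm_AA hΩ hG k) fun z hz => (h z hz).isUnit_AA hs k)

theorem fam1_EE_mul (k : ℤ) : EE p k * EE p k = EE p k := by
  rw [EE, Matrix.diagonal_mul_diagonal]
  congr 1
  ext j
  split_ifs <;> simp

/-- `∂ PI k = (1 - PI k) G' E k (A k)⁻¹` -/
theorem DZ_PI (hΩ : IsOpen Ω) (hG : ∀ i j, DifferentiableOn ℂ (fun z => G z i j) Ω)
    (h : ∀ z ∈ Ω, IsPHS w p Q (G z)) (hs : ∀ j, p (s j) = w - p j) (k : ℤ) {z : ℂ}
    (hz : z ∈ Ω) :
    DZ (fun z => PI p s k (G z)) z =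
      (1 - PI p s k (G z)) * DZ G z * EE p k * (AA p s k (G z))⁻¹ := by
  have hA := fam1_sm_AA (p := p) (s := s) hΩ hG k
  have hu : ∀ z ∈ Ω, IsUnit (AA p s k (G z)) := fun z hz => (h z hz).isUnit_AA hs k
  have hAE : Sm Ω (fun z => AA p s k (G z) * EE p k) := Sm.mul hA (Sm.const (EE p k))
  have e1 : DZ (fun z => PI p s k (G z)) z =
      DZ (fun z => AA p s k (G z) * EE p k) z * (AA p s k (G z))⁻¹ +
        AA p s k (G z) * EE p k * DZ (fun z => (AA p s k (G z))⁻¹) z :=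
    DZ_mul hΩ hz hAE (Sm.inv hA hu)
  have e2 : DZ (fun z => AA p s k (G z) * EE p k) z =
      DZ (fun z => AA p s k (G z)) z * EE p k + AA p s k (G z) * DZ (fun _ => EE p k) z :=
    DZ_mul hΩ hz hA (Sm.const (EE p k))
  rw [e1, e2, DZ_inv hΩ hz hA hu, DZ_const, mul_zero, add_zero, fam1_DZ_AA hΩ hG k hz,
    Matrix.mul_assoc (DZ G z) (EE p k) (EE p k), fam1_EE_mul, PI]
  rw [Matrix.sub_mul, Matrix.one_mul, Matrix.sub_mul, Matrix.sub_mul]
  simp only [Matrix.mul_neg, Matrix.mul_assoc, sub_eq_add_neg]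

theorem fam1_PI_mulVec_eq {G : Matrix (Fin m) (Fin m) ℂ} (h : IsPHS w p Q G)
    (hs : ∀ j, p (s j) = w - p j) (k : ℤ) (v : Fin m → ℂ) (hv : v ∈ Fil p G k) :
    PI p s k G *ᵥ v = v := (h.mem_Fil_iff_PI hs k v).mp hv

/-- the derivative maps combinations of columns of index `≥ l` to `F^{l-1}` -/
theorem fam1_deriv_mem (hΩ : IsOpen Ω) (hG : ∀ i j, DifferentiableOn ℂ (fun z => G z i j) Ω)
    (htr : ∀ z ∈ Ω, ∀ j, (fun i => deriv (fun z => G z i j) z) ∈ Fil p (G z) (p j - 1))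
    (l : ℤ) {z : ℂ} (hz : z ∈ Ω) (c : Fin m → ℂ) (hc : ∀ j, p j < l → c j = 0) :
    DZ G z *ᵥ c ∈ Fil p (G z) (l - 1) := by
  rw [DZ_of_holo hΩ hz hG, fam1_mulVec]
  refine Submodule.sum_mem _ fun j _ => ?_
  by_cases hj : p j < l
  · rw [hc j hj, zero_smul]
    exact Submodule.zero_mem _
  · exact Submodule.smul_mem _ _ (Fil_anti (G z) (by omega) (htr z hz j))

/-- `∂ PI k` kills `F^{k+1}` and the conjugate of `F^{w+1-k}`, and maps to
`F^{k-1}` and to the kernel of `PI k` -/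
theorem DZ_PI_props (hΩ : IsOpen Ω) (hG : ∀ i j, DifferentiableOn ℂ (fun z => G z i j) Ω)
    (h : ∀ z ∈ Ω, IsPHS w p Q (G z)) (hs : ∀ j, p (s j) = w - p j)
    (htr : ∀ z ∈ Ω, ∀ j, (fun i => deriv (fun z => G z i j) z) ∈ Fil p (G z) (p j - 1))
    (k : ℤ) {z : ℂ} (hz : z ∈ Ω) :
    DZ (fun z => PI p s k (G z)) z * PI p s k (G z) = DZ (fun z => PI p s k (G z)) z ∧
    DZ (fun z => PI p s k (G z)) z * PI p s (k + 1) (G z) = 0 ∧
    PI p s k (G z) * DZ (fun z => PI p s k (G z)) z = 0 ∧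
    PI p s (k - 1) (G z) * DZ (fun z => PI p s k (G z)) z = DZ (fun z => PI p s k (G z)) z := by
  have hU : IsUnit (AA p s k (G z)) := (h z hz).isUnit_AA hs k
  have hdet : IsUnit (AA p s k (G z)).det := (Matrix.isUnit_iff_isUnit_det _).mp hU
  have hinv : (AA p s k (G z))⁻¹ * AA p s k (G z) = 1 := Matrix.nonsing_inv_mul _ hdet
  rw [DZ_PI hΩ hG h hs k hz]
  have hidem : PI p s k (G z) * PI p s k (G z) = PI p s k (G z) := by
    rw [(h z hz).PI_mul hs, max_self]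
  refine ⟨?_, ?_, ?_, ?_⟩
  · conv_lhs => rw [PI.eq_def p s k (G z)]
    calc _ = (1 - AA p s k (G z) * EE p k * (AA p s k (G z))⁻¹) * DZ G z * EE p k *
          ((AA p s k (G z))⁻¹ * AA p s k (G z)) * EE p k * (AA p s k (G z))⁻¹ := by
            simp only [Matrix.mul_assoc]
      _ = (1 - AA p s k (G z) * EE p k * (AA p s k (G z))⁻¹) * DZ G z * (EE p k * EE p k) *
          (AA p s k (G z))⁻¹ := by
            rw [hinv, Matrix.mul_one]
            simp only [Matrix.mul_assoc]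
      _ = _ := by rw [fam1_EE_mul, ← PI.eq_def p s k (G z)]
  · apply Matrix.mulVec_injective
    ext1 v
    rw [← Matrix.mulVec_mulVec, Matrix.zero_mulVec]
    have hv : PI p s (k + 1) (G z) *ᵥ v ∈ Fil p (G z) (k + 1) :=
      fam1_PI_mem (h z hz) hs (k + 1) v
    obtain ⟨c, hc, hcv⟩ := (mem_Fil (h z hz).unit _ _).mp hv
    rw [hcv]
    have e1 : AA p s k (G z) *ᵥ c = G z *ᵥ c :=
      fam1_AA_mulVec k c (fun j hj => hc j (by omega))
    have e4 : (AA p s k (G z))⁻¹ *ᵥ (G z *ᵥ c) = c := by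
      rw [← e1, Matrix.mulVec_mulVec, hinv, Matrix.one_mulVec]
    have e5 : EE p k *ᵥ c = c := by
      rw [fam1_EE_mulVec]
      ext j
      split_ifs with hj
      · rfl
      · exact (hc j (by omega)).symm
    rw [← Matrix.mulVec_mulVec, e4, ← Matrix.mulVec_mulVec, e5, ← Matrix.mulVec_mulVec,
      Matrix.sub_mulVec, Matrix.one_mulVec, fam1_PI_mulVec_eq (h z hz) hs k, sub_self]
    have := fam1_deriv_mem hΩ hG htr (k + 1) hz c hc
    rwa [add_sub_cancel_right] at this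
  · have : PI p s k (G z) * (1 - PI p s k (G z)) = 0 := by
      rw [Matrix.mul_sub, Matrix.mul_one, hidem, sub_self]
    simp only [← Matrix.mul_assoc]
    rw [this]
    simp
  · apply Matrix.mulVec_injective
    ext1 v
    rw [← Matrix.mulVec_mulVec]
    set c := EE p k *ᵥ ((AA p s k (G z))⁻¹ *ᵥ v) with hc
    have e1 : ((1 - PI p s k (G z)) * DZ G z * EE p k * (AA p s k (G z))⁻¹) *ᵥ v =
        DZ G z *ᵥ c - PI p s k (G z) *ᵥ (DZ G z *ᵥ c) := by
      rw [← Matrix.mulVec_mulVec, ← Matrix.mulVec_mulVec, ← Matrix.mulVec_mulVec, ← hc,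
        Matrix.sub_mulVec, Matrix.one_mulVec]
    rw [e1]
    apply fam1_PI_mulVec_eq (h z hz) hs
    have hcz : ∀ j, p j < k → c j = 0 := by
      intro j hj
      rw [hc, fam1_EE_mulVec]
      exact if_neg (by omega)
    refine Submodule.sub_mem _ (fam1_deriv_mem hΩ hG htr k hz c hcz) ?_
    exact Fil_anti (G z) (by omega) (fam1_PI_mem (h z hz) hs k _)

end SP38
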