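import Pool.Agent.LibSP38.Fam1
import Pool.Agent.LibSP38.Proj2

open Matrix Complex
open scoped ComplexOrder ContDiff

namespace SP38

variable {m : ℕ} {w : ℤ} {K : ℕ} {p : Fin m → ℤ} {s : Equiv.Perm (Fin m)}
  {Q : Matrix (Fin m) (Fin m) ℝ} {Ω : Set ℂ}

variable {G : ℂ → Matrix (Fin m) (Fin m) ℂ}

theorem fam2_PI_eq_one {A : Matrix (Fin m) (Fin m) ℂ} (h : IsPHS w p Q A)
    (hs : ∀ j, p (s j) = w - p j) {k : ℤ} (hk : ∀ j, k ≤ p j) : PI p s k A = 1 := by
  have h1 : EE p k = 1 := by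
    unfold EE
    rw [← Matrix.diagonal_one]
    congr 1
    ext j
    simp [hk j]
  unfold PI
  rw [h1, mul_one, Matrix.mul_nonsing_inv _
    ((Matrix.isUnit_iff_isUnit_det _).mp (h.isUnit_AA hs k))]

theorem fam2_PI_eq_zero {A : Matrix (Fin m) (Fin m) ℂ} {k : ℤ} (hk : ∀ j, p j < k) :
    PI p s k A = 0 := by
  have h1 : EE p k = 0 := by
    unfold EE
    rw [← Matrix.diagonal_zero]
    congr 1
    ext j
    simp [hk j]
  unfold PI
  rw [h1, mul_zero, zero_mul]

theorem fam2_sum (K : ℕ) (b : ℤ) (X : ℤ → Matrix (Fin m) (Fin m) ℂ)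
    (hX : ∀ a, a ≠ b → X a = 0) (h0 : ∀ a : ℤ, a ≤ -K → X a = 0)
    (h1 : ∀ a : ℤ, (K : ℤ) < a → X a = 0) :
    ∑ a ∈ Finset.Icc (-(K : ℤ)) K, (a : ℂ) • (X a - X (a + 1)) = X b := by
  by_cases hb : -(K : ℤ) < b ∧ b ≤ K
  · simp only [smul_sub, Finset.sum_sub_distrib]
    rw [Finset.sum_eq_single b, Finset.sum_eq_single (b - 1)]
    · rw [sub_add_cancel, ← sub_smul]
      push_cast
      rw [sub_sub_cancel, one_smul]
    · intro a _ ha
      rw [hX (a + 1) (by omega), smul_zero]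
    · intro hn
      exact absurd (Finset.mem_Icc.mpr ⟨by omega, by omega⟩) hn
    · intro a _ ha
      rw [hX a ha, smul_zero]
    · intro hn
      exact absurd (Finset.mem_Icc.mpr ⟨by omega, by omega⟩) hn
  · have hall : ∀ a, X a = 0 := by
      intro a
      by_cases ha : a = b
      · subst ha
        by_cases h2 : a ≤ -(K : ℤ)
        · exact h0 a h2
        · exact h1 a (by
            by_contra h3
            exact hb ⟨by omega, by omega⟩)
      · exact hX a ha
    rw [hall b]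
    exact Finset.sum_eq_zero fun a _ => by rw [hall, hall, sub_zero, smul_zero]

theorem exists_PV (hΩ : IsOpen Ω) (hG : ∀ i j, DifferentiableOn ℂ (fun z => G z i j) Ω)
    (h : ∀ z ∈ Ω, IsPHS w p Q (G z)) (hs : ∀ j, p (s j) = w - p j)
    (htr : ∀ z ∈ Ω, ∀ j, (fun i => deriv (fun z => G z i j) z) ∈ Fil p (G z) (p j - 1))
    (hK : ∀ j, |p j| ≤ K) :
    ∃ θ : ℂ → Matrix (Fin m) (Fin m) ℂ, PV w K Q Ω (fun z => PP p s (G z)) θ := by
  have hhd : ∀ z ∈ Ω, HD w K Q (PP p s (G z)) := fun z hz => (h z hz).hd hs hK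
  have hsm : ∀ k, Sm Ω (fun z => PI p s k (G z)) := fun k => sm_PI hΩ hG h hs k
  have hPsm : ∀ a, Sm Ω (fun z => PP p s (G z) a) := fun a => (hsm a).sub (hsm (a + 1))
  obtain ⟨D, hD⟩ : ∃ D : ℤ → ℂ → Matrix (Fin m) (Fin m) ℂ,
      ∀ k z, DZ (fun z => PI p s k (G z)) z = D k z := ⟨_, fun _ _ => rfl⟩
  have hDP : ∀ a, ∀ z ∈ Ω, DZ (fun z => PP p s (G z) a) z = D a z - D (a + 1) z := by
    intro a z hz
    rw [← hD, ← hD]
    exact DZ_sub hΩ hz (hsm a) (hsm (a + 1))
  have hYsm : Sm Ω (fun z => YY K (PP p s (G z))) :=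
    Sm.sum _ fun a _ => Sm.smul (a : ℂ) (hPsm a)
  obtain ⟨θ, hθdef⟩ : ∃ θ : ℂ → Matrix (Fin m) (Fin m) ℂ,
      θ = DZ (fun z => YY K (PP p s (G z))) := ⟨_, rfl⟩
  have hθ : ∀ z ∈ Ω, θ z =
      ∑ a ∈ Finset.Icc (-(K : ℤ)) K, (a : ℂ) • (D a z - D (a + 1) z) := by
    intro z hz
    rw [hθdef]
    have h1 : DZ (fun z => YY K (PP p s (G z))) z =
        ∑ a ∈ Finset.Icc (-(K : ℤ)) K, DZ (fun z => (a : ℂ) • PP p s (G z) a) z :=
      DZ_sum hΩ hz _ fun a _ => Sm.smul (a : ℂ) (hPsm a)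
    rw [h1]
    refine Finset.sum_congr rfl fun a _ => ?_
    rw [DZ_smul hΩ hz (a : ℂ) (hPsm a), hDP a z hz]
  have hD0 : ∀ z ∈ Ω, ∀ a : ℤ, a ≤ -K → D a z = 0 := by
    intro z hz a ha
    rw [← hD, DZ_congr (F' := fun _ => (1 : Matrix (Fin m) (Fin m) ℂ)), DZ_const]
    filter_upwards [hΩ.mem_nhds hz] with x hx
    exact fam2_PI_eq_one (h x hx) hs fun j => by
      have := abs_le.mp (hK j)
      omega
  have hD1 : ∀ z ∈ Ω, ∀ a : ℤ, (K : ℤ) < a → D a z = 0 := by
    intro z hz a ha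
    rw [← hD, DZ_congr (F' := fun _ => (0 : Matrix (Fin m) (Fin m) ℂ)), DZ_const]
    filter_upwards [hΩ.mem_nhds hz] with x hx
    exact fam2_PI_eq_zero fun j => by
      have := abs_le.mp (hK j)
      omega
  have hDr : ∀ z ∈ Ω, ∀ a l, D a z * PI p s l (G z) = if l ≤ a then D a z else 0 := by
    intro z hz a l
    obtain ⟨e1, e2, e3, e4⟩ := DZ_PI_props hΩ hG h hs htr a hz
    rw [hD] at e1 e2 e3 e4
    split_ifs with hl
    · rw [← e1, mul_assoc, (h z hz).PI_mul hs a l, max_eq_left hl]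
    · have h1 : PI p s l (G z) = PI p s (a + 1) (G z) * PI p s l (G z) := by
        rw [(h z hz).PI_mul hs (a + 1) l, max_eq_right (by omega)]
      rw [h1, ← mul_assoc, e2, zero_mul]
  have hDl : ∀ z ∈ Ω, ∀ a l, PI p s l (G z) * D a z = if l ≤ a - 1 then D a z else 0 := by
    intro z hz a l
    obtain ⟨e1, e2, e3, e4⟩ := DZ_PI_props hΩ hG h hs htr a hz
    rw [hD] at e1 e2 e3 e4
    split_ifs with hl
    · rw [← e4, ← mul_assoc, (h z hz).PI_mul hs l (a - 1), max_eq_right hl]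
    · have h1 : PI p s l (G z) = PI p s l (G z) * PI p s a (G z) := by
        rw [(h z hz).PI_mul hs l a, max_eq_left (by omega)]
      rw [h1, mul_assoc, e3, mul_zero]
  have key : ∀ z ∈ Ω, ∀ (φ : Matrix (Fin m) (Fin m) ℂ →ₗ[ℂ] Matrix (Fin m) (Fin m) ℂ) (b : ℤ),
      (∀ a, a ≠ b → φ (D a z) = 0) → φ (θ z) = φ (D b z) := by
    intro z hz φ b hb
    rw [hθ z hz, map_sum]
    simp only [map_smul, map_sub]
    exact fam2_sum K b (fun a => φ (D a z)) hb (fun a ha => by rw [hD0 z hz a ha, map_zero])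
      (fun a ha => by rw [hD1 z hz a ha, map_zero])
  have hcomm : ∀ z ∈ Ω, ∀ l, θ z * PI p s l (G z) - PI p s l (G z) * θ z = D l z := by
    intro z hz l
    have h1 := key z hz (LinearMap.mulRight ℂ (PI p s l (G z)) -
      LinearMap.mulLeft ℂ (PI p s l (G z))) l (by
        intro a ha
        simp only [LinearMap.sub_apply, LinearMap.mulRight_apply, LinearMap.mulLeft_apply]
        rw [hDr z hz, hDl z hz]
        split_ifs with h2 h3 h3
        · exact sub_self _
        · omega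
        · omega
        · exact sub_self _)
    simp only [LinearMap.sub_apply, LinearMap.mulRight_apply, LinearMap.mulLeft_apply] at h1
    rw [h1, hDr z hz, hDl z hz, if_pos le_rfl, if_neg (by omega), sub_zero]
  have hθP : ∀ z ∈ Ω, ∀ b, θ z * PP p s (G z) b = D b z := by
    intro z hz b
    have h1 := key z hz (LinearMap.mulRight ℂ (PP p s (G z) b)) b (by
        intro a ha
        simp only [LinearMap.mulRight_apply, PP, mul_sub]
        rw [hDr z hz, hDr z hz]
        split_ifs with h2 h3 h3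
        · exact sub_self _
        · omega
        · omega
        · exact sub_self _)
    simp only [LinearMap.mulRight_apply] at h1
    rw [h1, PP, mul_sub, hDr z hz, hDr z hz, if_pos le_rfl, if_neg (by omega), sub_zero]
  have hPθ : ∀ z ∈ Ω, ∀ b, PP p s (G z) (b - 1) * θ z = D b z := by
    intro z hz b
    have h1 := key z hz (LinearMap.mulLeft ℂ (PP p s (G z) (b - 1))) b (by
        intro a ha
        simp only [LinearMap.mulLeft_apply, PP, sub_mul]
        rw [hDl z hz, hDl z hz]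
        split_ifs with h2 h3 h3
        · exact sub_self _
        · omega
        · omega
        · exact sub_self _)
    simp only [LinearMap.mulLeft_apply] at h1
    rw [h1, PP, sub_mul, hDl z hz, hDl z hz, if_pos le_rfl, if_neg (by omega), sub_zero]
  have hder : ∀ z ∈ Ω, ∀ a, DZ (fun z => PP p s (G z) a) z =
      θ z * PP p s (G z) a - PP p s (G z) a * θ z := by
    intro z hz a
    rw [hDP a z hz, ← hcomm z hz a, ← hcomm z hz (a + 1), PP, mul_sub, sub_mul]
    abel
  have hdeg : ∀ z ∈ Ω, ∀ a, θ z * PP p s (G z) a = PP p s (G z) (a - 1) * θ z := by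
    intro z hz a
    rw [hθP z hz, hPθ z hz]
  refine ⟨θ, hhd, hPsm, ?_, hder, hdeg, ?_⟩
  · rw [hθdef]
    exact hYsm.DZ hΩ
  · intro z hz
    have hpiece : ∀ a b, (PP p s (G z) a)ᵀ * ((θ z)ᵀ * cm Q + cm Q * θ z) * PP p s (G z) b
        = 0 := by
      intro a b
      have hexp : (PP p s (G z) a)ᵀ * ((θ z)ᵀ * cm Q + cm Q * θ z) * PP p s (G z) b =
          (θ z * PP p s (G z) a)ᵀ * cm Q * PP p s (G z) b +
            (PP p s (G z) a)ᵀ * cm Q * (θ z * PP p s (G z) b) := by
        rw [Matrix.transpose_mul]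
        simp only [mul_add, add_mul, mul_assoc]
      rw [hexp]
      by_cases hab : a + b = w
      · rw [hdeg z hz a, hdeg z hz b, Matrix.transpose_mul]
        have h1 := (hhd z hz).orth (a - 1) b (by omega)
        have h2 := (hhd z hz).orth a (b - 1) (by omega)
        have h3 : (θ z)ᵀ * (PP p s (G z) (a - 1))ᵀ * cm Q * PP p s (G z) b =
            (θ z)ᵀ * ((PP p s (G z) (a - 1))ᵀ * cm Q * PP p s (G z) b) := by
          simp only [mul_assoc]
        have h4 : (PP p s (G z) a)ᵀ * cm Q * (PP p s (G z) (b - 1) * θ z) =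
            ((PP p s (G z) a)ᵀ * cm Q * PP p s (G z) (b - 1)) * θ z := by
          simp only [mul_assoc]
        rw [h3, h4, h1, h2, mul_zero, zero_mul, add_zero]
      · have horth : ∀ x ∈ Ω, (PP p s (G x) a)ᵀ * cm Q * PP p s (G x) b = 0 :=
          fun x hx => (hhd x hx).orth a b hab
        have h0 : DZ (fun x => (PP p s (G x) a)ᵀ * cm Q * PP p s (G x) b) z = 0 := by
          rw [DZ_congr (F' := fun _ => (0 : Matrix (Fin m) (Fin m) ℂ)), DZ_const]
          filter_upwards [hΩ.mem_nhds hz] with x hx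
          exact horth x hx
        have hT : Sm Ω (fun x => (PP p s (G x) a)ᵀ) := (hPsm a).transpose
        have hC : Sm Ω (fun _ : ℂ => cm Q) := Sm.const _
        have hTC : Sm Ω (fun x => (PP p s (G x) a)ᵀ * cm Q) := hT.mul hC
        rw [DZ_mul hΩ hz hTC (hPsm b), DZ_mul hΩ hz hT hC, DZ_const, mul_zero, add_zero,
          DZ_transpose, hder z hz a, hder z hz b] at h0
        have h1 := horth z hz
        have h2 : (θ z * PP p s (G z) a - PP p s (G z) a * θ z)ᵀ * cm Q * PP p s (G z) b =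
            (θ z * PP p s (G z) a)ᵀ * cm Q * PP p s (G z) b -
              (θ z)ᵀ * ((PP p s (G z) a)ᵀ * cm Q * PP p s (G z) b) := by
          rw [Matrix.transpose_sub, Matrix.transpose_mul (PP p s (G z) a) (θ z)]
          simp only [sub_mul, mul_assoc]
        have h3 : (PP p s (G z) a)ᵀ * cm Q * (θ z * PP p s (G z) b - PP p s (G z) b * θ z) =
            (PP p s (G z) a)ᵀ * cm Q * (θ z * PP p s (G z) b) -
              ((PP p s (G z) a)ᵀ * cm Q * PP p s (G z) b) * θ z := by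
          simp only [mul_sub, mul_assoc]
        rw [h2, h3, h1, mul_zero, zero_mul, sub_zero, sub_zero] at h0
        exact h0
    have hsum := (hhd z hz).sum
    have hS : (θ z)ᵀ * cm Q + cm Q * θ z =
        (∑ a ∈ Finset.Icc (-(K : ℤ)) K, PP p s (G z) a)ᵀ * ((θ z)ᵀ * cm Q + cm Q * θ z) *
          (∑ a ∈ Finset.Icc (-(K : ℤ)) K, PP p s (G z) a) := by
      rw [hsum, Matrix.transpose_one, one_mul, mul_one]
    rw [hS, Matrix.transpose_sum, Finset.sum_mul, Finset.sum_mul]
    refine Finset.sum_eq_zero fun a _ => ?_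
    rw [Finset.mul_sum]
    exact Finset.sum_eq_zero fun b _ => hpiece a b

end SP38
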