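import Pool.Agent.LibSP38.Fam1
import Pool.Agent.LibSP38.HD2

open Matrix Complex
open scoped ComplexOrder ContDiff

namespace SP38

variable {m : ℕ} {w : ℤ} {K : ℕ} {p : Fin m → ℤ} {s : Equiv.Perm (Fin m)}
  {Q : Matrix (Fin m) (Fin m) ℝ} {Ω : Set ℂ}

variable {P : ℂ → ℤ → Matrix (Fin m) (Fin m) ℂ} {θ : ℂ → Matrix (Fin m) (Fin m) ℂ}

private theorem Fam3_ext {P : ℤ → Matrix (Fin m) (Fin m) ℂ} (h : HD w K Q P)
    {A B : Matrix (Fin m) (Fin m) ℂ} (hAB : ∀ b, A * P b = B * P b) : A = B := by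
  rw [← mul_one A, ← mul_one B, ← h.sum, Finset.mul_sum, Finset.mul_sum]
  exact Finset.sum_congr rfl fun b _ => hAB b

private theorem Fam3_YY_mul {P : ℤ → Matrix (Fin m) (Fin m) ℂ} (h : HD w K Q P) (b : ℤ) :
    YY K P * P b = (b : ℂ) • P b := by
  rw [YY, Finset.sum_mul]
  have h1 : ∀ a ∈ Finset.Icc (-(K : ℤ)) K, (a : ℂ) • P a * P b =
      if a = b then (b : ℂ) • P b else 0 := by
    intro a _
    rw [smul_mul_assoc, h.mul]
    split_ifs with hab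
    · rw [hab]
    · rw [smul_zero]
  rw [Finset.sum_congr rfl h1, Finset.sum_ite_eq']
  split_ifs with hb
  · rfl
  · rw [Finset.mem_Icc, ← abs_le, not_le] at hb
    rw [h.supp b hb, smul_zero]

private theorem Fam3_comm {P : ℤ → Matrix (Fin m) (Fin m) ℂ} (h : HD w K Q P)
    {X : Matrix (Fin m) (Fin m) ℂ} {c : ℤ} (hX : ∀ a, X * P a = P (a + c) * X) :
    X * YY K P - YY K P * X = -(c : ℂ) • X := by
  refine Fam3_ext h fun b => ?_
  have h1 : X * YY K P * P b = (b : ℂ) • (X * P b) := by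
    rw [mul_assoc, Fam3_YY_mul h, mul_smul_comm]
  have h2 : YY K P * X * P b = ((b : ℂ) + c) • (X * P b) := by
    rw [mul_assoc, hX b, ← mul_assoc, Fam3_YY_mul h, smul_mul_assoc]
    push_cast
    rfl
  rw [sub_mul, h1, h2, ← sub_smul, smul_mul_assoc]
  congr 1
  ring

private theorem Fam3_conjP (h : PV w K Q Ω P θ) {z : ℂ} (hz : z ∈ Ω) (a : ℤ) :
    P z a = (P z (w - a)).map (starRingEnd ℂ) := by
  rw [(h.hd z hz).conj]
  congr 1
  ring

private theorem Fam3_sm_YY (h : PV w K Q Ω P θ) : Sm Ω (fun z => YY K (P z)) :=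
  Sm.sum _ fun a _ => (h.sm a).smul (a : ℂ)

private theorem Fam3_map_mul (A B : Matrix (Fin m) (Fin m) ℂ) :
    (A * B).map (starRingEnd ℂ) = A.map (starRingEnd ℂ) * B.map (starRingEnd ℂ) :=
  Matrix.map_mul

private theorem Fam3_map_sub (A B : Matrix (Fin m) (Fin m) ℂ) :
    (A - B).map (starRingEnd ℂ) = A.map (starRingEnd ℂ) - B.map (starRingEnd ℂ) :=
  Matrix.map_sub _ (fun x y => map_sub _ x y) A B

/-- `∂̄ P = [θ̄, P]` (conjugate of `der`) -/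
theorem PV.derB (hΩ : IsOpen Ω) (h : PV w K Q Ω P θ) {z : ℂ} (hz : z ∈ Ω) (a : ℤ) :
    DB (fun z => P z a) z =
      (θ z).map (starRingEnd ℂ) * P z a - P z a * (θ z).map (starRingEnd ℂ) := by
  have h1 : DB (fun z => P z a) z = DB (fun z => (P z (w - a)).map (starRingEnd ℂ)) z :=
    DB_congr (Filter.eventually_of_mem (hΩ.mem_nhds hz) fun x hx => Fam3_conjP h hx a)
  rw [h1, DB_conj hΩ hz (h.sm (w - a)), h.der z hz, Fam3_map_sub, Fam3_map_mul, Fam3_map_mul,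
    ← Fam3_conjP h hz a]

theorem PV.degB (h : PV w K Q Ω P θ) {z : ℂ} (hz : z ∈ Ω) (a : ℤ) :
    (θ z).map (starRingEnd ℂ) * P z a = P z (a + 1) * (θ z).map (starRingEnd ℂ) := by
  have h1 := congrArg (fun M : Matrix (Fin m) (Fin m) ℂ => M.map (starRingEnd ℂ))
    (h.deg z hz (w - a))
  simp only [Fam3_map_mul] at h1
  rw [← Fam3_conjP h hz a] at h1
  rw [h1, Fam3_conjP h hz (a + 1), show w - (a + 1) = w - a - 1 by ring]

private theorem Fam3_comm_θ (h : PV w K Q Ω P θ) {z : ℂ} (hz : z ∈ Ω) :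
    θ z * YY K (P z) - YY K (P z) * θ z = θ z := by
  have h1 := Fam3_comm (h.hd z hz) (c := -1) (X := θ z) (fun a => by
    rw [h.deg z hz a]
    rfl)
  rw [h1]
  simp

private theorem Fam3_comm_θ' (h : PV w K Q Ω P θ) {z : ℂ} (hz : z ∈ Ω) :
    (θ z).map (starRingEnd ℂ) * YY K (P z) - YY K (P z) * (θ z).map (starRingEnd ℂ) =
      -(θ z).map (starRingEnd ℂ) := by
  have h1 := Fam3_comm (h.hd z hz) (c := 1) (X := (θ z).map (starRingEnd ℂ))
    (fun a => h.degB hz a)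
  rw [h1]
  simp

theorem PV.DZ_YY (hΩ : IsOpen Ω) (h : PV w K Q Ω P θ) {z : ℂ} (hz : z ∈ Ω) :
    DZ (fun z => YY K (P z)) z = θ z := by
  have h1 : DZ (fun z => YY K (P z)) z = θ z * YY K (P z) - YY K (P z) * θ z := by
    have h2 : DZ (fun z => YY K (P z)) z =
        ∑ a ∈ Finset.Icc (-(K : ℤ)) K, DZ (fun z => (a : ℂ) • P z a) z :=
      DZ_sum hΩ hz _ fun a _ => (h.sm a).smul (a : ℂ)
    rw [h2, YY, Finset.mul_sum, Finset.sum_mul, ← Finset.sum_sub_distrib]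
    refine Finset.sum_congr rfl fun a _ => ?_
    rw [DZ_smul hΩ hz _ (h.sm a), h.der z hz, smul_sub, mul_smul_comm, smul_mul_assoc]
  rw [h1, Fam3_comm_θ h hz]

theorem PV.DB_YY (hΩ : IsOpen Ω) (h : PV w K Q Ω P θ) {z : ℂ} (hz : z ∈ Ω) :
    DB (fun z => YY K (P z)) z = -(θ z).map (starRingEnd ℂ) := by
  have h1 : DB (fun z => YY K (P z)) z =
      (θ z).map (starRingEnd ℂ) * YY K (P z) - YY K (P z) * (θ z).map (starRingEnd ℂ) := by
    have h2 : DB (fun z => YY K (P z)) z =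
        ∑ a ∈ Finset.Icc (-(K : ℤ)) K, DB (fun z => (a : ℂ) • P z a) z :=
      DB_sum hΩ hz _ fun a _ => (h.sm a).smul (a : ℂ)
    rw [h2, YY, Finset.mul_sum, Finset.sum_mul, ← Finset.sum_sub_distrib]
    refine Finset.sum_congr rfl fun a _ => ?_
    rw [DB_smul hΩ hz _ (h.sm a), h.derB hΩ hz, smul_sub, mul_smul_comm, smul_mul_assoc]
  rw [h1, Fam3_comm_θ' h hz]

private theorem Fam3_DB_θ (hΩ : IsOpen Ω) (h : PV w K Q Ω P θ) {z : ℂ} (hz : z ∈ Ω) :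
    DB θ z = -DZ (fun z => (θ z).map (starRingEnd ℂ)) z := by
  have h1 : DB θ z = DB (DZ (fun z => YY K (P z))) z :=
    DB_congr (Filter.eventually_of_mem (hΩ.mem_nhds hz) fun x hx => (h.DZ_YY hΩ hx).symm)
  have h2 : DZ (DB (fun z => YY K (P z))) z =
      DZ (fun z => (-1 : ℂ) • (θ z).map (starRingEnd ℂ)) z :=
    DZ_congr (Filter.eventually_of_mem (hΩ.mem_nhds hz) fun x hx => by
      rw [h.DB_YY hΩ hx, neg_smul, one_smul])
  rw [h1, ← DZ_DB hΩ hz (Fam3_sm_YY h), h2, DZ_smul hΩ hz _ h.smθ.conj, neg_smul, one_smul]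

/-- `∂̄ θ = [θ̄, θ]` -/
theorem PV.DB_θ (hΩ : IsOpen Ω) (h : PV w K Q Ω P θ) {z : ℂ} (hz : z ∈ Ω) :
    DB θ z = (θ z).map (starRingEnd ℂ) * θ z - θ z * (θ z).map (starRingEnd ℂ) := by
  have hY := Fam3_sm_YY h
  have e2 : DB (fun z => θ z * YY K (P z) - YY K (P z) * θ z) z = DB θ z :=
    DB_congr (Filter.eventually_of_mem (hΩ.mem_nhds hz) fun x hx => Fam3_comm_θ h hx)
  rw [DB_sub hΩ hz (h.smθ.mul hY) (hY.mul h.smθ), DB_mul hΩ hz h.smθ hY, DB_mul hΩ hz hY h.smθ,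
    h.DB_YY hΩ hz] at e2
  have e3 : DZ (fun z => (θ z).map (starRingEnd ℂ) * YY K (P z) -
      YY K (P z) * (θ z).map (starRingEnd ℂ)) z =
      DZ (fun z => (-1 : ℂ) • (θ z).map (starRingEnd ℂ)) z :=
    DZ_congr (Filter.eventually_of_mem (hΩ.mem_nhds hz) fun x hx => by
      rw [Fam3_comm_θ' h hx, neg_smul, one_smul])
  have hW : DZ (fun z => (θ z).map (starRingEnd ℂ)) z = -DB θ z := by
    rw [Fam3_DB_θ hΩ h hz, neg_neg]
  rw [DZ_sub hΩ hz (h.smθ.conj.mul hY) (hY.mul h.smθ.conj), DZ_mul hΩ hz h.smθ.conj hY,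
    DZ_mul hΩ hz hY h.smθ.conj, h.DZ_YY hΩ hz, DZ_smul hΩ hz _ h.smθ.conj, hW, neg_smul,
    one_smul, neg_neg] at e3
  generalize DB θ z = Z at e2 e3 ⊢
  generalize (θ z).map (starRingEnd ℂ) = T at e2 e3 ⊢
  generalize YY K (P z) = Y at e2 e3
  generalize θ z = S at e2 e3 ⊢
  have h4 : (2 : ℂ) • Z = (2 : ℂ) • (T * S - S * T) := by
    rw [two_smul, two_smul]
    refine (congrArg₂ (· + ·) e2 e3).symm.trans ?_
    noncomm_ring
  exact smul_right_injective _ (two_ne_zero) h4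

theorem PV.DZ_θ_deg (hΩ : IsOpen Ω) (h : PV w K Q Ω P θ) {z : ℂ} (hz : z ∈ Ω) (a : ℤ) :
    DZ θ z * P z a = P z (a - 1) * DZ θ z := by
  have e1 : DZ (fun z => θ z * P z a) z = DZ (fun z => P z (a - 1) * θ z) z :=
    DZ_congr (Filter.eventually_of_mem (hΩ.mem_nhds hz) fun x hx => h.deg x hx a)
  rw [DZ_mul hΩ hz h.smθ (h.sm a), DZ_mul hΩ hz (h.sm (a - 1)) h.smθ, h.der z hz, h.der z hz] at e1
  have e2 := h.deg z hz a
  have e3 : θ z * (θ z * P z a) = θ z * (P z (a - 1) * θ z) := by rw [e2]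
  have e4 : θ z * P z a * θ z = P z (a - 1) * θ z * θ z := by rw [e2]
  rw [mul_sub, sub_mul, e3, ← mul_assoc (θ z) (P z a) (θ z), e4, ← mul_assoc] at e1
  have e5 := congrArg (fun M => M - (θ z * P z (a - 1) * θ z - P z (a - 1) * θ z * θ z)) e1
  simpa using e5

theorem PV.DZ_θ_skew (hΩ : IsOpen Ω) (h : PV w K Q Ω P θ) {z : ℂ} (hz : z ∈ Ω) :
    (DZ θ z)ᵀ * cm Q + cm Q * DZ θ z = 0 := by
  have e1 : DZ (fun z => (θ z)ᵀ * cm Q + cm Q * θ z) z =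
      DZ (fun _ => (0 : Matrix (Fin m) (Fin m) ℂ)) z :=
    DZ_congr (Filter.eventually_of_mem (hΩ.mem_nhds hz) fun x hx => h.skew x hx)
  have hc : Sm Ω (fun _ : ℂ => cm Q) := Sm.const _
  rw [DZ_add hΩ hz (h.smθ.transpose.mul hc) (hc.mul h.smθ), DZ_mul hΩ hz h.smθ.transpose hc,
    DZ_mul hΩ hz hc h.smθ, DZ_const, DZ_const, DZ_transpose] at e1
  simpa using e1

end SP38
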