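import Pool.Agent.LibSP38.Fam3

open Matrix Complex
open scoped ComplexOrder ContDiff

namespace SP38

variable {m : ℕ} {w : ℤ} {K : ℕ} {p : Fin m → ℤ} {s : Equiv.Perm (Fin m)}
  {Q : Matrix (Fin m) (Fin m) ℝ} {Ω : Set ℂ}

variable {P : ℂ → ℤ → Matrix (Fin m) (Fin m) ℂ} {θ : ℂ → Matrix (Fin m) (Fin m) ℂ}

/-- `f = tr (θ θ̄)` -/
noncomputable def ff (θ : ℂ → Matrix (Fin m) (Fin m) ℂ) (z : ℂ) : ℂ :=
  Matrix.trace (θ z * (θ z).map (starRingEnd ℂ))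

theorem fam4_adj (h : PV w K Q Ω P θ) {z : ℂ} (hz : z ∈ Ω) :
    adj (metr w K Q (P z)) (θ z) = (θ z).map (starRingEnd ℂ) :=
  (h.hd z hz).adj_deg (h.deg z hz) (h.skew z hz)

theorem PV.ff_eq (h : PV w K Q Ω P θ) {z : ℂ} (hz : z ∈ Ω) :
    (ff θ z).im = 0 ∧ (ff θ z).re = hs (metr w K Q (P z)) (θ z) := by
  unfold ff
  rw [← fam4_adj h hz]
  exact ⟨hs_im (h.hd z hz).posDef _, rfl⟩

theorem fam4_conj_conj (A : Matrix (Fin m) (Fin m) ℂ) :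
    (A.map (starRingEnd ℂ)).map (starRingEnd ℂ) = A := by
  ext i j
  simp

theorem fam4_DZ_conj (hΩ : IsOpen Ω) (h : PV w K Q Ω P θ) {z : ℂ} (hz : z ∈ Ω) :
    DZ (fun z => (θ z).map (starRingEnd ℂ)) z =
      θ z * (θ z).map (starRingEnd ℂ) - (θ z).map (starRingEnd ℂ) * θ z := by
  rw [DZ_conj hΩ hz h.smθ, h.DB_θ hΩ hz, Matrix.map_sub _ (fun x y => map_sub _ x y),
    Matrix.map_mul, Matrix.map_mul, fam4_conj_conj]

theorem PV.dz_ff (hΩ : IsOpen Ω) (h : PV w K Q Ω P θ) {z : ℂ} (hz : z ∈ Ω) :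
    dz (ff θ) z = Matrix.trace (DZ θ z * (θ z).map (starRingEnd ℂ)) := by
  have h1 : dz (ff θ) z = dz (fun z => Matrix.trace (θ z * (θ z).map (starRingEnd ℂ))) z := rfl
  rw [h1, dz_trace hΩ hz (h.smθ.mul h.smθ.conj), DZ_mul hΩ hz h.smθ h.smθ.conj,
    fam4_DZ_conj hΩ h hz, Matrix.trace_add]
  have h2 : Matrix.trace (θ z * (θ z * (θ z).map (starRingEnd ℂ) -
      (θ z).map (starRingEnd ℂ) * θ z)) = 0 := by
    rw [Matrix.mul_sub, Matrix.trace_sub, ← Matrix.mul_assoc, ← Matrix.mul_assoc,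
      Matrix.trace_mul_comm (θ z * (θ z).map (starRingEnd ℂ)) (θ z), ← Matrix.mul_assoc, sub_self]
  rw [h2, add_zero]

/-- `∂̄ ∂ f = tr (D D̄) + tr ([θ, θ̄]²)` -/
theorem PV.dzb_dz_ff (hΩ : IsOpen Ω) (h : PV w K Q Ω P θ) {z : ℂ} (hz : z ∈ Ω) :
    dzb (dz (ff θ)) z = Matrix.trace (DZ θ z * (DZ θ z).map (starRingEnd ℂ)) +
      Matrix.trace ((θ z * (θ z).map (starRingEnd ℂ) - (θ z).map (starRingEnd ℂ) * θ z) ^ 2) := by
  have hev : ∀ᶠ x in nhds z, x ∈ Ω := hΩ.mem_nhds hz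
  have h1 : dzb (dz (ff θ)) z =
      dzb (fun z => Matrix.trace (DZ θ z * (θ z).map (starRingEnd ℂ))) z :=
    dzb_congr (hev.mono fun x hx => h.dz_ff hΩ hx)
  have hD : Sm Ω (SP38.DZ θ) := h.smθ.DZ hΩ
  rw [h1, dzb_trace hΩ hz (hD.mul h.smθ.conj), DB_mul hΩ hz hD h.smθ.conj,
    DB_conj hΩ hz h.smθ, Matrix.trace_add, add_comm]
  congr 1
  rw [← DZ_DB hΩ hz h.smθ]
  have h2 : DZ (DB θ) z = DZ (fun z => (θ z).map (starRingEnd ℂ) * θ z -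
      θ z * (θ z).map (starRingEnd ℂ)) z := DZ_congr (hev.mono fun x hx => h.DB_θ hΩ hx)
  rw [h2, DZ_sub hΩ hz (h.smθ.conj.mul h.smθ) (h.smθ.mul h.smθ.conj),
    DZ_mul hΩ hz h.smθ.conj h.smθ, DZ_mul hΩ hz h.smθ h.smθ.conj, fam4_DZ_conj hΩ h hz]
  generalize DZ θ z = D
  generalize θ z = A
  generalize A.map (starRingEnd ℂ) = B
  have e1 : ((A * B - B * A) * A + B * D - (D * B + A * (A * B - B * A))) * B =
      (A * B - B * A) * (A * B) - A * ((A * B - B * A) * B) + (B * (D * B) - D * B * B) := by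
    noncomm_ring
  have e2 : (A * B - B * A) ^ 2 = (A * B - B * A) * (A * B) - (A * B - B * A) * (B * A) := by
    noncomm_ring
  rw [e1, e2, Matrix.trace_add, Matrix.trace_sub, Matrix.trace_sub, Matrix.trace_sub,
    Matrix.trace_mul_comm B (D * B), sub_self, add_zero, Matrix.trace_mul_comm A,
    Matrix.mul_assoc _ B A]

/-- the curvature inequality -/
theorem PV.curvature (hΩ : IsOpen Ω) (h : PV w K Q Ω P θ) (hK : 0 < K) (hm : 0 < m) {z : ℂ}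
    (hz : z ∈ Ω) :
    (ff θ z).re ^ 3 / ((K : ℝ) ^ 2 * m) ≤
      (ff θ z).re * (dzb (dz (ff θ)) z).re - ‖dz (ff θ) z‖ ^ 2 := by
  have hM := (h.hd z hz).posDef
  have hθ := fam4_adj h hz
  have hθ' : adj (metr w K Q (P z)) ((θ z).map (starRingEnd ℂ)) = θ z := by
    rw [← hθ, adj_adj hM]
  have hD : adj (metr w K Q (P z)) (DZ θ z) = (DZ θ z).map (starRingEnd ℂ) :=
    (h.hd z hz).adj_deg (h.DZ_θ_deg hΩ hz) (h.DZ_θ_skew hΩ hz)
  have hff := h.ff_eq hz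
  rw [h.dzb_dz_ff hΩ hz, h.dz_ff hΩ hz]
  set L := θ z * (θ z).map (starRingEnd ℂ) - (θ z).map (starRingEnd ℂ) * θ z with hL
  have hLadj : adj (metr w K Q (P z)) L = L := by
    rw [hL, adj_sub, adj_mul hM, adj_mul hM, hθ, hθ']
  have hYadj := (h.hd z hz).adj_YY
  -- `f² ≤ hs L * K² m`
  have h1 : Matrix.trace (L * YY K (P z)) = -ff θ z :=
    (h.hd z hz).trace_comm_YY (h.deg z hz) _
  have h2 : (ff θ z).re ^ 2 ≤ hs (metr w K Q (P z)) L * ((K : ℝ) ^ 2 * m) := by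
    have h3 := norm_trace_sq_le hM L (YY K (P z))
    rw [hYadj, h1, norm_neg] at h3
    have h4 : (ff θ z).re ^ 2 ≤ ‖ff θ z‖ ^ 2 := by
      rw [← sq_abs]
      exact pow_le_pow_left₀ (abs_nonneg _) (Complex.abs_re_le_norm _) 2
    refine h4.trans (h3.trans ?_)
    exact mul_le_mul_of_nonneg_left (h.hd z hz).hs_YY_le (hs_nonneg hM L)
  have h5 : ‖Matrix.trace (DZ θ z * (θ z).map (starRingEnd ℂ))‖ ^ 2 ≤
      hs (metr w K Q (P z)) (DZ θ z) * (ff θ z).re := by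
    have h3 := norm_trace_sq_le hM (DZ θ z) (θ z)
    rw [hθ] at h3
    rw [hff.2]
    exact h3
  have h6 : (Matrix.trace (DZ θ z * (DZ θ z).map (starRingEnd ℂ)) + Matrix.trace (L ^ 2)).re =
      hs (metr w K Q (P z)) (DZ θ z) + hs (metr w K Q (P z)) L := by
    rw [Complex.add_re]
    unfold hs
    rw [hD, hLadj, pow_two]
  rw [h6]
  have hf0 : 0 ≤ (ff θ z).re := by
    rw [hff.2]
    exact hs_nonneg hM _
  have hKm : 0 < (K : ℝ) ^ 2 * m := by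
    have h7 : (0 : ℝ) < K := by exact_mod_cast hK
    have h8 : (0 : ℝ) < m := by exact_mod_cast hm
    positivity
  rw [div_le_iff₀ hKm]
  have h9 : (ff θ z).re * (ff θ z).re ^ 2 ≤
      (ff θ z).re * (hs (metr w K Q (P z)) L * ((K : ℝ) ^ 2 * m)) :=
    mul_le_mul_of_nonneg_left h2 hf0
  have h10 : 0 ≤ (hs (metr w K Q (P z)) (DZ θ z) * (ff θ z).re -
      ‖Matrix.trace (DZ θ z * (θ z).map (starRingEnd ℂ))‖ ^ 2) * ((K : ℝ) ^ 2 * m) :=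
    mul_nonneg (by linarith) hKm.le
  nlinarith [h9, h10]

end SP38
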