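import Pool.Agent.LibSP38.Proj1

/-! From the variation on the upper half plane to local data. -/

open Matrix Complex Filter Topology
open UpperHalfPlane hiding I
open scoped ComplexOrder ContDiff

namespace SP38

variable {m : ℕ} {w : ℤ} {p : Fin m → ℤ} {Q : Matrix (Fin m) (Fin m) ℝ}
  {G : ℂ → Matrix (Fin m) (Fin m) ℂ} {ν : ℂ → Fin m → ℂ}
  {Δ : Subgroup (Matrix.SpecialLinearGroup (Fin 2) ℝ)} {σ : Matrix.SpecialLinearGroup (Fin 2) ℝ}

private theorem Tra1_det {U : Set ℂ} {A : ℂ → Matrix (Fin m) (Fin m) ℂ}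
    (hA : ∀ i j, DifferentiableOn ℂ (fun z => A z i j) U) :
    DifferentiableOn ℂ (fun z => (A z).det) U := by
  simp only [Matrix.det_apply]
  refine DifferentiableOn.fun_sum fun σ _ => ?_
  refine DifferentiableOn.const_smul ?_ _
  exact DifferentiableOn.fun_finsetProd fun i _ => hA _ _

private theorem Tra1_inv {U : Set ℂ} {A : ℂ → Matrix (Fin m) (Fin m) ℂ}
    (hA : ∀ i j, DifferentiableOn ℂ (fun z => A z i j) U) (hu : ∀ z ∈ U, IsUnit (A z))
    (i j : Fin m) : DifferentiableOn ℂ (fun z => (A z)⁻¹ i j) U := by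
  have h1 : ∀ z, (A z)⁻¹ i j = (A z).det⁻¹ * ((A z).updateRow j (Pi.single i 1)).det := by
    intro z
    rw [Matrix.inv_def, Ring.inverse_eq_inv', Matrix.smul_apply, smul_eq_mul,
      Matrix.adjugate_apply]
  simp only [h1]
  refine DifferentiableOn.mul ((Tra1_det hA).inv fun z hz => ?_) (Tra1_det fun k l => ?_)
  · exact ((Matrix.isUnit_iff_isUnit_det _).1 (hu z hz)).ne_zero
  · by_cases hk : k = j
    · subst hk
      simp only [Matrix.updateRow_self]
      exact differentiableOn_const _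
    · simp only [Matrix.updateRow_ne hk]
      exact hA k l

private theorem Tra1_key {U : Set ℂ} (hU : IsOpen U) (hv : IsVar w p Q G ν) {φ : ℂ → ℂ}
    (hφ : DifferentiableOn ℂ φ U) (hφU : ∀ ζ ∈ U, 0 < (φ ζ).im) {u : ℂ → Fin m → ℂ} {a : ℤ}
    (hu : ∀ i, DifferentiableOn ℂ (fun ζ => u ζ i) U)
    (hF : ∀ ζ ∈ U, u ζ ∈ Fil p (G (φ ζ)) a) {ζ : ℂ} (hζ : ζ ∈ U) :
    (fun i => deriv (fun ζ => u ζ i) ζ) ∈ Fil p (G (φ ζ)) (a - 1) := by
  have hH : IsOpen {z : ℂ | 0 < z.im} := isOpen_lt continuous_const Complex.continuous_im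
  have hG : ∀ i j, DifferentiableOn ℂ (fun ζ => G (φ ζ) i j) U := fun i j =>
    (hv.holG i j).comp hφ fun z hz => hφU z hz
  have hGu : ∀ ζ ∈ U, IsUnit (G (φ ζ)) := fun z hz => (hv.phs _ (hφU z hz)).unit
  obtain ⟨c, hc⟩ : ∃ c : ℂ → Fin m → ℂ, ∀ z, c z = (G (φ z))⁻¹ *ᵥ u z := ⟨_, fun _ => rfl⟩
  have hcd : ∀ j, DifferentiableOn ℂ (fun z => c z j) U := by
    intro j
    simp only [hc, Matrix.mulVec, dotProduct]
    exact DifferentiableOn.fun_sum fun k _ => (Tra1_inv hG hGu j k).mul (hu k)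
  have hc0 : ∀ j, p j < a → ∀ z ∈ U, c z j = 0 := by
    intro j hj z hz
    rw [hc]
    exact (mem_Fil_inv (hGu z hz) a (u z)).1 (hF z hz) j hj
  have huc : ∀ z ∈ U, ∀ i, u z i = ∑ j, G (φ z) i j * c z j := by
    intro z hz i
    have h1 : G (φ z) *ᵥ c z = u z := by
      rw [hc, Matrix.mulVec_mulVec, Matrix.mul_nonsing_inv _
        ((Matrix.isUnit_iff_isUnit_det _).1 (hGu z hz)), Matrix.one_mulVec]
    rw [← h1]
    rfl
  have hnhds : U ∈ 𝓝 ζ := hU.mem_nhds hζ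
  have hder : ∀ i, deriv (fun z => u z i) ζ =
      ∑ j, (deriv (fun z => G z i j) (φ ζ) * deriv φ ζ * c ζ j +
        G (φ ζ) i j * deriv (fun z => c z j) ζ) := by
    intro i
    have h1 : (fun z => u z i) =ᶠ[𝓝 ζ] fun z => ∑ j, G (φ z) i j * c z j :=
      eventually_of_mem hnhds fun z hz => huc z hz i
    rw [h1.deriv_eq]
    refine HasDerivAt.deriv ?_
    refine HasDerivAt.fun_sum fun j _ => ?_
    have h2 : HasDerivAt (fun z => G (φ z) i j) (deriv (fun z => G z i j) (φ ζ) * deriv φ ζ) ζ :=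
      HasDerivAt.comp ζ (((hv.holG i j).differentiableAt (hH.mem_nhds (hφU ζ hζ))).hasDerivAt)
        ((hφ.differentiableAt hnhds).hasDerivAt)
    exact h2.mul ((hcd j).differentiableAt hnhds).hasDerivAt
  have heq : (fun i => deriv (fun z => u z i) ζ) =
      ∑ j, ((deriv φ ζ * c ζ j) • (fun i => deriv (fun z => G z i j) (φ ζ)) +
        deriv (fun z => c z j) ζ • (fun i => G (φ ζ) i j)) := by
    funext i
    rw [hder i, Finset.sum_apply]
    refine Finset.sum_congr rfl fun j _ => ?_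
    simp only [Pi.add_apply, Pi.smul_apply, smul_eq_mul]
    ring
  rw [heq]
  refine Submodule.sum_mem _ fun j _ => ?_
  by_cases hj : p j < a
  · have h1 : c ζ j = 0 := hc0 j hj ζ hζ
    have h2 : deriv (fun z => c z j) ζ = 0 := by
      have h3 : (fun z => c z j) =ᶠ[𝓝 ζ] fun _ => (0 : ℂ) :=
        eventually_of_mem hnhds fun z hz => hc0 j hj z hz
      rw [h3.deriv_eq, deriv_const]
    rw [h1, h2, mul_zero, zero_smul, zero_smul, add_zero]
    exact Submodule.zero_mem _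
  · refine Submodule.add_mem _ (Submodule.smul_mem _ _ ?_) (Submodule.smul_mem _ _ ?_)
    · exact Fil_anti (p := p) _ (by omega) (hv.trG _ (hφU ζ hζ) j)
    · exact Submodule.subset_span ⟨j, by omega, rfl⟩

/-- transversality does not depend on the choice of the period matrix and of the coordinate -/
theorem tr_congr {U : Set ℂ} (hU : IsOpen U) (hv : IsVar w p Q G ν) {φ : ℂ → ℂ}
    (hφ : DifferentiableOn ℂ φ U) (hφU : ∀ ζ ∈ U, 0 < (φ ζ).im)
    {G' : ℂ → Matrix (Fin m) (Fin m) ℂ} {ν' : ℂ → Fin m → ℂ}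
    (hG' : ∀ i j, DifferentiableOn ℂ (fun ζ => G' ζ i j) U)
    (hν' : ∀ i, DifferentiableOn ℂ (fun ζ => ν' ζ i) U)
    (hu : ∀ ζ ∈ U, IsUnit (G' ζ))
    (hF : ∀ ζ ∈ U, ∀ a, Fil p (G (φ ζ)) a = Fil p (G' ζ) a)
    (hn : ∀ ζ ∈ U, ν (φ ζ) - ν' ζ ∈ Fil p (G (φ ζ)) 0) {ζ : ℂ} (hζ : ζ ∈ U) :
    (∀ j, (fun i => deriv (fun ζ => G' ζ i j) ζ) ∈ Fil p (G' ζ) (p j - 1)) ∧
    (fun i => deriv (fun ζ => ν' ζ i) ζ) ∈ Fil p (G' ζ) (-1) := by
  have _ := hu
  have hH : IsOpen {z : ℂ | 0 < z.im} := isOpen_lt continuous_const Complex.continuous_im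
  have hnhds : U ∈ 𝓝 ζ := hU.mem_nhds hζ
  constructor
  · intro j
    rw [← hF ζ hζ]
    refine Tra1_key hU hv hφ hφU (u := fun ζ i => G' ζ i j) (fun i => hG' i j) ?_ hζ
    intro z hz
    rw [hF z hz]
    exact Submodule.subset_span ⟨j, le_refl _, rfl⟩
  · rw [← hF ζ hζ]
    have hνd : ∀ i, DifferentiableOn ℂ (fun ζ => ν (φ ζ) i) U := fun i =>
      (hv.holn i).comp hφ fun z hz => hφU z hz
    have h1 := Tra1_key hU hv hφ hφU (u := fun ζ => ν (φ ζ) - ν' ζ) (a := 0)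
      (fun i => (hνd i).sub (hν' i)) hn hζ
    have h2 : (fun i => deriv (fun ζ => ν' ζ i) ζ) =
        deriv φ ζ • (fun i => deriv (fun z => ν z i) (φ ζ)) -
          (fun i => deriv (fun ζ => (ν (φ ζ) - ν' ζ) i) ζ) := by
      funext i
      have h3 : HasDerivAt (fun z => ν (φ z) i) (deriv (fun z => ν z i) (φ ζ) * deriv φ ζ) ζ :=
        HasDerivAt.comp ζ (((hv.holn i).differentiableAt (hH.mem_nhds (hφU ζ hζ))).hasDerivAt)
          ((hφ.differentiableAt hnhds).hasDerivAt)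
      have h4 := (h3.sub ((hν' i).differentiableAt hnhds).hasDerivAt).deriv
      have h5 : deriv (fun ζ => (ν (φ ζ) - ν' ζ) i) ζ =
          deriv (fun z => ν z i) (φ ζ) * deriv φ ζ - deriv (fun ζ => ν' ζ i) ζ := h4
      simp only [Pi.sub_apply, Pi.smul_apply, smul_eq_mul]
      have h6 : deriv (fun ζ => ν (φ ζ) i - ν' ζ i) ζ =
          deriv (fun z => ν z i) (φ ζ) * deriv φ ζ - deriv (fun ζ => ν' ζ i) ζ := h5
      rw [h6]
      ring
    rw [h2]
    exact Submodule.sub_mem _ (Submodule.smul_mem _ _ (hv.trn _ (hφU ζ hζ))) h1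

end SP38
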