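import Pool.Agent.LibSP38.Cus3
import Pool.Agent.LibSP38.Proj2
import Pool.Agent.LibSP38.Tra1

open Matrix Complex Filter Topology
open UpperHalfPlane hiding I
open scoped ComplexOrder ContDiff

namespace SP38

variable {m : ℕ} {w : ℤ} {p : Fin m → ℤ} {Q : Matrix (Fin m) (Fin m) ℝ}
  {G : ℂ → Matrix (Fin m) (Fin m) ℂ} {ν : ℂ → Fin m → ℂ}
  {Δ : Subgroup (Matrix.SpecialLinearGroup (Fin 2) ℝ)} {σ : Matrix.SpecialLinearGroup (Fin 2) ℝ}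

theorem tra2_cm_zero {α β : Type*} : cm (0 : Matrix α β ℝ) = 0 := by
  ext i j
  simp [cm]

theorem tra2_hb_zero : hb (0 : Matrix (Fin m ⊕ Unit) (Fin m ⊕ Unit) ℝ) = 0 := by
  ext i j
  simp [hb]

theorem tra2_eH_zero (ζ : ℂ) : eH (0 : Matrix (Fin m ⊕ Unit) (Fin m ⊕ Unit) ℝ) ζ = 1 := by
  unfold eH
  rw [tra2_hb_zero, tra2_cm_zero, smul_zero]
  exact IsNilpotent.exp_zero

theorem tra2_eV_zero (ζ : ℂ) : eV (0 : Matrix (Fin m ⊕ Unit) (Fin m ⊕ Unit) ℝ) ζ = 1 := by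
  unfold eV
  rw [tra2_cm_zero, smul_zero]
  exact IsNilpotent.exp_zero

theorem tra2_GG_zero (Ψ : ℂ → Matrix (Fin m) (Fin m) ℂ) (ζ : ℂ) : GG 0 Ψ ζ = Ψ (qq ζ) := by
  unfold GG
  rw [tra2_eH_zero, Matrix.one_mul]

theorem tra2_VV_zero (β : ℂ → Fin m → ℂ) (ζ : ℂ) : VV 0 β ζ = β (qq ζ) := by
  funext i
  unfold VV
  rw [tra2_eV_zero, Matrix.one_mulVec]
  rfl

theorem tra2_isOpen_qq (ε : ℝ) : IsOpen {ζ : ℂ | ‖qq ζ‖ < ε} := by
  have hc : Continuous fun ζ : ℂ => ‖qq ζ‖ := by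
    have : Continuous qq := by
      unfold qq
      fun_prop
    exact this.norm
  exact isOpen_lt hc continuous_const

theorem tra2_differentiable_qq : Differentiable ℂ qq := fun ζ => (hasDerivAt_qq ζ).differentiableAt

/-- interior points -/
theorem IsVar.cuspData_interior (hv : IsVar w p Q G ν) {z₀ : ℂ} {r : ℝ} (hr : 0 < r)
    (hball : ∀ q : ℂ, ‖q‖ < 1 → 0 < (z₀ + r * q).im) :
    CuspData w p Q 0 (fun q => G (z₀ + r * q)) (fun q => ν (z₀ + r * q)) 1 ∧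
    (∀ ζ : ℂ, GG 0 (fun q => G (z₀ + r * q)) ζ = G (z₀ + r * qq ζ)) ∧
    (∀ ζ : ℂ, VV 0 (fun q => ν (z₀ + r * q)) ζ = ν (z₀ + r * qq ζ)) := by
  have hGG : ∀ ζ : ℂ, GG 0 (fun q => G (z₀ + r * q)) ζ = G (z₀ + r * qq ζ) := fun ζ =>
    tra2_GG_zero _ ζ
  have hVV : ∀ ζ : ℂ, VV 0 (fun q => ν (z₀ + r * q)) ζ = ν (z₀ + r * qq ζ) := fun ζ =>
    tra2_VV_zero _ ζ
  have hmap : Set.MapsTo (fun q : ℂ => z₀ + r * q) (Metric.ball 0 1) {z : ℂ | 0 < z.im} := by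
    intro q hq
    exact hball q (by simpa using hq)
  have hlin : DifferentiableOn ℂ (fun q : ℂ => z₀ + r * q) (Metric.ball 0 1) := by
    fun_prop
  have hφ : DifferentiableOn ℂ (fun ζ : ℂ => z₀ + r * qq ζ) {ζ : ℂ | ‖qq ζ‖ < 1} := by
    have := tra2_differentiable_qq
    exact (Differentiable.differentiableOn (by fun_prop))
  have hφU : ∀ ζ ∈ {ζ : ℂ | ‖qq ζ‖ < 1}, 0 < (z₀ + r * qq ζ).im := fun ζ hζ => hball _ hζ
  have hmapU : Set.MapsTo (fun ζ : ℂ => z₀ + r * qq ζ) {ζ : ℂ | ‖qq ζ‖ < 1} {z : ℂ | 0 < z.im} :=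
    fun ζ hζ => hφU ζ hζ
  have htr : ∀ ζ ∈ {ζ : ℂ | ‖qq ζ‖ < 1}, (∀ j, (fun i => deriv (fun ζ =>
      GG 0 (fun q => G (z₀ + r * q)) ζ i j) ζ) ∈ Fil p (GG 0 (fun q => G (z₀ + r * q)) ζ) (p j - 1)) ∧
      (fun i => deriv (fun ζ => VV 0 (fun q => ν (z₀ + r * q)) ζ i) ζ) ∈
        Fil p (GG 0 (fun q => G (z₀ + r * q)) ζ) (-1) := by
    intro ζ hζ
    refine tr_congr (tra2_isOpen_qq 1) hv hφ hφU ?_ ?_ ?_ ?_ ?_ hζ
    · intro i j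
      have h1 : (fun ζ => GG 0 (fun q => G (z₀ + r * q)) ζ i j) =
          (fun z => G z i j) ∘ (fun ζ : ℂ => z₀ + r * qq ζ) := by
        funext ζ
        rw [hGG ζ]
        rfl
      rw [h1]
      exact (hv.holG i j).comp hφ hmapU
    · intro i
      have h1 : (fun ζ => VV 0 (fun q => ν (z₀ + r * q)) ζ i) =
          (fun z => ν z i) ∘ (fun ζ : ℂ => z₀ + r * qq ζ) := by
        funext ζ
        rw [hVV ζ]
        rfl
      rw [h1]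
      exact (hv.holn i).comp hφ hmapU
    · intro ζ hζ
      rw [hGG ζ]
      exact (hv.phs _ (hφU ζ hζ)).unit
    · intro ζ hζ a
      rw [hGG ζ]
    · intro ζ hζ
      rw [hVV ζ, sub_self]
      exact Submodule.zero_mem _
  refine ⟨?_, hGG, hVV⟩
  refine ⟨one_pos, IsNilpotent.zero, fun j => rfl, ?_, ?_, ?_, ?_, ?_, ?_, ?_⟩
  · rw [tra2_hb_zero, IsNilpotent.exp_zero]
    simp
  · intro i j
    exact (hv.holG i j).comp hlin hmap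
  · intro i
    exact (hv.holn i).comp hlin hmap
  · intro q hq
    exact (hv.phs _ (hmap hq)).unit
  · intro ζ hζ
    rw [hGG ζ]
    exact hv.phs _ (hφU ζ hζ)
  · intro ζ hζ
    exact (htr ζ hζ).1
  · intro ζ hζ
    exact (htr ζ hζ).2

/-- the Möbius map in the coordinate `ζ` -/
noncomputable def tra2_phi (σ : Matrix.SpecialLinearGroup (Fin 2) ℝ) (h : ℝ) (ζ : ℂ) : ℂ :=
  (((σ 0 0 : ℝ) : ℂ) * (h * ζ) + ((σ 0 1 : ℝ) : ℂ)) / (((σ 1 0 : ℝ) : ℂ) * (h * ζ) + ((σ 1 1 : ℝ) : ℂ))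

theorem tra2_coe_smul (σ : Matrix.SpecialLinearGroup (Fin 2) ℝ) {h : ℝ} {ζ : ℂ}
    (τ : ℍ) (hτ : (τ : ℂ) = h * ζ) : ((σ • τ : ℍ) : ℂ) = tra2_phi σ h ζ := by
  rw [UpperHalfPlane.coe_specialLinearGroup_apply, hτ]
  simp [tra2_phi]

theorem tra2_denom_ne (σ : Matrix.SpecialLinearGroup (Fin 2) ℝ) {z : ℂ} (hz : 0 < z.im) :
    ((σ 1 0 : ℝ) : ℂ) * z + ((σ 1 1 : ℝ) : ℂ) ≠ 0 := by
  intro h0
  have him : (σ 1 0 : ℝ) * z.im = 0 := by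
    have := congrArg Complex.im h0
    simpa using this
  have h10 : (σ 1 0 : ℝ) = 0 := by
    rcases mul_eq_zero.1 him with h | h
    · exact h
    · exact absurd h hz.ne'
  have h11 : (σ 1 1 : ℝ) = 0 := by
    rw [h10] at h0
    have := congrArg Complex.re h0
    simpa using this
  have hdet := Matrix.SpecialLinearGroup.det_coe σ
  rw [Matrix.det_fin_two, h10, h11] at hdet
  simp at hdet

theorem tra2_im_pos {ζ : ℂ} {ε : ℝ} (hε : ε ≤ 1) (hζ : ‖qq ζ‖ < ε) : 0 < ζ.im := by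
  have h1 : ‖qq ζ‖ < 1 := lt_of_lt_of_le hζ hε
  rw [norm_qq, ← Real.exp_zero, Real.exp_lt_exp] at h1
  have hpi := Real.pi_pos
  by_contra hn
  push Not at hn
  have : 2 * Real.pi * ζ.im ≤ 0 := mul_nonpos_of_nonneg_of_nonpos (by positivity) hn
  linarith

/-- cusps -/
theorem IsVar.cuspData_cusp (hv : IsVar w p Q G ν) (ha : AdmissibleAt p Q G ν Δ σ) :
    ∃ (h : ℝ) (N : Matrix (Fin m ⊕ Unit) (Fin m ⊕ Unit) ℝ)
      (Ψ : ℂ → Matrix (Fin m) (Fin m) ℂ) (β : ℂ → Fin m → ℂ) (ε : ℝ),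
      0 < h ∧ σ * trans h * σ⁻¹ ∈ Δ ∧ ε ≤ 1 ∧ CuspData w p Q N Ψ β ε ∧
      ∀ τ : ℍ, ‖qq ((τ : ℂ) / h)‖ < ε →
        (∀ a, Fil p (G ((σ • τ : ℍ) : ℂ)) a = Fil p (GG N Ψ ((τ : ℂ) / h)) a) ∧
        ν ((σ • τ : ℍ) : ℂ) - VV N β ((τ : ℂ) / h) ∈ Fil p (G ((σ • τ : ℍ) : ℂ)) 0 := by
  obtain ⟨h, N, Ψ, β, ε, hh, hmem, hε, hnil, hrow, hpres, hP, hb', hunit, hmain⟩ := ha
  have hmain' : ∀ τ : ℍ, ‖qq ((τ : ℂ) / h)‖ < ε →
        (∀ a, Fil p (G ((σ • τ : ℍ) : ℂ)) a = Fil p (GG N Ψ ((τ : ℂ) / h)) a) ∧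
        ν ((σ • τ : ℍ) : ℂ) - VV N β ((τ : ℂ) / h) ∈ Fil p (G ((σ • τ : ℍ) : ℂ)) 0 :=
    fun τ hτ => hmain τ hτ
  have hhC : (h : ℂ) ≠ 0 := by exact_mod_cast hh.ne'
  set ε' := min ε 1 with hε'
  have hε'0 : 0 < ε' := lt_min hε one_pos
  have hε'1 : ε' ≤ 1 := min_le_right _ _
  have hε'ε : ε' ≤ ε := min_le_left _ _
  have hsub : Metric.ball (0 : ℂ) ε' ⊆ Metric.ball 0 ε := Metric.ball_subset_ball hε'ε
  -- the point of the upper half plane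
  have him : ∀ ζ : ℂ, ‖qq ζ‖ < ε' → 0 < ((h : ℂ) * ζ).im := by
    intro ζ hζ
    have h1 := tra2_im_pos hε'1 hζ
    simpa using mul_pos hh h1
  have hpt : ∀ ζ : ℂ, (hζ : ‖qq ζ‖ < ε') →
      (0 < (tra2_phi σ h ζ).im) ∧ (∀ a, Fil p (G (tra2_phi σ h ζ)) a = Fil p (GG N Ψ ζ) a) ∧
        ν (tra2_phi σ h ζ) - VV N β ζ ∈ Fil p (G (tra2_phi σ h ζ)) 0 := by
    intro ζ hζ
    have hτ : (((⟨(h : ℂ) * ζ, him ζ hζ⟩ : ℍ)) : ℂ) = h * ζ := rfl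
    have hdiv : (((⟨(h : ℂ) * ζ, him ζ hζ⟩ : ℍ)) : ℂ) / h = ζ := by
      rw [hτ]
      field_simp
    have hs := tra2_coe_smul σ _ hτ
    have := hmain' ⟨(h : ℂ) * ζ, him ζ hζ⟩ (by rw [hdiv]; exact lt_of_lt_of_le hζ hε'ε)
    rw [hdiv, hs] at this
    refine ⟨?_, this.1, this.2⟩
    rw [← hs]
    exact UpperHalfPlane.im_pos _
  have hφ : DifferentiableOn ℂ (tra2_phi σ h) {ζ : ℂ | ‖qq ζ‖ < ε'} := by
    intro ζ hζ
    have hd := tra2_denom_ne σ (him ζ hζ)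
    refine DifferentiableAt.differentiableWithinAt ?_
    unfold tra2_phi
    refine DifferentiableAt.div ?_ ?_ hd
    · fun_prop
    · fun_prop
  have hdqq := tra2_differentiable_qq
  have hmapq : Set.MapsTo qq {ζ : ℂ | ‖qq ζ‖ < ε'} (Metric.ball (0 : ℂ) ε) := by
    intro ζ hζ
    have : ‖qq ζ‖ < ε := lt_of_lt_of_le hζ hε'ε
    simpa using this
  have hGhol : ∀ i j, DifferentiableOn ℂ (fun ζ => GG N Ψ ζ i j) {ζ : ℂ | ‖qq ζ‖ < ε'} := by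
    intro i j
    have h1 : (fun ζ => GG N Ψ ζ i j) = fun ζ => ∑ k, eH N ζ i k * Ψ (qq ζ) k j := by
      funext ζ
      simp [GG, Matrix.mul_apply]
    rw [h1]
    refine DifferentiableOn.fun_sum fun k _ => ?_
    refine DifferentiableOn.mul ?_ ?_
    · intro ζ _
      exact (hasDerivAt_eH hnil hrow ζ i k).differentiableAt.differentiableWithinAt
    · exact (hP k j).comp hdqq.differentiableOn hmapq
  have hVhol : ∀ i, DifferentiableOn ℂ (fun ζ => VV N β ζ i) {ζ : ℂ | ‖qq ζ‖ < ε'} := by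
    intro i
    have h1 : (fun ζ => VV N β ζ i) = fun ζ => ∑ k, eV N ζ (Sum.inl i) k *
        (Sum.elim (β (qq ζ)) (1 : Unit → ℂ)) k := by
      funext ζ
      simp [VV, Matrix.mulVec, dotProduct]
    rw [h1]
    refine DifferentiableOn.fun_sum fun k _ => ?_
    refine DifferentiableOn.mul ?_ ?_
    · intro ζ _
      exact (hasDerivAt_eV hnil ζ (Sum.inl i) k).differentiableAt.differentiableWithinAt
    · rcases k with k | k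
      · exact (hb' k).comp hdqq.differentiableOn hmapq
      · exact differentiableOn_const _
  have hGunit : ∀ ζ ∈ {ζ : ℂ | ‖qq ζ‖ < ε'}, IsUnit (GG N Ψ ζ) := by
    intro ζ hζ
    exact (isUnit_eH hnil hrow ζ).mul (hunit _ (hmapq hζ))
  have htr : ∀ ζ ∈ {ζ : ℂ | ‖qq ζ‖ < ε'}, (∀ j, (fun i => deriv (fun ζ =>
      GG N Ψ ζ i j) ζ) ∈ Fil p (GG N Ψ ζ) (p j - 1)) ∧
      (fun i => deriv (fun ζ => VV N β ζ i) ζ) ∈ Fil p (GG N Ψ ζ) (-1) := by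
    intro ζ hζ
    exact tr_congr (tra2_isOpen_qq ε') hv hφ (fun ζ hζ => (hpt ζ hζ).1) hGhol hVhol hGunit
      (fun ζ hζ => (hpt ζ hζ).2.1) (fun ζ hζ => (hpt ζ hζ).2.2) hζ
  refine ⟨h, N, Ψ, β, ε', hh, hmem, hε'1, ?_, fun τ hτ => hmain' τ (lt_of_lt_of_le hτ hε'ε)⟩
  refine ⟨hε'0, hnil, hrow, hpres, ?_, ?_, ?_, ?_, ?_, ?_⟩
  · intro i j
    exact (hP i j).mono hsub
  · intro i
    exact (hb' i).mono hsub
  · intro q hq
    exact hunit q (hsub hq)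
  · intro ζ hζ
    exact (hv.phs _ (hpt ζ hζ).1).congr (hGunit ζ hζ) (hpt ζ hζ).2.1
  · intro ζ hζ
    exact (htr ζ hζ).1
  · intro ζ hζ
    exact (htr ζ hζ).2

end SP38
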