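import Pool.Agent.LibSP38.Nex3
import Pool.Agent.LibSP38.Tra2

/-! The global theorem. -/

open Matrix Complex Filter Topology
open UpperHalfPlane hiding I
open scoped ComplexOrder ContDiff

namespace SP38

variable {m : ℕ} {w : ℤ} {p : Fin m → ℤ} {Q : Matrix (Fin m) (Fin m) ℝ}
  {G : ℂ → Matrix (Fin m) (Fin m) ℂ} {ν : ℂ → Fin m → ℂ} {s : Equiv.Perm (Fin m)}
  {Δ : Subgroup (Matrix.SpecialLinearGroup (Fin 2) ℝ)} {σ : Matrix.SpecialLinearGroup (Fin 2) ℝ}

/-- the extension is flat-split over `ℝ` -/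
def Flat (p : Fin m → ℤ) (G : ℂ → Matrix (Fin m) (Fin m) ℂ) (ν : ℂ → Fin m → ℂ) : Prop :=
  ∃ e : Fin m → ℝ, ∀ z : ℂ, 0 < z.im → ν z - ofR e ∈ Fil p (G z) 0

/-- real split -/
def RSplit (p : Fin m → ℤ) (G : ℂ → Matrix (Fin m) (Fin m) ℂ) (ν : ℂ → Fin m → ℂ) (z : ℂ) : Prop :=
  ∃ e : Fin m → ℝ, ν z - ofR e ∈ Fil p (G z) 0

theorem glo1_exists_bound (p : Fin m → ℤ) : ∃ K : ℕ, ∀ j, |p j| ≤ K := by
  refine ⟨∑ j, (p j).natAbs, fun j => ?_⟩
  have h1 : (p j).natAbs ≤ ∑ j, (p j).natAbs :=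
    Finset.single_le_sum (f := fun j => (p j).natAbs) (fun _ _ => Nat.zero_le _) (Finset.mem_univ j)
  calc |p j| = ((p j).natAbs : ℤ) := (Int.natCast_natAbs (p j)).symm
    _ ≤ _ := by exact_mod_cast h1

theorem real_mem_Fil {G : Matrix (Fin m) (Fin m) ℂ} (h : IsPHS w p Q G)
    (hs : ∀ j, p (s j) = w - p j) (hns : ∀ j, p j < -1 ∨ w - p j < -1) {e : Fin m → ℝ}
    (he : ofR e ∈ Fil p G 0) : e = 0 := by
  obtain ⟨K, hK⟩ := glo1_exists_bound p
  have hd : HD w K Q (PP p s G) := h.hd hs hK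
  have hc : ∀ a, PP p s G a ≠ 0 → a < 0 ∨ w - a < 0 := by
    intro a ha
    have : ∃ j, p j = a := by
      by_contra hcon
      push Not at hcon
      exact ha (PP_eq_zero G hcon)
    obtain ⟨j, rfl⟩ := this
    rcases hns j with h1 | h1
    · left; omega
    · right; omega
  have h0 := (h.mem_Fil_iff_Plt hs hK 0 _).1 he
  have h1 := hd.qf_real_le 0 hc e
  rw [h0] at h1
  by_contra hne
  have hne' : ofR e ≠ 0 := by
    intro hz
    apply hne
    funext i
    have := congrFun hz i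
    simpa [ofR] using this
  have hpd := hd.posDef
  have hpos : 0 < qf (metr w K Q (PP p s G)) (ofR e) := qf_pos hpd hne'
  have hz : qf (metr w K Q (PP p s G)) 0 = 0 := by
    simp [qf]
  rw [hz] at h1
  linarith

theorem glo1_det_diff {U : Set ℂ} {A : ℂ → Matrix (Fin m) (Fin m) ℂ}
    (hA : ∀ i j, DifferentiableOn ℂ (fun z => A z i j) U) :
    DifferentiableOn ℂ (fun z => (A z).det) U := by
  have h1 : (fun z => (A z).det) = fun z => ∑ τ : Equiv.Perm (Fin m),
      ((Equiv.Perm.sign τ : ℤ) : ℂ) * ∏ i, A z (τ i) i := by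
    funext z
    rw [Matrix.det_apply']
  rw [h1]
  refine DifferentiableOn.fun_sum fun τ _ => ?_
  refine DifferentiableOn.mul (differentiableOn_const _) ?_
  exact DifferentiableOn.fun_finsetProd fun i _ => hA _ _

theorem glo1_adj_diff {U : Set ℂ} {A : ℂ → Matrix (Fin m) (Fin m) ℂ}
    (hA : ∀ i j, DifferentiableOn ℂ (fun z => A z i j) U) (i j : Fin m) :
    DifferentiableOn ℂ (fun z => (A z).adjugate i j) U := by
  have h1 : (fun z => (A z).adjugate i j) = fun z =>
      ((A z).updateRow j (Pi.single i 1)).det := by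
    funext z
    rw [Matrix.adjugate_apply]
  rw [h1]
  apply glo1_det_diff
  intro k l
  by_cases hk : k = j
  · subst hk
    simp only [Matrix.updateRow_self]
    exact differentiableOn_const _
  · simp only [Matrix.updateRow_ne hk]
    exact hA k l

theorem glo1_isOpen_uhp : IsOpen {z : ℂ | 0 < z.im} :=
  isOpen_lt continuous_const Complex.continuous_im

theorem glo1_preconnected_uhp : IsPreconnected {z : ℂ | 0 < z.im} :=
  (convex_halfSpace_im_gt 0).isPreconnected

/-- analytic continuation of a flat splitting -/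
theorem flat_of_open (hv : IsVar w p Q G ν) {U : Set ℂ} (hU : IsOpen U) (hne : U.Nonempty)
    (hsub : ∀ z ∈ U, 0 < z.im) {e : Fin m → ℝ} (he : ∀ z ∈ U, ν z - ofR e ∈ Fil p (G z) 0) :
    Flat p G ν := by
  have hiff : ∀ z : ℂ, 0 < z.im → (ν z - ofR e ∈ Fil p (G z) 0 ↔
      ∀ j, p j < 0 → ((G z).adjugate *ᵥ (ν z - ofR e)) j = 0) := by
    intro z hz
    have hu := (hv.phs z hz).unit
    have hdet : IsUnit (G z).det := (Matrix.isUnit_iff_isUnit_det _).1 hu
    rw [mem_Fil_inv hu]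
    have hrel : (G z).adjugate = (G z).det • (G z)⁻¹ := by
      rw [Matrix.inv_def, smul_smul, Ring.mul_inverse_cancel _ hdet, one_smul]
    have hd0 : (G z).det ≠ 0 := hdet.ne_zero
    constructor
    · intro h j hj
      rw [hrel, Matrix.smul_mulVec, Pi.smul_apply, h j hj, smul_zero]
    · intro h j hj
      have := h j hj
      rw [hrel, Matrix.smul_mulVec, Pi.smul_apply, smul_eq_mul] at this
      exact (mul_eq_zero.1 this).resolve_left hd0
  refine ⟨e, fun z hz => (hiff z hz).2 fun j hj => ?_⟩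
  obtain ⟨z₁, hz₁⟩ := hne
  have hf : DifferentiableOn ℂ (fun z => ((G z).adjugate *ᵥ (ν z - ofR e)) j) {z : ℂ | 0 < z.im} := by
    have h1 : (fun z => ((G z).adjugate *ᵥ (ν z - ofR e)) j) = fun z =>
        ∑ k, (G z).adjugate j k * (ν z k - ofR e k) := by
      funext z
      simp [Matrix.mulVec, dotProduct]
    rw [h1]
    refine DifferentiableOn.fun_sum fun k _ => ?_
    refine DifferentiableOn.mul (glo1_adj_diff hv.holG j k) ?_
    exact (hv.holn k).sub (differentiableOn_const _)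
  have han := hf.analyticOnNhd glo1_isOpen_uhp
  have hev : (fun z => ((G z).adjugate *ᵥ (ν z - ofR e)) j) =ᶠ[𝓝 z₁] 0 := by
    filter_upwards [hU.mem_nhds hz₁] with z hz'
    exact (hiff z (hsub z hz')).1 (he z hz') j hj
  exact han.eqOn_zero_of_preconnected_of_eventuallyEq_zero glo1_preconnected_uhp (hsub z₁ hz₁) hev hz

theorem glo1_qq_surj {q : ℂ} (hq : q ≠ 0) :
    ∃ ζ : ℂ, qq ζ = q ∧ 0 ≤ ζ.re ∧ ζ.re ≤ 1 := by
  have hpi := Real.pi_pos
  have hpiC : (2 * (Real.pi : ℂ) * I) ≠ 0 := by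
    simp [hpi.ne']
  have hre : ((Complex.log q) / (2 * Real.pi * I)).re = Complex.arg q / (2 * Real.pi) := by
    have h1 : (Complex.log q) / (2 * Real.pi * I) =
        (((Complex.arg q / (2 * Real.pi) : ℝ)) : ℂ) +
          ((-(Real.log ‖q‖) / (2 * Real.pi) : ℝ) : ℂ) * I := by
      have h2 : Complex.log q = Real.log ‖q‖ + Complex.arg q * I := rfl
      rw [h2]
      push_cast
      have hp : (Real.pi : ℂ) ≠ 0 := by exact_mod_cast hpi.ne'
      field_simp
      linear_combination ((Real.log ‖q‖ : ℂ)) * Complex.I_sq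
    rw [h1, Complex.add_re, Complex.ofReal_re, Complex.re_ofReal_mul, Complex.I_re, mul_zero,
      add_zero]
  have hexp : qq ((Complex.log q) / (2 * Real.pi * I)) = q := by
    unfold qq
    rw [mul_div_cancel₀ _ hpiC, Complex.exp_log hq]
  by_cases h0 : 0 ≤ Complex.arg q
  · refine ⟨_, hexp, ?_, ?_⟩
    · rw [hre]; positivity
    · rw [hre, div_le_one (by positivity)]
      have := Complex.arg_le_pi q
      linarith
  · push Not at h0
    refine ⟨(Complex.log q) / (2 * Real.pi * I) + (1 : ℕ), ?_, ?_, ?_⟩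
    · rw [qq_add_nat, hexp]
    · rw [Complex.add_re, hre]
      have := Complex.neg_pi_lt_arg q
      have h1 : -(1 : ℝ) ≤ Complex.arg q / (2 * Real.pi) := by
        rw [le_div_iff₀ (by positivity)]
        linarith
      simp
      linarith
    · rw [Complex.add_re, hre]
      have h1 : Complex.arg q / (2 * Real.pi) ≤ 0 :=
        div_nonpos_of_nonpos_of_nonneg h0.le (by positivity)
      simp
      linarith

/-- accumulation at an interior point -/
theorem flat_of_interior (hv : IsVar w p Q G ν) (hs : ∀ j, p (s j) = w - p j)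
    (hns : ∀ j, p j < -1 ∨ w - p j < -1) {z₀ : ℂ} (hz₀ : 0 < z₀.im)
    (hfr : ∃ᶠ z in 𝓝[≠] z₀, RSplit p G ν z) : Flat p G ν := by
  have hpi := Real.pi_pos
  set r := z₀.im with hr
  have hrC : (r : ℂ) ≠ 0 := by exact_mod_cast hz₀.ne'
  have hball : ∀ q : ℂ, ‖q‖ < 1 → 0 < (z₀ + r * q).im := by
    intro q hq
    have h1 : |q.im| < 1 := lt_of_le_of_lt (Complex.abs_im_le_norm q) hq
    have h2 : (z₀ + r * q).im = r * (1 + q.im) := by
      simp
      ring
    rw [h2]
    have := (abs_lt.1 h1).1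
    exact mul_pos hz₀ (by linarith)
  obtain ⟨hcd, hGG, hVV⟩ := hv.cuspData_interior hz₀ hball
  -- every point of a punctured disc is `z₀ + r qq ζ`
  have hpt : ∀ (c : ℝ) (z : ℂ), z ≠ z₀ → ‖z - z₀‖ < r * Real.exp (-(2 * Real.pi * c)) →
      ∃ ζ : ℂ, z = z₀ + r * qq ζ ∧ 0 ≤ ζ.re ∧ ζ.re ≤ 1 ∧ c < ζ.im := by
    intro c z hz hzc
    have hq : (z - z₀) / r ≠ 0 := div_ne_zero (sub_ne_zero.2 hz) hrC
    obtain ⟨ζ, h1, h2, h3⟩ := glo1_qq_surj hq
    refine ⟨ζ, ?_, h2, h3, ?_⟩
    · rw [h1]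
      field_simp
      ring
    · have h4 : ‖qq ζ‖ < Real.exp (-(2 * Real.pi * c)) := by
        rw [h1, norm_div, Complex.norm_real, Real.norm_eq_abs, abs_of_pos hz₀, div_lt_iff₀ hz₀]
        linarith
      rw [norm_qq, Real.exp_lt_exp] at h4
      have h5 : 2 * Real.pi * c < 2 * Real.pi * ζ.im := by linarith
      exact lt_of_mul_lt_mul_left h5 (by positivity)
  have hfr' : ∃ᶠ ζ in strip, ∃ r' : Fin m → ℝ, VV 0 (fun q => ν (z₀ + r * q)) ζ - ofR r' ∈
      Fil p (GG 0 (fun q => G (z₀ + r * q)) ζ) 0 := by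
    intro hcon
    apply hfr
    unfold strip at hcon
    rw [Filter.eventually_inf_principal, Filter.eventually_comap] at hcon
    obtain ⟨c, hc⟩ := Filter.eventually_atTop.1 hcon
    have hrpos : 0 < r * Real.exp (-(2 * Real.pi * c)) := by positivity
    have hnhds : ∀ᶠ z in 𝓝[≠] z₀, ‖z - z₀‖ < r * Real.exp (-(2 * Real.pi * c)) := by
      apply eventually_nhdsWithin_of_eventually_nhds
      filter_upwards [Metric.ball_mem_nhds z₀ hrpos] with z hz
      rwa [Metric.mem_ball, dist_eq_norm] at hz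
    filter_upwards [hnhds, self_mem_nhdsWithin] with z hz hz'
    obtain ⟨ζ, h1, h2, h3, h4⟩ := hpt c z hz' hz
    have := hc ζ.im h4.le ζ rfl ⟨h2, h3⟩
    rintro ⟨e, he⟩
    apply this
    refine ⟨e, ?_⟩
    rw [hGG, hVV, ← h1]
    exact he
  obtain ⟨e, c, hec⟩ := hcd.main hs hns hfr'
  set c' := max c 0 with hc'
  have hρ : 0 < r * Real.exp (-(2 * Real.pi * c')) := by positivity
  have hρr : r * Real.exp (-(2 * Real.pi * c')) ≤ r := by
    have : Real.exp (-(2 * Real.pi * c')) ≤ 1 := by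
      rw [Real.exp_le_one_iff]
      have : 0 ≤ 2 * Real.pi * c' := by
        have : 0 ≤ c' := le_max_right _ _
        positivity
      linarith
    nlinarith
  refine flat_of_open hv (U := Metric.ball z₀ (r * Real.exp (-(2 * Real.pi * c'))) ∩ {z₀}ᶜ)
    (Metric.isOpen_ball.inter isOpen_compl_singleton) ?_ ?_ (e := e) ?_
  · refine ⟨z₀ + ((r * Real.exp (-(2 * Real.pi * c')) / 2 : ℝ) : ℂ), ?_, ?_⟩
    · rw [Metric.mem_ball, dist_eq_norm, add_sub_cancel_left, Complex.norm_real, Real.norm_eq_abs,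
        abs_of_pos (by positivity)]
      linarith
    · simp only [Set.mem_compl_iff, Set.mem_singleton_iff, add_eq_left]
      exact_mod_cast (by positivity : (r * Real.exp (-(2 * Real.pi * c')) / 2 : ℝ) ≠ 0)
  · rintro z ⟨hz, -⟩
    rw [Metric.mem_ball, dist_eq_norm] at hz
    have h1 : ‖z - z₀‖ < r := lt_of_lt_of_le hz hρr
    have h2 : |(z - z₀).im| < r := lt_of_le_of_lt (Complex.abs_im_le_norm _) h1
    have := (abs_lt.1 h2).1
    rw [Complex.sub_im] at this
    linarith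
  · rintro z ⟨hz, hz'⟩
    rw [Metric.mem_ball, dist_eq_norm] at hz
    obtain ⟨ζ, h1, h2, h3, h4⟩ := hpt c' z hz' hz
    have := hec ζ (lt_of_le_of_lt (le_max_left _ _) h4)
    rw [hGG, hVV, ← h1] at this
    exact this

end SP38
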