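import Pool.Agent.LibSP38.Glo2

open Matrix Complex Filter Topology
open UpperHalfPlane hiding I
open scoped ComplexOrder ContDiff

namespace SP38

variable {m : ℕ} {w : ℤ} {p : Fin m → ℤ} {Q : Matrix (Fin m) (Fin m) ℝ}
  {G : ℂ → Matrix (Fin m) (Fin m) ℂ} {ν : ℂ → Fin m → ℂ}
  {Δ : Subgroup (Matrix.SpecialLinearGroup (Fin 2) ℝ)} {σ : Matrix.SpecialLinearGroup (Fin 2) ℝ} {s : Equiv.Perm (Fin m)}

theorem glo3_box_compact (h c y : ℝ) (hc : 0 < c) :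
    IsCompact {τ : ℍ | (0 ≤ ((τ : ℂ)).re ∧ ((τ : ℂ)).re ≤ h) ∧ c ≤ τ.im ∧ τ.im ≤ y} := by
  rw [UpperHalfPlane.isEmbedding_coe.isCompact_iff]
  have h1 : ((↑) : ℍ → ℂ) ''
      {τ : ℍ | (0 ≤ ((τ : ℂ)).re ∧ ((τ : ℂ)).re ≤ h) ∧ c ≤ τ.im ∧ τ.im ≤ y} =
      Set.Icc 0 h ×ℂ Set.Icc c y := by
    ext z
    rw [Complex.mem_reProdIm]
    constructor
    · rintro ⟨τ, ⟨h2, h3⟩, rfl⟩
      exact ⟨h2, h3⟩
    · rintro ⟨h2, h3⟩
      refine ⟨⟨z, lt_of_lt_of_le hc h3.1⟩, ⟨h2, h3⟩, rfl⟩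
  rw [h1]
  exact isCompact_Icc.reProdIm isCompact_Icc

theorem glo3_finite (hv : IsVar w p Q G ν) (hs : ∀ j, p (s j) = w - p j)
    (hns : ∀ j, p j < -1 ∨ w - p j < -1) (hflat : ¬ Flat p G ν) {K : Set ℍ} (hK : IsCompact K) :
    {τ : ℍ | τ ∈ K ∧ RSplit p G ν (τ : ℂ)}.Finite := by
  by_contra hinf
  obtain ⟨x, _, hx⟩ := Set.Infinite.exists_accPt_of_subset_isCompact hinf hK (fun τ hτ => hτ.1)
  apply hflat
  apply flat_of_interior hv hs hns (z₀ := (x : ℂ)) x.im_pos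
  rw [accPt_iff_frequently_nhdsNE] at hx
  have ht : Tendsto ((↑) : ℍ → ℂ) (𝓝[≠] x) (𝓝[≠] (x : ℂ)) := by
    apply tendsto_nhdsWithin_of_tendsto_nhds_of_eventually_within
    · exact (UpperHalfPlane.continuous_coe.tendsto x).mono_left nhdsWithin_le_nhds
    · filter_upwards [self_mem_nhdsWithin] with τ hτ
      intro he
      apply hτ
      exact UpperHalfPlane.ext (Set.mem_singleton_iff.mp he)
  exact ht.frequently (hx.mono fun τ hτ => hτ.2)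

/-- real version of the theorem -/
theorem real_version (hv : IsVar w p Q G ν) (hd : Descends p Q G ν Δ)
    {C : Set (Matrix.SpecialLinearGroup (Fin 2) ℝ)} (hfin : FiniteType Δ C)
    (ha : ∀ σ ∈ C, AdmissibleAt p Q G ν Δ σ) (hs : ∀ j, p (s j) = w - p j)
    (hns : ∀ j, p j < -1 ∨ w - p j < -1) (hflat : ¬ Flat p G ν) :
    ∃ S : Set ℍ, S.Finite ∧ ∀ τ : ℍ, RSplit p G ν (τ : ℂ) → ∃ δ ∈ Δ, δ • τ ∈ S := by
  obtain ⟨hC, K, c, hK, hc, hcov⟩ := hfin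
  have hcusp : ∀ σ ∈ C, ∃ h y : ℝ, 0 < h ∧ σ * trans h * σ⁻¹ ∈ Δ ∧
      ∀ τ : ℍ, RSplit p G ν ((σ • τ : ℍ) : ℂ) → τ.im ≤ y := by
    intro σ hσ
    obtain ⟨h, N, Ψ, β, ε, hh, hmem, _⟩ := hv.cuspData_cusp (ha σ hσ)
    by_contra hcon
    apply hflat
    apply flat_of_cusp hv hd (ha σ hσ) hs hns
    intro y
    by_contra h2
    apply hcon
    refine ⟨h, y, hh, hmem, fun τ hτ => ?_⟩
    by_contra h3
    exact h2 ⟨τ, not_le.mp h3, hτ⟩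
  choose! h y hh hmem hy using hcusp
  set K' : Set ℍ := K ∪ ⋃ σ ∈ C, (fun τ : ℍ => σ • τ) ''
    {τ : ℍ | (0 ≤ ((τ : ℂ)).re ∧ ((τ : ℂ)).re ≤ h σ) ∧ c ≤ τ.im ∧ τ.im ≤ y σ} with hK'
  have hK'c : IsCompact K' := by
    apply hK.union
    apply hC.isCompact_biUnion
    intro σ _
    exact (glo3_box_compact (h σ) c (y σ) hc).image (continuous_const_smul σ)
  refine ⟨{τ : ℍ | τ ∈ K' ∧ RSplit p G ν (τ : ℂ)}, glo3_finite hv hs hns hflat hK'c, ?_⟩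
  intro τ hτ
  obtain ⟨δ, hδ, h1⟩ := hcov τ
  rcases h1 with h1 | ⟨σ, hσ, h1⟩
  · exact ⟨δ, hδ, Or.inl h1, glo2_RSplit_smul hd hδ τ hτ⟩
  · set τ1 : ℍ := σ⁻¹ • (δ • τ) with hτ1
    obtain ⟨δ', τ', hδ', h3, h4, h5, h6⟩ := glo2_move (hh σ hσ) (hmem σ hσ) τ1
    have h7 : σ • τ1 = δ • τ := by rw [hτ1, smul_inv_smul]
    have h8 : RSplit p G ν ((σ • τ' : ℍ) : ℂ) := by
      rw [← h3, h7]
      exact glo2_RSplit_smul hd hδ' _ (glo2_RSplit_smul hd hδ τ hτ)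
    refine ⟨δ' * δ, Δ.mul_mem hδ' hδ, ?_⟩
    rw [mul_smul, ← h7, h3]
    refine ⟨Or.inr ?_, h8⟩
    rw [Set.mem_iUnion₂]
    refine ⟨σ, hσ, τ', ⟨⟨?_, ?_⟩, ?_, hy σ hσ τ' h8⟩, rfl⟩
    · rw [Complex.div_ofReal_re] at h5
      have := mul_nonneg h5 (hh σ hσ).le
      rwa [div_mul_cancel₀ _ (hh σ hσ).ne'] at this
    · rw [Complex.div_ofReal_re, div_le_one (hh σ hσ)] at h6
      exact h6
    · rw [h4]
      exact h1.le

theorem main (hv : IsVar w p Q G ν) (hd : Descends p Q G ν Δ)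
    {C : Set (Matrix.SpecialLinearGroup (Fin 2) ℝ)} (hfin : FiniteType Δ C)
    (ha : ∀ σ ∈ C, AdmissibleAt p Q G ν Δ σ) (hs : ∀ j, p (s j) = w - p j)
    (hns : ∀ j, p j < -1 ∨ w - p j < -1) (K : Subfield ℝ) :
    (∃ e : Fin m → ℝ, (∀ i, e i ∈ K) ∧ ∀ τ : ℍ, ν (τ : ℂ) - ofR e ∈ Fil p (G (τ : ℂ)) 0) ∨
    ∃ S : Set ℍ, S.Finite ∧ ∀ τ : ℍ, SplitAt K p G ν (τ : ℂ) → ∃ δ ∈ Δ, δ • τ ∈ S := by
  by_cases hflat : Flat p G ν
  · obtain ⟨e, he⟩ := hflat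
    by_cases hex : ∃ τ : ℍ, SplitAt K p G ν (τ : ℂ)
    · obtain ⟨τ, e', he'K, he'⟩ := hex
      left
      refine ⟨e, ?_, fun τ => he _ τ.im_pos⟩
      have h1 := Submodule.sub_mem _ he' (he (τ : ℂ) τ.im_pos)
      have h2 : ν (τ : ℂ) - ofR e' - (ν (τ : ℂ) - ofR e) = ofR (e - e') := by
        funext i
        simp [ofR]
      rw [h2] at h1
      have h3 := real_mem_Fil (hv.phs (τ : ℂ) τ.im_pos) hs hns h1
      have h4 : e = e' := sub_eq_zero.mp h3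
      rw [h4]
      exact he'K
    · right
      refine ⟨∅, Set.finite_empty, fun τ hτ => absurd ⟨τ, hτ⟩ hex⟩
  · right
    obtain ⟨S, hS, h1⟩ := real_version hv hd hfin ha hs hns hflat
    refine ⟨S, hS, fun τ hτ => h1 τ ?_⟩
    obtain ⟨e, _, he⟩ := hτ
    exact ⟨e, he⟩

end SP38
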