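import Pool.Agent.LibSP38.Ahl2
import Pool.Agent.LibSP38.Fam4

/-! Growth of the Hodge metric on a half plane `{c < Im z}`. -/

open Matrix Complex
open scoped ComplexOrder ContDiff

namespace SP38

variable {m : ℕ} {w : ℤ} {K : ℕ} {Q : Matrix (Fin m) (Fin m) ℝ}
  {P : ℂ → ℤ → Matrix (Fin m) (Fin m) ℂ} {θ : ℂ → Matrix (Fin m) (Fin m) ℂ}

/-- the open half plane -/
def Hc (c : ℝ) : Set ℂ := {z : ℂ | c < z.im}

theorem isOpen_Hc (c : ℝ) : IsOpen (Hc c) := isOpen_lt continuous_const Complex.continuous_im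

/-- the Higgs field is `O(1 / Im z)` -/
theorem PV.hs_theta_le {c : ℝ} (h : PV w K Q (Hc c) P θ) (hK : 0 < K) (hm : 0 < m) {z : ℂ}
    (hz : c < z.im) :
    hs (metr w K Q (P z)) (θ z) ≤ 2 * ((K : ℝ) ^ 2 * m) / (z.im - c) ^ 2 := by
  have hΩ := isOpen_Hc c
  have hKm : 0 < (K : ℝ) ^ 2 * m := by
    have h7 : (0 : ℝ) < K := by exact_mod_cast hK
    have h8 : (0 : ℝ) < m := by exact_mod_cast hm
    positivity
  have hsm : SmS (Hc c) (ff θ) := (h.smθ.mul h.smθ.conj).trace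
  have h1 := ahlfors (c := c) (f := ff θ) hsm (fun z hz => (h.ff_eq hz).1)
    (fun z hz => by
      rw [(h.ff_eq (z := z) hz).2]
      exact hs_nonneg (h.hd z hz).posDef _)
    (κ := 1 / ((K : ℝ) ^ 2 * m)) (by positivity)
    (fun z hz => by
      rw [one_div_mul_eq_div]
      exact h.curvature hΩ hK hm hz) hz
  rw [(h.ff_eq (z := z) hz).2] at h1
  refine h1.trans (le_of_eq ?_)
  have h2 : (z.im - c) ≠ 0 := by
    have : 0 < z.im - c := sub_pos.mpr hz
    exact this.ne'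
  field_simp

theorem gro1_shift (h : HD w K Q (P 0)) {A : Matrix (Fin m) (Fin m) ℂ}
    (hdeg : ∀ a, A * P 0 a = P 0 (a - 1) * A) :
    ∑ a ∈ Finset.Icc (-(K : ℤ)) K, (I ^ (2 * a - w)) • (A * P 0 a) =
      -∑ a ∈ Finset.Icc (-(K : ℤ)) K, (I ^ (2 * a - w)) • (P 0 a * A) := by
  have h1 : ∀ a : ℤ, (I ^ (2 * a - w)) • (A * P 0 a) =
      -((I ^ (2 * (a - 1) - w)) • (P 0 (a - 1) * A)) := by
    intro a
    rw [hdeg, ← neg_smul]
    congr 1
    have h2 : 2 * a - w = (2 * (a - 1) - w) + 2 := by ring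
    rw [h2, zpow_add₀ I_ne_zero]
    have h3 : (I : ℂ) ^ (2 : ℤ) = -1 := by
      have : (I : ℂ) ^ (2 : ℤ) = I ^ 2 := by norm_cast
      rw [this, I_sq]
    rw [h3]
    ring
  simp only [h1]
  rw [Finset.sum_neg_distrib]
  congr 1
  have h4 : ∑ a ∈ Finset.Icc (-(K : ℤ)) K, (I ^ (2 * (a - 1) - w)) • (P 0 (a - 1) * A) =
      ∑ b ∈ Finset.Icc (-(K : ℤ) - 1) (K - 1), (I ^ (2 * b - w)) • (P 0 b * A) := by
    refine Finset.sum_nbij' (fun a => a - 1) (fun b => b + 1) ?_ ?_ ?_ ?_ ?_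
    · intro a ha
      simp only [Finset.mem_Icc] at ha ⊢
      omega
    · intro a ha
      simp only [Finset.mem_Icc] at ha ⊢
      omega
    · intro a _
      ring
    · intro a _
      ring
    · intro a _
      rfl
  rw [h4]
  have h5 : ∑ b ∈ Finset.Icc (-(K : ℤ)) (K - 1), (I ^ (2 * b - w)) • (P 0 b * A) =
      ∑ b ∈ Finset.Icc (-(K : ℤ) - 1) (K - 1), (I ^ (2 * b - w)) • (P 0 b * A) := by
    refine Finset.sum_subset (Finset.Icc_subset_Icc (by omega) le_rfl) fun b hb hb' => ?_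
    simp only [Finset.mem_Icc] at hb hb'
    have hb2 : b = -(K : ℤ) - 1 := by omega
    have h6 : P 0 b = 0 := by
      apply h.supp
      rw [hb2, abs_of_nonpos (by omega)]
      omega
    rw [h6, Matrix.zero_mul, smul_zero]
  have h7 : ∑ b ∈ Finset.Icc (-(K : ℤ)) (K - 1), (I ^ (2 * b - w)) • (P 0 b * A) =
      ∑ b ∈ Finset.Icc (-(K : ℤ)) K, (I ^ (2 * b - w)) • (P 0 b * A) := by
    refine Finset.sum_subset (Finset.Icc_subset_Icc le_rfl (by omega)) fun b hb hb' => ?_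
    simp only [Finset.mem_Icc] at hb hb'
    have hb2 : b = (K : ℤ) := by omega
    have h6 : P 0 (b + 1) = 0 := by
      apply h.supp
      rw [hb2, abs_of_nonneg (by omega)]
      omega
    have h8 : P 0 b * A = 0 := by
      have h9 := hdeg (b + 1)
      rw [h6, Matrix.mul_zero] at h9
      have h10 : b + 1 - 1 = b := by ring
      rw [h10] at h9
      exact h9.symm
    rw [h8, smul_zero]
  rw [← h5, h7]

/-- derivative of the metric: `∂ M = -2 M θ` -/
theorem PV.DZ_metr {Ω : Set ℂ} (hΩ : IsOpen Ω) (h : PV w K Q Ω P θ) {z : ℂ} (hz : z ∈ Ω) :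
    DZ (fun z => metr w K Q (P z)) z = (-2 : ℂ) • (metr w K Q (P z) * θ z) := by
  unfold metr
  rw [DZ_sum hΩ hz (F := fun a z => (I ^ (2 * a - w)) • ((cm Q)ᵀ * P z a))
    _ (fun a _ => ((Sm.const _).mul (h.sm a)).smul _)]
  have h1 : ∀ a ∈ Finset.Icc (-(K : ℤ)) K,
      DZ (fun z => (I ^ (2 * a - w)) • ((cm Q)ᵀ * P z a)) z =
      (cm Q)ᵀ * ((I ^ (2 * a - w)) • (θ z * P z a) - (I ^ (2 * a - w)) • (P z a * θ z)) := by
    intro a _
    rw [DZ_smul hΩ hz _ ((Sm.const _).mul (h.sm a)), DZ_mul hΩ hz (Sm.const _) (h.sm a),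
      DZ_const, h.der z hz, Matrix.zero_mul, zero_add, ← smul_sub, Matrix.mul_smul]
  rw [Finset.sum_congr rfl h1, ← Matrix.mul_sum, Finset.sum_sub_distrib]
  have h2 := gro1_shift (P := fun _ => P z) (h.hd z hz) (h.deg z hz)
  rw [h2, Finset.sum_mul, Finset.smul_sum, Matrix.mul_sub, Matrix.mul_neg, Matrix.mul_sum,
    ← Finset.sum_neg_distrib, ← Finset.sum_sub_distrib]
  refine Finset.sum_congr rfl fun a _ => ?_
  rw [Matrix.mul_smul, Matrix.smul_mul, Matrix.mul_assoc]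
  module

theorem gro1_trace (M : Matrix (Fin m) (Fin m) ℂ) (v : Fin m → ℂ) :
    Matrix.trace (M * Matrix.vecMulVec v (star v)) = star v ⬝ᵥ (M *ᵥ v) := by
  rw [Matrix.mul_vecMulVec, Matrix.trace_vecMulVec, dotProduct_comm]

/-- the Hodge norm of a constant vector: derivative in the direction `u` -/
theorem PV.hasDerivAt_qf {Ω : Set ℂ} (hΩ : IsOpen Ω) (h : PV w K Q Ω P θ) {z : ℂ} (hz : z ∈ Ω)
    (v : Fin m → ℂ) (u : ℂ) :
    ∃ d : ℝ, HasDerivAt (fun t : ℝ => qf (metr w K Q (P (z + t * u))) v) d 0 ∧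
      |d| ≤ 4 * ‖u‖ * √(hs (metr w K Q (P z)) (θ z)) * qf (metr w K Q (P z)) v := by
  have hM := (h.hd z hz).posDef
  have hsM : Sm Ω (fun z => metr w K Q (P z)) := by
    unfold metr
    exact Sm.sum _ fun a _ => ((Sm.const _).mul (h.sm a)).smul _
  set V : Matrix (Fin m) (Fin m) ℂ := Matrix.vecMulVec v (star v) with hV
  set φ : ℂ → ℂ := fun z => Matrix.trace (metr w K Q (P z) * V) with hφ
  have hφs : SmS Ω φ := (hsM.mul (Sm.const V)).trace
  have hφd : DifferentiableAt ℝ φ z := hφs.differentiableAt hΩ hz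
  have hφq : ∀ x, φ x = star v ⬝ᵥ (metr w K Q (P x) *ᵥ v) := fun x => gro1_trace _ v
  have hdz : dz φ z = -2 * (star v ⬝ᵥ (metr w K Q (P z) *ᵥ (θ z *ᵥ v))) := by
    have h1 : dz φ z = Matrix.trace (DZ (fun z => metr w K Q (P z) * V) z) :=
      dz_trace hΩ hz (hsM.mul (Sm.const V))
    rw [h1, DZ_mul hΩ hz hsM (Sm.const V), DZ_const, Matrix.mul_zero, add_zero, h.DZ_metr hΩ hz,
      Matrix.smul_mul, Matrix.trace_smul, gro1_trace, Matrix.mulVec_mulVec, smul_eq_mul]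
  have hdn : ‖dz φ z‖ ≤ 2 * (√(hs (metr w K Q (P z)) (θ z)) * qf (metr w K Q (P z)) v) := by
    rw [hdz, norm_mul, norm_neg, Complex.norm_ofNat]
    refine mul_le_mul_of_nonneg_left ?_ (by norm_num)
    refine (norm_inner_le hM v (θ z *ᵥ v)).trans ?_
    have h2 : √(qf (metr w K Q (P z)) (θ z *ᵥ v)) ≤
        √(hs (metr w K Q (P z)) (θ z)) * √(qf (metr w K Q (P z)) v) := by
      rw [← Real.sqrt_mul (hs_nonneg hM _)]
      exact Real.sqrt_le_sqrt (qf_mulVec_le hM _ v)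
    calc √(qf (metr w K Q (P z)) v) * √(qf (metr w K Q (P z)) (θ z *ᵥ v)) ≤
        √(qf (metr w K Q (P z)) v) * (√(hs (metr w K Q (P z)) (θ z)) *
          √(qf (metr w K Q (P z)) v)) := mul_le_mul_of_nonneg_left h2 (Real.sqrt_nonneg _)
      _ = √(hs (metr w K Q (P z)) (θ z)) *
          (√(qf (metr w K Q (P z)) v) * √(qf (metr w K Q (P z)) v)) := by ring
      _ = _ := by rw [Real.mul_self_sqrt (qf_nonneg hM v)]
  have hdzb : ‖dzb φ z‖ = ‖dz φ z‖ := by
    have h1 : dz (fun z => (starRingEnd ℂ) (φ z)) z = dz φ z := by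
      have hev : ∀ᶠ x in nhds z, x ∈ Ω := hΩ.mem_nhds hz
      apply dz_congr
      refine hev.mono fun x hx => ?_
      change (starRingEnd ℂ) (φ x) = φ x
      rw [Complex.conj_eq_iff_im, hφq]
      exact qf_im (h.hd x hx).posDef v
    rw [dz_conj hφd] at h1
    rw [← h1, Complex.norm_conj]
  have hder : HasDerivAt (fun t : ℝ => φ (z + t * u)) (fderiv ℝ φ z u) 0 := by
    have h1 : HasDerivAt (fun t : ℝ => z + (t : ℂ) * u) u 0 := by
      have h2 : HasDerivAt (fun t : ℝ => (t : ℂ)) 1 0 := Complex.ofRealCLM.hasDerivAt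
      have h3 := (h2.mul_const u).const_add z
      rwa [one_mul] at h3
    have h4 : HasFDerivAt φ (fderiv ℝ φ z) (z + ((0 : ℝ) : ℂ) * u) := by
      rw [Complex.ofReal_zero, zero_mul, add_zero]
      exact hφd.hasFDerivAt
    exact h4.comp_hasDerivAt 0 h1
  refine ⟨(fderiv ℝ φ z u).re, ?_, ?_⟩
  · have h1 := (Complex.reCLM.hasFDerivAt (x := φ (z + ((0 : ℝ) : ℂ) * u))).comp_hasDerivAt 0 hder
    have h2 : (Complex.reCLM ∘ fun t : ℝ => φ (z + t * u)) =
        fun t : ℝ => qf (metr w K Q (P (z + t * u))) v := by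
      funext t
      change (φ (z + t * u)).re = _
      rw [hφq]
      rfl
    rw [h2] at h1
    exact h1
  · refine (Complex.abs_re_le_norm _).trans ?_
    rw [fderiv_eq_dz hφd]
    refine (norm_add_le _ _).trans ?_
    rw [norm_mul, norm_mul, Complex.norm_conj, hdzb]
    have h3 := mul_le_mul_of_nonneg_right hdn (norm_nonneg u)
    linarith

end SP38
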