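import Pool.Agent.LibSP38.Gro1

open Matrix Complex
open scoped ComplexOrder ContDiff

namespace SP38

variable {m : ℕ} {w : ℤ} {K : ℕ} {Q : Matrix (Fin m) (Fin m) ℝ}
  {P : ℂ → ℤ → Matrix (Fin m) (Fin m) ℂ} {θ : ℂ → Matrix (Fin m) (Fin m) ℂ}

private theorem Gro2_gronwall {φ d E e : ℝ → ℝ} {a b : ℝ} (hab : a ≤ b)
    (hφ : ∀ t ∈ Set.Icc a b, HasDerivAt φ (d t) t) (hE : ∀ t ∈ Set.Icc a b, HasDerivAt E (e t) t)
    (hd : ∀ t ∈ Set.Icc a b, |d t| ≤ e t * φ t) :
    φ b ≤ Real.exp (E b - E a) * φ a ∧ φ a ≤ Real.exp (E b - E a) * φ b := by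
  have h1 : ∀ t ∈ Set.Icc a b, HasDerivAt (fun t => Real.exp (-E t) * φ t)
      (Real.exp (-E t) * (d t - e t * φ t)) t := by
    intro t ht
    have := ((hE t ht).neg.exp).mul (hφ t ht)
    refine this.congr_deriv ?_
    simp only [Pi.neg_apply]
    ring
  have h2 : ∀ t ∈ Set.Icc a b, HasDerivAt (fun t => Real.exp (E t) * φ t)
      (Real.exp (E t) * (d t + e t * φ t)) t := by
    intro t ht
    have := ((hE t ht).exp).mul (hφ t ht)
    refine this.congr_deriv ?_
    ring
  have h3 : AntitoneOn (fun t => Real.exp (-E t) * φ t) (Set.Icc a b) := by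
    refine antitoneOn_of_deriv_nonpos (convex_Icc a b)
      (fun t ht => (h1 t ht).continuousAt.continuousWithinAt) ?_ ?_
    · intro t ht
      rw [interior_Icc] at ht
      exact (h1 t (Set.Ioo_subset_Icc_self ht)).differentiableAt.differentiableWithinAt
    · intro t ht
      rw [interior_Icc] at ht
      have ht' := Set.Ioo_subset_Icc_self ht
      rw [(h1 t ht').deriv]
      have := (abs_le.1 (hd t ht')).2
      exact mul_nonpos_of_nonneg_of_nonpos (Real.exp_pos _).le (by linarith)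
  have h4 : MonotoneOn (fun t => Real.exp (E t) * φ t) (Set.Icc a b) := by
    refine monotoneOn_of_deriv_nonneg (convex_Icc a b)
      (fun t ht => (h2 t ht).continuousAt.continuousWithinAt) ?_ ?_
    · intro t ht
      rw [interior_Icc] at ht
      exact (h2 t (Set.Ioo_subset_Icc_self ht)).differentiableAt.differentiableWithinAt
    · intro t ht
      rw [interior_Icc] at ht
      have ht' := Set.Ioo_subset_Icc_self ht
      rw [(h2 t ht').deriv]
      have := (abs_le.1 (hd t ht')).1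
      exact mul_nonneg (Real.exp_pos _).le (by linarith)
  have ha : a ∈ Set.Icc a b := Set.left_mem_Icc.2 hab
  have hb : b ∈ Set.Icc a b := Set.right_mem_Icc.2 hab
  have h5 := h3 ha hb hab
  have h6 := h4 ha hb hab
  simp only at h5 h6
  constructor
  · have h7 : φ b = Real.exp (E b) * (Real.exp (-E b) * φ b) := by
      rw [← mul_assoc, ← Real.exp_add, add_neg_cancel, Real.exp_zero, one_mul]
    rw [h7]
    refine (mul_le_mul_of_nonneg_left h5 (Real.exp_pos _).le).trans (le_of_eq ?_)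
    rw [← mul_assoc, ← Real.exp_add, ← sub_eq_add_neg]
  · have h7 : φ a = Real.exp (-E a) * (Real.exp (E a) * φ a) := by
      rw [← mul_assoc, ← Real.exp_add, neg_add_cancel, Real.exp_zero, one_mul]
    rw [h7]
    refine (mul_le_mul_of_nonneg_left h6 (Real.exp_pos _).le).trans (le_of_eq ?_)
    rw [← mul_assoc, ← Real.exp_add, sub_eq_neg_add]

private theorem Gro2_theta {c : ℝ} (h : PV w K Q (Hc c) P θ) {z : ℂ} (hz : c < z.im) :
    √(hs (metr w K Q (P z)) (θ z)) ≤ √(2 * ((K : ℝ) ^ 2 * m)) / (z.im - c) := by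
  have hy : 0 < z.im - c := by linarith
  have h1 : hs (metr w K Q (P z)) (θ z) ≤ 2 * ((K : ℝ) ^ 2 * m) / (z.im - c) ^ 2 := by
    rcases Nat.eq_zero_or_pos m with hm | hm
    · subst hm
      simp [hs, Matrix.trace]
    rcases Nat.eq_zero_or_pos K with hK | hK
    · have hθ : θ z = 0 := by
        subst hK
        have hH := h.hd z hz
        have h3 : P z 0 = 1 := by
          have := hH.sum
          simpa using this
        have h4 : P z (-1) = 0 := hH.supp (-1) (by simp)
        have h5 := h.deg z hz 0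
        rw [h3, mul_one, zero_sub, h4, zero_mul] at h5
        exact h5
      rw [hθ]
      have : hs (metr w K Q (P z)) 0 = 0 := by
        simp [hs]
      rw [this]
      positivity
    exact h.hs_theta_le hK hm hz
  refine (Real.sqrt_le_sqrt h1).trans (le_of_eq ?_)
  rw [Real.sqrt_div (by positivity), Real.sqrt_sq hy.le]

private theorem Gro2_line {c : ℝ} (h : PV w K Q (Hc c) P θ) (v : Fin m → ℂ) (z₀ u : ℂ)
    (hu : ‖u‖ = 1) (t : ℝ) (hz : c < (z₀ + t * u).im) :
    ∃ d : ℝ, HasDerivAt (fun t : ℝ => qf (metr w K Q (P (z₀ + t * u))) v) d t ∧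
      |d| ≤ 4 * √(2 * ((K : ℝ) ^ 2 * m)) / ((z₀ + t * u).im - c) *
        qf (metr w K Q (P (z₀ + t * u))) v := by
  obtain ⟨d, hd, hd'⟩ := h.hasDerivAt_qf (isOpen_Hc c) hz v u
  refine ⟨d, ?_, ?_⟩
  · have h1 : HasDerivAt (fun s : ℝ => qf (metr w K Q (P (z₀ + t * u + s * u))) v) d (t - t) := by
      rw [sub_self]
      exact hd
    have h2 := h1.comp_sub_const t t
    refine h2.congr_of_eventuallyEq (Filter.Eventually.of_forall fun s => ?_)
    have h3 : z₀ + t * u + ((s - t : ℝ) : ℂ) * u = z₀ + s * u := by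
      push_cast
      ring
    change qf (metr w K Q (P (z₀ + s * u))) v =
      qf (metr w K Q (P (z₀ + t * u + ((s - t : ℝ) : ℂ) * u))) v
    rw [h3]
  · refine hd'.trans ?_
    have h1 := Gro2_theta h hz
    have h2 := qf_nonneg (h.hd _ hz).posDef v
    rw [hu, mul_one, mul_div_assoc]
    exact mul_le_mul_of_nonneg_right (mul_le_mul_of_nonneg_left h1 (by norm_num)) h2

/-- growth of the Hodge norm: there is an exponent `B` such that -/
theorem PV.exists_growth {c : ℝ} (h : PV w K Q (Hc c) P θ) :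
    ∃ B : ℝ, 0 ≤ B ∧
      (∀ (x y₁ y₂ : ℝ), c < y₁ → y₁ ≤ y₂ → ∀ v : Fin m → ℂ,
        qf (metr w K Q (P (x + y₂ * I))) v ≤
            ((y₂ - c) / (y₁ - c)) ^ B * qf (metr w K Q (P (x + y₁ * I))) v ∧
        qf (metr w K Q (P (x + y₁ * I))) v ≤
            ((y₂ - c) / (y₁ - c)) ^ B * qf (metr w K Q (P (x + y₂ * I))) v) ∧
      (∀ (x y t : ℝ), c < y → 0 ≤ t → ∀ v : Fin m → ℂ,
        qf (metr w K Q (P (x + t + y * I))) v ≤
            Real.exp (B * t / (y - c)) * qf (metr w K Q (P (x + y * I))) v ∧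
        qf (metr w K Q (P (x + y * I))) v ≤
            Real.exp (B * t / (y - c)) * qf (metr w K Q (P (x + t + y * I))) v) := by
  refine ⟨4 * √(2 * ((K : ℝ) ^ 2 * m)), by positivity, ?_, ?_⟩
  · intro x y₁ y₂ hy₁ hy₂ v
    have him : ∀ t : ℝ, ((x : ℂ) + t * I).im = t := by
      intro t
      simp
    have h1 : ∀ t : ℝ, c < t → ∃ d : ℝ,
        HasDerivAt (fun t : ℝ => qf (metr w K Q (P (x + t * I))) v) d t ∧
        |d| ≤ 4 * √(2 * ((K : ℝ) ^ 2 * m)) / (t - c) * qf (metr w K Q (P (x + t * I))) v := by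
      intro t ht
      have := Gro2_line h v (x : ℂ) I norm_I t (by rw [him]; exact ht)
      rw [him] at this
      exact this
    choose! d hd hd' using h1
    have hpos : ∀ t ∈ Set.Icc y₁ y₂, 0 < t - c := fun t ht => by linarith [ht.1]
    have h2 := Gro2_gronwall (φ := fun t : ℝ => qf (metr w K Q (P (x + t * I))) v) (d := d)
      (E := fun t => 4 * √(2 * ((K : ℝ) ^ 2 * m)) * Real.log (t - c))
      (e := fun t => 4 * √(2 * ((K : ℝ) ^ 2 * m)) / (t - c)) hy₂
      (fun t ht => hd t (by linarith [hpos t ht]))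
      (fun t ht => by
        have h3 := ((hasDerivAt_id t).sub_const c).log (hpos t ht).ne'
        have h4 := h3.const_mul (4 * √(2 * ((K : ℝ) ^ 2 * m)))
        refine h4.congr_deriv ?_
        simp only [id]
        ring)
      (fun t ht => hd' t (by linarith [hpos t ht]))
    have h5 : Real.exp (4 * √(2 * ((K : ℝ) ^ 2 * m)) * Real.log (y₂ - c) -
        4 * √(2 * ((K : ℝ) ^ 2 * m)) * Real.log (y₁ - c)) =
        ((y₂ - c) / (y₁ - c)) ^ (4 * √(2 * ((K : ℝ) ^ 2 * m))) := by
      have p1 : 0 < y₁ - c := by linarith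
      have p2 : 0 < y₂ - c := by linarith
      rw [Real.rpow_def_of_pos (div_pos p2 p1), Real.log_div p2.ne' p1.ne']
      congr 1
      ring
    rw [h5] at h2
    exact h2
  · intro x y t hy ht v
    have him : ∀ s : ℝ, ((x : ℂ) + y * I + s * 1).im = y := by
      intro s
      simp
    have hre : ∀ s : ℝ, (x : ℂ) + y * I + s * 1 = x + s + y * I := by
      intro s
      ring
    have h1 : ∀ s : ℝ, ∃ d : ℝ,
        HasDerivAt (fun s : ℝ => qf (metr w K Q (P (x + s + y * I))) v) d s ∧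
        |d| ≤ 4 * √(2 * ((K : ℝ) ^ 2 * m)) / (y - c) * qf (metr w K Q (P (x + s + y * I))) v := by
      intro s
      have := Gro2_line h v ((x : ℂ) + y * I) 1 norm_one s (by rw [him]; exact hy)
      rw [him] at this
      simp only [hre] at this
      exact this
    choose d hd hd' using h1
    have h2 := Gro2_gronwall (φ := fun s : ℝ => qf (metr w K Q (P (x + s + y * I))) v) (d := d)
      (E := fun s => 4 * √(2 * ((K : ℝ) ^ 2 * m)) / (y - c) * s)
      (e := fun _ => 4 * √(2 * ((K : ℝ) ^ 2 * m)) / (y - c)) ht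
      (fun s _ => hd s)
      (fun s _ => by
        have h3 := (hasDerivAt_id s).const_mul (4 * √(2 * ((K : ℝ) ^ 2 * m)) / (y - c))
        refine h3.congr_deriv ?_
        ring)
      (fun s _ => hd' s)
    have h5 : Real.exp (4 * √(2 * ((K : ℝ) ^ 2 * m)) / (y - c) * t -
        4 * √(2 * ((K : ℝ) ^ 2 * m)) / (y - c) * 0) =
        Real.exp (4 * √(2 * ((K : ℝ) ^ 2 * m)) * t / (y - c)) := by
      congr 1
      ring
    rw [h5, ofReal_zero, add_zero] at h2
    exact h2

end SP38
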