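import Pool.Agent.LibSP38.Adj
import Pool.Agent.LibSP38.Defs

open Matrix Complex
open scoped ComplexOrder

namespace SP38

variable {m : ℕ}

/-- `P a` is the projector onto `H^{a,w-a}` along the other pieces. -/
structure HD (w : ℤ) (K : ℕ) (Q : Matrix (Fin m) (Fin m) ℝ)
    (P : ℤ → Matrix (Fin m) (Fin m) ℂ) : Prop where
  mul : ∀ a b, P a * P b = if a = b then P a else 0
  supp : ∀ a : ℤ, (K : ℤ) < |a| → P a = 0
  sum : ∑ a ∈ Finset.Icc (-(K : ℤ)) K, P a = 1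
  conj : ∀ a, (P a).map (starRingEnd ℂ) = P (w - a)
  orth : ∀ a b, a + b ≠ w → (P a)ᵀ * cm Q * P b = 0
  pos : ∀ a v, P a *ᵥ v = v → v ≠ 0 →
    0 < (I ^ (2 * a - w) * bil Q v (cj v)).re ∧ (I ^ (2 * a - w) * bil Q v (cj v)).im = 0

/-- the matrix of the Hodge metric -/
noncomputable def metr (w : ℤ) (K : ℕ) (Q : Matrix (Fin m) (Fin m) ℝ)
    (P : ℤ → Matrix (Fin m) (Fin m) ℂ) : Matrix (Fin m) (Fin m) ℂ :=
  ∑ a ∈ Finset.Icc (-(K : ℤ)) K, (I ^ (2 * a - w)) • ((cm Q)ᵀ * P a)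

/-- the grading operator -/
noncomputable def YY (K : ℕ) (P : ℤ → Matrix (Fin m) (Fin m) ℂ) : Matrix (Fin m) (Fin m) ℂ :=
  ∑ a ∈ Finset.Icc (-(K : ℤ)) K, (a : ℂ) • P a

/-- the projector onto the part of index `< a` -/
noncomputable def Plt (K : ℕ) (P : ℤ → Matrix (Fin m) (Fin m) ℂ) (a : ℤ) :
    Matrix (Fin m) (Fin m) ℂ :=
  ∑ b ∈ Finset.Ico (-(K : ℤ)) a, P b

variable {w : ℤ} {K : ℕ} {Q : Matrix (Fin m) (Fin m) ℝ} {P : ℤ → Matrix (Fin m) (Fin m) ℂ}

theorem hd1_bil_eq (u v : Fin m → ℂ) : bil Q u v = u ⬝ᵥ (cm Q *ᵥ v) := by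
  simp only [bil, dotProduct, Matrix.mulVec, Finset.mul_sum, cm, Matrix.map_apply, mul_assoc]

theorem hd1_cj_mulVec (A : Matrix (Fin m) (Fin m) ℂ) (v : Fin m → ℂ) :
    cj (A *ᵥ v) = A.map (starRingEnd ℂ) *ᵥ cj v := by
  funext i
  simp only [cj, Matrix.mulVec, dotProduct, map_sum, map_mul, Matrix.map_apply]

theorem hd1_cj_cj (v : Fin m → ℂ) : cj (cj v) = v := by
  funext i; simp [cj]

theorem hd1_star_eq (v : Fin m → ℂ) : star v = cj v := rfl

/-- orthogonality as a statement on vectors -/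
theorem HD.hd1_orth (h : HD w K Q P) {a b : ℤ} (hab : a + b ≠ w) (u v : Fin m → ℂ) :
    bil Q (P a *ᵥ u) (P b *ᵥ v) = 0 := by
  rw [hd1_bil_eq, Matrix.mulVec_mulVec, Matrix.dotProduct_mulVec, Matrix.vecMul_mulVec,
    ← Matrix.mul_assoc, h.orth a b hab, Matrix.vecMul_zero, zero_dotProduct]

theorem HD.hd1_cj (h : HD w K Q P) (a : ℤ) (v : Fin m → ℂ) :
    cj (P a *ᵥ v) = P (w - a) *ᵥ cj v := by
  rw [hd1_cj_mulVec, h.conj]

theorem hd1_bil_add_left (u u' v : Fin m → ℂ) : bil Q (u + u') v = bil Q u v + bil Q u' v := by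
  simp only [hd1_bil_eq, add_dotProduct]

theorem hd1_bil_sum_right {ι : Type*} (s : Finset ι) (u : Fin m → ℂ) (v : ι → Fin m → ℂ) :
    bil Q u (∑ a ∈ s, v a) = ∑ a ∈ s, bil Q u (v a) := by
  simp only [hd1_bil_eq, Matrix.mulVec_sum, dotProduct_sum]

theorem HD.hd1_decomp (h : HD w K Q P) (v : Fin m → ℂ) :
    v = ∑ a ∈ Finset.Icc (-(K : ℤ)) K, P a *ᵥ v := by
  rw [← Matrix.sum_mulVec, h.sum, Matrix.one_mulVec]

/-- the pairing of `H^a` with everything only sees the piece `w - a` -/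
theorem HD.hd1_bil_piece (h : HD w K Q P) (a : ℤ) (u v : Fin m → ℂ) :
    bil Q (P a *ᵥ u) (cj v) = bil Q (P a *ᵥ u) (cj (P a *ᵥ v)) := by
  conv_lhs => rw [h.hd1_decomp v]
  have hsum : cj (∑ b ∈ Finset.Icc (-(K : ℤ)) K, P b *ᵥ v) =
      ∑ b ∈ Finset.Icc (-(K : ℤ)) K, cj (P b *ᵥ v) := by
    funext i
    simp only [cj, Finset.sum_apply, map_sum]
  rw [hsum, hd1_bil_sum_right]
  by_cases ha : a ∈ Finset.Icc (-(K : ℤ)) K
  · rw [Finset.sum_eq_single_of_mem a ha]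
    intro b _ hb
    rw [h.hd1_cj b v]
    exact h.hd1_orth (by intro h2; apply hb; omega) _ _
  · have hPa : P a = 0 := by
      apply h.supp
      rw [Finset.mem_Icc] at ha
      by_contra hh
      exact ha (abs_le.mp (not_lt.mp hh))
    rw [hPa]
    simp [hd1_bil_eq]

/-- the value of the hermitian form -/
theorem HD.hd1_form (h : HD w K Q P) (u v : Fin m → ℂ) :
    star u ⬝ᵥ (metr w K Q P *ᵥ v) =
      ∑ a ∈ Finset.Icc (-(K : ℤ)) K, I ^ (2 * a - w) * bil Q (P a *ᵥ v) (cj (P a *ᵥ u)) := by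
  rw [metr, Matrix.sum_mulVec, dotProduct_sum]
  refine Finset.sum_congr rfl fun a _ => ?_
  rw [← h.hd1_bil_piece a v u, Matrix.smul_mulVec, dotProduct_smul, smul_eq_mul,
    ← Matrix.mulVec_mulVec, hd1_bil_eq, hd1_star_eq, Matrix.dotProduct_mulVec,
    Matrix.vecMul_transpose, dotProduct_comm]

theorem HD.hd1_real (h : HD w K Q P) (a : ℤ) (v : Fin m → ℂ) :
    0 ≤ (I ^ (2 * a - w) * bil Q (P a *ᵥ v) (cj (P a *ᵥ v))).re ∧
      (I ^ (2 * a - w) * bil Q (P a *ᵥ v) (cj (P a *ᵥ v))).im = 0 := by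
  by_cases h0 : P a *ᵥ v = 0
  · rw [h0]
    simp [hd1_bil_eq]
  · have h1 : P a *ᵥ (P a *ᵥ v) = P a *ᵥ v := by
      rw [Matrix.mulVec_mulVec, h.mul, if_pos rfl]
    obtain ⟨h2, h3⟩ := h.pos a _ h1 h0
    exact ⟨h2.le, h3⟩

theorem HD.hd1_form_im (h : HD w K Q P) (v : Fin m → ℂ) :
    (star v ⬝ᵥ (metr w K Q P *ᵥ v)).im = 0 := by
  rw [h.hd1_form, Complex.im_sum]
  exact Finset.sum_eq_zero fun a _ => (h.hd1_real a v).2

theorem HD.hd1_isHermitian (h : HD w K Q P) : (metr w K Q P).IsHermitian := by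
  set M := metr w K Q P with hM
  have hf : ∀ v, (star v ⬝ᵥ (M *ᵥ v)).im = 0 := fun v => h.hd1_form_im v
  -- polarization
  have hpol : ∀ u v : Fin m → ℂ, star u ⬝ᵥ (M *ᵥ v) = (starRingEnd ℂ) (star v ⬝ᵥ (M *ᵥ u)) := by
    intro u v
    have h1 := hf (u + v)
    have h2 := hf (u + I • v)
    have hu := hf u
    have hv := hf v
    have e1 : star (u + v) ⬝ᵥ (M *ᵥ (u + v)) =
        star u ⬝ᵥ (M *ᵥ u) + star v ⬝ᵥ (M *ᵥ v) + (star u ⬝ᵥ (M *ᵥ v) + star v ⬝ᵥ (M *ᵥ u)) := by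
      rw [star_add, Matrix.mulVec_add, add_dotProduct, dotProduct_add, dotProduct_add]
      ring
    have e2 : star (u + I • v) ⬝ᵥ (M *ᵥ (u + I • v)) =
        star u ⬝ᵥ (M *ᵥ u) + star v ⬝ᵥ (M *ᵥ v) +
          (I * (star u ⬝ᵥ (M *ᵥ v)) - I * (star v ⬝ᵥ (M *ᵥ u))) := by
      rw [star_add, star_smul, Matrix.mulVec_add, Matrix.mulVec_smul, add_dotProduct,
        dotProduct_add, dotProduct_add, smul_dotProduct, smul_dotProduct, dotProduct_smul,
        dotProduct_smul]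
      have : star I = -I := Complex.conj_I
      rw [this]
      simp only [smul_eq_mul]
      ring_nf
      rw [Complex.I_sq]
      ring
    rw [e1] at h1
    rw [e2] at h2
    simp only [Complex.add_im, hu, hv] at h1 h2
    simp only [Complex.sub_im, Complex.mul_im, Complex.I_re, Complex.I_im] at h2
    apply Complex.ext
    · rw [Complex.conj_re]; linarith
    · rw [Complex.conj_im]; linarith
  apply Matrix.IsHermitian.ext
  intro i j
  have h1 := hpol (Pi.single i 1) (Pi.single j 1)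
  have h2 : ∀ i j : Fin m, star (Pi.single i 1 : Fin m → ℂ) ⬝ᵥ (M *ᵥ Pi.single j 1) = M i j := by
    intro i j
    rw [Matrix.mulVec_single_one]
    have : star (Pi.single i 1 : Fin m → ℂ) = Pi.single i 1 := by
      funext k
      by_cases hk : k = i
      · subst hk; simp
      · simp [Pi.single_eq_of_ne hk]
    rw [this, single_one_dotProduct]
    rfl
  rw [h2, h2] at h1
  rw [h1]
  simp

theorem HD.posDef (h : HD w K Q P) : (metr w K Q P).PosDef := by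
  apply Matrix.PosDef.of_dotProduct_mulVec_pos h.hd1_isHermitian
  intro v hv
  rw [Complex.lt_def]
  refine ⟨?_, ?_⟩
  · rw [h.hd1_form, Complex.re_sum, Complex.zero_re]
    apply Finset.sum_pos'
    · intro a _; exact (h.hd1_real a v).1
    · by_contra hcon
      push Not at hcon
      apply hv
      rw [h.hd1_decomp v]
      apply Finset.sum_eq_zero
      intro a ha
      by_contra h0
      have h1 : P a *ᵥ (P a *ᵥ v) = P a *ᵥ v := by
        rw [Matrix.mulVec_mulVec, h.mul, if_pos rfl]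
      exact absurd (h.pos a _ h1 h0).1 (not_lt.mpr (hcon a ha))
  · rw [h.hd1_form_im]; simp

theorem HD.hd1_adj_unique (h : HD w K Q P) {X Z : Matrix (Fin m) (Fin m) ℂ}
    (hXZ : ∀ u v : Fin m → ℂ, star u ⬝ᵥ (metr w K Q P *ᵥ (X *ᵥ v)) =
      star (Z *ᵥ u) ⬝ᵥ (metr w K Q P *ᵥ v)) : adj (metr w K Q P) X = Z := by
  have hM := h.posDef
  have h1 : ∀ u : Fin m → ℂ, adj (metr w K Q P) X *ᵥ u = Z *ᵥ u := by
    intro u
    by_contra hne
    have hne' : adj (metr w K Q P) X *ᵥ u - Z *ᵥ u ≠ 0 := sub_ne_zero.mpr hne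
    have h2 := hM.dotProduct_mulVec_pos hne'
    have h3 := hXZ u (adj (metr w K Q P) X *ᵥ u - Z *ᵥ u)
    rw [inner_adj hM] at h3
    rw [star_sub, sub_dotProduct, h3, sub_self] at h2
    exact lt_irrefl _ h2
  exact Matrix.ext_of_mulVec_single fun i => h1 _

theorem HD.adj_P (h : HD w K Q P) (a : ℤ) : adj (metr w K Q P) (P a) = P a := by
  apply h.hd1_adj_unique
  intro u v
  rw [h.hd1_form, h.hd1_form]
  refine Finset.sum_congr rfl fun b _ => ?_
  rw [Matrix.mulVec_mulVec, Matrix.mulVec_mulVec, h.mul]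
  by_cases hb : b = a
  · subst hb; simp
  · rw [if_neg hb]
    have h0 : cj ((0 : Matrix (Fin m) (Fin m) ℂ) *ᵥ u) = 0 := by
      funext i; simp [cj]
    rw [h0]
    simp [hd1_bil_eq]

theorem HD.hd1_qf (h : HD w K Q P) (v : Fin m → ℂ) :
    qf (metr w K Q P) v =
      ∑ a ∈ Finset.Icc (-(K : ℤ)) K, (I ^ (2 * a - w) * bil Q (P a *ᵥ v) (cj (P a *ᵥ v))).re := by
  rw [qf, h.hd1_form, Complex.re_sum]

theorem HD.hd1_qf_P (h : HD w K Q P) (a : ℤ) (v : Fin m → ℂ) :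
    qf (metr w K Q P) (P a *ᵥ v) = (I ^ (2 * a - w) * bil Q (P a *ᵥ v) (cj (P a *ᵥ v))).re := by
  rw [h.hd1_qf]
  by_cases ha : a ∈ Finset.Icc (-(K : ℤ)) K
  · rw [Finset.sum_eq_single_of_mem a ha, Matrix.mulVec_mulVec, h.mul, if_pos rfl]
    intro b _ hb
    rw [Matrix.mulVec_mulVec, h.mul, if_neg hb]
    simp [hd1_bil_eq]
  · have hPa : P a = 0 := by
      apply h.supp
      rw [Finset.mem_Icc] at ha
      by_contra hh
      exact ha (abs_le.mp (not_lt.mp hh))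
    rw [hPa]
    simp [hd1_bil_eq]

theorem HD.qf_sum (h : HD w K Q P) (v : Fin m → ℂ) :
    qf (metr w K Q P) v = ∑ a ∈ Finset.Icc (-(K : ℤ)) K, qf (metr w K Q P) (P a *ᵥ v) := by
  rw [h.hd1_qf]
  exact Finset.sum_congr rfl fun a _ => (h.hd1_qf_P a v).symm

theorem HD.qf_cj (h : HD w K Q P) (a : ℤ) (v : Fin m → ℂ) :
    qf (metr w K Q P) (P a *ᵥ v) = qf (metr w K Q P) (P (w - a) *ᵥ cj v) := by
  rw [h.hd1_qf_P, h.hd1_qf_P, ← h.hd1_cj a v, hd1_cj_cj]
  have hI : (starRingEnd ℂ) (I ^ (2 * a - w)) = I ^ (2 * (w - a) - w) := by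
    rw [map_zpow₀, Complex.conj_I, ← Complex.inv_I, _root_.inv_zpow']
    congr 1
    ring
  have hb : bil Q (cj (P a *ᵥ v)) (P a *ᵥ v) =
      (starRingEnd ℂ) (bil Q (P a *ᵥ v) (cj (P a *ᵥ v))) := by
    simp only [bil, cj, map_sum, map_mul, Complex.conj_ofReal, Complex.conj_conj]
  rw [hb, ← hI, ← map_mul, Complex.conj_re]

/-- the pieces are orthogonal: Pythagoras for `Plt` -/
theorem HD.qf_Plt (h : HD w K Q P) (c : ℤ) (v : Fin m → ℂ) :
    qf (metr w K Q P) (Plt K P c *ᵥ v) =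
      ∑ a ∈ (Finset.Icc (-(K : ℤ)) K).filter (fun a => a < c), qf (metr w K Q P) (P a *ᵥ v) := by
  rw [h.qf_sum (Plt K P c *ᵥ v), Finset.sum_filter]
  refine Finset.sum_congr rfl fun a ha => ?_
  rw [Matrix.mulVec_mulVec]
  have h1 : P a * Plt K P c = if a < c then P a else 0 := by
    rw [Plt, Finset.mul_sum]
    by_cases hac : a < c
    · rw [if_pos hac, Finset.sum_eq_single_of_mem a, h.mul, if_pos rfl]
      · rw [Finset.mem_Ico]; exact ⟨(Finset.mem_Icc.mp ha).1, hac⟩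
      · intro b _ hb
        rw [h.mul, if_neg (fun e => hb e.symm)]
    · rw [if_neg hac]
      apply Finset.sum_eq_zero
      intro b hb
      rw [h.mul, if_neg]
      intro e
      subst e
      exact hac (Finset.mem_Ico.mp hb).2
  rw [h1]
  by_cases hac : a < c
  · rw [if_pos hac, if_pos hac]
  · rw [if_neg hac, if_neg hac]
    simp [qf]

theorem HD.qf_Plt_le (h : HD w K Q P) (c : ℤ) (v : Fin m → ℂ) :
    qf (metr w K Q P) (Plt K P c *ᵥ v) ≤ qf (metr w K Q P) v := by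
  rw [h.qf_Plt, h.qf_sum v]
  exact Finset.sum_le_sum_of_subset_of_nonneg (Finset.filter_subset _ _)
    (fun a _ _ => qf_nonneg h.posDef _)

theorem HD.P_mul_Plt (h : HD w K Q P) (a c : ℤ) :
    P a * Plt K P c = if a < c then P a else 0 := by
  rw [Plt, Finset.mul_sum]
  by_cases ha : a ∈ Finset.Icc (-(K : ℤ)) K
  · by_cases hac : a < c
    · rw [if_pos hac, Finset.sum_eq_single_of_mem a, h.mul, if_pos rfl]
      · rw [Finset.mem_Ico]; exact ⟨(Finset.mem_Icc.mp ha).1, hac⟩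
      · intro b _ hb
        rw [h.mul, if_neg (fun e => hb e.symm)]
    · rw [if_neg hac]
      apply Finset.sum_eq_zero
      intro b hb
      rw [h.mul, if_neg]
      intro e
      subst e
      exact hac (Finset.mem_Ico.mp hb).2
  · have hPa : P a = 0 := by
      apply h.supp
      rw [Finset.mem_Icc] at ha
      by_contra hh
      exact ha (abs_le.mp (not_lt.mp hh))
    rw [hPa]
    simp

end SP38
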