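import Pool.Agent.LibSP38.Cus3
import Pool.Agent.LibSP38.Fam2

/-! The logarithm of the monodromy is small for the Hodge metric. -/

open Matrix Complex Filter Topology
open scoped ComplexOrder ContDiff

namespace SP38

variable {m : ℕ} {w : ℤ} {p : Fin m → ℤ} {Q : Matrix (Fin m) (Fin m) ℝ}
  {N : Matrix (Fin m ⊕ Unit) (Fin m ⊕ Unit) ℝ} {Ψ : ℂ → Matrix (Fin m) (Fin m) ℂ}
  {β : ℂ → Fin m → ℂ} {ε : ℝ} {s : Equiv.Perm (Fin m)} {K : ℕ}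

theorem CuspData.exists_PV (h : CuspData w p Q N Ψ β ε) (hs : ∀ j, p (s j) = w - p j)
    (hK : ∀ j, |p j| ≤ K) :
    ∃ (c : ℝ) (θ : ℂ → Matrix (Fin m) (Fin m) ℂ), (∀ ζ : ℂ, c < ζ.im ↔ ‖qq ζ‖ < ε) ∧
      PV w K Q (Hc c) (fun ζ => PP p s (GG N Ψ ζ)) θ := by
  have hc : ∀ ζ : ℂ, -Real.log ε / (2 * Real.pi) < ζ.im ↔ ‖qq ζ‖ < ε := by
    intro ζ
    rw [norm_qq, ← Real.lt_log_iff_exp_lt h.eps, div_lt_iff₀ (by positivity)]
    constructor <;> intro h1 <;> linarith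
  have hG : ∀ i j, DifferentiableOn ℂ (fun z => GG N Ψ z i j)
      (Hc (-Real.log ε / (2 * Real.pi))) := by
    intro i j z hz
    have hz' : ‖qq z‖ < ε := (hc z).mp hz
    have hz'' : qq z ∈ Metric.ball (0 : ℂ) ε := by simpa using hz'
    have h1 : (fun z => GG N Ψ z i j) = fun z => ∑ l, eH N z i l * Ψ (qq z) l j := by
      funext z
      rw [GG, Matrix.mul_apply]
    rw [h1]
    apply DifferentiableAt.differentiableWithinAt
    have h2 : ∀ l ∈ (Finset.univ : Finset (Fin m)),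
        DifferentiableAt ℂ (fun z => eH N z i l * Ψ (qq z) l j) z := by
      intro l _
      refine (hasDerivAt_eH h.nil h.row z i l).differentiableAt.mul ?_
      have h3 : DifferentiableAt ℂ (fun q => Ψ q l j) (qq z) :=
        (h.holP l j _ hz'').differentiableAt (Metric.isOpen_ball.mem_nhds hz'')
      exact h3.comp z (hasDerivAt_qq z).differentiableAt
    exact DifferentiableAt.fun_sum h2
  obtain ⟨θ, hθ⟩ := SP38.exists_PV (w := w) (K := K) (p := p) (s := s) (Q := Q) (G := GG N Ψ)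
    (isOpen_Hc (-Real.log ε / (2 * Real.pi))) hG
    (fun z hz => h.phs z ((hc z).mp hz)) hs (fun z hz j => h.trG z ((hc z).mp hz) j) hK
  exact ⟨_, θ, hc, hθ⟩

theorem CuspData.eventually (h : CuspData w p Q N Ψ β ε) : ∀ᶠ ζ in strip, ‖qq ζ‖ < ε := by
  have h1 := tendsto_qq.eventually (Metric.ball_mem_nhds (0 : ℂ) h.eps)
  refine h1.mono fun ζ hζ => ?_
  simpa using hζ

/-- comparison of the Hodge norm with the fixed norm -/
theorem CuspData.exists_compare (h : CuspData w p Q N Ψ β ε) (hs : ∀ j, p (s j) = w - p j)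
    (hK : ∀ j, |p j| ≤ K) :
    ∃ C : ℕ, ∀ᶠ ζ in strip, ∀ v : Fin m → ℂ,
      qf (metr w K Q (PP p s (GG N Ψ ζ))) v ≤ ζ.im ^ C * ‖v‖ ^ 2 ∧
      ‖v‖ ^ 2 ≤ ζ.im ^ C * qf (metr w K Q (PP p s (GG N Ψ ζ))) v := by
  obtain ⟨c, θ, -, hPV⟩ := h.exists_PV hs hK
  exact hPV.exists_compare

theorem mon1_bound {A : ℂ → Matrix (Fin m) (Fin m) ℂ} (hA : ContinuousAt A 0) :
    ∃ B : ℝ, 0 ≤ B ∧ ∀ᶠ q in 𝓝 (0 : ℂ), ∀ v : Fin m → ℂ, ‖A q *ᵥ v‖ ≤ B * ‖v‖ := by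
  have hij : ∀ i j, ContinuousAt (fun q => ‖A q i j‖) 0 := fun i j =>
    ((continuousAt_pi.mp ((continuousAt_pi.mp hA) i)) j).norm
  have hS : ContinuousAt (fun q => ∑ i, ∑ j, ‖A q i j‖) 0 :=
    tendsto_finsetSum _ fun i _ => tendsto_finsetSum _ fun j _ => hij i j
  refine ⟨(∑ i, ∑ j, ‖A 0 i j‖) + 1, by positivity, ?_⟩
  have h1 : ∀ᶠ q in 𝓝 (0 : ℂ), ∑ i, ∑ j, ‖A q i j‖ < (∑ i, ∑ j, ‖A 0 i j‖) + 1 :=
    hS.eventually (gt_mem_nhds (lt_add_one _))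
  refine h1.mono fun q hq v => ?_
  refine le_trans ?_ (mul_le_mul_of_nonneg_right hq.le (norm_nonneg v))
  refine (pi_norm_le_iff_of_nonneg (by positivity)).mpr fun i => ?_
  have h2 : ‖(A q *ᵥ v) i‖ ≤ ∑ j, ‖A q i j‖ * ‖v‖ := by
    rw [Matrix.mulVec, dotProduct]
    refine (norm_sum_le _ _).trans (Finset.sum_le_sum fun j _ => ?_)
    rw [norm_mul]
    exact mul_le_mul_of_nonneg_left (norm_le_pi_norm v j) (norm_nonneg _)
  refine h2.trans ?_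
  rw [← Finset.sum_mul]
  refine mul_le_mul_of_nonneg_right ?_ (norm_nonneg v)
  exact Finset.single_le_sum (f := fun i => ∑ j, ‖A q i j‖) (fun i _ => by positivity)
    (Finset.mem_univ i)

theorem mon1_im (B : ℝ) : ∀ᶠ ζ in strip, B ≤ ζ.im := by
  have h1 : Tendsto Complex.im strip atTop := tendsto_comap.mono_left inf_le_left
  exact h1.eventually_ge_atTop B

/-- the same with the period matrices: `G` and its inverse grow polynomially -/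
theorem CuspData.exists_GG_le (h : CuspData w p Q N Ψ β ε) :
    ∃ C : ℕ, ∀ᶠ ζ in strip, ∀ v : Fin m → ℂ,
      ‖GG N Ψ ζ *ᵥ v‖ ≤ ζ.im ^ C * ‖v‖ ∧ ‖v‖ ≤ ζ.im ^ C * ‖GG N Ψ ζ *ᵥ v‖ := by
  obtain ⟨C, hC⟩ := exists_eH_le h.nil h.row
  have h0 : (0 : ℂ) ∈ Metric.ball (0 : ℂ) ε := Metric.mem_ball_self h.eps
  have hΨc : ContinuousAt Ψ 0 := by
    refine continuousAt_pi.mpr fun i => continuousAt_pi.mpr fun j => ?_
    exact ((h.holP i j 0 h0).differentiableAt (Metric.isOpen_ball.mem_nhds h0)).continuousAt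
  have hdet : (Ψ 0).det ≠ 0 := by
    have := (Matrix.isUnit_iff_isUnit_det _).mp (h.unit 0 h0)
    exact this.ne_zero
  have hΨi : ContinuousAt (fun q => (Ψ q)⁻¹) 0 := by
    have h1 : (fun q => (Ψ q)⁻¹) = fun q => ((Ψ q).det)⁻¹ • (Ψ q).adjugate := by
      funext q
      rw [Matrix.inv_def, Ring.inverse_eq_inv']
    rw [h1]
    have h2 : ContinuousAt (fun q => (Ψ q).det) 0 :=
      (continuous_id.matrix_det).continuousAt.comp hΨc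
    have h3 : ContinuousAt (fun q => (Ψ q).adjugate) 0 :=
      (continuous_id.matrix_adjugate).continuousAt.comp hΨc
    exact (h2.inv₀ hdet).smul h3
  obtain ⟨B, hB0, hB⟩ := mon1_bound hΨc
  obtain ⟨B', hB0', hB'⟩ := mon1_bound hΨi
  refine ⟨C + 1, ?_⟩
  filter_upwards [hC, tendsto_qq.eventually hB, tendsto_qq.eventually hB', mon1_im B, mon1_im B',
    mon1_im 0, h.eventually] with ζ h1 h2 h3 h4 h5 h6 h7 v
  have hu : IsUnit (Ψ (qq ζ)) := h.unit _ (by simpa using h7)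
  have hpow : 0 ≤ ζ.im ^ C := pow_nonneg h6 C
  constructor
  · have e1 : GG N Ψ ζ *ᵥ v = eH N ζ *ᵥ (Ψ (qq ζ) *ᵥ v) := by
      rw [GG, Matrix.mulVec_mulVec]
    rw [e1]
    calc ‖eH N ζ *ᵥ (Ψ (qq ζ) *ᵥ v)‖ ≤ ζ.im ^ C * ‖Ψ (qq ζ) *ᵥ v‖ := (h1 _).1
      _ ≤ ζ.im ^ C * (ζ.im * ‖v‖) := by
        refine mul_le_mul_of_nonneg_left ?_ hpow
        exact (h2 v).trans (mul_le_mul_of_nonneg_right h4 (norm_nonneg v))
      _ = ζ.im ^ (C + 1) * ‖v‖ := by ring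
  · have e1 : Ψ (qq ζ) *ᵥ v = eH N (-ζ) *ᵥ (GG N Ψ ζ *ᵥ v) := by
      rw [Matrix.mulVec_mulVec, GG, ← Matrix.mul_assoc, ← eH_add h.nil h.row, neg_add_cancel,
        eH_zero, one_mul]
    have e2 : v = (Ψ (qq ζ))⁻¹ *ᵥ (Ψ (qq ζ) *ᵥ v) := by
      rw [Matrix.mulVec_mulVec, Matrix.nonsing_inv_mul _
        ((Matrix.isUnit_iff_isUnit_det _).mp hu), Matrix.one_mulVec]
    calc ‖v‖ = ‖(Ψ (qq ζ))⁻¹ *ᵥ (Ψ (qq ζ) *ᵥ v)‖ := by rw [← e2]
      _ ≤ B' * ‖Ψ (qq ζ) *ᵥ v‖ := h3 _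
      _ ≤ ζ.im * ‖Ψ (qq ζ) *ᵥ v‖ := mul_le_mul_of_nonneg_right h5 (norm_nonneg _)
      _ = ζ.im * ‖eH N (-ζ) *ᵥ (GG N Ψ ζ *ᵥ v)‖ := by rw [e1]
      _ ≤ ζ.im * (ζ.im ^ C * ‖GG N Ψ ζ *ᵥ v‖) := mul_le_mul_of_nonneg_left (h1 _).2 h6
      _ = ζ.im ^ (C + 1) * ‖GG N Ψ ζ *ᵥ v‖ := by ring

end SP38
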