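import Pool.Agent.LibSP38.Cus4
import Pool.Agent.LibSP38.Mon1

/-! The leading part of the extension class at a cusp. -/

open Matrix Complex Filter Topology
open scoped ComplexOrder ContDiff

namespace SP38

variable {m : ℕ} {w : ℤ} {p : Fin m → ℤ} {Q : Matrix (Fin m) (Fin m) ℝ}
  {N : Matrix (Fin m ⊕ Unit) (Fin m ⊕ Unit) ℝ} {Ψ : ℂ → Matrix (Fin m) (Fin m) ℂ}
  {β : ℂ → Fin m → ℂ} {ε : ℝ} {s : Equiv.Perm (Fin m)} {K : ℕ}

theorem lim1_mem_adj {G : Matrix (Fin m) (Fin m) ℂ} (hG : IsUnit G) (a : ℤ) (v : Fin m → ℂ) :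
    v ∈ Fil p G a ↔ ∀ j, p j < a → (G.adjugate *ᵥ v) j = 0 := by
  rw [mem_Fil_inv hG]
  have hd : IsUnit G.det := (Matrix.isUnit_iff_isUnit_det G).1 hG
  have hd0 : G.det ≠ 0 := hd.ne_zero
  have e : ∀ j, (G⁻¹ *ᵥ v) j = (G.det)⁻¹ * (G.adjugate *ᵥ v) j := by
    intro j
    rw [Matrix.inv_def, Ring.inverse_eq_inv', Matrix.smul_mulVec, Pi.smul_apply, smul_eq_mul]
  refine forall_congr' fun j => ?_
  rw [e j]
  constructor
  · intro h hj
    have := h hj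
    rcases mul_eq_zero.1 this with h1 | h1
    · exact absurd h1 (inv_ne_zero hd0)
    · exact h1
  · intro h hj
    rw [h hj, mul_zero]

theorem lim1_mem_mul {A G : Matrix (Fin m) (Fin m) ℂ} (hA : IsUnit A) (hG : IsUnit G) (a : ℤ) (v : Fin m → ℂ) :
    A *ᵥ v ∈ Fil p (A * G) a ↔ v ∈ Fil p G a := by
  rw [mem_Fil (hA.mul hG), mem_Fil hG]
  refine exists_congr fun c => and_congr_right fun _ => ?_
  rw [← Matrix.mulVec_mulVec]
  constructor
  · intro h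
    obtain ⟨u, hu⟩ := hA
    have h2 : (u⁻¹ : (Matrix (Fin m) (Fin m) ℂ)ˣ).val *ᵥ (A *ᵥ v) = (u⁻¹ : (Matrix (Fin m) (Fin m) ℂ)ˣ).val *ᵥ (A *ᵥ (G *ᵥ c)) := by rw [h]
    rw [Matrix.mulVec_mulVec, Matrix.mulVec_mulVec, ← hu, Units.inv_mul, Matrix.one_mulVec, Matrix.one_mulVec] at h2
    exact h2
  · intro h; rw [h]

theorem lim1_surj {q : ℂ} (hq : q ≠ 0) : ∃ ζ, qq ζ = q := by
  refine ⟨Complex.log q / (2 * Real.pi * I), ?_⟩
  unfold qq
  have h : (2 * Real.pi * I : ℂ) ≠ 0 := by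
    simp [Real.pi_ne_zero]
  rw [mul_div_cancel₀ _ h, Complex.exp_log hq]

theorem lim1_limit (hε : 0 < ε) (hP : ∀ i j, DifferentiableOn ℂ (fun q => Ψ q i j) (Metric.ball 0 ε))
    (hu : ∀ q ∈ Metric.ball (0 : ℂ) ε, IsUnit (Ψ q)) {u : ℂ → Fin m → ℂ} (hc : ∀ i, ContinuousAt (fun q => u q i) 0) {a : ℤ}
    (h : ∀ q ∈ Metric.ball (0 : ℂ) ε, q ≠ 0 → u q ∈ Fil p (Ψ q) a) : u 0 ∈ Fil p (Ψ 0) a := by
  have h0 : (0:ℂ) ∈ Metric.ball (0:ℂ) ε := Metric.mem_ball_self hε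
  rw [lim1_mem_adj (hu 0 h0)]
  intro j hj
  have hΨ : ContinuousAt Ψ 0 := by
    refine continuousAt_pi.2 fun i => continuousAt_pi.2 fun j => ?_
    exact ((hP i j).differentiableAt (Metric.isOpen_ball.mem_nhds h0)).continuousAt
  have hadj : ContinuousAt (fun q => (Ψ q).adjugate) 0 := by
    have : Continuous (fun A : Matrix (Fin m) (Fin m) ℂ => A.adjugate) := continuous_id.matrix_adjugate
    exact this.continuousAt.comp hΨ
  have hF : ContinuousAt (fun q => ((Ψ q).adjugate *ᵥ u q) j) 0 := by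
    simp only [Matrix.mulVec, dotProduct]
    refine tendsto_finsetSum _ fun i _ => ?_
    have h1 : ContinuousAt (fun q => (Ψ q).adjugate j i) 0 := (continuousAt_pi.1 ((continuousAt_pi.1 hadj) j)) i
    exact h1.mul (hc i)
  have h1 : Tendsto (fun q => ((Ψ q).adjugate *ᵥ u q) j) (𝓝[≠] 0) (𝓝 (((Ψ 0).adjugate *ᵥ u 0) j)) :=
    hF.tendsto.mono_left nhdsWithin_le_nhds
  have h2 : Tendsto (fun q => ((Ψ q).adjugate *ᵥ u q) j) (𝓝[≠] 0) (𝓝 0) := by
    refine Tendsto.congr' ?_ tendsto_const_nhds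
    have hb : Metric.ball (0:ℂ) ε ∈ 𝓝[≠] (0:ℂ) := mem_nhdsWithin_of_mem_nhds (Metric.isOpen_ball.mem_nhds h0)
    filter_upwards [hb, self_mem_nhdsWithin] with q hq hq0
    exact ((lim1_mem_adj (hu q hq) a (u q)).1 (h q hq hq0) j hj).symm
  exact tendsto_nhds_unique h1 h2

/-- Griffiths transversality at the cusp -/
theorem CuspData.limit_n0 (h : CuspData w p Q N Ψ β ε) :
    cm (hb N) *ᵥ β 0 + ofR (n0 N) ∈ Fil p (Ψ 0) (-1) := by
  have h0 : (0:ℂ) ∈ Metric.ball (0:ℂ) ε := Metric.mem_ball_self h.eps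
  have hβc : ∀ i, ContinuousAt (fun q => β q i) 0 := fun i =>
    ((h.holb i).differentiableAt (Metric.isOpen_ball.mem_nhds h0)).continuousAt
  have hβ'c : ∀ i, ContinuousAt (fun q => deriv (fun q => β q i) q) 0 := fun i =>
    (((h.holb i).deriv Metric.isOpen_ball).differentiableAt (Metric.isOpen_ball.mem_nhds h0)).continuousAt
  set u : ℂ → Fin m → ℂ := fun q => cm (hb N) *ᵥ β q + ofR (n0 N) +
        (2 * Real.pi * I * q) • fun i => deriv (fun q => β q i) q with hu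
  have hlim := lim1_limit (p := p) (Ψ := Ψ) (u := u) (a := -1) h.eps h.holP h.unit ?_ ?_
  · have : u 0 = cm (hb N) *ᵥ β 0 + ofR (n0 N) := by
      simp only [hu, mul_zero, zero_smul, add_zero]
    rwa [this] at hlim
  · intro i
    simp only [hu, Pi.add_apply, Pi.smul_apply, smul_eq_mul, Matrix.mulVec, dotProduct]
    refine (ContinuousAt.add ?_ continuousAt_const).add ((continuousAt_const.mul continuousAt_id).mul (hβ'c i))
    exact tendsto_finsetSum _ fun j _ => (continuousAt_const.mul (hβc j))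
  · intro q hq hq0
    obtain ⟨ζ, rfl⟩ := lim1_surj hq0
    have hζ : ‖qq ζ‖ < ε := by simpa using hq
    have h1 := h.trn ζ hζ
    rw [deriv_VV h.nil h.row h.holb hζ] at h1
    exact (lim1_mem_mul (isUnit_eH h.nil h.row ζ) (h.unit _ hq) (-1) _).1 h1

theorem CuspData.limit_N (h : CuspData w p Q N Ψ β ε) {v : Fin m → ℂ} (hv : v ∈ Fil p (Ψ 0) 0) :
    cm (hb N) *ᵥ v ∈ Fil p (Ψ 0) (-1) := by
  have h0 : (0:ℂ) ∈ Metric.ball (0:ℂ) ε := Metric.mem_ball_self h.eps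
  obtain ⟨c, hc, rfl⟩ := (mem_Fil (h.unit 0 h0) 0 v).1 hv
  have hPc : ∀ i j, ContinuousAt (fun q => Ψ q i j) 0 := fun i j =>
    ((h.holP i j).differentiableAt (Metric.isOpen_ball.mem_nhds h0)).continuousAt
  have hP'c : ∀ i j, ContinuousAt (fun q => deriv (fun q => Ψ q i j) q) 0 := fun i j =>
    (((h.holP i j).deriv Metric.isOpen_ball).differentiableAt (Metric.isOpen_ball.mem_nhds h0)).continuousAt
  set u : ℂ → Fin m → ℂ := fun q => cm (hb N) *ᵥ (Ψ q *ᵥ c) +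
        (2 * Real.pi * I * q) • ((Matrix.of fun i j => deriv (fun q => Ψ q i j) q) *ᵥ c) with hu
  have hlim := lim1_limit (p := p) (Ψ := Ψ) (u := u) (a := -1) h.eps h.holP h.unit ?_ ?_
  · have : u 0 = cm (hb N) *ᵥ (Ψ 0 *ᵥ c) := by
      simp only [hu, mul_zero, zero_smul, add_zero]
    rwa [this] at hlim
  · intro i
    simp only [hu, Pi.add_apply, Pi.smul_apply, smul_eq_mul, Matrix.mulVec, dotProduct, Matrix.of_apply]
    refine ContinuousAt.add ?_ ((continuousAt_const.mul continuousAt_id).mul ?_)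
    · exact tendsto_finsetSum _ fun j _ => (continuousAt_const.mul (tendsto_finsetSum _ fun k _ => (hPc j k).mul continuousAt_const))
    · exact tendsto_finsetSum _ fun j _ => ((hP'c i j).mul continuousAt_const)
  · intro q hq hq0
    obtain ⟨ζ, rfl⟩ := lim1_surj hq0
    have hζ : ‖qq ζ‖ < ε := by simpa using hq
    have h1 : (Matrix.of fun i j => deriv (fun ζ => GG N Ψ ζ i j) ζ) *ᵥ c ∈ Fil p (GG N Ψ ζ) (-1) := by
      rw [Matrix.mulVec_eq_sum]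
      refine Submodule.sum_mem _ fun j _ => ?_
      by_cases hj : p j < 0
      · rw [hc j hj]; simp
      · have h2 := h.trG ζ hζ j
        have h3 := Fil_anti (p := p) (GG N Ψ ζ) (show (-1:ℤ) ≤ p j - 1 by omega) h2
        have h4 := Submodule.smul_mem _ (c j) h3
        convert h4 using 1
        funext i
        simp [Matrix.transpose_apply, mul_comm]
    rw [deriv_GG_mulVec h.nil h.row h.holP hζ] at h1
    exact (lim1_mem_mul (isUnit_eH h.nil h.row ζ) (h.unit _ hq) (-1) _).1 h1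

theorem lim1_im_tendsto : Tendsto Complex.im strip atTop := by
  unfold strip
  exact tendsto_comap.mono_left inf_le_left

/-- real splittings grow polynomially -/
theorem CuspData.real_le (h : CuspData w p Q N Ψ β ε) (hs : ∀ j, p (s j) = w - p j)
    (hns : ∀ j, p j < -1 ∨ w - p j < -1) :
    ∃ C : ℕ, ∀ᶠ ζ in strip, ∀ r : Fin m → ℝ, VV N β ζ - ofR r ∈ Fil p (GG N Ψ ζ) 0 →
      ‖ofR r‖ ≤ ζ.im ^ C := by
  obtain ⟨K, hK⟩ : ∃ K : ℕ, ∀ j, |p j| ≤ (K:ℤ) := by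
    refine ⟨∑ j, (p j).natAbs, fun j => ?_⟩
    have h1 : (p j).natAbs ≤ ∑ j, (p j).natAbs := Finset.single_le_sum (f := fun j => (p j).natAbs) (fun _ _ => Nat.zero_le _) (Finset.mem_univ j)
    rw [Int.abs_eq_natAbs]
    exact_mod_cast h1
  obtain ⟨C1, hC1⟩ := h.exists_compare hs hK
  obtain ⟨C2, hC2⟩ := exists_eV_le h.nil
  have h0 : (0:ℂ) ∈ Metric.ball (0:ℂ) ε := Metric.mem_ball_self h.eps
  have hβc : ContinuousAt β 0 := continuousAt_pi.2 fun i =>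
    ((h.holb i).differentiableAt (Metric.isOpen_ball.mem_nhds h0)).continuousAt
  have hβn : ∀ᶠ ζ in strip, ‖β (qq ζ)‖ < ‖β 0‖ + 1 := by
    have h1 : Tendsto (fun ζ => ‖β (qq ζ)‖) strip (𝓝 ‖β 0‖) := (hβc.tendsto.comp tendsto_qq).norm
    exact h1.eventually (gt_mem_nhds (by linarith))
  set B := ‖β 0‖ + 1 with hB
  have hB1 : 1 ≤ B := by have := norm_nonneg (β 0); linarith
  have him : ∀ᶠ ζ in strip, 2 * B ≤ ζ.im := lim1_im_tendsto.eventually (eventually_ge_atTop _)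
  refine ⟨C1 + C2 + 1, ?_⟩
  filter_upwards [hC1, hC2, hβn, him, h.eventually] with ζ hc1 hc2 hbn hy hζ r hr
  have hphs := h.phs ζ hζ
  have hd := hphs.hd hs hK
  have hy0 : 0 < ζ.im := by linarith
  set M := metr w K Q (PP p s (GG N Ψ ζ)) with hM
  have h1 : qf M (ofR r) ≤ 2 * qf M (Plt K (PP p s (GG N Ψ ζ)) 0 *ᵥ ofR r) := by
    refine hd.qf_real_le 0 (fun a ha => ?_) r
    by_contra hcon
    apply ha
    refine PP_eq_zero _ fun j hj => hcon ?_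
    have := hns j
    omega
  have h2 : Plt K (PP p s (GG N Ψ ζ)) 0 *ᵥ ofR r = Plt K (PP p s (GG N Ψ ζ)) 0 *ᵥ VV N β ζ := by
    have h3 := (hphs.mem_Fil_iff_Plt hs hK 0 _).1 hr
    rw [Matrix.mulVec_sub, sub_eq_zero] at h3
    exact h3.symm
  have h3 : qf M (Plt K (PP p s (GG N Ψ ζ)) 0 *ᵥ VV N β ζ) ≤ qf M (VV N β ζ) := hd.qf_Plt_le 0 _
  have h4 : ‖VV N β ζ‖ ≤ ζ.im ^ C2 * B := by
    have h5 := (hc2 (Sum.elim (β (qq ζ)) 1)).1
    have h6 : ‖(Sum.elim (β (qq ζ)) 1 : Fin m ⊕ Unit → ℂ)‖ ≤ B := by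
      rw [pi_norm_le_iff_of_nonneg (by linarith)]
      rintro (i | i)
      · exact (norm_le_pi_norm (β (qq ζ)) i).trans hbn.le
      · simpa using hB1
    have h7 : ‖VV N β ζ‖ ≤ ‖eV N ζ *ᵥ Sum.elim (β (qq ζ)) 1‖ := by
      rw [pi_norm_le_iff_of_nonneg (norm_nonneg _)]
      intro i
      exact norm_le_pi_norm (eV N ζ *ᵥ Sum.elim (β (qq ζ)) 1) (Sum.inl i)
    refine h7.trans (h5.trans ?_)
    exact mul_le_mul_of_nonneg_left h6 (by positivity)
  have h5 : ‖ofR r‖ ^ 2 ≤ (ζ.im ^ (C1 + C2 + 1)) ^ 2 := by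
    have a1 := (hc1 (ofR r)).2
    have a2 := (hc1 (VV N β ζ)).1
    rw [h2] at h1
    have hp : 0 ≤ ζ.im ^ C1 := by positivity
    have a3 : ‖VV N β ζ‖ ^ 2 ≤ (ζ.im ^ C2 * B) ^ 2 := pow_le_pow_left₀ (norm_nonneg _) h4 2
    have a4 : ‖ofR r‖ ^ 2 ≤ ζ.im ^ C1 * (2 * (ζ.im ^ C1 * (ζ.im ^ C2 * B) ^ 2)) := by
      refine a1.trans (mul_le_mul_of_nonneg_left ?_ hp)
      have : qf M (VV N β ζ) ≤ ζ.im ^ C1 * (ζ.im ^ C2 * B) ^ 2 := a2.trans (mul_le_mul_of_nonneg_left a3 hp)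
      linarith
    refine a4.trans ?_
    have e1 : ζ.im ^ C1 * (2 * (ζ.im ^ C1 * (ζ.im ^ C2 * B) ^ 2)) = (ζ.im ^ (C1 + C2)) ^ 2 * (2 * B ^ 2) := by
      rw [pow_add]; ring
    have e2 : (ζ.im ^ (C1 + C2 + 1)) ^ 2 = (ζ.im ^ (C1 + C2)) ^ 2 * ζ.im ^ 2 := by
      rw [pow_succ]; ring
    rw [e1, e2]
    refine mul_le_mul_of_nonneg_left ?_ (by positivity)
    nlinarith
  exact (abs_le_of_sq_le_sq' h5 (by positivity)).2

end SP38
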