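import Pool.Agent.LibSP38.Mon1

open Matrix Complex Filter Topology
open scoped ComplexOrder ContDiff

namespace SP38

variable {m : ℕ} {w : ℤ} {p : Fin m → ℤ} {Q : Matrix (Fin m) (Fin m) ℝ}
  {N : Matrix (Fin m ⊕ Unit) (Fin m ⊕ Unit) ℝ} {Ψ : ℂ → Matrix (Fin m) (Fin m) ℂ}
  {β : ℂ → Fin m → ℂ} {ε : ℝ} {s : Equiv.Perm (Fin m)} {K : ℕ}

theorem Lim2_mulVec_le {B : Matrix (Fin m) (Fin m) ℂ} {b : ℝ} (hb : 0 ≤ b)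
    (h : ∀ i j, ‖B i j‖ ≤ b) (v : Fin m → ℂ) : ‖B *ᵥ v‖ ≤ m * b * ‖v‖ := by
  rw [pi_norm_le_iff_of_nonneg (by positivity)]
  intro i
  calc ‖(B *ᵥ v) i‖ = ‖∑ j, B i j * v j‖ := rfl
    _ ≤ ∑ j, ‖B i j * v j‖ := norm_sum_le _ _
    _ ≤ ∑ _j : Fin m, b * ‖v‖ := by
        refine Finset.sum_le_sum fun j _ => ?_
        rw [norm_mul]
        exact mul_le_mul (h i j) (norm_le_pi_norm v j) (norm_nonneg _) hb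
    _ = m * b * ‖v‖ := by
        rw [Finset.sum_const, Finset.card_univ, Fintype.card_fin, nsmul_eq_mul]; ring

theorem Lim2_near (h : CuspData w p Q N Ψ β ε) :
    ∃ A : ℝ, 0 ≤ A ∧ ∀ᶠ q in 𝓝 (0 : ℂ), ∀ v : Fin m → ℂ,
      ‖(Ψ 0 - Ψ q) *ᵥ v‖ ≤ A * ‖q‖ * ‖v‖ := by
  have h1 : ∀ i j, ∃ A : ℝ, ∀ᶠ q in 𝓝 (0 : ℂ), ‖Ψ q i j - Ψ 0 i j‖ ≤ A * ‖q - 0‖ := by
    intro i j
    have hd : DifferentiableAt ℂ (fun q => Ψ q i j) 0 :=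
      (h.holP i j).differentiableAt (Metric.ball_mem_nhds 0 h.eps)
    exact hd.isBigO_sub.bound
  choose A hA using h1
  have hA' : ∀ i j, |A i j| ≤ ∑ i, ∑ j, |A i j| := by
    intro i j
    calc |A i j| ≤ ∑ j, |A i j| :=
          Finset.single_le_sum (f := fun j => |A i j|) (fun _ _ => abs_nonneg _) (Finset.mem_univ j)
      _ ≤ ∑ i, ∑ j, |A i j| :=
          Finset.single_le_sum (f := fun i => ∑ j, |A i j|)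
            (fun _ _ => Finset.sum_nonneg fun _ _ => abs_nonneg _) (Finset.mem_univ i)
  have hS : 0 ≤ ∑ i, ∑ j, |A i j| := Finset.sum_nonneg fun _ _ => Finset.sum_nonneg fun _ _ =>
    abs_nonneg _
  refine ⟨m * ∑ i, ∑ j, |A i j|, by positivity, ?_⟩
  have h2 : ∀ᶠ q in 𝓝 (0 : ℂ), ∀ i j, ‖Ψ q i j - Ψ 0 i j‖ ≤ A i j * ‖q - 0‖ :=
    eventually_all.mpr fun i => eventually_all.mpr fun j => hA i j
  filter_upwards [h2] with q hq v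
  have h3 := Lim2_mulVec_le (B := Ψ 0 - Ψ q) (b := (∑ i, ∑ j, |A i j|) * ‖q‖) (by positivity)
    (fun i j => by
      rw [Matrix.sub_apply, norm_sub_rev]
      refine (hq i j).trans ?_
      rw [sub_zero]
      exact mul_le_mul_of_nonneg_right ((le_abs_self _).trans (hA' i j)) (norm_nonneg _)) v
  calc _ ≤ _ := h3
    _ = _ := by ring

/-- a real vector is far from the limit filtration -/
theorem CuspData.real_far (h : CuspData w p Q N Ψ β ε) (hs : ∀ j, p (s j) = w - p j)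
    (hns : ∀ j, p j < -1 ∨ w - p j < -1) :
    ∃ C : ℕ, ∀ᶠ ζ in strip, ∀ r : Fin m → ℝ, ∀ φ ∈ Fil p (Ψ 0) (-1),
      ‖ofR r‖ ≤ ζ.im ^ C * ‖eH N (-ζ) *ᵥ ofR r - φ‖ := by
  obtain ⟨K, hK⟩ : ∃ K : ℕ, ∀ j, |p j| ≤ K := by
    refine ⟨Finset.univ.sup fun j => (p j).natAbs, fun j => ?_⟩
    rw [← Int.natCast_natAbs]
    exact_mod_cast Finset.le_sup (f := fun j => (p j).natAbs) (Finset.mem_univ j)
  obtain ⟨C1, hC1⟩ := h.exists_compare hs hK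
  obtain ⟨C2, hC2⟩ := exists_eH_le h.nil h.row
  obtain ⟨A, hA0, hA⟩ := Lim2_near h
  have hu0 : IsUnit (Ψ 0) := h.unit 0 (Metric.mem_ball_self h.eps)
  -- bound for the inverse
  have hinv : ∃ A' : ℝ, 0 ≤ A' ∧ ∀ κ : Fin m → ℂ, ‖κ‖ ≤ A' * ‖Ψ 0 *ᵥ κ‖ := by
    have hS : 0 ≤ ∑ i, ∑ j, ‖(Ψ 0)⁻¹ i j‖ := Finset.sum_nonneg fun _ _ =>
      Finset.sum_nonneg fun _ _ => norm_nonneg _
    refine ⟨m * ∑ i, ∑ j, ‖(Ψ 0)⁻¹ i j‖, by positivity, fun κ => ?_⟩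
    have h3 := Lim2_mulVec_le (B := (Ψ 0)⁻¹) (b := ∑ i, ∑ j, ‖(Ψ 0)⁻¹ i j‖) hS
      (fun i j => by
        calc ‖(Ψ 0)⁻¹ i j‖ ≤ ∑ j, ‖(Ψ 0)⁻¹ i j‖ :=
              Finset.single_le_sum (f := fun j => ‖(Ψ 0)⁻¹ i j‖) (fun _ _ => norm_nonneg _)
                (Finset.mem_univ j)
          _ ≤ ∑ i, ∑ j, ‖(Ψ 0)⁻¹ i j‖ :=
              Finset.single_le_sum (f := fun i => ∑ j, ‖(Ψ 0)⁻¹ i j‖)
                (fun _ _ => Finset.sum_nonneg fun _ _ => norm_nonneg _) (Finset.mem_univ i))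
      (Ψ 0 *ᵥ κ)
    rwa [Matrix.mulVec_mulVec, Matrix.nonsing_inv_mul _ ((Matrix.isUnit_iff_isUnit_det _).1 hu0),
      Matrix.one_mulVec] at h3
  obtain ⟨A', hA'0, hA'⟩ := hinv
  refine ⟨C1 + C2 + 1, ?_⟩
  have t1 : ∀ᶠ ζ in strip, (2 * A * A') * (‖qq ζ‖ * ζ.im ^ (C1 + 2 * C2)) ≤ 1 / 2 := by
    have := (tendsto_qq_mul_pow (C1 + 2 * C2)).const_mul (2 * A * A')
    rw [mul_zero] at this
    exact this.eventually_le_const (by norm_num)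
  have t2 : ∀ᶠ ζ in strip, (A * A') * ‖qq ζ‖ ≤ 1 := by
    have := tendsto_qq.norm.const_mul (A * A')
    rw [norm_zero, mul_zero] at this
    exact this.eventually_le_const (by norm_num)
  have t3 : ∀ᶠ ζ in strip, 8 ≤ ζ.im :=
    (Filter.tendsto_comap.mono_left inf_le_left).eventually_ge_atTop _
  have t4 : ∀ᶠ ζ in strip, ∀ v : Fin m → ℂ,
      ‖(Ψ 0 - Ψ (qq ζ)) *ᵥ v‖ ≤ A * ‖qq ζ‖ * ‖v‖ := tendsto_qq.eventually hA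
  filter_upwards [hC1, hC2, h.eventually, t1, t2, t3, t4] with ζ c1 c2 hζ s1 s2 s3 s4 r φ hφ
  have hphs : IsPHS w p Q (GG N Ψ ζ) := h.phs ζ hζ
  have hHD : HD w K Q (PP p s (GG N Ψ ζ)) := hphs.hd hs hK
  obtain ⟨κ, hκ, hφκ⟩ := (mem_Fil hu0 (-1) φ).1 hφ
  have hy : 0 ≤ ζ.im := by linarith
  -- the vector in the filtration at `ζ`
  have hF : GG N Ψ ζ *ᵥ κ ∈ Fil p (GG N Ψ ζ) (-1) := (mem_Fil hphs.unit (-1) _).2 ⟨κ, hκ, rfl⟩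
  have hP : Plt K (PP p s (GG N Ψ ζ)) (-1) *ᵥ (GG N Ψ ζ *ᵥ κ) = 0 :=
    (hphs.mem_Fil_iff_Plt hs hK (-1) _).1 hF
  have hdiff : ofR r - GG N Ψ ζ *ᵥ κ =
      eH N ζ *ᵥ ((eH N (-ζ) *ᵥ ofR r - φ) + (Ψ 0 - Ψ (qq ζ)) *ᵥ κ) := by
    have e1 : eH N ζ * eH N (-ζ) = 1 := by
      rw [← eH_add h.nil h.row, add_neg_cancel, eH_zero]
    rw [hφκ, Matrix.sub_mulVec, Matrix.mulVec_add, Matrix.mulVec_sub, Matrix.mulVec_sub,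
      Matrix.mulVec_mulVec, e1, Matrix.one_mulVec, GG, Matrix.mulVec_mulVec, Matrix.mulVec_mulVec]
    abel
  set δ : ℝ := ‖eH N (-ζ) *ᵥ ofR r - φ‖ with hδ
  have hδ0 : 0 ≤ δ := norm_nonneg _
  have q1 : qf (metr w K Q (PP p s (GG N Ψ ζ))) (ofR r) ≤
      2 * qf (metr w K Q (PP p s (GG N Ψ ζ))) (ofR r - GG N Ψ ζ *ᵥ κ) := by
    refine (hHD.qf_real_le (-1) ?_ r).trans ?_
    · intro a ha
      have : ∃ j, p j = a := by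
        by_contra hno
        push Not at hno
        exact ha (PP_eq_zero _ hno)
      obtain ⟨j, rfl⟩ := this
      exact hns j
    · have e2 : Plt K (PP p s (GG N Ψ ζ)) (-1) *ᵥ ofR r =
          Plt K (PP p s (GG N Ψ ζ)) (-1) *ᵥ (ofR r - GG N Ψ ζ *ᵥ κ) := by
        rw [Matrix.mulVec_sub, hP, sub_zero]
      rw [e2]
      exact mul_le_mul_of_nonneg_left (hHD.qf_Plt_le (-1) _) (by norm_num)
  have hpow : 0 ≤ ζ.im ^ C1 := by positivity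
  have q2 : ‖ofR r‖ ^ 2 ≤ (2 * ζ.im ^ C1 * ‖ofR r - GG N Ψ ζ *ᵥ κ‖) ^ 2 := by
    calc ‖ofR r‖ ^ 2 ≤ ζ.im ^ C1 * qf (metr w K Q (PP p s (GG N Ψ ζ))) (ofR r) := (c1 _).2
      _ ≤ ζ.im ^ C1 * (2 * qf (metr w K Q (PP p s (GG N Ψ ζ))) (ofR r - GG N Ψ ζ *ᵥ κ)) :=
        mul_le_mul_of_nonneg_left q1 hpow
      _ ≤ ζ.im ^ C1 * (2 * (ζ.im ^ C1 * ‖ofR r - GG N Ψ ζ *ᵥ κ‖ ^ 2)) :=
        mul_le_mul_of_nonneg_left (mul_le_mul_of_nonneg_left (c1 _).1 (by norm_num)) hpow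
      _ = 2 * (ζ.im ^ C1 * ‖ofR r - GG N Ψ ζ *ᵥ κ‖) ^ 2 := by ring
      _ ≤ (2 * ζ.im ^ C1 * ‖ofR r - GG N Ψ ζ *ᵥ κ‖) ^ 2 := by
        nlinarith [sq_nonneg (ζ.im ^ C1 * ‖ofR r - GG N Ψ ζ *ᵥ κ‖)]
  have q3 : ‖ofR r‖ ≤ 2 * ζ.im ^ C1 * ‖ofR r - GG N Ψ ζ *ᵥ κ‖ :=
    abs_le_of_sq_le_sq' q2 (by positivity) |>.2
  have q4 : ‖κ‖ ≤ A' * (δ + ζ.im ^ C2 * ‖ofR r‖) := by
    refine (hA' κ).trans (mul_le_mul_of_nonneg_left ?_ hA'0)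
    rw [← hφκ]
    calc ‖φ‖ = ‖eH N (-ζ) *ᵥ ofR r - (eH N (-ζ) *ᵥ ofR r - φ)‖ := by rw [sub_sub_cancel]
      _ ≤ ‖eH N (-ζ) *ᵥ ofR r‖ + δ := norm_sub_le _ _
      _ ≤ δ + ζ.im ^ C2 * ‖ofR r‖ := by linarith [(c2 (ofR r)).2]
  have q5 : ‖ofR r - GG N Ψ ζ *ᵥ κ‖ ≤
      ζ.im ^ C2 * (δ + A * ‖qq ζ‖ * (A' * (δ + ζ.im ^ C2 * ‖ofR r‖))) := by
    rw [hdiff]
    refine ((c2 _).1).trans (mul_le_mul_of_nonneg_left ?_ (by positivity))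
    refine (norm_add_le _ _).trans (add_le_add le_rfl ((s4 κ).trans ?_))
    exact mul_le_mul_of_nonneg_left q4 (by positivity)
  have q6 : ‖ofR r‖ ≤ 2 * ζ.im ^ C1 *
      (ζ.im ^ C2 * (δ + A * ‖qq ζ‖ * (A' * (δ + ζ.im ^ C2 * ‖ofR r‖)))) :=
    q3.trans (mul_le_mul_of_nonneg_left q5 (by positivity))
  have q7 : 2 * ζ.im ^ C1 * (ζ.im ^ C2 * (δ + A * ‖qq ζ‖ * (A' * (δ + ζ.im ^ C2 * ‖ofR r‖)))) =
      2 * ζ.im ^ (C1 + C2) * (1 + A * A' * ‖qq ζ‖) * δ +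
        (2 * A * A') * (‖qq ζ‖ * ζ.im ^ (C1 + 2 * C2)) * ‖ofR r‖ := by
    rw [pow_add, pow_add, two_mul C2, pow_add]; ring
  rw [q7] at q6
  have q8 : (2 * A * A') * (‖qq ζ‖ * ζ.im ^ (C1 + 2 * C2)) * ‖ofR r‖ ≤ 1 / 2 * ‖ofR r‖ :=
    mul_le_mul_of_nonneg_right s1 (norm_nonneg _)
  have q9 : 2 * ζ.im ^ (C1 + C2) * (1 + A * A' * ‖qq ζ‖) * δ ≤
      2 * ζ.im ^ (C1 + C2) * 2 * δ := by
    refine mul_le_mul_of_nonneg_right (mul_le_mul_of_nonneg_left ?_ (by positivity)) hδ0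
    linarith
  have q10 : 8 * (ζ.im ^ (C1 + C2) * δ) ≤ ζ.im * (ζ.im ^ (C1 + C2) * δ) :=
    mul_le_mul_of_nonneg_right s3 (by positivity)
  calc ‖ofR r‖ ≤ 8 * (ζ.im ^ (C1 + C2) * δ) := by linarith
    _ ≤ ζ.im * (ζ.im ^ (C1 + C2) * δ) := q10
    _ = ζ.im ^ (C1 + C2 + 1) * δ := by ring

end SP38
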