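import Pool.Agent.LibSP38.Lim1
import Pool.Agent.LibSP38.Lim2

open Matrix Complex Filter Topology
open scoped ComplexOrder ContDiff

namespace SP38

variable {m : ℕ} {w : ℤ} {p : Fin m → ℤ} {Q : Matrix (Fin m) (Fin m) ℝ}
  {N : Matrix (Fin m ⊕ Unit) (Fin m ⊕ Unit) ℝ} {Ψ : ℂ → Matrix (Fin m) (Fin m) ℂ}
  {β : ℂ → Fin m → ℂ} {ε : ℝ} {s : Equiv.Perm (Fin m)} {K : ℕ}

/-- closedness of the image of a real-linear map -/
theorem exists_real_solution (A : Matrix (Fin m) (Fin m) ℝ) (c : Fin m → ℝ)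
    (F : Submodule ℂ (Fin m → ℂ)) (b : Fin m → ℂ)
    (h : ∀ δ > 0, ∃ (r : Fin m → ℝ) (f : Fin m → ℂ), f ∈ F ∧ ‖A *ᵥ r + c‖ < δ ∧
      ‖ofR r - b - f‖ < δ) :
    ∃ e : Fin m → ℝ, A *ᵥ e + c = 0 ∧ ofR e - b ∈ F := by
  -- the real-linear map
  let ofRL : (Fin m → ℝ) →ₗ[ℝ] (Fin m → ℂ) :=
    { toFun := ofR
      map_add' := by intro x y; funext i; simp [ofR]
      map_smul' := by intro x y; funext i; simp [ofR] }
  let L : ((Fin m → ℝ) × (F.restrictScalars ℝ)) →ₗ[ℝ] (Fin m → ℝ) × (Fin m → ℂ) :=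
    LinearMap.prod ((Matrix.mulVecLin A).comp (LinearMap.fst ℝ _ _))
      (ofRL.comp (LinearMap.fst ℝ _ _) - (F.restrictScalars ℝ).subtype.comp (LinearMap.snd ℝ _ _))
  have hL : ∀ (r : Fin m → ℝ) (f : F.restrictScalars ℝ), L (r, f) = (A *ᵥ r, ofR r - f) := by
    intro r f; rfl
  have hclosed : IsClosed ((LinearMap.range L : Submodule ℝ _) : Set ((Fin m → ℝ) × (Fin m → ℂ))) :=
    Submodule.closed_of_finiteDimensional _
  have hmem : ((-c, b) : (Fin m → ℝ) × (Fin m → ℂ)) ∈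
      ((LinearMap.range L : Submodule ℝ _) : Set ((Fin m → ℝ) × (Fin m → ℂ))) := by
    rw [← hclosed.closure_eq, Metric.mem_closure_iff]
    intro δ hδ
    obtain ⟨r, f, hf, h1, h2⟩ := h δ hδ
    refine ⟨L (r, ⟨f, hf⟩), ⟨(r, ⟨f, hf⟩), rfl⟩, ?_⟩
    rw [hL, dist_comm, Prod.dist_eq, max_lt_iff]
    constructor
    · rw [dist_eq_norm]
      simpa [sub_neg_eq_add] using h1
    · rw [dist_eq_norm]
      have : (ofR r - f) - b = ofR r - b - f := by abel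
      simpa only [this] using h2
  obtain ⟨⟨e, f⟩, hef⟩ := hmem
  rw [hL, Prod.mk.injEq] at hef
  refine ⟨e, ?_, ?_⟩
  · rw [hef.1]; simp
  · have : ofR e - b = f := by
      rw [← hef.2]; abel
    rw [this]
    exact f.2

/-! ### auxiliary lemmas -/

theorem lim3_im_large (b : ℝ) : ∀ᶠ ζ in strip, b ≤ ζ.im := by
  apply Filter.Eventually.filter_mono (inf_le_left)
  exact (Filter.eventually_ge_atTop b).comap _

theorem lim3_cont {f : ℂ → ℂ} {r : ℝ} (hr : 0 < r)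
    (hf : DifferentiableOn ℂ f (Metric.ball 0 r)) :
    ∃ B : ℝ, 0 < B ∧ ∀ᶠ q in 𝓝 (0 : ℂ), ‖f q - f 0‖ ≤ B * ‖q‖ := by
  have h1 := (hf.differentiableAt (Metric.ball_mem_nhds 0 hr)).hasDerivAt
  have h2 := h1.isBigO_sub
  obtain ⟨B, hB, h3⟩ := h2.exists_pos
  rw [Asymptotics.isBigOWith_iff] at h3
  refine ⟨B, hB, ?_⟩
  simpa using h3

theorem lim3_vec {b : ℂ → Fin m → ℂ} {r : ℝ} (hr : 0 < r)
    (hb : ∀ i, DifferentiableOn ℂ (fun q => b q i) (Metric.ball 0 r)) :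
    ∃ B : ℝ, 0 < B ∧ ∀ᶠ q in 𝓝 (0 : ℂ), ‖b q - b 0‖ ≤ B * ‖q‖ := by
  choose B hB hB' using fun i => lim3_cont hr (hb i)
  refine ⟨(∑ i, B i) + 1, by
    have := Finset.sum_nonneg (s := Finset.univ) fun i _ => (hB i).le
    linarith, ?_⟩
  filter_upwards [Filter.eventually_all.mpr hB'] with q hq
  rw [pi_norm_le_iff_of_nonneg (by
    have := Finset.sum_nonneg (s := Finset.univ) fun i _ => (hB i).le
    positivity)]
  intro i
  refine (hq i).trans (mul_le_mul_of_nonneg_right ?_ (norm_nonneg _))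
  have := Finset.single_le_sum (f := B) (fun i _ => (hB i).le) (Finset.mem_univ i)
  linarith

theorem lim3_mat {A : ℂ → Matrix (Fin m) (Fin m) ℂ} {r : ℝ} (hr : 0 < r)
    (hA : ∀ i j, DifferentiableOn ℂ (fun q => A q i j) (Metric.ball 0 r)) :
    ∃ B : ℝ, 0 < B ∧ ∀ᶠ q in 𝓝 (0 : ℂ), ∀ v : Fin m → ℂ,
      ‖(A q - A 0) *ᵥ v‖ ≤ B * ‖q‖ * ‖v‖ := by
  choose B hB hB' using fun i j => lim3_cont hr (hA i j)
  have hnn : 0 ≤ ∑ i, ∑ j, B i j :=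
    Finset.sum_nonneg fun i _ => Finset.sum_nonneg fun j _ => (hB i j).le
  refine ⟨(∑ i, ∑ j, B i j) + 1, by linarith, ?_⟩
  filter_upwards [Filter.eventually_all.mpr fun i => Filter.eventually_all.mpr (hB' i)]
    with q hq v
  rw [pi_norm_le_iff_of_nonneg (by positivity)]
  intro i
  calc ‖((A q - A 0) *ᵥ v) i‖ = ‖∑ j, (A q i j - A 0 i j) * v j‖ := rfl
    _ ≤ ∑ j, ‖(A q i j - A 0 i j) * v j‖ := norm_sum_le _ _
    _ ≤ ∑ j, B i j * ‖q‖ * ‖v‖ := Finset.sum_le_sum fun j _ => by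
        rw [norm_mul]
        exact mul_le_mul (hq i j) (norm_le_pi_norm v j) (norm_nonneg _)
          (mul_nonneg (hB i j).le (norm_nonneg _))
    _ = (∑ j, B i j) * ‖q‖ * ‖v‖ := by rw [Finset.sum_mul, Finset.sum_mul]
    _ ≤ ((∑ i, ∑ j, B i j) + 1) * ‖q‖ * ‖v‖ := by
        apply mul_le_mul_of_nonneg_right _ (norm_nonneg v)
        apply mul_le_mul_of_nonneg_right _ (norm_nonneg q)
        have := Finset.single_le_sum (f := fun i => ∑ j, B i j)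
          (fun i _ => Finset.sum_nonneg fun j _ => (hB i j).le) (Finset.mem_univ i)
        linarith

theorem lim3_const {ι : Type*} [Fintype ι] (A : Matrix ι ι ℂ) :
    ∃ B : ℝ, 0 < B ∧ ∀ v : ι → ℂ, ‖A *ᵥ v‖ ≤ B * ‖v‖ := by
  have hnn : 0 ≤ ∑ i, ∑ j, ‖A i j‖ :=
    Finset.sum_nonneg fun i _ => Finset.sum_nonneg fun j _ => norm_nonneg _
  refine ⟨(∑ i, ∑ j, ‖A i j‖) + 1, by linarith, fun v => ?_⟩
  rw [pi_norm_le_iff_of_nonneg (by positivity)]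
  intro i
  calc ‖(A *ᵥ v) i‖ = ‖∑ j, A i j * v j‖ := rfl
    _ ≤ ∑ j, ‖A i j * v j‖ := norm_sum_le _ _
    _ ≤ ∑ j, ‖A i j‖ * ‖v‖ := Finset.sum_le_sum fun j _ => by
        rw [norm_mul]
        exact mul_le_mul_of_nonneg_left (norm_le_pi_norm v j) (norm_nonneg _)
    _ = (∑ j, ‖A i j‖) * ‖v‖ := by rw [Finset.sum_mul]
    _ ≤ ((∑ i, ∑ j, ‖A i j‖) + 1) * ‖v‖ := by
        apply mul_le_mul_of_nonneg_right _ (norm_nonneg v)
        have := Finset.single_le_sum (f := fun i => ∑ j, ‖A i j‖)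
          (fun i _ => Finset.sum_nonneg fun j _ => norm_nonneg _) (Finset.mem_univ i)
        linarith

theorem lim3_nil (hN : IsNilpotent N) : IsNilpotent (cm N) := by
  have h := hN.map (Complex.ofRealHom.mapMatrix (m := Fin m ⊕ Unit))
  exact h

theorem lim3_eV_eq (hN : IsNilpotent N) : ∃ n : ℕ, ∀ ζ : ℂ,
    eV N ζ = 1 + ∑ i ∈ Finset.range n, (((i + 1).factorial : ℚ)⁻¹ • (ζ ^ (i + 1) • cm N ^ (i + 1))) := by
  obtain ⟨n, hn⟩ := lim3_nil hN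
  refine ⟨n, fun ζ => ?_⟩
  have h1 : (ζ • cm N) ^ (n + 1) = 0 := by
    rw [smul_pow, pow_succ (cm N), hn]
    simp
  rw [eV, IsNilpotent.exp_eq_sum h1, Finset.sum_range_succ']
  simp only [smul_pow, pow_zero, Nat.factorial_zero, Nat.cast_one, inv_one, one_smul]
  rw [add_comm]

theorem lim3_comm (hN : IsNilpotent N) (ζ : ℂ) : cm N * eV N ζ = eV N ζ * cm N := by
  obtain ⟨n, hn⟩ := lim3_eV_eq hN
  rw [hn, Matrix.mul_add, Matrix.add_mul, Finset.mul_sum, Finset.sum_mul, Matrix.mul_one,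
    Matrix.one_mul]
  congr 1
  refine Finset.sum_congr rfl fun i _ => ?_
  rw [mul_smul_comm, mul_smul_comm, smul_mul_assoc, smul_mul_assoc, ← pow_succ, ← pow_succ']

theorem lim3_norm_le {ζ : ℂ} (h1 : 0 ≤ ζ.re) (h2 : ζ.re ≤ 1) (h3 : 1 ≤ ζ.im) :
    ‖ζ‖ ≤ 2 * ζ.im := by
  calc ‖ζ‖ ≤ |ζ.re| + |ζ.im| := Complex.norm_le_abs_re_add_abs_im ζ
    _ = ζ.re + ζ.im := by rw [abs_of_nonneg h1, abs_of_nonneg (by linarith)]
    _ ≤ 2 * ζ.im := by linarith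

theorem lim3_strip : ∀ᶠ ζ in strip, 0 ≤ ζ.re ∧ ζ.re ≤ 1 := by
  apply Filter.Eventually.filter_mono (inf_le_right)
  exact Filter.eventually_principal.mpr fun z hz => hz

/-- `exp (-ζ N) x - x` is controlled by `N x` -/
theorem lim3_exp (hN : IsNilpotent N) :
    ∃ C : ℕ, ∀ᶠ ζ in strip, ∀ x : Fin m ⊕ Unit → ℂ,
      ‖eV N (-ζ) *ᵥ x - x‖ ≤ ζ.im ^ C * ‖cm N *ᵥ x‖ := by
  obtain ⟨n, hn⟩ := lim3_eV_eq hN
  choose B hB hB' using fun i : ℕ => lim3_const (cm N ^ i)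
  set S := ∑ i ∈ Finset.range n, 2 ^ (i + 1) * B i with hS
  refine ⟨n + 1, ?_⟩
  filter_upwards [lim3_im_large 1, lim3_im_large S, lim3_strip] with ζ h1 h2 h3 x
  have h4 := lim3_norm_le h3.1 h3.2 h1
  have e1 : eV N (-ζ) *ᵥ x - x = ∑ i ∈ Finset.range n,
      (((i + 1).factorial : ℚ)⁻¹ • ((-ζ) ^ (i + 1) • (cm N ^ i *ᵥ (cm N *ᵥ x)))) := by
    rw [hn, Matrix.add_mulVec, Matrix.one_mulVec, add_sub_cancel_left, Matrix.sum_mulVec]
    refine Finset.sum_congr rfl fun i _ => ?_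
    rw [Matrix.mulVec_mulVec, ← pow_succ]
    have : ((((i + 1).factorial : ℚ)⁻¹ • ((-ζ) ^ (i + 1) • cm N ^ (i + 1))) :
        Matrix (Fin m ⊕ Unit) (Fin m ⊕ Unit) ℂ) =
        ((((i + 1).factorial : ℚ)⁻¹ : ℚ) : ℂ) • ((-ζ) ^ (i + 1) • cm N ^ (i + 1)) := by
      rw [Rat.cast_smul_eq_qsmul]
    rw [this, Matrix.smul_mulVec, Matrix.smul_mulVec, Rat.cast_smul_eq_qsmul]
  rw [e1]
  have h5 : ∀ i ∈ Finset.range n, ‖(((i + 1).factorial : ℚ)⁻¹ •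
      ((-ζ) ^ (i + 1) • (cm N ^ i *ᵥ (cm N *ᵥ x))))‖ ≤
      2 ^ (i + 1) * B i * (ζ.im ^ n * ‖cm N *ᵥ x‖) := by
    intro i hi
    have hin : i + 1 ≤ n := Finset.mem_range.mp hi
    rw [← Rat.cast_smul_eq_qsmul ℂ, norm_smul, norm_smul, norm_pow, norm_neg]
    have k1 : ‖((((i + 1).factorial : ℚ)⁻¹ : ℚ) : ℂ)‖ ≤ 1 := by
      rw [Rat.cast_inv, norm_inv, Rat.cast_natCast, Complex.norm_natCast]
      apply inv_le_one_of_one_le₀
      exact_mod_cast Nat.one_le_iff_ne_zero.mpr (Nat.factorial_ne_zero _)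
    have k2 : ‖ζ‖ ^ (i + 1) ≤ 2 ^ (i + 1) * ζ.im ^ n := by
      calc ‖ζ‖ ^ (i + 1) ≤ (2 * ζ.im) ^ (i + 1) := pow_le_pow_left₀ (norm_nonneg _) h4 _
        _ = 2 ^ (i + 1) * ζ.im ^ (i + 1) := mul_pow _ _ _
        _ ≤ 2 ^ (i + 1) * ζ.im ^ n :=
            mul_le_mul_of_nonneg_left (pow_le_pow_right₀ h1 hin) (by positivity)
    calc ‖((((i + 1).factorial : ℚ)⁻¹ : ℚ) : ℂ)‖ * (‖ζ‖ ^ (i + 1) * ‖cm N ^ i *ᵥ (cm N *ᵥ x)‖) ≤
        1 * ((2 ^ (i + 1) * ζ.im ^ n) * (B i * ‖cm N *ᵥ x‖)) := by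
          apply mul_le_mul k1 _ (by positivity) zero_le_one
          exact mul_le_mul k2 (hB' i _) (norm_nonneg _) (by positivity)
      _ = 2 ^ (i + 1) * B i * (ζ.im ^ n * ‖cm N *ᵥ x‖) := by ring
  calc ‖∑ i ∈ Finset.range n, (((i + 1).factorial : ℚ)⁻¹ •
        ((-ζ) ^ (i + 1) • (cm N ^ i *ᵥ (cm N *ᵥ x))))‖ ≤
      ∑ i ∈ Finset.range n, 2 ^ (i + 1) * B i * (ζ.im ^ n * ‖cm N *ᵥ x‖) :=
        (norm_sum_le _ _).trans (Finset.sum_le_sum h5)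
    _ = S * (ζ.im ^ n * ‖cm N *ᵥ x‖) := by rw [hS, Finset.sum_mul]
    _ ≤ ζ.im * (ζ.im ^ n * ‖cm N *ᵥ x‖) :=
        mul_le_mul_of_nonneg_right h2 (by positivity)
    _ = ζ.im ^ (n + 1) * ‖cm N *ᵥ x‖ := by rw [pow_succ]; ring

theorem lim3_elim_norm_le (v : Fin m → ℂ) (c : Unit → ℂ) :
    ‖(Sum.elim v c : Fin m ⊕ Unit → ℂ)‖ ≤ ‖v‖ + ‖c‖ := by
  rw [pi_norm_le_iff_of_nonneg (by positivity)]
  rintro (i | i)
  · exact (norm_le_pi_norm v i).trans (le_add_of_nonneg_right (norm_nonneg _))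
  · exact (norm_le_pi_norm c i).trans (le_add_of_nonneg_left (norm_nonneg _))

theorem lim3_inl_norm_le (x : Fin m ⊕ Unit → ℂ) : ‖fun i => x (Sum.inl i)‖ ≤ ‖x‖ := by
  rw [pi_norm_le_iff_of_nonneg (by positivity)]
  intro i
  exact norm_le_pi_norm x (Sum.inl i)

theorem CuspData.exists_leading (h : CuspData w p Q N Ψ β ε) (hs : ∀ j, p (s j) = w - p j)
    (hns : ∀ j, p j < -1 ∨ w - p j < -1)
    (hfr : ∃ᶠ ζ in strip, ∃ r : Fin m → ℝ, VV N β ζ - ofR r ∈ Fil p (GG N Ψ ζ) 0) :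
    ∃ e : Fin m → ℝ, cm (hb N) *ᵥ ofR e + ofR (n0 N) = 0 ∧ β 0 - ofR e ∈ Fil p (Ψ 0) 0 := by
  obtain ⟨C1, hC1⟩ := h.real_le hs hns
  obtain ⟨C2, hC2⟩ := h.real_far hs hns
  obtain ⟨C3, hC3⟩ := h.exists_GG_le
  obtain ⟨C4, hC4⟩ := lim3_exp (N := N) h.nil
  obtain ⟨C5, hC5⟩ := exists_eV_le (N := N) h.nil
  obtain ⟨B1, hB1, hβ⟩ := lim3_vec h.eps h.holb
  obtain ⟨B2, hB2, hΨ⟩ := lim3_mat h.eps h.holP
  obtain ⟨B3, hB3, hNb⟩ := lim3_const (cm (hb N))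
  have hu0 : IsUnit (Ψ 0) := h.unit 0 (Metric.mem_ball_self h.eps)
  -- real and complex forms of `N (r, 1)`
  have hρ : ∀ r : Fin m → ℝ, cm (hb N) *ᵥ ofR r + ofR (n0 N) = ofR (hb N *ᵥ r + n0 N) := by
    intro r
    funext i
    simp [cm, ofR, Matrix.mulVec, dotProduct]
  set E := C3 + C1 + C5 + 1 with hE
  have hsmall : ∀ δ > 0, ∀ᶠ ζ in strip,
      (B3 + 1) * (B1 + B2) * (‖qq ζ‖ * ζ.im ^ (C4 + C2 + E)) < δ := by
    intro δ hδ
    have h1 := (tendsto_qq_mul_pow (C4 + C2 + E)).const_mul ((B3 + 1) * (B1 + B2))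
    rw [mul_zero] at h1
    exact h1.eventually (gt_mem_nhds hδ)
  have hqB : ∀ᶠ ζ in strip, B1 * ‖qq ζ‖ < 1 := by
    have h1 := tendsto_qq.norm.const_mul B1
    rw [norm_zero, mul_zero] at h1
    exact h1.eventually (gt_mem_nhds one_pos)
  have hsol := exists_real_solution (hb N) (n0 N) (Fil p (Ψ 0) 0) (β 0) (by
    intro δ hδ
    have hall := (hsmall δ hδ).and (hC1.and (hC2.and (hC3.and (hC4.and (hC5.and
      ((tendsto_qq.eventually hβ).and ((tendsto_qq.eventually hΨ).and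
      (hqB.and ((lim3_im_large 1).and (lim3_im_large (‖β 0‖ + 3)))))))))))
    obtain ⟨ζ, ⟨r, hr⟩, k0, k1, k2, k3, k4, k5, k6, k7, k8, k9, k10⟩ :=
      (hfr.and_eventually hall).exists
    have him : (0 : ℝ) ≤ ζ.im := by linarith
    -- the coordinates `κ`
    obtain ⟨c0, hc0, hc0'⟩ := (proj1_mem_Fil 0 _).mp hr
    set κ : Fin m → ℂ := -c0 with hκ
    have hκs : ∀ j, p j < 0 → κ j = 0 := by
      intro j hj
      rw [hκ, Pi.neg_apply, hc0 j hj, neg_zero]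
    have hrκ : ofR r = VV N β ζ + eH N ζ *ᵥ (Ψ (qq ζ) *ᵥ κ) := by
      have t1 : eH N ζ *ᵥ (Ψ (qq ζ) *ᵥ κ) = -(GG N Ψ ζ *ᵥ c0) := by
        rw [Matrix.mulVec_mulVec, ← GG, hκ, Matrix.mulVec_neg]
      rw [t1, ← hc0']
      abel
    have hV := (VV_eq_iff h.nil h.row ζ (ofR r) (Ψ (qq ζ) *ᵥ κ)).mp hrκ
    -- the bound for `β` and `κ`
    have hβb : ‖β (qq ζ)‖ ≤ ‖β 0‖ + 1 := by
      have t1 : ‖β (qq ζ)‖ ≤ ‖β (qq ζ) - β 0‖ + ‖β 0‖ := by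
        have := norm_add_le (β (qq ζ) - β 0) (β 0)
        rwa [sub_add_cancel] at this
      linarith
    have hVV : ‖VV N β ζ‖ ≤ ζ.im ^ C5 * (‖β 0‖ + 2) := by
      have t1 : ‖VV N β ζ‖ ≤ ‖eV N ζ *ᵥ Sum.elim (β (qq ζ)) 1‖ :=
        lim3_inl_norm_le (eV N ζ *ᵥ Sum.elim (β (qq ζ)) 1)
      refine t1.trans ((k5 _).1.trans ?_)
      apply mul_le_mul_of_nonneg_left _ (by positivity)
      refine (lim3_elim_norm_le _ _).trans ?_
      have : ‖(1 : Unit → ℂ)‖ ≤ 1 := by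
        rw [pi_norm_le_iff_of_nonneg zero_le_one]
        intro i; simp
      linarith
    have hκb : ‖κ‖ ≤ ζ.im ^ E := by
      have t1 := (k3 κ).2
      have t2 : GG N Ψ ζ *ᵥ κ = ofR r - VV N β ζ := by
        rw [hrκ, Matrix.mulVec_mulVec, ← GG]
        abel
      rw [t2] at t1
      have t3 : ‖ofR r - VV N β ζ‖ ≤ ζ.im ^ (C1 + C5) * (‖β 0‖ + 3) := by
        refine (norm_sub_le _ _).trans ?_
        have t4 : ‖ofR r‖ ≤ ζ.im ^ (C1 + C5) * 1 := by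
          rw [mul_one]
          exact (k1 r hr).trans (pow_le_pow_right₀ k9 (by omega))
        have t5 : ‖VV N β ζ‖ ≤ ζ.im ^ (C1 + C5) * (‖β 0‖ + 2) :=
          hVV.trans (mul_le_mul_of_nonneg_right (pow_le_pow_right₀ k9 (by omega)) (by positivity))
        linarith
      calc ‖κ‖ ≤ ζ.im ^ C3 * ‖ofR r - VV N β ζ‖ := t1
        _ ≤ ζ.im ^ C3 * (ζ.im ^ (C1 + C5) * (‖β 0‖ + 3)) :=
            mul_le_mul_of_nonneg_left t3 (by positivity)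
        _ ≤ ζ.im ^ C3 * (ζ.im ^ (C1 + C5) * ζ.im) := by
            apply mul_le_mul_of_nonneg_left _ (by positivity)
            exact mul_le_mul_of_nonneg_left k10 (by positivity)
        _ = ζ.im ^ E := by rw [hE]; ring
    have hκ0 : Ψ 0 *ᵥ κ ∈ Fil p (Ψ 0) 0 := (proj1_mem_Fil 0 _).mpr ⟨κ, hκs, rfl⟩
    -- the small quantity
    have hE1 : 1 ≤ ζ.im ^ E := one_le_pow₀ k9
    have hσ : ‖(β (qq ζ) - β 0) + (Ψ (qq ζ) - Ψ 0) *ᵥ κ‖ ≤ (B1 + B2) * (‖qq ζ‖ * ζ.im ^ E) := by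
      refine (norm_add_le _ _).trans ?_
      have t1 := k7 κ
      have t2 : B2 * ‖qq ζ‖ * ‖κ‖ ≤ B2 * ‖qq ζ‖ * ζ.im ^ E :=
        mul_le_mul_of_nonneg_left hκb (by positivity)
      have t3 : B1 * ‖qq ζ‖ ≤ B1 * ‖qq ζ‖ * ζ.im ^ E :=
        le_mul_of_one_le_right (by positivity) hE1
      calc ‖β (qq ζ) - β 0‖ + ‖(Ψ (qq ζ) - Ψ 0) *ᵥ κ‖ ≤
          B1 * ‖qq ζ‖ * ζ.im ^ E + B2 * ‖qq ζ‖ * ζ.im ^ E := by linarith
        _ = (B1 + B2) * (‖qq ζ‖ * ζ.im ^ E) := by ring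
    -- apply `N`
    set ρ : Fin m → ℝ := hb N *ᵥ r + n0 N with hρdef
    have hNr : cm N *ᵥ Sum.elim (ofR r) 1 = Sum.elim (ofR ρ) 0 := by
      rw [mulVec_elim h.row, hρ]
    have hNe : eH N (-ζ) *ᵥ ofR ρ =
        cm (hb N) *ᵥ (β (qq ζ) + Ψ (qq ζ) *ᵥ κ) + ofR (n0 N) := by
      have t1 : cm N *ᵥ (eV N (-ζ) *ᵥ Sum.elim (ofR r) 1) =
          cm N *ᵥ Sum.elim (β (qq ζ) + Ψ (qq ζ) *ᵥ κ) 1 := by rw [hV]
      rw [Matrix.mulVec_mulVec, lim3_comm h.nil, ← Matrix.mulVec_mulVec, hNr,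
        mulVec_elim h.row] at t1
      funext i
      have t2 := congrFun t1 (Sum.inl i)
      simp only [Sum.elim_inl] at t2
      rw [← t2]
      simp only [Matrix.mulVec, dotProduct, Fintype.sum_sum_type, Sum.elim_inl, Sum.elim_inr,
        Pi.zero_apply, mul_zero, Finset.sum_const_zero, add_zero]
      refine Finset.sum_congr rfl fun j _ => ?_
      rw [eV_inl_inl h.nil h.row]
    set φ := cm (hb N) *ᵥ (β 0 + Ψ 0 *ᵥ κ) + ofR (n0 N) with hφ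
    have hφm : φ ∈ Fil p (Ψ 0) (-1) := by
      have t1 : φ = (cm (hb N) *ᵥ β 0 + ofR (n0 N)) + cm (hb N) *ᵥ (Ψ 0 *ᵥ κ) := by
        rw [hφ, Matrix.mulVec_add]
        abel
      rw [t1]
      exact Submodule.add_mem _ h.limit_n0 (h.limit_N hκ0)
    have hdiff : eH N (-ζ) *ᵥ ofR ρ - φ =
        cm (hb N) *ᵥ ((β (qq ζ) - β 0) + (Ψ (qq ζ) - Ψ 0) *ᵥ κ) := by
      rw [hNe, hφ, Matrix.sub_mulVec]
      simp only [Matrix.mulVec_add, Matrix.mulVec_sub]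
      abel
    have hρb : ‖ofR ρ‖ ≤ ζ.im ^ C2 * (B3 * ((B1 + B2) * (‖qq ζ‖ * ζ.im ^ E))) := by
      refine (k2 ρ φ hφm).trans ?_
      apply mul_le_mul_of_nonneg_left _ (by positivity)
      rw [hdiff]
      exact (hNb _).trans (mul_le_mul_of_nonneg_left hσ hB3.le)
    -- `r - β 0 - Ψ 0 κ`
    have hmain : ‖ofR r - β 0 - Ψ 0 *ᵥ κ‖ ≤
        ζ.im ^ C4 * ‖ofR ρ‖ + (B1 + B2) * (‖qq ζ‖ * ζ.im ^ E) := by
      have t1 := k4 (Sum.elim (ofR r) 1)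
      rw [hV, hNr] at t1
      have t2 : ‖β (qq ζ) + Ψ (qq ζ) *ᵥ κ - ofR r‖ ≤ ζ.im ^ C4 * ‖ofR ρ‖ := by
        have t3 : (fun i => ((Sum.elim (β (qq ζ) + Ψ (qq ζ) *ᵥ κ) 1 - Sum.elim (ofR r) 1 :
            Fin m ⊕ Unit → ℂ)) (Sum.inl i)) = β (qq ζ) + Ψ (qq ζ) *ᵥ κ - ofR r := by
          funext i; rfl
        rw [← t3]
        refine (lim3_inl_norm_le _).trans (t1.trans ?_)
        apply mul_le_mul_of_nonneg_left _ (by positivity)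
        refine (lim3_elim_norm_le _ _).trans ?_
        rw [norm_zero, add_zero]
      have t4 : ofR r - β 0 - Ψ 0 *ᵥ κ = -(β (qq ζ) + Ψ (qq ζ) *ᵥ κ - ofR r) +
          ((β (qq ζ) - β 0) + (Ψ (qq ζ) - Ψ 0) *ᵥ κ) := by
        rw [Matrix.sub_mulVec]
        abel
      rw [t4]
      refine (norm_add_le _ _).trans ?_
      rw [norm_neg]
      exact add_le_add t2 hσ
    have hfin1 : ‖ofR ρ‖ < δ := by
      refine lt_of_le_of_lt hρb (lt_of_le_of_lt ?_ k0)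
      calc ζ.im ^ C2 * (B3 * ((B1 + B2) * (‖qq ζ‖ * ζ.im ^ E))) =
          1 * (B3 * (B1 + B2) * (‖qq ζ‖ * ζ.im ^ (C2 + E))) := by rw [pow_add]; ring
        _ ≤ ζ.im ^ C4 * ((B3 + 1) * (B1 + B2) * (‖qq ζ‖ * ζ.im ^ (C2 + E))) := by
            apply mul_le_mul (one_le_pow₀ k9) _ (by positivity) (by positivity)
            apply mul_le_mul_of_nonneg_right _ (by positivity)
            apply mul_le_mul_of_nonneg_right _ (by positivity)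
            linarith
        _ = (B3 + 1) * (B1 + B2) * (‖qq ζ‖ * ζ.im ^ (C4 + C2 + E)) := by
            rw [pow_add, pow_add, pow_add]; ring
    refine ⟨r, Ψ 0 *ᵥ κ, hκ0, ?_, ?_⟩
    · have t1 : ‖hb N *ᵥ r + n0 N‖ = ‖ofR ρ‖ := by
        apply le_antisymm
        · rw [pi_norm_le_iff_of_nonneg (norm_nonneg _)]
          intro i
          have := norm_le_pi_norm (ofR ρ) i
          rwa [ofR, Complex.norm_real] at this
        · rw [pi_norm_le_iff_of_nonneg (norm_nonneg _)]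
          intro i
          rw [ofR, Complex.norm_real]
          exact norm_le_pi_norm ρ i
      rw [t1]
      exact hfin1
    · refine lt_of_le_of_lt hmain (lt_of_le_of_lt ?_ k0)
      have t1 : ζ.im ^ C4 * ‖ofR ρ‖ ≤
          B3 * (B1 + B2) * (‖qq ζ‖ * ζ.im ^ (C4 + C2 + E)) := by
        calc ζ.im ^ C4 * ‖ofR ρ‖ ≤
            ζ.im ^ C4 * (ζ.im ^ C2 * (B3 * ((B1 + B2) * (‖qq ζ‖ * ζ.im ^ E)))) :=
              mul_le_mul_of_nonneg_left hρb (by positivity)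
          _ = B3 * (B1 + B2) * (‖qq ζ‖ * ζ.im ^ (C4 + C2 + E)) := by
              rw [pow_add, pow_add]; ring
      have t2 : (B1 + B2) * (‖qq ζ‖ * ζ.im ^ E) ≤
          (B1 + B2) * (‖qq ζ‖ * ζ.im ^ (C4 + C2 + E)) := by
        apply mul_le_mul_of_nonneg_left _ (by positivity)
        apply mul_le_mul_of_nonneg_left _ (norm_nonneg _)
        exact pow_le_pow_right₀ k9 (by omega)
      calc ζ.im ^ C4 * ‖ofR ρ‖ + (B1 + B2) * (‖qq ζ‖ * ζ.im ^ E) ≤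
          B3 * (B1 + B2) * (‖qq ζ‖ * ζ.im ^ (C4 + C2 + E)) +
          (B1 + B2) * (‖qq ζ‖ * ζ.im ^ (C4 + C2 + E)) := add_le_add t1 t2
        _ = (B3 + 1) * (B1 + B2) * (‖qq ζ‖ * ζ.im ^ (C4 + C2 + E)) := by ring)
  obtain ⟨e, he1, he2⟩ := hsol
  refine ⟨e, ?_, ?_⟩
  · rw [hρ, he1]
    funext i; simp [ofR]
  · have := Submodule.neg_mem _ he2
    rwa [neg_sub] at this

end SP38
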