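import Pool.Agent.LibSP38.Mon1

open Matrix Complex Filter Topology
open scoped ComplexOrder ContDiff

namespace SP38

variable {m : ℕ} {w : ℤ} {p : Fin m → ℤ} {Q : Matrix (Fin m) (Fin m) ℝ}
  {N : Matrix (Fin m ⊕ Unit) (Fin m ⊕ Unit) ℝ} {Ψ : ℂ → Matrix (Fin m) (Fin m) ℂ}
  {β : ℂ → Fin m → ℂ} {ε : ℝ} {s : Equiv.Perm (Fin m)} {K : ℕ}

/-- a general estimate: if `T` is almost an isometry and has trace `m`, then `T - 1` is small -/
theorem hs_sub_one_le {M T : Matrix (Fin m) (Fin m) ℂ} (hM : M.PosDef)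
    (htr : Matrix.trace T = m) {B : ℝ} (hB : ∀ v, qf M (T *ᵥ v) ≤ B * qf M v) :
    hs M (T - 1) ≤ m * (B - 1) := by
  have h1 : hs M T ≤ m * B := hs_le_of_qf hM T hB
  have h2 : hs M (T - 1) = hs M T - m := by
    unfold SP38.hs
    rw [adj_sub, adj_one hM, Matrix.sub_mul, Matrix.mul_sub, Matrix.one_mul, Matrix.mul_one,
      Matrix.trace_sub, Matrix.trace_sub, Matrix.trace_sub, trace_adj hM, htr, Matrix.trace_one]
    simp
  rw [h2]
  linarith

theorem mon2_im_tendsto : Tendsto (fun ζ : ℂ => ζ.im) strip atTop :=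
  tendsto_comap.mono_left inf_le_left

theorem mon2_qq (ζ : ℂ) (a : ℕ) : qq ((a : ℂ) + ζ) = qq ζ := by
  rw [qq, qq, mul_add, Complex.exp_add]
  have : Complex.exp (2 * Real.pi * I * (a : ℂ)) = 1 := by
    rw [Complex.exp_eq_one_iff]
    exact ⟨a, by push_cast; ring⟩
  rw [this, one_mul]

theorem mon2_bound_tendsto (m : ℕ) (B c : ℝ) (a : ℕ) :
    Tendsto (fun ζ : ℂ => (m : ℝ) * (Real.exp (B * (a : ℝ) / (ζ.im - c)) - 1)) strip (𝓝 0) := by
  have h1 : Tendsto (fun ζ : ℂ => ζ.im - c) strip atTop :=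
    tendsto_atTop_add_const_right _ (-c) mon2_im_tendsto
  have h2 : Tendsto (fun ζ : ℂ => B * (a : ℝ) / (ζ.im - c)) strip (𝓝 0) := h1.const_div_atTop _
  have h3 : Tendsto (fun ζ : ℂ => Real.exp (B * (a : ℝ) / (ζ.im - c))) strip (𝓝 (Real.exp 0)) :=
    (Real.continuous_exp.tendsto 0).comp h2
  have h4 := (h3.sub_const 1).const_mul (m : ℝ)
  simpa using h4

theorem CuspData.hs_exp_le (h : CuspData w p Q N Ψ β ε) (hs : ∀ j, p (s j) = w - p j)
    (hK : ∀ j, |p j| ≤ K) (a : ℕ) :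
    Tendsto (fun ζ => SP38.hs (metr w K Q (PP p s (GG N Ψ ζ))) (eH N a - 1)) strip (𝓝 0) := by
  obtain ⟨c, θ, hc, hPV⟩ := h.exists_PV hs hK
  obtain ⟨B, hB0, -, hB⟩ := hPV.exists_growth
  obtain ⟨T, hT1, hT2, hT3, hT4⟩ := exists_real_eH h.nil h.row h.pres a
  have hev : ∀ᶠ ζ : ℂ in strip, c < ζ.im := mon2_im_tendsto.eventually (eventually_gt_atTop c)
  refine tendsto_of_tendsto_of_tendsto_of_le_of_le' tendsto_const_nhds
    (mon2_bound_tendsto m B c a) ?_ ?_
  · filter_upwards [hev] with ζ hζ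
    exact hs_nonneg (hPV.hd ζ hζ).posDef _
  · filter_upwards [hev] with ζ hζ
    rw [← hT1]
    refine hs_sub_one_le (hPV.hd ζ hζ).posDef ?_ ?_
    · have : Matrix.trace (cm T) = ((Matrix.trace T : ℝ) : ℂ) := by
        simp [Matrix.trace, cm]
      rw [this, hT4]
      simp
    · intro v
      have h1 := (hB ζ.re ζ.im (a : ℝ) hζ (Nat.cast_nonneg a) (cm T *ᵥ v)).2
      have e1 : (ζ.re : ℂ) + ζ.im * I = ζ := Complex.re_add_im ζ
      have e2 : (ζ.re : ℂ) + ((a : ℝ) : ℂ) + ζ.im * I = (a : ℂ) + ζ := by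
        conv_rhs => rw [← Complex.re_add_im ζ]
        push_cast
        ring
      rw [e1, e2] at h1
      have e3 : GG N Ψ ((a : ℂ) + ζ) = cm T * GG N Ψ ζ := by
        rw [GG, mon2_qq, eH_add h.nil h.row, hT1, GG, Matrix.mul_assoc]
      have e4 : ∀ b, PP p s (GG N Ψ ((a : ℂ) + ζ)) b * cm T = cm T * PP p s (GG N Ψ ζ) b := by
        intro b
        rw [e3]
        exact PP_transport hT2 hs (h.phs ζ ((hc ζ).mp hζ)) b
      have e5 : qf (metr w K Q (PP p s (GG N Ψ ((a : ℂ) + ζ)))) (cm T *ᵥ v) =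
          qf (metr w K Q (PP p s (GG N Ψ ζ))) v :=
        HD.qf_transport hT3 hT2 e4 v
      rw [e5] at h1
      exact h1

theorem mon2_sqrt_smul (M X : Matrix (Fin m) (Fin m) ℂ) (c : ℂ) :
    √(SP38.hs M (c • X)) = ‖c‖ * √(SP38.hs M X) := by
  rw [hs_smul, Real.sqrt_mul (sq_nonneg _), Real.sqrt_sq (norm_nonneg _)]

theorem CuspData.tendsto_hs (h : CuspData w p Q N Ψ β ε) (hs : ∀ j, p (s j) = w - p j)
    (hK : ∀ j, |p j| ≤ K) :
    Tendsto (fun ζ => SP38.hs (metr w K Q (PP p s (GG N Ψ ζ))) (cm (hb N))) strip (𝓝 0) := by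
  obtain ⟨c, θ, hc, hPV⟩ := h.exists_PV hs hK
  have hev : ∀ᶠ ζ : ℂ in strip, c < ζ.im := mon2_im_tendsto.eventually (eventually_gt_atTop c)
  obtain ⟨k, hk⟩ := exists_coeff m
  have hnil : IsNilpotent (cm (hb N)) := by
    have := (isNilpotent_hb h.nil h.row).map (Complex.ofRealHom.mapMatrix (m := Fin m))
    exact this
  have key : ∀ S : Finset ℕ, Tendsto (fun ζ => √(SP38.hs (metr w K Q (PP p s (GG N Ψ ζ)))
      (∑ a ∈ S, (k a : ℂ) • (eH N a - 1)))) strip (𝓝 0) := by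
    intro S
    induction S using Finset.induction_on with
    | empty =>
      have : ∀ ζ, √(SP38.hs (metr w K Q (PP p s (GG N Ψ ζ)))
          (∑ a ∈ (∅ : Finset ℕ), (k a : ℂ) • (eH N a - 1))) = 0 := by
        intro ζ
        rw [Finset.sum_empty]
        unfold SP38.hs
        simp
      simp only [this]
      exact tendsto_const_nhds
    | insert a S haS ih =>
      have h1 : Tendsto (fun ζ => √(SP38.hs (metr w K Q (PP p s (GG N Ψ ζ)))
          ((k a : ℂ) • (eH N a - 1)))) strip (𝓝 0) := by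
        simp only [mon2_sqrt_smul]
        have h2 := (Real.continuous_sqrt.tendsto 0).comp (h.hs_exp_le hs hK a)
        rw [Real.sqrt_zero] at h2
        have h3 := h2.const_mul ‖(k a : ℂ)‖
        rw [mul_zero] at h3
        exact h3
      have h4 := h1.add ih
      rw [add_zero] at h4
      refine tendsto_of_tendsto_of_tendsto_of_le_of_le' tendsto_const_nhds h4 ?_ ?_
      · exact Eventually.of_forall fun ζ => Real.sqrt_nonneg _
      · filter_upwards [hev] with ζ hζ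
        rw [Finset.sum_insert haS]
        exact sqrt_hs_add (hPV.hd ζ hζ).posDef _ _
  have h1 := key (Finset.Icc 1 m)
  have e : ∑ a ∈ Finset.Icc 1 m, (k a : ℂ) • (eH N a - 1) = cm (hb N) :=
    (hk (cm (hb N)) hnil).symm
  rw [e] at h1
  have h2 := h1.pow 2
  rw [zero_pow (by norm_num)] at h2
  refine h2.congr' ?_
  filter_upwards [hev] with ζ hζ
  exact Real.sq_sqrt (hs_nonneg (hPV.hd ζ hζ).posDef _)

end SP38
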