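import Pool.Agent.LibSP38.Cus4

/-! The next order at a cusp. -/

open Matrix Complex Filter Topology
open scoped ComplexOrder ContDiff

namespace SP38

variable {m : ℕ} {w : ℤ} {p : Fin m → ℤ} {Q : Matrix (Fin m) (Fin m) ℝ}
  {N : Matrix (Fin m ⊕ Unit) (Fin m ⊕ Unit) ℝ} {Ψ : ℂ → Matrix (Fin m) (Fin m) ℂ}
  {β : ℂ → Fin m → ℂ} {ε : ℝ} {s : Equiv.Perm (Fin m)} {K : ℕ}

theorem nex1_det {S : Set ℂ} {M : ℂ → Matrix (Fin m) (Fin m) ℂ}
    (h : ∀ i j, DifferentiableOn ℂ (fun q => M q i j) S) :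
    DifferentiableOn ℂ (fun q => (M q).det) S := by
  simp only [Matrix.det_apply]
  refine DifferentiableOn.fun_sum fun σ _ => ?_
  refine DifferentiableOn.const_smul (DifferentiableOn.fun_finsetProd fun i _ => h _ _) _

theorem nex1_inv {S : Set ℂ} {M : ℂ → Matrix (Fin m) (Fin m) ℂ}
    (h : ∀ i j, DifferentiableOn ℂ (fun q => M q i j) S) (hu : ∀ q ∈ S, IsUnit (M q))
    (i j : Fin m) : DifferentiableOn ℂ (fun q => (M q)⁻¹ i j) S := by
  have e : ∀ q, (M q)⁻¹ i j = ((M q).det)⁻¹ * (M q).adjugate i j := by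
    intro q
    rw [Matrix.inv_def, Ring.inverse_eq_inv', Matrix.smul_apply, smul_eq_mul]
  simp only [e]
  refine DifferentiableOn.mul ((nex1_det h).inv fun q hq => ?_) ?_
  · exact ((Matrix.isUnit_iff_isUnit_det (M q)).1 (hu q hq)).ne_zero
  · simp only [Matrix.adjugate_apply]
    refine nex1_det fun a b => ?_
    by_cases hab : a = j
    · subst hab
      simp only [Matrix.updateRow_self]
      exact differentiableOn_const _
    · simp only [Matrix.updateRow_ne hab]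
      exact h a b

theorem nex1_inv_mulVec {S : Set ℂ} {M : ℂ → Matrix (Fin m) (Fin m) ℂ}
    (h : ∀ i j, DifferentiableOn ℂ (fun q => M q i j) S) (hu : ∀ q ∈ S, IsUnit (M q))
    {v : ℂ → Fin m → ℂ} (hv : ∀ i, DifferentiableOn ℂ (fun q => v q i) S) (i : Fin m) :
    DifferentiableOn ℂ (fun q => ((M q)⁻¹ *ᵥ v q) i) S := by
  simp only [Matrix.mulVec, dotProduct]
  exact DifferentiableOn.fun_sum fun j _ => (nex1_inv h hu i j).mul (hv j)

theorem nex1_mem_mul {A G : Matrix (Fin m) (Fin m) ℂ} (hA : IsUnit A) (hG : IsUnit G) (a : ℤ)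
    (v : Fin m → ℂ) : A *ᵥ v ∈ Fil p (A * G) a ↔ v ∈ Fil p G a := by
  rw [mem_Fil (hA.mul hG), mem_Fil hG]
  refine exists_congr fun c => and_congr_right fun _ => ?_
  rw [← Matrix.mulVec_mulVec]
  constructor
  · intro h
    obtain ⟨u, hu⟩ := hA
    have h2 : (u⁻¹ : (Matrix (Fin m) (Fin m) ℂ)ˣ).val *ᵥ (A *ᵥ v) =
      (u⁻¹ : (Matrix (Fin m) (Fin m) ℂ)ˣ).val *ᵥ (A *ᵥ (G *ᵥ c)) := by rw [h]
    rw [Matrix.mulVec_mulVec, Matrix.mulVec_mulVec, ← hu, Units.inv_mul, Matrix.one_mulVec,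
      Matrix.one_mulVec] at h2
    exact h2
  · intro h; rw [h]

/-- order of vanishing: either the class is `0` near the cusp, or it has a leading term -/
theorem exists_leading_term (hε : 0 < ε)
    (hP : ∀ i j, DifferentiableOn ℂ (fun q => Ψ q i j) (Metric.ball 0 ε))
    (hb : ∀ i, DifferentiableOn ℂ (fun q => β q i) (Metric.ball 0 ε))
    (hu : ∀ q ∈ Metric.ball (0 : ℂ) ε, IsUnit (Ψ q)) {e : Fin m → ℝ}
    (he : β 0 - ofR e ∈ Fil p (Ψ 0) 0) :
    (∀ᶠ q in 𝓝 (0 : ℂ), β q - ofR e ∈ Fil p (Ψ q) 0) ∨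
    ∃ (k : ℕ) (g : ℂ → Fin m → ℂ) (ε' : ℝ), 0 < k ∧ 0 < ε' ∧ ε' ≤ ε ∧
      (∀ i, DifferentiableOn ℂ (fun q => g q i) (Metric.ball 0 ε')) ∧ g 0 ≠ 0 ∧
      (∀ q j, 0 ≤ p j → g q j = 0) ∧
      ∀ q ∈ Metric.ball (0 : ℂ) ε', β q - ofR e - q ^ k • (Ψ q *ᵥ g q) ∈ Fil p (Ψ q) 0 := by
  classical
  have h0 : (0:ℂ) ∈ Metric.ball (0:ℂ) ε := Metric.mem_ball_self hε
  have hball : Metric.ball (0:ℂ) ε ∈ 𝓝 (0:ℂ) := Metric.isOpen_ball.mem_nhds h0
  set γ : ℂ → Fin m → ℂ := fun q j => if p j < 0 then ((Ψ q)⁻¹ *ᵥ (β q - ofR e)) j else 0 with hγ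
  have hγd : DifferentiableOn ℂ γ (Metric.ball 0 ε) := by
    refine differentiableOn_pi.2 fun j => ?_
    simp only [hγ]
    by_cases hj : p j < 0
    · simp only [hj, if_true]
      exact nex1_inv_mulVec hP hu (fun i => (hb i).sub (differentiableOn_const _)) j
    · simp only [hj, if_false]
      exact differentiableOn_const _
  have hγ0 : γ 0 = 0 := by
    funext j
    simp only [hγ]
    split_ifs with hj
    · exact (mem_Fil_inv (hu 0 h0) 0 _).1 he j hj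
    · rfl
  have hγa : AnalyticAt ℂ γ 0 := hγd.analyticAt hball
  by_cases hz : ∀ᶠ z in 𝓝 (0:ℂ), γ z = 0
  · left
    filter_upwards [hz, hball] with q hq hqb
    refine (mem_Fil_inv (hu q hqb) 0 _).2 fun j hj => ?_
    have := congrFun hq j
    simpa only [hγ, hj, if_true, Pi.zero_apply] using this
  · right
    obtain ⟨k, g, hga, hg0, hgz⟩ := hγa.exists_eventuallyEq_pow_smul_nonzero_iff.2 hz
    simp only [sub_zero] at hgz
    set g' : ℂ → Fin m → ℂ := fun q j => if p j < 0 then g q j else 0 with hg'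
    have hgc : ContinuousAt g 0 := hga.continuousAt
    have hgp : ∀ j, 0 ≤ p j → g 0 j = 0 := by
      intro j hj
      have h1 : Tendsto (fun q => g q j) (𝓝[≠] 0) (𝓝 (g 0 j)) :=
        (continuousAt_pi.1 hgc j).tendsto.mono_left nhdsWithin_le_nhds
      have h2 : Tendsto (fun q => g q j) (𝓝[≠] 0) (𝓝 0) := by
        refine Tendsto.congr' ?_ tendsto_const_nhds
        filter_upwards [hgz.filter_mono nhdsWithin_le_nhds, self_mem_nhdsWithin] with q hq hq0
        have h3 := congrFun hq j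
        simp only [hγ, not_lt.2 hj, if_false, Pi.smul_apply, smul_eq_mul] at h3
        rcases mul_eq_zero.1 h3.symm with h4 | h4
        · exact absurd h4 (pow_ne_zero _ hq0)
        · exact h4.symm
      exact tendsto_nhds_unique h1 h2
    have hk : 0 < k := by
      rcases Nat.eq_zero_or_pos k with rfl | hk
      · exfalso
        have := hgz.self_of_nhds
        rw [hγ0, pow_zero, one_smul] at this
        exact hg0 this.symm
      · exact hk
    have hev : ∀ᶠ q in 𝓝 (0:ℂ), γ q = q ^ k • g q ∧ AnalyticAt ℂ g q :=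
      hgz.and hga.eventually_analyticAt
    obtain ⟨δ, hδ, hδb⟩ := Metric.eventually_nhds_iff_ball.1 hev
    refine ⟨k, g', min δ ε, hk, lt_min hδ hε, min_le_right _ _, ?_, ?_, ?_, ?_⟩
    · intro i q hq
      have hq' : q ∈ Metric.ball (0:ℂ) δ := Metric.ball_subset_ball (min_le_left _ _) hq
      simp only [hg']
      split_ifs
      · exact (differentiableAt_pi.1 (hδb q hq').2.differentiableAt i).differentiableWithinAt
      · exact (differentiableAt_const _).differentiableWithinAt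
    · intro hcon
      apply hg0
      funext j
      by_cases hj : p j < 0
      · have := congrFun hcon j
        simpa only [hg', hj, if_true] using this
      · exact hgp j (not_lt.1 hj)
    · intro q j hj
      simp only [hg', not_lt.2 hj, if_false]
    · intro q hq
      have hq' : q ∈ Metric.ball (0:ℂ) δ := Metric.ball_subset_ball (min_le_left _ _) hq
      have hqε : q ∈ Metric.ball (0:ℂ) ε := Metric.ball_subset_ball (min_le_right _ _) hq
      refine (mem_Fil_inv (hu q hqε) 0 _).2 fun j hj => ?_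
      have hd : IsUnit (Ψ q).det := (Matrix.isUnit_iff_isUnit_det _).1 (hu q hqε)
      rw [Matrix.mulVec_sub, Matrix.mulVec_smul, Matrix.mulVec_mulVec, Matrix.nonsing_inv_mul _ hd,
        Matrix.one_mulVec]
      have h3 := congrFun (hδb q hq').1 j
      simp only [hγ, hj, if_true, Pi.smul_apply, smul_eq_mul] at h3
      simp only [Pi.sub_apply, Pi.smul_apply, smul_eq_mul, hg', hj, if_true]
      rw [← h3, sub_self]

/-- Griffiths transversality of `H` in the coordinate `q` -/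
theorem nex1_trG (h : CuspData w p Q N Ψ β ε) {ζ : ℂ} (hζ : ‖qq ζ‖ < ε) {c : Fin m → ℂ}
    (hc : ∀ j, p j < 0 → c j = 0) :
    eH N ζ *ᵥ (cm (hb N) *ᵥ (Ψ (qq ζ) *ᵥ c) + (2 * Real.pi * I * qq ζ) •
        ((Matrix.of fun i j => deriv (fun q => Ψ q i j) (qq ζ)) *ᵥ c)) ∈
      Fil p (GG N Ψ ζ) (-1) := by
  rw [← deriv_GG_mulVec h.nil h.row h.holP hζ]
  rw [Matrix.mulVec_eq_sum]
  refine Submodule.sum_mem _ fun j _ => ?_
  by_cases hj : p j < 0
  · rw [hc j hj]; simp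
  · have h2 := h.trG ζ hζ j
    have h3 := Fil_anti (p := p) (GG N Ψ ζ) (show (-1:ℤ) ≤ p j - 1 by omega) h2
    have h4 := Submodule.smul_mem _ (c j) h3
    convert h4 using 1
    funext i
    simp [Matrix.transpose_apply, mul_comm]

/-- Griffiths transversality for the leading term: `2 π i k u + N u + 2 π i q (...) ∈ F^{-1}`,
`u = G g` -/
theorem CuspData.star (h : CuspData w p Q N Ψ β ε) {e : Fin m → ℝ}
    (he : cm (hb N) *ᵥ ofR e + ofR (n0 N) = 0) {k : ℕ} {g : ℂ → Fin m → ℂ} {ε' : ℝ}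
    (hε' : ε' ≤ ε) (hg : ∀ i, DifferentiableOn ℂ (fun q => g q i) (Metric.ball 0 ε'))
    (hβ : ∀ q ∈ Metric.ball (0 : ℂ) ε', β q - ofR e - q ^ k • (Ψ q *ᵥ g q) ∈ Fil p (Ψ q) 0)
    {ζ : ℂ} (hζ : ‖qq ζ‖ < ε') :
    (2 * Real.pi * I * k) • (GG N Ψ ζ *ᵥ g (qq ζ)) + cm (hb N) *ᵥ (GG N Ψ ζ *ᵥ g (qq ζ)) +
      (2 * Real.pi * I * qq ζ) • (eH N ζ *ᵥ
        ((Matrix.of fun i j => deriv (fun q => Ψ q i j) (qq ζ)) *ᵥ g (qq ζ) +
          Ψ (qq ζ) *ᵥ fun i => deriv (fun q => g q i) (qq ζ))) ∈ Fil p (GG N Ψ ζ) (-1) := by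
  have hζε : ‖qq ζ‖ < ε := hζ.trans_le hε'
  set q := qq ζ with hq
  have hqb : q ∈ Metric.ball (0:ℂ) ε' := by simpa using hζ
  have hsub : Metric.ball (0:ℂ) ε' ⊆ Metric.ball (0:ℂ) ε := Metric.ball_subset_ball hε'
  have hqn : Metric.ball (0:ℂ) ε' ∈ 𝓝 q := Metric.isOpen_ball.mem_nhds hqb
  have hq0 : q ≠ 0 := by rw [hq]; unfold qq; exact Complex.exp_ne_zero _
  -- the holomorphic coefficient vector
  set c : ℂ → Fin m → ℂ := fun q => (Ψ q)⁻¹ *ᵥ (β q - ofR e - q ^ k • (Ψ q *ᵥ g q)) with hc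
  have hPd : ∀ i j, DifferentiableOn ℂ (fun q => Ψ q i j) (Metric.ball 0 ε') :=
    fun i j => (h.holP i j).mono hsub
  have hud : ∀ q ∈ Metric.ball (0:ℂ) ε', IsUnit (Ψ q) := fun q hq => h.unit q (hsub hq)
  have hcd : ∀ i, DifferentiableOn ℂ (fun q => c q i) (Metric.ball 0 ε') := by
    intro i
    refine nex1_inv_mulVec hPd hud (fun i => ?_) i
    simp only [Pi.sub_apply, Pi.smul_apply, smul_eq_mul, Matrix.mulVec, dotProduct]
    refine (((h.holb i).mono hsub).sub (differentiableOn_const _)).sub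
      ((differentiableOn_id.pow k).mul ?_)
    exact DifferentiableOn.fun_sum fun j _ => (hPd i j).mul (hg j)
  have hc0 : ∀ q ∈ Metric.ball (0:ℂ) ε', ∀ j, p j < 0 → c q j = 0 := fun q hq j hj =>
    (mem_Fil_inv (hud q hq) 0 _).1 (hβ q hq) j hj
  have hβe : ∀ q ∈ Metric.ball (0:ℂ) ε', ∀ i, β q i = (ofR e) i +
      (q ^ k * ∑ j, Ψ q i j * g q j + ∑ j, Ψ q i j * c q j) := by
    intro q hq i
    have hd : IsUnit (Ψ q).det := (Matrix.isUnit_iff_isUnit_det _).1 (hud q hq)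
    have h1 : Ψ q *ᵥ c q = β q - ofR e - q ^ k • (Ψ q *ᵥ g q) := by
      rw [hc]
      simp only
      rw [Matrix.mulVec_mulVec, Matrix.mul_nonsing_inv _ hd, Matrix.one_mulVec]
    have h2 := congrFun h1 i
    simp only [Matrix.mulVec, dotProduct, Pi.sub_apply, Pi.smul_apply, smul_eq_mul] at h2
    rw [h2]; ring
  have hPD : ∀ i j, HasDerivAt (fun q => Ψ q i j) (deriv (fun q => Ψ q i j) q) q := fun i j =>
    ((hPd i j).differentiableAt hqn).hasDerivAt
  have hgD : ∀ i, HasDerivAt (fun q => g q i) (deriv (fun q => g q i) q) q := fun i =>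
    ((hg i).differentiableAt hqn).hasDerivAt
  have hcD : ∀ i, HasDerivAt (fun q => c q i) (deriv (fun q => c q i) q) q := fun i =>
    ((hcd i).differentiableAt hqn).hasDerivAt
  have hcD0 : ∀ j, p j < 0 → deriv (fun q => c q j) q = 0 := by
    intro j hj
    have : (fun q => c q j) =ᶠ[𝓝 q] fun _ => 0 := by
      filter_upwards [hqn] with x hx
      exact hc0 x hx j hj
    rw [this.deriv_eq]; simp
  set P' : Matrix (Fin m) (Fin m) ℂ := Matrix.of fun i j => deriv (fun q => Ψ q i j) q with hP'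
  set g' : Fin m → ℂ := fun i => deriv (fun q => g q i) q with hg'
  set c' : Fin m → ℂ := fun i => deriv (fun q => c q i) q with hc'
  have hder : (fun i => deriv (fun q => β q i) q) =
      (k * q ^ (k - 1)) • (Ψ q *ᵥ g q) + q ^ k • (P' *ᵥ g q + Ψ q *ᵥ g') +
        (P' *ᵥ c q + Ψ q *ᵥ c') := by
    funext i
    have h1 : (fun q => β q i) =ᶠ[𝓝 q] fun q => (ofR e) i +
      (q ^ k * ∑ j, Ψ q i j * g q j + ∑ j, Ψ q i j * c q j) := by
      filter_upwards [hqn] with x hx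
      exact hβe x hx i
    rw [h1.deriv_eq]
    have h2 : HasDerivAt (fun q => ∑ j, Ψ q i j * g q j)
        (∑ j, (deriv (fun q => Ψ q i j) q * g q j + Ψ q i j * deriv (fun q => g q j) q)) q :=
      HasDerivAt.fun_sum fun j _ => (hPD i j).mul (hgD j)
    have h3 : HasDerivAt (fun q => ∑ j, Ψ q i j * c q j)
        (∑ j, (deriv (fun q => Ψ q i j) q * c q j + Ψ q i j * deriv (fun q => c q j) q)) q :=
      HasDerivAt.fun_sum fun j _ => (hPD i j).mul (hcD j)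
    have h4 := (((hasDerivAt_pow k q).mul h2).add h3).const_add ((ofR e) i)
    have h5 := h4.deriv
    refine Eq.trans h5 ?_
    simp only [Pi.add_apply, Pi.smul_apply, smul_eq_mul, Matrix.mulVec, dotProduct, hP', hg', hc',
      Matrix.of_apply, Finset.sum_add_distrib]
  -- transversality of the extension
  have h1 := h.trn ζ hζε
  rw [deriv_VV h.nil h.row h.holb hζε, ← hq, hder] at h1
  have h2 := nex1_trG h hζε (c := c q) (hc0 q hqb)
  rw [← hq] at h2
  have h3 : eH N ζ *ᵥ (Ψ q *ᵥ c') ∈ Fil p (GG N Ψ ζ) (-1) := by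
    have h4 : eH N ζ *ᵥ (Ψ q *ᵥ c') ∈ Fil p (GG N Ψ ζ) 0 := by
      have : GG N Ψ ζ = eH N ζ * Ψ q := rfl
      rw [this, nex1_mem_mul (isUnit_eH h.nil h.row ζ) (hud q hqb), mem_Fil (hud q hqb)]
      exact ⟨c', hcD0, rfl⟩
    exact Fil_anti (p := p) (GG N Ψ ζ) (show (-1:ℤ) ≤ 0 by omega) h4
  have hβq : β q = ofR e + (q ^ k • (Ψ q *ᵥ g q) + Ψ q *ᵥ c q) := by
    funext i
    rw [hβe q hqb i]
    simp only [Pi.add_apply, Pi.smul_apply, smul_eq_mul, Matrix.mulVec, dotProduct]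
  have hkey : q ^ k • ((2 * Real.pi * I * k) • (GG N Ψ ζ *ᵥ g q) +
      cm (hb N) *ᵥ (GG N Ψ ζ *ᵥ g q) + (2 * Real.pi * I * q) • (eH N ζ *ᵥ
        (P' *ᵥ g q + Ψ q *ᵥ g'))) ∈ Fil p (GG N Ψ ζ) (-1) := by
    have h5 := Submodule.sub_mem _ (Submodule.sub_mem _ h1 h2)
      (Submodule.smul_mem _ (2 * Real.pi * I * q) h3)
    convert h5 using 1
    have hcomm : ∀ v : Fin m → ℂ, cm (hb N) *ᵥ (GG N Ψ ζ *ᵥ v) =
        eH N ζ *ᵥ (cm (hb N) *ᵥ (Ψ q *ᵥ v)) := by
      intro v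
      have : GG N Ψ ζ = eH N ζ * Ψ q := rfl
      rw [this, Matrix.mulVec_mulVec, ← Matrix.mul_assoc, ← eH_comm h.nil h.row,
        Matrix.mulVec_mulVec, Matrix.mulVec_mulVec]
    have hGG : GG N Ψ ζ *ᵥ g q = eH N ζ *ᵥ (Ψ q *ᵥ g q) := by
      have : GG N Ψ ζ = eH N ζ * Ψ q := rfl
      rw [this, Matrix.mulVec_mulVec]
    have hA : cm (hb N) *ᵥ β q + ofR (n0 N) =
        q ^ k • (cm (hb N) *ᵥ (Ψ q *ᵥ g q)) + cm (hb N) *ᵥ (Ψ q *ᵥ c q) := by
      rw [hβq, Matrix.mulVec_add, Matrix.mulVec_add, Matrix.mulVec_smul]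
      have : cm (hb N) *ᵥ ofR e = - ofR (n0 N) := eq_neg_of_add_eq_zero_left he
      rw [this]; abel
    rw [hA, hcomm, hGG]
    simp only [Matrix.mulVec_add, Matrix.mulVec_smul, smul_add, smul_smul]
    have hkq : (2 * Real.pi * I * q) * (k * q ^ (k - 1)) = q ^ k * (2 * Real.pi * I * k) := by
      rcases Nat.eq_zero_or_pos k with hk0 | hk0
      · subst hk0; simp
      · obtain ⟨l, rfl⟩ := Nat.exists_eq_succ_of_ne_zero hk0.ne'
        simp only [Nat.succ_eq_add_one, Nat.add_sub_cancel, pow_succ]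
        ring
    rw [hkq]
    have hqq : (2 * Real.pi * I * q) * q ^ k = q ^ k * (2 * Real.pi * I * q) := by ring
    rw [hqq]
    abel
  have hqk : q ^ k ≠ 0 := pow_ne_zero _ hq0
  exact (Submodule.smul_mem_iff _ hqk).1 hkey

/-- `N` almost maps `F^0` to `F^{-1}` -/
theorem CuspData.N_Fil (h : CuspData w p Q N Ψ β ε) {ζ : ℂ} (hζ : ‖qq ζ‖ < ε) {c : Fin m → ℂ}
    (hc : ∀ j, p j < 0 → c j = 0) :
    cm (hb N) *ᵥ (GG N Ψ ζ *ᵥ c) + (2 * Real.pi * I * qq ζ) • (eH N ζ *ᵥ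
        ((Matrix.of fun i j => deriv (fun q => Ψ q i j) (qq ζ)) *ᵥ c)) ∈
      Fil p (GG N Ψ ζ) (-1) := by
  have h1 := nex1_trG h hζ hc
  rw [Matrix.mulVec_add, Matrix.mulVec_smul] at h1
  have hcomm : cm (hb N) *ᵥ (GG N Ψ ζ *ᵥ c) = eH N ζ *ᵥ (cm (hb N) *ᵥ (Ψ (qq ζ) *ᵥ c)) := by
    have : GG N Ψ ζ = eH N ζ * Ψ (qq ζ) := rfl
    rw [this, Matrix.mulVec_mulVec, ← Matrix.mul_assoc, ← eH_comm h.nil h.row,
      Matrix.mulVec_mulVec, Matrix.mulVec_mulVec]
  rw [hcomm]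
  exact h1

end SP38
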