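import Pool.Agent.LibSP38.Mon2
import Pool.Agent.LibSP38.Nex1

open Matrix Complex Filter Topology
open scoped ComplexOrder ContDiff

namespace SP38

variable {m : ℕ} {w : ℤ} {p : Fin m → ℤ} {Q : Matrix (Fin m) (Fin m) ℝ}
  {N : Matrix (Fin m ⊕ Unit) (Fin m ⊕ Unit) ℝ} {Ψ : ℂ → Matrix (Fin m) (Fin m) ℂ}
  {β : ℂ → Fin m → ℂ} {ε : ℝ} {s : Equiv.Perm (Fin m)} {K : ℕ}

variable {g : ℂ → Fin m → ℂ} {ε' : ℝ}

/-! ### auxiliary lemmas -/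

theorem nex2_im_large (b : ℝ) : ∀ᶠ ζ in strip, b ≤ ζ.im := by
  apply Filter.Eventually.filter_mono (inf_le_left)
  exact (Filter.eventually_ge_atTop b).comap _

theorem nex2_small (E : ℕ) (B : ℝ) {η : ℝ} (hη : 0 < η) :
    ∀ᶠ ζ in strip, (B * (‖qq ζ‖ * ζ.im ^ E)) ^ 2 ≤ η := by
  have h1 : Tendsto (fun ζ => (B * (‖qq ζ‖ * ζ.im ^ E)) ^ 2) strip (𝓝 0) := by
    have := ((tendsto_qq_mul_pow E).const_mul B).pow 2
    simpa using this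
  exact (h1.eventually (gt_mem_nhds hη)).mono fun ζ hζ => le_of_lt hζ

theorem nex2_mat_bound {A : ℂ → Matrix (Fin m) (Fin m) ℂ}
    (hA : ∀ i j, ContinuousAt (fun q => A q i j) 0) :
    ∃ B : ℝ, 0 < B ∧ ∀ᶠ q in 𝓝 (0 : ℂ), ∀ v : Fin m → ℂ, ‖A q *ᵥ v‖ ≤ B * ‖v‖ := by
  have hc : ContinuousAt (fun q => ∑ i, ∑ j, ‖A q i j‖) 0 :=
    tendsto_finsetSum _ fun i _ => tendsto_finsetSum _ fun j _ => (hA i j).norm
  refine ⟨(∑ i, ∑ j, ‖A 0 i j‖) + 1, by positivity, ?_⟩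
  have h1 : ∀ᶠ q in 𝓝 (0 : ℂ), (∑ i, ∑ j, ‖A q i j‖) < (∑ i, ∑ j, ‖A 0 i j‖) + 1 :=
    hc.eventually (gt_mem_nhds (by linarith))
  filter_upwards [h1] with q hq v
  refine le_trans ?_ (mul_le_mul_of_nonneg_right hq.le (norm_nonneg v))
  rw [pi_norm_le_iff_of_nonneg (by positivity)]
  intro i
  calc ‖(A q *ᵥ v) i‖ = ‖∑ j, A q i j * v j‖ := rfl
    _ ≤ ∑ j, ‖A q i j * v j‖ := norm_sum_le _ _
    _ ≤ ∑ j, ‖A q i j‖ * ‖v‖ := Finset.sum_le_sum fun j _ => by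
        rw [norm_mul]
        exact mul_le_mul_of_nonneg_left (norm_le_pi_norm v j) (norm_nonneg _)
    _ = (∑ j, ‖A q i j‖) * ‖v‖ := by rw [Finset.sum_mul]
    _ ≤ (∑ i, ∑ j, ‖A q i j‖) * ‖v‖ := by
        apply mul_le_mul_of_nonneg_right _ (norm_nonneg v)
        exact Finset.single_le_sum (f := fun i => ∑ j, ‖A q i j‖)
          (fun i _ => Finset.sum_nonneg fun j _ => norm_nonneg _) (Finset.mem_univ i)

theorem nex2_vec_bound {b : ℂ → Fin m → ℂ} (hb : ∀ i, ContinuousAt (fun q => b q i) 0) :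
    ∃ B : ℝ, 0 < B ∧ ∀ᶠ q in 𝓝 (0 : ℂ), ‖b q‖ ≤ B := by
  have hc : ContinuousAt (fun q => ‖b q‖) 0 := (continuousAt_pi.mpr hb).norm
  refine ⟨‖b 0‖ + 1, by positivity, ?_⟩
  exact (hc.eventually (gt_mem_nhds (by linarith))).mono fun q hq => le_of_lt hq

theorem nex2_cont {f : ℂ → ℂ} {r : ℝ} (hr : 0 < r) (hf : DifferentiableOn ℂ f (Metric.ball 0 r)) :
    ContinuousAt f 0 :=
  (hf.differentiableAt (Metric.ball_mem_nhds 0 hr)).continuousAt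

theorem nex2_cont_deriv {f : ℂ → ℂ} {r : ℝ} (hr : 0 < r)
    (hf : DifferentiableOn ℂ f (Metric.ball 0 r)) : ContinuousAt (fun q => deriv f q) 0 :=
  nex2_cont hr (hf.deriv Metric.isOpen_ball)

theorem HD.nex2_Plt_idem {P : ℤ → Matrix (Fin m) (Fin m) ℂ} (h : HD w K Q P) (c : ℤ) :
    Plt K P c * Plt K P c = Plt K P c := by
  conv_lhs => rw [Plt, Finset.sum_mul]
  rw [Plt]
  refine Finset.sum_congr rfl fun a ha => ?_
  have := h.P_mul_Plt a c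
  rw [if_pos (Finset.mem_Ico.mp ha).2] at this
  exact this

/-- decomposition of `u = G g` -/
theorem nex2_decomp {G : Matrix (Fin m) (Fin m) ℂ} (h : IsPHS w p Q G)
    (hs : ∀ j, p (s j) = w - p j) (hK : ∀ j, |p j| ≤ K) {g : Fin m → ℂ}
    (hsupp : ∀ j, 0 ≤ p j → g j = 0) :
    ∃ c : Fin m → ℂ, (∀ j, p j < 0 → c j = 0) ∧
      Plt K (PP p s G) 0 *ᵥ (G *ᵥ g) = G *ᵥ (g - c) ∧ ‖g‖ ≤ ‖g - c‖ ∧ ‖c‖ ≤ ‖g - c‖ := by
  have hd := h.hd hs hK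
  have h1 : G *ᵥ g - Plt K (PP p s G) 0 *ᵥ (G *ᵥ g) ∈ Fil p G 0 := by
    rw [h.mem_Fil_iff_Plt hs hK, Matrix.mulVec_sub]
    generalize G *ᵥ g = x
    rw [Matrix.mulVec_mulVec, hd.nex2_Plt_idem, sub_self]
  obtain ⟨c, hc, hc'⟩ := (mem_Fil h.unit 0 _).mp h1
  refine ⟨c, hc, ?_, ?_, ?_⟩
  · rw [Matrix.mulVec_sub, ← hc']
    abel
  · rw [pi_norm_le_iff_of_nonneg (norm_nonneg _)]
    intro j
    by_cases hj : 0 ≤ p j
    · rw [hsupp j hj, norm_zero]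
      exact norm_nonneg _
    · have : g j = (g - c) j := by rw [Pi.sub_apply, hc j (not_le.mp hj), sub_zero]
      rw [this]
      exact norm_le_pi_norm _ j
  · rw [pi_norm_le_iff_of_nonneg (norm_nonneg _)]
    intro j
    by_cases hj : 0 ≤ p j
    · have : c j = -(g - c) j := by rw [Pi.sub_apply, hsupp j hj]; ring
      rw [this, norm_neg]
      exact norm_le_pi_norm _ j
    · rw [hc j (not_le.mp hj), norm_zero]
      exact norm_nonneg _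

/-- lower bound for the part of negative index of `u = G g` -/
theorem CuspData.lower (h : CuspData w p Q N Ψ β ε) (hs : ∀ j, p (s j) = w - p j)
    (hK : ∀ j, |p j| ≤ K) (h0 : 0 < ε') (hε' : ε' ≤ ε)
    (hg : ∀ i, DifferentiableOn ℂ (fun q => g q i) (Metric.ball 0 ε')) (hg0 : g 0 ≠ 0)
    (hsupp : ∀ q j, 0 ≤ p j → g q j = 0) :
    ∃ C : ℕ, ∀ᶠ ζ in strip,
      1 ≤ ζ.im ^ C * qf (metr w K Q (PP p s (GG N Ψ ζ)))
        (Plt K (PP p s (GG N Ψ ζ)) 0 *ᵥ (GG N Ψ ζ *ᵥ g (qq ζ))) := by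
  obtain ⟨C, hC⟩ := h.exists_GG_le
  obtain ⟨C', hC'⟩ := h.exists_compare hs hK
  have hc0 : 0 < ‖g 0‖ := norm_pos_iff.mpr hg0
  have hcont : ContinuousAt (fun q => ‖g q‖) 0 :=
    (continuousAt_pi.mpr fun i => nex2_cont h0 (hg i)).norm
  have hg1 : ∀ᶠ ζ in strip, ‖g 0‖ / 2 < ‖g (qq ζ)‖ :=
    tendsto_qq.eventually (hcont.eventually (lt_mem_nhds (by linarith)))
  refine ⟨2 * C + C' + 1, ?_⟩
  filter_upwards [hC, hC', hg1, nex2_im_large 1, nex2_im_large ((2 / ‖g 0‖) ^ 2), h.eventually]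
    with ζ h1 h2 h3 h4 h5 h6
  have hphs := h.phs ζ h6
  have hd := hphs.hd hs hK
  obtain ⟨c, hc, e1, e2, e3⟩ := nex2_decomp hphs hs hK (g := g (qq ζ)) (hsupp (qq ζ))
  rw [e1]
  set A := qf (metr w K Q (PP p s (GG N Ψ ζ))) (GG N Ψ ζ *ᵥ (g (qq ζ) - c)) with hA
  have hA0 : 0 ≤ A := qf_nonneg hd.posDef _
  have k1 := (h1 (g (qq ζ) - c)).2
  have k2 := (h2 (GG N Ψ ζ *ᵥ (g (qq ζ) - c))).2
  have him : (0 : ℝ) ≤ ζ.im := by linarith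
  have k3 : (‖g 0‖ / 2) ^ 2 ≤ ζ.im ^ (2 * C + C') * A := by
    calc (‖g 0‖ / 2) ^ 2 ≤ ‖g (qq ζ)‖ ^ 2 := pow_le_pow_left₀ (by positivity) h3.le 2
      _ ≤ ‖g (qq ζ) - c‖ ^ 2 := pow_le_pow_left₀ (norm_nonneg _) e2 2
      _ ≤ (ζ.im ^ C * ‖GG N Ψ ζ *ᵥ (g (qq ζ) - c)‖) ^ 2 := pow_le_pow_left₀ (norm_nonneg _) k1 2
      _ = ζ.im ^ (2 * C) * ‖GG N Ψ ζ *ᵥ (g (qq ζ) - c)‖ ^ 2 := by
          rw [mul_pow, ← pow_mul, mul_comm C 2]
      _ ≤ ζ.im ^ (2 * C) * (ζ.im ^ C' * A) :=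
          mul_le_mul_of_nonneg_left k2 (by positivity)
      _ = ζ.im ^ (2 * C + C') * A := by rw [pow_add]; ring
  calc (1 : ℝ) = (2 / ‖g 0‖) ^ 2 * (‖g 0‖ / 2) ^ 2 := by
        field_simp
    _ ≤ ζ.im * (ζ.im ^ (2 * C + C') * A) := by
        apply mul_le_mul h5 k3 (by positivity) him
    _ = ζ.im ^ (2 * C + C' + 1) * A := by rw [pow_succ]; ring

theorem nex2_final {M : Matrix (Fin m) (Fin m) ℂ} (hM : M.PosDef) {A η k : ℝ} (hA : 0 ≤ A)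
    (hη : 0 < η) (hk : 1 ≤ k) {x a b c : Fin m → ℂ} {κ : ℂ} (hκ : ‖κ‖ = k)
    (hx : κ • x = a + b + c) (ha : qf M a ≤ η / 9 * A) (hb : qf M b ≤ η / 9 * A)
    (hc : qf M c ≤ η / 9 * A) : qf M x ≤ η * A := by
  have h1 : √(qf M (κ • x)) ≤ √(qf M a) + √(qf M b) + √(qf M c) := by
    rw [hx]
    exact (sqrt_qf_add hM _ _).trans (add_le_add (sqrt_qf_add hM _ _) le_rfl)
  have h2 : √(η / 9 * A) = √(η * A) / 3 := by
    rw [show η / 9 * A = (η * A) / 3 ^ 2 by ring, Real.sqrt_div' _ (by positivity),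
      Real.sqrt_sq (by norm_num)]
  have h3 : √(qf M (κ • x)) ≤ √(η * A) := by
    refine h1.trans ?_
    have i1 := Real.sqrt_le_sqrt ha
    have i2 := Real.sqrt_le_sqrt hb
    have i3 := Real.sqrt_le_sqrt hc
    rw [h2] at i1 i2 i3
    linarith
  have h4 : qf M (κ • x) ≤ η * A := by
    rwa [Real.sqrt_le_sqrt_iff (by positivity)] at h3
  rw [qf_smul, hκ] at h4
  have h5 := qf_nonneg hM x
  exact (le_mul_of_one_le_left h5 (one_le_pow₀ hk)).trans h4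

/-- the part of index `≤ -2` of `u = G g` is negligible -/
theorem CuspData.negligible (h : CuspData w p Q N Ψ β ε) (hs : ∀ j, p (s j) = w - p j)
    (hK : ∀ j, |p j| ≤ K) (h0 : 0 < ε') (hε' : ε' ≤ ε)
    (hg : ∀ i, DifferentiableOn ℂ (fun q => g q i) (Metric.ball 0 ε')) (hg0 : g 0 ≠ 0)
    (hsupp : ∀ q j, 0 ≤ p j → g q j = 0) {k : ℕ} (hk : 0 < k) {e : Fin m → ℝ}
    (he : cm (hb N) *ᵥ ofR e + ofR (n0 N) = 0)
    (hβ : ∀ q ∈ Metric.ball (0 : ℂ) ε', β q - ofR e - q ^ k • (Ψ q *ᵥ g q) ∈ Fil p (Ψ q) 0)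
    {η : ℝ} (hη : 0 < η) :
    ∀ᶠ ζ in strip,
      qf (metr w K Q (PP p s (GG N Ψ ζ)))
        (Plt K (PP p s (GG N Ψ ζ)) (-1) *ᵥ (GG N Ψ ζ *ᵥ g (qq ζ))) ≤
      η * qf (metr w K Q (PP p s (GG N Ψ ζ)))
        (Plt K (PP p s (GG N Ψ ζ)) 0 *ᵥ (GG N Ψ ζ *ᵥ g (qq ζ))) := by
  obtain ⟨C, hC⟩ := h.exists_GG_le
  obtain ⟨C', hC'⟩ := h.exists_compare hs hK
  obtain ⟨C1, hC1⟩ := exists_eH_le h.nil h.row
  obtain ⟨C2, hC2⟩ := h.lower hs hK h0 hε' hg hg0 hsupp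
  obtain ⟨B1, hB1, hΨ'⟩ := nex2_mat_bound
    (A := fun q => Matrix.of fun i j => deriv (fun q => Ψ q i j) q)
    (fun i j => nex2_cont_deriv h.eps (h.holP i j))
  obtain ⟨B2, hB2, hΨ⟩ := nex2_mat_bound (A := Ψ) (fun i j => nex2_cont h.eps (h.holP i j))
  obtain ⟨B3, hB3, hgb⟩ := nex2_vec_bound (b := g) (fun i => nex2_cont h0 (hg i))
  obtain ⟨B4, hB4, hgd⟩ := nex2_vec_bound (b := fun q i => deriv (fun q => g q i) q)
    (fun i => nex2_cont_deriv h0 (hg i))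
  have hqε : ∀ᶠ ζ in strip, ‖qq ζ‖ < ε' := by
    have := tendsto_qq.norm
    rw [norm_zero] at this
    exact this.eventually (gt_mem_nhds h0)
  have hη9 : 0 < η / 9 := by positivity
  have hN := (h.tendsto_hs hs hK).eventually (gt_mem_nhds hη9)
  filter_upwards [hC, hC', hC1, hC2, tendsto_qq.eventually hΨ', tendsto_qq.eventually hΨ,
    tendsto_qq.eventually hgb, tendsto_qq.eventually hgd, hqε, hN, nex2_im_large 1,
    nex2_small (C' + C1 + C2) (2 * Real.pi * (B1 * B3 + B2 * B4)) hη9,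
    nex2_small (C + C' + C1) (2 * Real.pi * B1) hη9]
    with ζ h1 h2 h3 h4 h5 h6 h7 h8 h9 h10 h11 h12 h13
  have h9' : ‖qq ζ‖ < ε := lt_of_lt_of_le h9 hε'
  have hphs := h.phs ζ h9'
  have hd := hphs.hd hs hK
  obtain ⟨c, hc, e1, e2, e3⟩ := nex2_decomp hphs hs hK (g := g (qq ζ)) (hsupp (qq ζ))
  have hstar := h.star he hε' hg hβ h9
  have hNF := h.N_Fil h9' hc
  set G := GG N Ψ ζ with hG
  set M := metr w K Q (PP p s G) with hM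
  have hMp : M.PosDef := hd.posDef
  set u := G *ᵥ g (qq ζ) with hu
  set A := qf M (Plt K (PP p s G) 0 *ᵥ u) with hA
  have hA0 : 0 ≤ A := qf_nonneg hMp _
  set D := Matrix.of fun i j => deriv (fun q => Ψ q i j) (qq ζ) with hD
  set sm1 := (2 * Real.pi * I * qq ζ) • (eH N ζ *ᵥ (D *ᵥ g (qq ζ) +
          Ψ (qq ζ) *ᵥ fun i => deriv (fun q => g q i) (qq ζ))) with hsm1
  set sm2 := (2 * Real.pi * I * qq ζ) • (eH N ζ *ᵥ (D *ᵥ c)) with hsm2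
  have him : (0 : ℝ) ≤ ζ.im := by linarith
  rw [hphs.mem_Fil_iff_Plt hs hK] at hstar hNF
  -- decomposition of `u`
  have hu' : u = Plt K (PP p s G) 0 *ᵥ u + G *ᵥ c := by
    rw [e1, Matrix.mulVec_sub]
    abel
  -- the identity
  have hid : (2 * Real.pi * I * k) • (Plt K (PP p s G) (-1) *ᵥ u) =
      -(Plt K (PP p s G) (-1) *ᵥ (cm (hb N) *ᵥ (Plt K (PP p s G) 0 *ᵥ u))) +
      Plt K (PP p s G) (-1) *ᵥ sm2 + -(Plt K (PP p s G) (-1) *ᵥ sm1) := by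
    have hNu : cm (hb N) *ᵥ u = cm (hb N) *ᵥ (Plt K (PP p s G) 0 *ᵥ u) +
        cm (hb N) *ᵥ (G *ᵥ c) := by
      conv_lhs => rw [hu']
      rw [Matrix.mulVec_add]
    rw [hNu] at hstar
    simp only [Matrix.mulVec_add, Matrix.mulVec_smul] at hstar hNF ⊢
    have t1 : Plt K (PP p s G) (-1) *ᵥ (cm (hb N) *ᵥ (G *ᵥ c)) =
        -(Plt K (PP p s G) (-1) *ᵥ sm2) := eq_neg_of_add_eq_zero_left hNF
    rw [t1] at hstar
    have t2 := hstar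
    rw [← sub_eq_zero]
    rw [← t2]
    simp only [hsm1, Matrix.mulVec_add, Matrix.mulVec_smul]
    abel
  -- estimates
  have hnq : ‖(2 * Real.pi * I * qq ζ : ℂ)‖ = 2 * Real.pi * ‖qq ζ‖ := by
    rw [norm_mul, norm_mul, norm_mul, Complex.norm_I, Complex.norm_real,
      Real.norm_of_nonneg Real.pi_pos.le]
    norm_num
  have est1 : qf M (-(Plt K (PP p s G) (-1) *ᵥ (cm (hb N) *ᵥ (Plt K (PP p s G) 0 *ᵥ u)))) ≤
      η / 9 * A := by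
    have t1 : qf M (-(Plt K (PP p s G) (-1) *ᵥ (cm (hb N) *ᵥ (Plt K (PP p s G) 0 *ᵥ u)))) =
        qf M (Plt K (PP p s G) (-1) *ᵥ (cm (hb N) *ᵥ (Plt K (PP p s G) 0 *ᵥ u))) := by
      have := qf_smul (M := M) (-1)
        (Plt K (PP p s G) (-1) *ᵥ (cm (hb N) *ᵥ (Plt K (PP p s G) 0 *ᵥ u)))
      simpa using this
    rw [t1]
    refine (hd.qf_Plt_le _ _).trans ((qf_mulVec_le hMp _ _).trans ?_)
    exact mul_le_mul_of_nonneg_right h10.le hA0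
  have est2 : qf M (Plt K (PP p s G) (-1) *ᵥ sm2) ≤ η / 9 * A := by
    refine (hd.qf_Plt_le _ _).trans ((h2 sm2).1.trans ?_)
    have t1 : ‖c‖ ^ 2 ≤ ζ.im ^ (2 * C + C') * A := by
      calc ‖c‖ ^ 2 ≤ ‖g (qq ζ) - c‖ ^ 2 := pow_le_pow_left₀ (norm_nonneg _) e3 2
        _ ≤ (ζ.im ^ C * ‖G *ᵥ (g (qq ζ) - c)‖) ^ 2 :=
            pow_le_pow_left₀ (norm_nonneg _) (h1 _).2 2
        _ = ζ.im ^ (2 * C) * ‖G *ᵥ (g (qq ζ) - c)‖ ^ 2 := by
            rw [mul_pow, ← pow_mul, mul_comm C 2]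
        _ ≤ ζ.im ^ (2 * C) * (ζ.im ^ C' * A) := by
            apply mul_le_mul_of_nonneg_left _ (by positivity)
            rw [hA, e1]
            exact (h2 _).2
        _ = ζ.im ^ (2 * C + C') * A := by rw [pow_add]; ring
    have t2 : ‖sm2‖ ≤ 2 * Real.pi * ‖qq ζ‖ * (ζ.im ^ C1 * (B1 * ‖c‖)) := by
      rw [hsm2, norm_smul, hnq]
      apply mul_le_mul_of_nonneg_left _ (by positivity)
      exact ((h3 _).1).trans (mul_le_mul_of_nonneg_left (h5 c) (by positivity))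
    calc ζ.im ^ C' * ‖sm2‖ ^ 2 ≤
          ζ.im ^ C' * (2 * Real.pi * ‖qq ζ‖ * (ζ.im ^ C1 * (B1 * ‖c‖))) ^ 2 := by
            apply mul_le_mul_of_nonneg_left _ (by positivity)
            exact pow_le_pow_left₀ (norm_nonneg _) t2 2
      _ = ζ.im ^ C' * (2 * Real.pi * B1 * ‖qq ζ‖ * ζ.im ^ C1) ^ 2 * ‖c‖ ^ 2 := by ring
      _ ≤ ζ.im ^ C' * (2 * Real.pi * B1 * ‖qq ζ‖ * ζ.im ^ C1) ^ 2 *
            (ζ.im ^ (2 * C + C') * A) :=
            mul_le_mul_of_nonneg_left t1 (by positivity)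
      _ = (2 * Real.pi * B1 * (‖qq ζ‖ * ζ.im ^ (C + C' + C1))) ^ 2 * A := by
            rw [pow_add, pow_add, pow_add, pow_mul]
            ring
      _ ≤ η / 9 * A := mul_le_mul_of_nonneg_right h13 hA0
  have est3 : qf M (-(Plt K (PP p s G) (-1) *ᵥ sm1)) ≤ η / 9 * A := by
    have t0 : qf M (-(Plt K (PP p s G) (-1) *ᵥ sm1)) = qf M (Plt K (PP p s G) (-1) *ᵥ sm1) := by
      have := qf_smul (M := M) (-1) (Plt K (PP p s G) (-1) *ᵥ sm1)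
      simpa using this
    rw [t0]
    refine (hd.qf_Plt_le _ _).trans ((h2 sm1).1.trans ?_)
    have t1 : ‖D *ᵥ g (qq ζ) + Ψ (qq ζ) *ᵥ fun i => deriv (fun q => g q i) (qq ζ)‖ ≤
        B1 * B3 + B2 * B4 := by
      refine (norm_add_le _ _).trans (add_le_add ?_ ?_)
      · exact (h5 _).trans (mul_le_mul_of_nonneg_left h7 hB1.le)
      · exact (h6 _).trans (mul_le_mul_of_nonneg_left h8 hB2.le)
    have t2 : ‖sm1‖ ≤ 2 * Real.pi * ‖qq ζ‖ * (ζ.im ^ C1 * (B1 * B3 + B2 * B4)) := by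
      rw [hsm1, norm_smul, hnq]
      apply mul_le_mul_of_nonneg_left _ (by positivity)
      exact ((h3 _).1).trans (mul_le_mul_of_nonneg_left t1 (by positivity))
    have t3 : (1 : ℝ) ≤ ζ.im ^ C' * ζ.im ^ C2 := by
      have i1 : (1 : ℝ) ≤ ζ.im ^ C' := one_le_pow₀ h11
      have i2 : (1 : ℝ) ≤ ζ.im ^ C2 := one_le_pow₀ h11
      nlinarith
    calc ζ.im ^ C' * ‖sm1‖ ^ 2 ≤
          ζ.im ^ C' * (2 * Real.pi * ‖qq ζ‖ * (ζ.im ^ C1 * (B1 * B3 + B2 * B4))) ^ 2 := by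
            apply mul_le_mul_of_nonneg_left _ (by positivity)
            exact pow_le_pow_left₀ (norm_nonneg _) t2 2
      _ = ζ.im ^ C' * (2 * Real.pi * (B1 * B3 + B2 * B4) * ‖qq ζ‖ * ζ.im ^ C1) ^ 2 * 1 := by ring
      _ ≤ ζ.im ^ C' * (2 * Real.pi * (B1 * B3 + B2 * B4) * ‖qq ζ‖ * ζ.im ^ C1) ^ 2 *
            ((ζ.im ^ C' * ζ.im ^ C2) * (ζ.im ^ C2 * A)) := by
            apply mul_le_mul_of_nonneg_left _ (by positivity)
            calc (1 : ℝ) = 1 * 1 := by ring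
              _ ≤ (ζ.im ^ C' * ζ.im ^ C2) * (ζ.im ^ C2 * A) :=
                  mul_le_mul t3 h4 zero_le_one (by positivity)
      _ = (2 * Real.pi * (B1 * B3 + B2 * B4) * (‖qq ζ‖ * ζ.im ^ (C' + C1 + C2))) ^ 2 * A := by
            rw [pow_add, pow_add]
            ring
      _ ≤ η / 9 * A := mul_le_mul_of_nonneg_right h12 hA0
  have hk1 : (1 : ℝ) ≤ 2 * Real.pi * k := by
    have i1 : (1 : ℝ) ≤ k := by exact_mod_cast hk
    have i2 := Real.pi_gt_three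
    nlinarith
  refine nex2_final hMp hA0 hη hk1 (κ := 2 * Real.pi * I * k) ?_ hid est1 est2 est3
  rw [norm_mul, norm_mul, norm_mul, Complex.norm_I, Complex.norm_real,
      Real.norm_of_nonneg Real.pi_pos.le, Complex.norm_natCast]
  norm_num

end SP38
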