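import Pool.Agent.LibSP38.Lim3
import Pool.Agent.LibSP38.Nex2

open Matrix Complex Filter Topology
open scoped ComplexOrder ContDiff

namespace SP38

variable {m : ℕ} {w : ℤ} {p : Fin m → ℤ} {Q : Matrix (Fin m) (Fin m) ℝ}
  {N : Matrix (Fin m ⊕ Unit) (Fin m ⊕ Unit) ℝ} {Ψ : ℂ → Matrix (Fin m) (Fin m) ℂ}
  {β : ℂ → Fin m → ℂ} {ε : ℝ} {s : Equiv.Perm (Fin m)} {K : ℕ}

theorem nex3_Fil_mul {E A : Matrix (Fin m) (Fin m) ℂ} {a : ℤ} {v : Fin m → ℂ}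
    (hv : v ∈ Fil p A a) : E *ᵥ v ∈ Fil p (E * A) a := by
  obtain ⟨c, hc, rfl⟩ := (proj1_mem_Fil a v).mp hv
  rw [proj1_mem_Fil]
  exact ⟨c, hc, by rw [Matrix.mulVec_mulVec]⟩

theorem nex3_exists_K (p : Fin m → ℤ) : ∃ K : ℕ, ∀ j, |p j| ≤ K := by
  refine ⟨∑ j, (p j).natAbs, fun j => ?_⟩
  rw [Int.abs_eq_natAbs]
  exact_mod_cast Finset.single_le_sum (f := fun j => (p j).natAbs) (fun _ _ => Nat.zero_le _)
    (Finset.mem_univ j)

theorem HD.nex3_Plt_Plt {P : ℤ → Matrix (Fin m) (Fin m) ℂ} (h : HD w K Q P) {a b : ℤ}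
    (hab : a ≤ b) : Plt K P a * Plt K P b = Plt K P a := by
  conv_lhs => rw [Plt, Finset.sum_mul]
  conv_rhs => rw [Plt]
  refine Finset.sum_congr rfl fun c hc => ?_
  have := h.P_mul_Plt c b
  rw [if_pos (lt_of_lt_of_le (Finset.mem_Ico.mp hc).2 hab)] at this
  exact this

theorem CuspData.key (h : CuspData w p Q N Ψ β ε) (hs : ∀ j, p (s j) = w - p j)
    (hns : ∀ j, p j < -1 ∨ w - p j < -1) {e : Fin m → ℝ}
    (he : cm (hb N) *ᵥ ofR e + ofR (n0 N) = 0) (he' : β 0 - ofR e ∈ Fil p (Ψ 0) 0)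
    (hfr : ∃ᶠ ζ in strip, ∃ r : Fin m → ℝ, VV N β ζ - ofR r ∈ Fil p (GG N Ψ ζ) 0) :
    ∀ᶠ q in 𝓝 (0 : ℂ), β q - ofR e ∈ Fil p (Ψ q) 0 := by
  obtain ⟨K, hK⟩ := nex3_exists_K p
  rcases exists_leading_term h.eps h.holP h.holb h.unit he' with h1 | h1
  · exact h1
  exfalso
  obtain ⟨k, g, ε', hk, h0, hε', hg, hg0, hsupp, hβ⟩ := h1
  obtain ⟨C, hC⟩ := h.lower hs hK h0 hε' hg hg0 hsupp
  have hneg := h.negligible hs hK h0 hε' hg hg0 hsupp hk he hβ (η := 1 / 4) (by norm_num)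
  have hqε : ∀ᶠ ζ in strip, ‖qq ζ‖ < ε' := by
    have := tendsto_qq.norm
    rw [norm_zero] at this
    exact this.eventually (gt_mem_nhds h0)
  have hall := hC.and (hneg.and hqε)
  obtain ⟨ζ, ⟨r, hr⟩, h2, h3, h4⟩ := (hfr.and_eventually hall).exists
  have h4' : ‖qq ζ‖ < ε := lt_of_lt_of_le h4 hε'
  have hphs := h.phs ζ h4'
  have hd := hphs.hd hs hK
  set G := GG N Ψ ζ with hG
  set M := metr w K Q (PP p s G) with hM
  set u := G *ᵥ g (qq ζ) with hu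
  -- `ρ = r - e`
  have hρ : ofR r - ofR e - (qq ζ) ^ k • u ∈ Fil p G 0 := by
    have t1 : VV N β ζ - ofR e - (qq ζ) ^ k • u ∈ Fil p G 0 := by
      have t2 := hβ (qq ζ) (by rw [mem_ball_zero_iff]; exact h4)
      have t3 := nex3_Fil_mul (E := eH N ζ) t2
      have t4 : eH N ζ *ᵥ (β (qq ζ) - ofR e - qq ζ ^ k • (Ψ (qq ζ) *ᵥ g (qq ζ))) =
          VV N β ζ - ofR e - (qq ζ) ^ k • u := by
        rw [VV_of_fixed h.nil h.row he, Matrix.mulVec_sub, Matrix.mulVec_smul,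
          Matrix.mulVec_mulVec, hu, hG, GG]
        abel
      rw [t4] at t3
      exact t3
    have t5 : ofR r - ofR e - (qq ζ) ^ k • u =
        (VV N β ζ - ofR e - (qq ζ) ^ k • u) - (VV N β ζ - ofR r) := by abel
    rw [t5]
    exact Submodule.sub_mem _ t1 hr
  have hρr : ofR r - ofR e = ofR (r - e) := by
    funext i; simp [ofR]
  rw [hρr] at hρ
  have p0 : Plt K (PP p s G) 0 *ᵥ ofR (r - e) = (qq ζ) ^ k • (Plt K (PP p s G) 0 *ᵥ u) := by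
    have t1 := (hphs.mem_Fil_iff_Plt hs hK 0 _).mp hρ
    rw [Matrix.mulVec_sub, Matrix.mulVec_smul] at t1
    exact sub_eq_zero.mp t1
  have p1 : Plt K (PP p s G) (-1) *ᵥ ofR (r - e) =
      (qq ζ) ^ k • (Plt K (PP p s G) (-1) *ᵥ u) := by
    have t1 := (hphs.mem_Fil_iff_Plt hs hK (-1) _).mp (Fil_anti G (by norm_num) hρ)
    rw [Matrix.mulVec_sub, Matrix.mulVec_smul] at t1
    exact sub_eq_zero.mp t1
  have hkey := hd.qf_real_Plt (by
    intro hne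
    by_cases hex : ∃ j, p j = -1
    · obtain ⟨j, hj⟩ := hex
      rcases hns j with h5 | h5
      · omega
      · omega
    · exact absurd (PP_eq_zero G (fun j hj => hex ⟨j, hj⟩)) hne) (r - e)
  rw [p0, p1, qf_smul, qf_smul] at hkey
  set A := qf M (Plt K (PP p s G) 0 *ᵥ u) with hA
  set B := qf M (Plt K (PP p s G) (-1) *ᵥ u) with hB
  have hA0 : 0 ≤ A := qf_nonneg hd.posDef _
  have hqpos : 0 < ‖qq ζ ^ k‖ ^ 2 := by
    have : qq ζ ≠ 0 := Complex.exp_ne_zero _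
    have h5 := norm_pos_iff.mpr (pow_ne_zero k this)
    positivity
  have h6 : A ≤ 2 * B := by
    have : ‖qq ζ ^ k‖ ^ 2 * A ≤ ‖qq ζ ^ k‖ ^ 2 * (2 * B) := by linarith
    exact le_of_mul_le_mul_left this hqpos
  have h7 : A ≤ 0 := by linarith
  have h8 : A = 0 := le_antisymm h7 hA0
  rw [h8, mul_zero] at h2
  linarith

/-- the local theorem at a cusp (or, for `N = 0`, at an interior point) -/
theorem CuspData.main (h : CuspData w p Q N Ψ β ε) (hs : ∀ j, p (s j) = w - p j)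
    (hns : ∀ j, p j < -1 ∨ w - p j < -1)
    (hfr : ∃ᶠ ζ in strip, ∃ r : Fin m → ℝ, VV N β ζ - ofR r ∈ Fil p (GG N Ψ ζ) 0) :
    ∃ (e : Fin m → ℝ) (c : ℝ), ∀ ζ : ℂ, c < ζ.im → VV N β ζ - ofR e ∈ Fil p (GG N Ψ ζ) 0 := by
  obtain ⟨e, he, he'⟩ := h.exists_leading hs hns hfr
  have h1 := h.key hs hns he he' hfr
  rw [Metric.eventually_nhds_iff] at h1
  obtain ⟨δ, hδ, h2⟩ := h1
  -- `‖qq ζ‖ < δ` for large imaginary part
  refine ⟨e, -Real.log δ / (2 * Real.pi), fun ζ hζ => ?_⟩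
  have h3 : ‖qq ζ‖ < δ := by
    rw [norm_qq, ← Real.lt_log_iff_exp_lt hδ]
    rw [div_lt_iff₀ (by positivity)] at hζ
    nlinarith
  have h4 := h2 (y := qq ζ) (by rw [dist_zero_right]; exact h3)
  have h5 := nex3_Fil_mul (E := eH N ζ) h4
  rw [VV_of_fixed h.nil h.row he]
  have h6 : ofR e + eH N ζ *ᵥ (β (qq ζ) - ofR e) - ofR e = eH N ζ *ᵥ (β (qq ζ) - ofR e) := by
    abel
  rw [h6]
  exact h5

end SP38
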