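import Pool.Agent.LibSP38.HD1

open Matrix Complex
open scoped ComplexOrder

namespace SP38

variable {m : ℕ}

/-- columns of `G` of index `≥ k` completed by columns of the conjugate of `G` -/
noncomputable def AA (p : Fin m → ℤ) (s : Equiv.Perm (Fin m)) (k : ℤ)
    (G : Matrix (Fin m) (Fin m) ℂ) : Matrix (Fin m) (Fin m) ℂ :=
  Matrix.of fun i j => if k ≤ p j then G i j else (starRingEnd ℂ) (G i (s j))

/-- the diagonal idempotent of index `≥ k` -/
noncomputable def EE (p : Fin m → ℤ) (k : ℤ) : Matrix (Fin m) (Fin m) ℂ :=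
  Matrix.diagonal fun j => if k ≤ p j then 1 else 0

/-- the projector onto `F^k` along the conjugate of `F^{w+1-k}` -/
noncomputable def PI (p : Fin m → ℤ) (s : Equiv.Perm (Fin m)) (k : ℤ)
    (G : Matrix (Fin m) (Fin m) ℂ) : Matrix (Fin m) (Fin m) ℂ :=
  AA p s k G * EE p k * (AA p s k G)⁻¹

/-- the projector onto `H^{a,w-a}` -/
noncomputable def PP (p : Fin m → ℤ) (s : Equiv.Perm (Fin m)) (G : Matrix (Fin m) (Fin m) ℂ)
    (a : ℤ) : Matrix (Fin m) (Fin m) ℂ :=
  PI p s a G - PI p s (a + 1) G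

variable {w : ℤ} {p : Fin m → ℤ} {s : Equiv.Perm (Fin m)} {Q : Matrix (Fin m) (Fin m) ℝ}
  {G : Matrix (Fin m) (Fin m) ℂ}

theorem proj1_mem_Fil (a : ℤ) (v : Fin m → ℂ) :
    v ∈ Fil p G a ↔ ∃ c : Fin m → ℂ, (∀ j, p j < a → c j = 0) ∧ v = G *ᵥ c := by
  constructor
  · intro hv
    refine Submodule.span_induction (p := fun v _ => ∃ c : Fin m → ℂ,
      (∀ j, p j < a → c j = 0) ∧ v = G *ᵥ c) ?_ ?_ ?_ ?_ hv
    · rintro x ⟨j, hj, rfl⟩
      refine ⟨Pi.single j 1, ?_, ?_⟩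
      · intro i hi
        rw [Pi.single_eq_of_ne]
        rintro rfl
        omega
      · rw [Matrix.mulVec_single_one]
        rfl
    · exact ⟨0, fun _ _ => rfl, by rw [Matrix.mulVec_zero]⟩
    · rintro x y _ _ ⟨c, hc, rfl⟩ ⟨d, hd, rfl⟩
      refine ⟨c + d, ?_, ?_⟩
      · intro j hj
        rw [Pi.add_apply, hc j hj, hd j hj, add_zero]
      · rw [Matrix.mulVec_add]
    · rintro t x _ ⟨c, hc, rfl⟩
      refine ⟨t • c, ?_, ?_⟩
      · intro j hj
        rw [Pi.smul_apply, hc j hj, smul_zero]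
      · rw [Matrix.mulVec_smul]
  · rintro ⟨c, hc, rfl⟩
    rw [Matrix.mulVec_eq_sum]
    apply Submodule.sum_mem
    intro j _
    by_cases hj : p j < a
    · rw [hc j hj]
      simp
    · have : MulOpposite.op (c j) • Gᵀ j = c j • (fun i => G i j) := by
        funext i
        simp [Matrix.transpose_apply, mul_comm]
      rw [this]
      apply Submodule.smul_mem
      exact Submodule.subset_span ⟨j, not_lt.mp hj, rfl⟩

/-- `F^a` in coordinates -/
theorem mem_Fil (hG : IsUnit G) (a : ℤ) (v : Fin m → ℂ) :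
    v ∈ Fil p G a ↔ ∃ c : Fin m → ℂ, (∀ j, p j < a → c j = 0) ∧ v = G *ᵥ c :=
  proj1_mem_Fil a v

theorem proj1_inv {A : Matrix (Fin m) (Fin m) ℂ} (hA : IsUnit A) (v : Fin m → ℂ) :
    A *ᵥ (A⁻¹ *ᵥ v) = v ∧ A⁻¹ *ᵥ (A *ᵥ v) = v := by
  have hdet : IsUnit A.det := (Matrix.isUnit_iff_isUnit_det A).mp hA
  constructor
  · rw [Matrix.mulVec_mulVec, Matrix.mul_nonsing_inv A hdet, Matrix.one_mulVec]
  · rw [Matrix.mulVec_mulVec, Matrix.nonsing_inv_mul A hdet, Matrix.one_mulVec]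

theorem mem_Fil_inv (hG : IsUnit G) (a : ℤ) (v : Fin m → ℂ) :
    v ∈ Fil p G a ↔ ∀ j, p j < a → (G⁻¹ *ᵥ v) j = 0 := by
  rw [proj1_mem_Fil]
  constructor
  · rintro ⟨c, hc, rfl⟩ j hj
    rw [(proj1_inv hG c).2]
    exact hc j hj
  · intro h
    exact ⟨G⁻¹ *ᵥ v, h, ((proj1_inv hG v).1).symm⟩

theorem Fil_anti (G : Matrix (Fin m) (Fin m) ℂ) {a b : ℤ} (h : a ≤ b) : Fil p G b ≤ Fil p G a := by
  apply Submodule.span_mono
  rintro v ⟨j, hj, rfl⟩
  exact ⟨j, h.trans hj, rfl⟩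

/-- membership in the conjugate of `F^{w+1-k}` in coordinates -/
theorem proj1_mem_conj (hs : ∀ j, p (s j) = w - p j) (k : ℤ) (c : Fin m → ℂ)
    (hc : ∀ j, k ≤ p j → c j = 0) :
    cj (AA p s k G *ᵥ c) ∈ Fil p G (w + 1 - k) := by
  rw [proj1_mem_Fil]
  refine ⟨fun i => (starRingEnd ℂ) (c (s.symm i)), ?_, ?_⟩
  · intro i hi
    show (starRingEnd ℂ) (c (s.symm i)) = 0
    rw [hc, map_zero]
    have := hs (s.symm i)
    rw [Equiv.apply_symm_apply] at this
    omega
  · funext i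
    simp only [cj, Matrix.mulVec, dotProduct, map_sum, map_mul]
    rw [← Equiv.sum_comp s (fun j => G i j * (starRingEnd ℂ) (c (s.symm j)))]
    refine Finset.sum_congr rfl fun j _ => ?_
    rw [Equiv.symm_apply_apply]
    by_cases hj : k ≤ p j
    · rw [hc j hj, map_zero, mul_zero, mul_zero]
    · simp only [AA, Matrix.of_apply, if_neg hj, Complex.conj_conj]

theorem proj1_AA_ge (k : ℤ) (c : Fin m → ℂ) (hc : ∀ j, p j < k → c j = 0) :
    AA p s k G *ᵥ c = G *ᵥ c := by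
  funext i
  simp only [Matrix.mulVec, dotProduct]
  refine Finset.sum_congr rfl fun j _ => ?_
  by_cases hj : k ≤ p j
  · simp only [AA, Matrix.of_apply, if_pos hj]
  · rw [hc j (not_le.mp hj), mul_zero, mul_zero]

theorem proj1_conj_exists (hs : ∀ j, p (s j) = w - p j) (k : ℤ) {v : Fin m → ℂ}
    (hv : cj v ∈ Fil p G (w + 1 - k)) :
    ∃ c : Fin m → ℂ, (∀ j, k ≤ p j → c j = 0) ∧ v = AA p s k G *ᵥ c := by
  rw [proj1_mem_Fil] at hv
  obtain ⟨d, hd, hv⟩ := hv
  refine ⟨fun j => (starRingEnd ℂ) (d (s j)), ?_, ?_⟩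
  · intro j hj
    simp only
    rw [hd, map_zero]
    rw [hs]
    omega
  · have : v = cj (G *ᵥ d) := by rw [← hv, hd1_cj_cj]
    rw [this]
    funext i
    simp only [cj, Matrix.mulVec, dotProduct, map_sum, map_mul]
    rw [← Equiv.sum_comp s (fun j => (starRingEnd ℂ) (G i j) * (starRingEnd ℂ) (d j))]
    refine Finset.sum_congr rfl fun j _ => ?_
    by_cases hj : k ≤ p j
    · rw [hd (s j) (by rw [hs]; omega), map_zero, mul_zero, mul_zero]
    · simp only [AA, Matrix.of_apply, if_neg hj]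

/-- `F^k` meets the conjugate of `F^{w+1-k}` in `0` -/
theorem IsPHS.proj1_disj (h : IsPHS w p Q G) (k : ℤ) {v : Fin m → ℂ} (hv : v ∈ Fil p G k)
    (hv' : cj v ∈ Fil p G (w + 1 - k)) : v = 0 := by
  by_contra h0
  have h1 := (h.pos k v hv (Fil_anti G (by omega) hv') h0).1
  rw [h.riem k (w + 1 - k) (by omega) v hv (cj v) hv'] at h1
  simp at h1

theorem IsPHS.isUnit_AA (h : IsPHS w p Q G) (hs : ∀ j, p (s j) = w - p j) (k : ℤ) :
    IsUnit (AA p s k G) := by
  rw [← Matrix.mulVec_injective_iff_isUnit]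
  have key : ∀ c : Fin m → ℂ, AA p s k G *ᵥ c = 0 → c = 0 := by
    intro c hc
    set c1 : Fin m → ℂ := fun j => if k ≤ p j then c j else 0 with hc1
    set c2 : Fin m → ℂ := fun j => if k ≤ p j then 0 else c j with hc2
    have hsum : c = c1 + c2 := by
      funext j
      by_cases hj : k ≤ p j <;> simp [hc1, hc2, hj]
    have e1 : AA p s k G *ᵥ c1 = G *ᵥ c1 := by
      apply proj1_AA_ge
      intro j hj
      simp [hc1, not_le.mpr hj]
    have e2 : cj (AA p s k G *ᵥ c2) ∈ Fil p G (w + 1 - k) := by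
      apply proj1_mem_conj hs
      intro j hj
      simp [hc2, hj]
    have e3 : G *ᵥ c1 = -(AA p s k G *ᵥ c2) := by
      rw [hsum, Matrix.mulVec_add, e1] at hc
      exact eq_neg_of_add_eq_zero_left hc
    have e4 : G *ᵥ c1 = 0 := by
      apply h.proj1_disj k
      · rw [proj1_mem_Fil]
        refine ⟨c1, ?_, rfl⟩
        intro j hj
        simp [hc1, not_le.mpr hj]
      · rw [e3]
        have : cj (-(AA p s k G *ᵥ c2)) = -cj (AA p s k G *ᵥ c2) := by
          funext i; simp [cj]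
        rw [this]
        exact Submodule.neg_mem _ e2
    have e5 : c1 = 0 := by
      have := (proj1_inv h.unit c1).2
      rw [e4, Matrix.mulVec_zero] at this
      exact this.symm
    have e6 : AA p s k G *ᵥ c2 = 0 := by
      rw [e4] at e3
      exact neg_eq_zero.mp e3.symm
    -- the conjugate columns
    have e7 : G *ᵥ (fun i => (starRingEnd ℂ) (c2 (s.symm i))) = 0 := by
      funext i
      have e8 := congrFun e6 i
      simp only [Matrix.mulVec, dotProduct, Pi.zero_apply] at e8 ⊢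
      rw [← Equiv.sum_comp s (fun j => G i j * (starRingEnd ℂ) (c2 (s.symm j)))]
      have e9 := congrArg (starRingEnd ℂ) e8
      rw [map_sum, map_zero] at e9
      rw [← e9]
      refine Finset.sum_congr rfl fun j _ => ?_
      rw [Equiv.symm_apply_apply, map_mul]
      by_cases hj : k ≤ p j
      · simp [hc2, hj]
      · simp only [AA, Matrix.of_apply, if_neg hj, Complex.conj_conj]
    have e10 : (fun i => (starRingEnd ℂ) (c2 (s.symm i))) = 0 := by
      have := (proj1_inv h.unit (fun i => (starRingEnd ℂ) (c2 (s.symm i)))).2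
      rw [e7, Matrix.mulVec_zero] at this
      exact this.symm
    have e11 : c2 = 0 := by
      funext j
      have := congrFun e10 (s j)
      simpa using this
    rw [hsum, e5, e11, add_zero]
  intro x y hxy
  have := key (x - y) (by
    rw [Matrix.mulVec_sub, hxy, sub_self])
  exact sub_eq_zero.mp this

theorem proj1_EE_mulVec (k : ℤ) (c : Fin m → ℂ) :
    EE p k *ᵥ c = fun j => if k ≤ p j then c j else 0 := by
  funext j
  rw [EE, Matrix.mulVec_diagonal]
  by_cases hj : k ≤ p j <;> simp [hj]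

theorem IsPHS.proj1_PI_Fil (h : IsPHS w p Q G) (hs : ∀ j, p (s j) = w - p j) (k : ℤ)
    {v : Fin m → ℂ} (hv : v ∈ Fil p G k) : PI p s k G *ᵥ v = v := by
  obtain ⟨c, hc, rfl⟩ := (proj1_mem_Fil k v).mp hv
  have e1 := proj1_AA_ge (s := s) (G := G) k c hc
  rw [← e1, PI, ← Matrix.mulVec_mulVec, ← Matrix.mulVec_mulVec,
    (proj1_inv (h.isUnit_AA hs k) c).2, proj1_EE_mulVec]
  congr 1
  funext j
  by_cases hj : k ≤ p j
  · simp [hj]
  · simp [hj, hc j (not_le.mp hj)]

theorem IsPHS.proj1_PI_conj (h : IsPHS w p Q G) (hs : ∀ j, p (s j) = w - p j) (k : ℤ)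
    {v : Fin m → ℂ} (hv : cj v ∈ Fil p G (w + 1 - k)) : PI p s k G *ᵥ v = 0 := by
  obtain ⟨c, hc, rfl⟩ := proj1_conj_exists hs k hv
  rw [PI, ← Matrix.mulVec_mulVec, ← Matrix.mulVec_mulVec,
    (proj1_inv (h.isUnit_AA hs k) c).2, proj1_EE_mulVec]
  have : (fun j => if k ≤ p j then c j else 0) = 0 := by
    funext j
    by_cases hj : k ≤ p j
    · simp [hj, hc j hj]
    · simp [hj]
  rw [this, Matrix.mulVec_zero]

theorem IsPHS.proj1_range (h : IsPHS w p Q G) (hs : ∀ j, p (s j) = w - p j) (k : ℤ)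
    (v : Fin m → ℂ) : PI p s k G *ᵥ v ∈ Fil p G k := by
  rw [PI, ← Matrix.mulVec_mulVec, ← Matrix.mulVec_mulVec, proj1_EE_mulVec, proj1_AA_ge,
    proj1_mem_Fil]
  · refine ⟨_, ?_, rfl⟩
    intro j hj
    simp [not_le.mpr hj]
  · intro j hj
    simp [not_le.mpr hj]

theorem IsPHS.proj1_kernel (h : IsPHS w p Q G) (hs : ∀ j, p (s j) = w - p j) (k : ℤ)
    (v : Fin m → ℂ) : cj (v - PI p s k G *ᵥ v) ∈ Fil p G (w + 1 - k) := by
  have e1 : v - PI p s k G *ᵥ v = AA p s k G *ᵥ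
      (fun j => if k ≤ p j then 0 else ((AA p s k G)⁻¹ *ᵥ v) j) := by
    have e2 := (proj1_inv (h.isUnit_AA hs k) v).1
    conv_lhs => rw [← e2]
    rw [PI, ← Matrix.mulVec_mulVec, ← Matrix.mulVec_mulVec, proj1_EE_mulVec,
      (proj1_inv (h.isUnit_AA hs k) _).2, ← Matrix.mulVec_sub]
    congr 1
    funext j
    by_cases hj : k ≤ p j <;> simp [hj]
  rw [e1]
  apply proj1_mem_conj hs
  intro j hj
  simp [hj]

/-- the decomposition characterizes `PI` -/
theorem IsPHS.proj1_unique (h : IsPHS w p Q G) (hs : ∀ j, p (s j) = w - p j) (k : ℤ)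
    {v a b : Fin m → ℂ} (ha : a ∈ Fil p G k) (hb : cj b ∈ Fil p G (w + 1 - k)) (hv : v = a + b) :
    PI p s k G *ᵥ v = a := by
  rw [hv, Matrix.mulVec_add, h.proj1_PI_Fil hs k ha, h.proj1_PI_conj hs k hb, add_zero]

theorem proj1_ext {A B : Matrix (Fin m) (Fin m) ℂ} (h : ∀ v, A *ᵥ v = B *ᵥ v) : A = B :=
  Matrix.ext_of_mulVec_single fun i => h _

theorem IsPHS.PI_mul (h : IsPHS w p Q G) (hs : ∀ j, p (s j) = w - p j) (k l : ℤ) :
    PI p s k G * PI p s l G = PI p s (max k l) G := by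
  apply proj1_ext
  intro v
  rw [← Matrix.mulVec_mulVec]
  rcases le_total k l with hkl | hkl
  · rw [max_eq_right hkl]
    exact h.proj1_PI_Fil hs k (Fil_anti G hkl (h.proj1_range hs l v))
  · rw [max_eq_left hkl]
    have e1 := h.proj1_PI_conj hs k (Fil_anti G (by omega) (h.proj1_kernel hs l v))
    rw [Matrix.mulVec_sub, sub_eq_zero] at e1
    exact e1.symm

/-- the range of `PI k` is `F^k` -/
theorem IsPHS.mem_Fil_iff_PI (h : IsPHS w p Q G) (hs : ∀ j, p (s j) = w - p j) (k : ℤ)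
    (v : Fin m → ℂ) : v ∈ Fil p G k ↔ PI p s k G *ᵥ v = v := by
  constructor
  · exact h.proj1_PI_Fil hs k
  · intro e
    rw [← e]
    exact h.proj1_range hs k v

theorem IsPHS.PI_conj (h : IsPHS w p Q G) (hs : ∀ j, p (s j) = w - p j) (k : ℤ) :
    (PI p s k G).map (starRingEnd ℂ) = 1 - PI p s (w + 1 - k) G := by
  apply proj1_ext
  intro v
  have e1 : (PI p s k G).map (starRingEnd ℂ) *ᵥ v = cj (PI p s k G *ᵥ cj v) := by
    rw [hd1_cj_mulVec, hd1_cj_cj]
  rw [e1, Matrix.sub_mulVec, Matrix.one_mulVec]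
  have e2 : PI p s (w + 1 - k) G *ᵥ v = v - cj (PI p s k G *ᵥ cj v) := by
    apply h.proj1_unique hs (w + 1 - k) (b := cj (PI p s k G *ᵥ cj v))
    · have := h.proj1_kernel hs k (cj v)
      have e3 : cj (cj v - PI p s k G *ᵥ cj v) = v - cj (PI p s k G *ᵥ cj v) := by
        funext i; simp [cj]
      rw [e3] at this
      exact this
    · rw [hd1_cj_cj]
      have e4 : w + 1 - (w + 1 - k) = k := by ring
      rw [e4]
      exact h.proj1_range hs k _
    · abel
  rw [e2]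
  abel

/-- the adjoint of `PI k` for `Q` -/
theorem IsPHS.PI_adj (h : IsPHS w p Q G) (hs : ∀ j, p (s j) = w - p j) (k : ℤ) :
    (PI p s k G)ᵀ * cm Q = cm Q * (1 - PI p s (w + 1 - k) G) := by
  have key : ∀ u v : Fin m → ℂ, bil Q (PI p s k G *ᵥ u) v =
      bil Q u ((1 - PI p s (w + 1 - k) G) *ᵥ v) := by
    intro u v
    have e0 : (1 - PI p s (w + 1 - k) G) *ᵥ v = v - PI p s (w + 1 - k) G *ᵥ v := by
      rw [Matrix.sub_mulVec, Matrix.one_mulVec]
    rw [e0]
    set v1 := PI p s (w + 1 - k) G *ᵥ v with hv1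
    set v2 := v - v1 with hv2
    set u1 := PI p s k G *ᵥ u with hu1
    set u2 := u - u1 with hu2
    have hv : v = v1 + v2 := by rw [hv2]; abel
    have hu : u = u1 + u2 := by rw [hu2]; abel
    have m1 : u1 ∈ Fil p G k := h.proj1_range hs k u
    have m2 : cj u2 ∈ Fil p G (w + 1 - k) := h.proj1_kernel hs k u
    have m3 : v1 ∈ Fil p G (w + 1 - k) := h.proj1_range hs (w + 1 - k) v
    have m4 : cj v2 ∈ Fil p G k := by
      have := h.proj1_kernel hs (w + 1 - k) v
      have e4 : w + 1 - (w + 1 - k) = k := by ring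
      rw [e4] at this
      exact this
    have z1 : bil Q u1 v1 = 0 := h.riem k (w + 1 - k) (by omega) u1 m1 v1 m3
    have z2 : bil Q u2 v2 = 0 := by
      have z3 := h.riem (w + 1 - k) k (by omega) (cj u2) m2 (cj v2) m4
      have z4 : bil Q u2 v2 = (starRingEnd ℂ) (bil Q (cj u2) (cj v2)) := by
        simp only [bil, cj, map_sum, map_mul, Complex.conj_ofReal, Complex.conj_conj]
      rw [z4, z3, map_zero]
    have b1 : bil Q u1 v = bil Q u1 v1 + bil Q u1 v2 := by
      conv_lhs => rw [hv]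
      rw [hd1_bil_eq, hd1_bil_eq, hd1_bil_eq, Matrix.mulVec_add, dotProduct_add]
    have b2 : bil Q u v2 = bil Q u1 v2 + bil Q u2 v2 := by
      conv_lhs => rw [hu]
      exact hd1_bil_add_left _ _ _
    rw [b1, b2, z1, z2]
    ring
  apply proj1_ext
  intro v
  funext i
  have e1 := key (Pi.single i 1) v
  rw [hd1_bil_eq, hd1_bil_eq, Matrix.mulVec_mulVec, single_one_dotProduct] at e1
  rw [← e1, ← Matrix.mulVec_mulVec, Matrix.mulVec_single_one]
  rfl

end SP38
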