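import Mathlib

/-! Wirtinger calculus for functions and matrices of functions on open subsets of `ℂ`. -/

open Matrix Complex
open scoped ContDiff

namespace SP38

variable {m : ℕ}

/-- the derivative `∂/∂z` of a real-differentiable function -/
noncomputable def dz (f : ℂ → ℂ) (z : ℂ) : ℂ := (fderiv ℝ f z 1 - I * fderiv ℝ f z I) / 2

/-- the derivative `∂/∂z̄` -/
noncomputable def dzb (f : ℂ → ℂ) (z : ℂ) : ℂ := (fderiv ℝ f z 1 + I * fderiv ℝ f z I) / 2

/-- smooth on `Ω` -/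
def SmS (Ω : Set ℂ) (f : ℂ → ℂ) : Prop := ContDiffOn ℝ ∞ f Ω

/-- entrywise smooth on `Ω` -/
def Sm {α β : Type*} (Ω : Set ℂ) (F : ℂ → Matrix α β ℂ) : Prop :=
  ∀ i j, SmS Ω (fun z => F z i j)

/-- entrywise `∂/∂z` -/
noncomputable def DZ {α β : Type*} (F : ℂ → Matrix α β ℂ) (z : ℂ) : Matrix α β ℂ :=
  Matrix.of fun i j => dz (fun z => F z i j) z

/-- entrywise `∂/∂z̄` -/
noncomputable def DB {α β : Type*} (F : ℂ → Matrix α β ℂ) (z : ℂ) : Matrix α β ℂ :=
  Matrix.of fun i j => dzb (fun z => F z i j) z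

variable {f g : ℂ → ℂ} {z : ℂ} {Ω : Set ℂ}

theorem fderiv_eq_dz (hf : DifferentiableAt ℝ f z) (w : ℂ) :
    fderiv ℝ f z w = dz f z * w + dzb f z * (starRingEnd ℂ) w := by
  have _ := hf
  have h1 : w = w.re • (1 : ℂ) + w.im • I := by
    rw [real_smul, real_smul, mul_one]
    exact (re_add_im w).symm
  have h2 : fderiv ℝ f z w = (w.re : ℂ) * fderiv ℝ f z 1 + (w.im : ℂ) * fderiv ℝ f z I := by
    conv_lhs => rw [h1]
    rw [map_add, map_smul, map_smul, real_smul, real_smul]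
  have h3 : w = w.re + w.im * I := (re_add_im w).symm
  have h4 : (starRingEnd ℂ) w = w.re - w.im * I := by
    conv_lhs => rw [h3]
    rw [map_add, map_mul, conj_ofReal, conj_ofReal, conj_I]
    ring
  rw [h2, h4, dz, dzb]
  conv_rhs => rw [h3]
  simp only [add_re, ofReal_re, mul_re, I_re, mul_zero, ofReal_im, I_im, mul_one, sub_self,
    add_zero, add_im, mul_im, zero_add]
  linear_combination ((w.im : ℂ) * fderiv ℝ f z I) * I_sq

theorem dz_const (c : ℂ) : dz (fun _ => c) z = 0 := by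
  simp [dz]

theorem dzb_const (c : ℂ) : dzb (fun _ => c) z = 0 := by
  simp [dzb]

theorem dz_add (hf : DifferentiableAt ℝ f z) (hg : DifferentiableAt ℝ g z) :
    dz (fun z => f z + g z) z = dz f z + dz g z := by
  rw [dz, dz, dz, fderiv_fun_add hf hg]
  simp only [_root_.add_apply]
  ring

theorem dzb_add (hf : DifferentiableAt ℝ f z) (hg : DifferentiableAt ℝ g z) :
    dzb (fun z => f z + g z) z = dzb f z + dzb g z := by
  rw [dzb, dzb, dzb, fderiv_fun_add hf hg]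
  simp only [_root_.add_apply]
  ring

theorem dz_mul (hf : DifferentiableAt ℝ f z) (hg : DifferentiableAt ℝ g z) :
    dz (fun z => f z * g z) z = dz f z * g z + f z * dz g z := by
  rw [dz, dz, dz, fderiv_fun_mul hf hg]
  simp only [_root_.add_apply, _root_.smul_apply, smul_eq_mul]
  ring

theorem dzb_mul (hf : DifferentiableAt ℝ f z) (hg : DifferentiableAt ℝ g z) :
    dzb (fun z => f z * g z) z = dzb f z * g z + f z * dzb g z := by
  rw [dzb, dzb, dzb, fderiv_fun_mul hf hg]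
  simp only [_root_.add_apply, _root_.smul_apply, smul_eq_mul]
  ring

private theorem WirtS_fderiv_conj (hf : DifferentiableAt ℝ f z) (w : ℂ) :
    fderiv ℝ (fun z => (starRingEnd ℂ) (f z)) z w = (starRingEnd ℂ) (fderiv ℝ f z w) := by
  have h1 : HasFDerivAt (fun z => (starRingEnd ℂ) (f z))
      ((conjCLE : ℂ →L[ℝ] ℂ).comp (fderiv ℝ f z)) z :=
    (conjCLE : ℂ →L[ℝ] ℂ).hasFDerivAt.comp z hf.hasFDerivAt
  rw [h1.fderiv]
  rfl

theorem dz_conj (hf : DifferentiableAt ℝ f z) :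
    dz (fun z => (starRingEnd ℂ) (f z)) z = (starRingEnd ℂ) (dzb f z) := by
  rw [dz, dzb, WirtS_fderiv_conj hf, WirtS_fderiv_conj hf, map_div₀, map_add, map_mul, conj_I,
    map_ofNat]
  ring

theorem dzb_conj (hf : DifferentiableAt ℝ f z) :
    dzb (fun z => (starRingEnd ℂ) (f z)) z = (starRingEnd ℂ) (dz f z) := by
  rw [dz, dzb, WirtS_fderiv_conj hf, WirtS_fderiv_conj hf, map_div₀, map_sub, map_mul, conj_I,
    map_ofNat]
  ring

private theorem WirtS_fderiv_holo (hf : DifferentiableAt ℂ f z) (w : ℂ) :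
    fderiv ℝ f z w = w * deriv f z := by
  have h1 := (hf.hasFDerivAt.restrictScalars ℝ).fderiv
  rw [h1]
  change fderiv ℂ f z w = _
  rw [fderiv_eq_smul_deriv, smul_eq_mul]

theorem dz_of_holo (hf : DifferentiableAt ℂ f z) : dz f z = deriv f z := by
  rw [dz, WirtS_fderiv_holo hf, WirtS_fderiv_holo hf]
  linear_combination (-(deriv f z) / 2) * I_sq

theorem dzb_of_holo (hf : DifferentiableAt ℂ f z) : dzb f z = 0 := by
  rw [dzb, WirtS_fderiv_holo hf, WirtS_fderiv_holo hf]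
  linear_combination ((deriv f z) / 2) * I_sq

theorem dz_congr (h : f =ᶠ[nhds z] g) : dz f z = dz g z := by
  rw [dz, dz, h.fderiv_eq]

theorem dzb_congr (h : f =ᶠ[nhds z] g) : dzb f z = dzb g z := by
  rw [dzb, dzb, h.fderiv_eq]

theorem SmS.differentiableAt (hΩ : IsOpen Ω) (hf : SmS Ω f) (hz : z ∈ Ω) :
    DifferentiableAt ℝ f z :=
  (ContDiffOn.contDiffAt hf (hΩ.mem_nhds hz)).differentiableAt (by simp)

private theorem WirtS_fderiv_smooth (hΩ : IsOpen Ω) (hf : SmS Ω f) (w : ℂ) :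
    SmS Ω (fun z => fderiv ℝ f z w) := by
  have h1 : ContDiffOn ℝ ∞ (fderiv ℝ f) Ω :=
    ContDiffOn.fderiv_of_isOpen hf hΩ (by simp)
  exact h1.clm_apply contDiffOn_const

theorem SmS.dz (hΩ : IsOpen Ω) (hf : SmS Ω f) : SmS Ω (SP38.dz f) := by
  have h1 := WirtS_fderiv_smooth hΩ hf 1
  have h2 := WirtS_fderiv_smooth hΩ hf I
  exact (ContDiffOn.sub h1 (contDiffOn_const.mul h2)).div_const 2

theorem SmS.dzb (hΩ : IsOpen Ω) (hf : SmS Ω f) : SmS Ω (SP38.dzb f) := by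
  have h1 := WirtS_fderiv_smooth hΩ hf 1
  have h2 := WirtS_fderiv_smooth hΩ hf I
  exact (ContDiffOn.add h1 (contDiffOn_const.mul h2)).div_const 2

private theorem WirtS_snd (hΩ : IsOpen Ω) (hf : SmS Ω f) (hz : z ∈ Ω) (v w : ℂ) :
    fderiv ℝ (fun z => fderiv ℝ f z w) z v = fderiv ℝ (fun z => fderiv ℝ f z v) z w := by
  have h0 : ContDiffAt ℝ ∞ f z := ContDiffOn.contDiffAt hf (hΩ.mem_nhds hz)
  have h1 : IsSymmSndFDerivAt ℝ f z := h0.isSymmSndFDerivAt (by
    rw [minSmoothness_of_isRCLikeNormedField]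
    exact WithTop.coe_le_coe.2 (le_top (a := (2 : ℕ∞))))
  have h2 : ContDiffOn ℝ ∞ (fderiv ℝ f) Ω :=
    ContDiffOn.fderiv_of_isOpen hf hΩ (by simp)
  have h3 : DifferentiableAt ℝ (fderiv ℝ f) z :=
    (h2.contDiffAt (hΩ.mem_nhds hz)).differentiableAt (by simp)
  have h4 : ∀ a b : ℂ, fderiv ℝ (fun z => fderiv ℝ f z a) z b =
      fderiv ℝ (fderiv ℝ f) z b a := by
    intro a b
    rw [fderiv_clm_apply h3 (differentiableAt_const a)]
    simp
  rw [h4, h4]
  exact h1 v w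

/-- commutation -/
theorem SmS.dz_dzb (hΩ : IsOpen Ω) (hf : SmS Ω f) (hz : z ∈ Ω) :
    SP38.dz (SP38.dzb f) z = SP38.dzb (SP38.dz f) z := by
  have h1 := (WirtS_fderiv_smooth hΩ hf 1).differentiableAt hΩ hz
  have h2 := (WirtS_fderiv_smooth hΩ hf I).differentiableAt hΩ hz
  have h3 := WirtS_snd hΩ hf hz 1 I
  have h4 : ∀ v : ℂ, fderiv ℝ (SP38.dzb f) z v =
      (fderiv ℝ (fun z => fderiv ℝ f z 1) z v + I * fderiv ℝ (fun z => fderiv ℝ f z I) z v) / 2 := by
    intro v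
    have h5 : HasFDerivAt (SP38.dzb f)
        ((2 : ℂ)⁻¹ • (fderiv ℝ (fun z => fderiv ℝ f z 1) z +
          I • fderiv ℝ (fun z => fderiv ℝ f z I) z)) z := by
      have h6 := (h1.hasFDerivAt.add (h2.hasFDerivAt.const_mul I)).const_mul (2 : ℂ)⁻¹
      refine h6.congr_of_eventuallyEq (Filter.Eventually.of_forall fun u => ?_)
      rw [SP38.dzb, div_eq_inv_mul]
      rfl
    rw [h5.fderiv]
    simp only [_root_.smul_apply, _root_.add_apply, smul_eq_mul]
    ring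
  have h7 : ∀ v : ℂ, fderiv ℝ (SP38.dz f) z v =
      (fderiv ℝ (fun z => fderiv ℝ f z 1) z v - I * fderiv ℝ (fun z => fderiv ℝ f z I) z v) / 2 := by
    intro v
    have h5 : HasFDerivAt (SP38.dz f)
        ((2 : ℂ)⁻¹ • (fderiv ℝ (fun z => fderiv ℝ f z 1) z -
          I • fderiv ℝ (fun z => fderiv ℝ f z I) z)) z := by
      have h6 := (h1.hasFDerivAt.sub (h2.hasFDerivAt.const_mul I)).const_mul (2 : ℂ)⁻¹
      refine h6.congr_of_eventuallyEq (Filter.Eventually.of_forall fun u => ?_)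
      rw [SP38.dz, div_eq_inv_mul]
      rfl
    rw [h5.fderiv]
    simp only [_root_.smul_apply, _root_.sub_apply, smul_eq_mul]
    ring
  rw [show SP38.dz (SP38.dzb f) z =
      (fderiv ℝ (SP38.dzb f) z 1 - I * fderiv ℝ (SP38.dzb f) z I) / 2 from rfl,
    show SP38.dzb (SP38.dz f) z =
      (fderiv ℝ (SP38.dz f) z 1 + I * fderiv ℝ (SP38.dz f) z I) / 2 from rfl,
    h4, h4, h7, h7, h3]
  ring

theorem SmS.of_holo (hΩ : IsOpen Ω) (hf : DifferentiableOn ℂ f Ω) : SmS Ω f := by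
  have h1 : ContDiffOn ℂ ∞ f Ω := hf.contDiffOn hΩ
  exact h1.restrict_scalars ℝ

end SP38
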